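import Pool.Agent.Lib.KExp.Defs

/-!
# KExp.CE (MP_0d5e35_al, paper /team-store/MP_0d5e35_al_paper38.md)

The canonical element `∑ eᵢ ⊗ e^i` of `H ⊗ H*`.
PROOFS. sum_ec, sum_e: `Basis.sum_repr`, `Basis.sum_dual_apply_smul_coord`. ce_ext (THE tool): write
`a t = ∑ i, ec i (a t) • e i`?? better: `f t = ∑ i, f t (e i) • ec i` (sum_e), so by linearity
`∑ t, G (a t) (f t) = ∑ i, ∑ t, f t (e i) • G (a t) (ec i) = ∑ i, G (∑ t, f t (e i) • a t) (ec i)`.
ce_lin: ce_ext, or direct: both sides are `∑ i j, ec j (A (e i)) • G (e j) (ec i)`.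
ce_cv: `cv (ec i) (ec j) = ∑ l, (cv (ec i) (ec j)) (e l) • ec l` and
`∑ i j, (cv (ec i) (ec j)) (e l) • F(e i, e j) = F((e l)₁, (e l)₂)`, because
`x₁ ⊗ x₂ = ∑ i j, e^i(x₁) e^j(x₂) eᵢ ⊗ eⱼ`; here `D j x = e^j(x₁) x₂` so `(cv (ec i) (ec j)) x = ec j (D i x)`
(this is cv_ec). ce_eval: sum_e again.
-/

set_option autoImplicit false

open scoped TensorProduct

namespace Pool.Agent.KExp

variable {k : Type} [Field k] {H : Type} [Ring H] [HopfAlgebra k H] [FiniteDimensional k H]
variable {Z : Type} [AddCommGroup Z] [Module k Z]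

private theorem lin_sum {M N : Type} [AddCommGroup M] [Module k M] [AddCommGroup N] [Module k N]
    {F : M → N} (hF : IsLinearMap k F) {ι : Type} (s : Finset ι) (c : ι → k) (v : ι → M) :
    F (∑ i ∈ s, c i • v i) = ∑ i ∈ s, c i • F (v i) := by
  have h := map_sum (hF.mk' F) (fun i => c i • v i) s
  simp only [IsLinearMap.mk'_apply] at h
  rw [h]
  exact Finset.sum_congr rfl fun i _ => hF.map_smul _ _

theorem sum_ec (x : H) : ∑ i, ec k H i x • e k H i = x := by
  exact (Module.finBasis k H).sum_repr x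

theorem sum_e (f : H →ₗ[k] k) : ∑ i, f (e k H i) • ec k H i = f := by
  ext x
  rw [LinearMap.sum_apply]
  have h := congrArg f (sum_ec (k := k) x)
  rw [map_sum] at h
  rw [← h]
  refine Finset.sum_congr rfl fun i _ => ?_
  rw [LinearMap.smul_apply, map_smul, smul_eq_mul, smul_eq_mul, mul_comm]

theorem ec_e (i j : Fin (Module.finrank k H)) :
    ec k H i (e k H j) = if i = j then 1 else 0 := by
  unfold ec e
  rw [Module.Basis.coord_apply, Module.Basis.repr_self, Finsupp.single_apply]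
  by_cases hij : i = j
  · subst hij; simp
  · rw [if_neg (Ne.symm hij), if_neg hij]

theorem cv_ec (f : H →ₗ[k] k) (i : Fin (Module.finrank k H)) (x : H) :
    cv (ec k H i) f x = f (D k H i x) := by
  have key : ∀ t : H ⊗[k] H, LinearMap.mul' k k (TensorProduct.map (ec k H i) f t) =
      f (TensorProduct.lid k H ((ec k H i).rTensor H t)) := by
    intro t
    induction t with
    | zero => simp
    | tmul a b => simp
    | add a b ha hb => rw [map_add, map_add, ha, hb, map_add, map_add, map_add]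
  exact key _

theorem cv_apply (f g : H →ₗ[k] k) (x : H) : cv f g x = sw2 k (fun a b => f a * g b) x := by
  have h1 : sw2 k (fun a b => f a * g b) x = ∑ j, f (e k H j) * cv (ec k H j) g x := by
    unfold sw2
    exact Finset.sum_congr rfl fun j _ => by rw [cv_ec]
  rw [h1]
  have key : ∀ t : H ⊗[k] H, LinearMap.mul' k k (TensorProduct.map f g t) =
      ∑ j, f (e k H j) * LinearMap.mul' k k (TensorProduct.map (ec k H j) g t) := by
    intro t
    induction t with
    | zero => simp
    | tmul a b =>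
      simp only [TensorProduct.map_tmul, LinearMap.mul'_apply]
      have h2 := congrArg (fun q : H →ₗ[k] k => q a) (sum_e (k := k) f)
      simp only [LinearMap.sum_apply, LinearMap.smul_apply, smul_eq_mul] at h2
      rw [← h2, Finset.sum_mul]
      refine Finset.sum_congr rfl fun j _ => ?_
      rw [mul_assoc]
    | add a b ha hb =>
      rw [map_add, map_add, ha, hb, ← Finset.sum_add_distrib]
      refine Finset.sum_congr rfl fun j _ => ?_
      rw [map_add, map_add, mul_add]
  exact key _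

theorem tw_apply (f : H →ₗ[k] k) (a c x : H) : tw f a c x = f (a * (x * c)) := by
  rfl

/-- the tool: a sum over `H ⊗ H*` is determined by the linear map `H → H` it defines -/
theorem ce_ext {ι : Type} (T : Finset ι) (a : ι → H) (f : ι → (H →ₗ[k] k)) (φ : H →ₗ[k] H)
    (h : ∀ x, ∑ t ∈ T, f t x • a t = φ x) {G : H → (H →ₗ[k] k) → Z}
    (hG1 : ∀ f, IsLinearMap k (fun a => G a f)) (hG2 : ∀ a, IsLinearMap k (fun f => G a f)) :
    ∑ t ∈ T, G (a t) (f t) = ∑ i, G (φ (e k H i)) (ec k H i) := by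
  have h1 : ∀ t, G (a t) (f t) = ∑ i, f t (e k H i) • G (a t) (ec k H i) := by
    intro t
    have h2 := lin_sum (hG2 (a t)) Finset.univ (fun i => f t (e k H i)) (fun i => ec k H i)
    rw [sum_e] at h2
    exact h2
  have h3 : ∀ i, G (φ (e k H i)) (ec k H i) = ∑ t ∈ T, f t (e k H i) • G (a t) (ec k H i) := by
    intro i
    rw [← h]
    exact lin_sum (hG1 (ec k H i)) T (fun t => f t (e k H i)) a
  simp only [h1, h3]
  exact Finset.sum_comm

theorem ce_lin (A : H →ₗ[k] H) {G : H → (H →ₗ[k] k) → Z}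
    (hG1 : ∀ f, IsLinearMap k (fun a => G a f)) (hG2 : ∀ a, IsLinearMap k (fun f => G a f)) :
    ∑ i, G (e k H i) (ec k H i ∘ₗ A) = ∑ i, G (A (e k H i)) (ec k H i) := by
  refine ce_ext Finset.univ (fun i => e k H i) (fun i => ec k H i ∘ₗ A) A (fun x => ?_) hG1 hG2
  exact sum_ec (A x)

theorem ce_cv {G : H → H → (H →ₗ[k] k) → Z}
    (hG1 : ∀ b f, IsLinearMap k (fun a => G a b f)) (hG2 : ∀ a f, IsLinearMap k (fun b => G a b f))
    (hG3 : ∀ a b, IsLinearMap k (fun f => G a b f)) :
    ∑ i, ∑ j, G (e k H i) (e k H j) (cv (ec k H i) (ec k H j)) =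
      ∑ i, sw2 k (fun a b => G a b (ec k H i)) (e k H i) := by
  have h1 : ∀ i, ∑ j, G (e k H i) (e k H j) (cv (ec k H i) (ec k H j)) =
      ∑ l, G (e k H i) (D k H i (e k H l)) (ec k H l) := by
    intro i
    refine ce_ext Finset.univ (fun j => e k H j) (fun j => cv (ec k H i) (ec k H j)) (D k H i)
      (fun x => ?_) (G := fun b f => G (e k H i) b f) (fun f => hG2 _ f) (fun b => hG3 _ b)
    simp only [cv_ec]
    exact sum_ec _
  simp only [h1]
  unfold sw2
  exact Finset.sum_comm

theorem ce_mul {G : (H →ₗ[k] k) → (H →ₗ[k] k) → H → Z}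
    (hG1 : ∀ g a, IsLinearMap k (fun f => G f g a)) (hG2 : ∀ f a, IsLinearMap k (fun g => G f g a))
    (hG3 : ∀ f g, IsLinearMap k (fun a => G f g a)) :
    ∑ l, ∑ i, ∑ j, ec k H l (e k H i * e k H j) • G (ec k H i) (ec k H j) (e k H l) =
      ∑ i, ∑ j, G (ec k H i) (ec k H j) (e k H i * e k H j) := by
  rw [Finset.sum_comm]
  refine Finset.sum_congr rfl fun i _ => ?_
  rw [Finset.sum_comm]
  refine Finset.sum_congr rfl fun j _ => ?_
  have h := lin_sum (hG3 (ec k H i) (ec k H j)) Finset.univ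
    (fun l => ec k H l (e k H i * e k H j)) (fun l => e k H l)
  rw [sum_ec] at h
  exact h.symm

end Pool.Agent.KExp
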