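import Pool.Agent.Lib.KExp.Defs

/-!
# KExp.Sw (MP_0d5e35_al, paper /team-store/MP_0d5e35_al_paper38.md)

Sweedler calculus: the tool box of all other modules. `sw2 k F h = ∑ F h₁ h₂` is defined through a
basis, `Δ(h) = ∑ⱼ eⱼ ⊗ D j h`.
PROOFS. sw2_eq_lift: `Δ(h) = ∑ⱼ eⱼ ⊗ D j h` (expand the first tensor factor in the basis:
`t = ∑ⱼ eⱼ ⊗ (lid ((coord j) ⊗ id) t)` for every `t`, check on pure tensors) and apply `lift B`.
sw2_repr: build the bilinear map from `hF` with `LinearMap.mk₂`, use sw2_eq_lift and `r.eq`.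
sw2_linear: the same (`lift B ∘ Δ` is linear). sw3_eq is `rfl`. sw2_assoc: both sides are
the trilinear map of `F` applied to `(Δ ⊗ id)Δ(h)`, `(id ⊗ Δ)Δ(h)` (`Coalgebra.coassoc`, or
`Coalgebra.sum_tmul_tmul_eq` with representations). sw2_counit_left/right: `Coalgebra.sum_counit_smul`,
`rTensor_counit_comul`. sw2_mul: `Bialgebra.comul_mul`. sw2_one: `Bialgebra.comul_one`.
sw2_S_mul, sw2_mul_S: `HopfAlgebra.sum_antipode_mul_eq_smul` etc. sw2_Sa: the antipode is an
anti-coalgebra map: in the convolution algebra of maps `H → H ⊗ H` both `Δ ∘ S` and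
`(S ⊗ S) ∘ comm ∘ Δ` are inverse to `Δ` (Mathlib has `LinearMap.comul_right_inv`; the other one is
`h₁ S(h₄) ⊗ h₂ S(h₃)`, or left inverse `S(h₂)h₃ ⊗ S(h₁)h₄`).
The primed versions use `S(S x) = x`: `h₂ S(h₁) = S(S(h₂)) S(h₁)... = S(h₁ S(h₂))` by
`HopfAlgebra.antipode_mul_antidistrib`; similarly `S(h₂) h₁ = S(S(h₁) h₂)`.
-/

set_option autoImplicit false

open scoped TensorProduct

namespace Pool.Agent.KExp

variable {k : Type} [Field k] {H : Type} [Ring H] [HopfAlgebra k H] [FiniteDimensional k H]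
variable {Z : Type} [AddCommGroup Z] [Module k Z]

theorem sw2_eq_lift (B : H →ₗ[k] H →ₗ[k] Z) (h : H) :
    sw2 k (fun a b => B a b) h = TensorProduct.lift B (Coalgebra.comul (R := k) h) := by
  have key : ∀ t : H ⊗[k] H, ∑ j, B (e k H j) (TensorProduct.lid k H ((ec k H j).rTensor H t)) =
      TensorProduct.lift B t := by
    intro t
    induction t using TensorProduct.induction_on with
    | zero => simp
    | tmul x y =>
      simp only [LinearMap.rTensor_tmul, TensorProduct.lid_tmul, TensorProduct.lift.tmul]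
      have h1 : ∑ j, ec k H j x • e k H j = x := (Module.finBasis k H).sum_repr x
      conv_rhs => rw [← h1]
      simp only [map_sum, map_smul, LinearMap.sum_apply, LinearMap.smul_apply]
    | add x y hx hy =>
      rw [map_add, ← hx, ← hy, ← Finset.sum_add_distrib]
      refine Finset.sum_congr rfl fun j _ => ?_
      rw [map_add, map_add, map_add]
  exact key _

private theorem comul_eq (h : H) :
    Coalgebra.comul (R := k) h = ∑ j, e k H j ⊗ₜ[k] D k H j h := by
  have h1 := sw2_eq_lift (TensorProduct.mk k H H) h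
  have h2 : TensorProduct.lift (TensorProduct.mk k H H) = LinearMap.id := by
    ext a b
    simp
  rw [h2] at h1
  exact h1.symm

/-- the bilinear map of a `Bil2` function -/
private noncomputable def bl {F : H → H → Z} (hF : Bil2 k F) : H →ₗ[k] H →ₗ[k] Z :=
  LinearMap.mk₂ k F (fun a a' b => (hF.1 b).map_add a a') (fun c a b => (hF.1 b).map_smul c a)
    (fun a b b' => (hF.2 a).map_add b b') (fun c a b => (hF.2 a).map_smul c b)

private theorem bl_apply {F : H → H → Z} (hF : Bil2 k F) (a b : H) : bl hF a b = F a b := rfl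

private theorem sw2_bl {F : H → H → Z} (hF : Bil2 k F) (h : H) :
    sw2 k F h = TensorProduct.lift (bl hF) (Coalgebra.comul (R := k) h) :=
  sw2_eq_lift (bl hF) h

private theorem sw2_param {P : Type} [AddCommGroup P] [Module k P] {F : P → H → H → Z}
    (hF : ∀ a b, IsLinearMap k (fun p => F p a b)) (h : H) :
    IsLinearMap k (fun p => sw2 k (F p) h) := by
  constructor
  · intro x y
    simp only [sw2]
    rw [← Finset.sum_add_distrib]
    exact Finset.sum_congr rfl fun j _ => (hF _ _).map_add x y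
  · intro c x
    simp only [sw2]
    rw [Finset.smul_sum]
    exact Finset.sum_congr rfl fun j _ => (hF _ _).map_smul c x

private theorem lin_comp {P Q : Type} [AddCommGroup P] [Module k P] [AddCommGroup Q] [Module k Q]
    {f : Q → Z} (hf : IsLinearMap k f) {g : P → Q} (hg : IsLinearMap k g) :
    IsLinearMap k (fun p => f (g p)) := by
  constructor
  · intro x y
    rw [hg.map_add, hf.map_add]
  · intro c x
    rw [hg.map_smul, hf.map_smul]

private theorem lin_of {P Q : Type} [AddCommGroup P] [Module k P] [AddCommGroup Q] [Module k Q]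
    (f : P →ₗ[k] Q) : IsLinearMap k (fun p => f p) := f.isLinear

theorem sw2_repr {F : H → H → Z} (hF : Bil2 k F) (h : H) {ι : Type} (r : Coalgebra.Repr k h ι) :
    sw2 k F h = ∑ i ∈ r.index, F (r.left i) (r.right i) := by
  rw [sw2_bl hF, ← r.eq, map_sum]
  exact Finset.sum_congr rfl fun i _ => rfl

theorem sw2_linear {F : H → H → Z} (hF : Bil2 k F) : IsLinearMap k (fun h => sw2 k F h) := by
  constructor
  · intro x y
    simp only [sw2_bl hF, map_add]
  · intro c x
    simp only [sw2_bl hF, map_smul]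

theorem sw3_eq {Z : Type} [AddCommMonoid Z] (F : H → H → H → Z) (h : H) :
    sw3 k F h = sw2 k (fun a y => sw2 k (fun b c => F a b c) y) h := rfl

theorem sw2_assoc {F : H → H → H → Z} (hF : Tri3 k F) (h : H) :
    sw2 k (fun x c => sw2 k (fun a b => F a b c) x) h = sw3 k F h := by
  have hab : ∀ c, Bil2 k (fun a b => F a b c) := fun c =>
    ⟨fun b => hF.1 b c, fun a => hF.2.1 a c⟩
  have hbc : ∀ a, Bil2 k (fun b c => F a b c) := fun a =>
    ⟨fun c => hF.2.1 a c, fun b => hF.2.2 a b⟩
  have hG : Bil2 k (fun x c => sw2 k (fun a b => F a b c) x) :=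
    ⟨fun c => sw2_linear (hab c), fun x =>
      sw2_param (F := fun c a b => F a b c) (fun a b => hF.2.2 a b) x⟩
  have hG' : Bil2 k (fun a y => sw2 k (fun b c => F a b c) y) :=
    ⟨fun y => sw2_param (F := fun a b c => F a b c) (fun b c => hF.1 b c) y,
      fun a => sw2_linear (hbc a)⟩
  let T3 : H →ₗ[k] H →ₗ[k] H →ₗ[k] Z := LinearMap.mk₂ k
    (fun a b => (hF.2.2 a b).mk' (fun c => F a b c))
    (fun a a' b => by ext c; exact (hF.1 b c).map_add a a')
    (fun c a b => by ext d; exact (hF.1 b d).map_smul c a)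
    (fun a b b' => by ext c; exact (hF.2.1 a c).map_add b b')
    (fun c a b => by ext d; exact (hF.2.1 a d).map_smul c b)
  have hT3 : ∀ a b c, T3 a b c = F a b c := fun _ _ _ => rfl
  let L3 : H ⊗[k] (H ⊗[k] H) →ₗ[k] Z :=
    TensorProduct.lift ((TensorProduct.uncurry (RingHom.id k) H H Z) ∘ₗ T3)
  have hL3 : ∀ a b c, L3 (a ⊗ₜ[k] (b ⊗ₜ[k] c)) = F a b c := fun _ _ _ => rfl
  have e1 : TensorProduct.lift (bl hG) = L3 ∘ₗ (TensorProduct.assoc k H H H).toLinearMap ∘ₗ
      (Coalgebra.comul (R := k) (A := H)).rTensor H := by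
    apply TensorProduct.ext'
    intro x c
    rw [TensorProduct.lift.tmul, bl_apply, sw2_bl (hab c)]
    simp only [LinearMap.coe_comp, Function.comp_apply, LinearMap.rTensor_tmul,
      LinearEquiv.coe_coe]
    generalize Coalgebra.comul (R := k) x = t
    induction t using TensorProduct.induction_on with
    | zero => simp
    | tmul a b =>
      rw [TensorProduct.assoc_tmul, hL3, TensorProduct.lift.tmul, bl_apply]
    | add t t' ht ht' =>
      rw [map_add, ht, ht', TensorProduct.add_tmul, map_add, map_add]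
  have e2 : TensorProduct.lift (bl hG') = L3 ∘ₗ (Coalgebra.comul (R := k) (A := H)).lTensor H := by
    apply TensorProduct.ext'
    intro a y
    rw [TensorProduct.lift.tmul, bl_apply, sw2_bl (hbc a)]
    simp only [LinearMap.coe_comp, Function.comp_apply, LinearMap.lTensor_tmul]
    generalize Coalgebra.comul (R := k) y = t
    induction t using TensorProduct.induction_on with
    | zero => simp
    | tmul b c =>
      rw [hL3, TensorProduct.lift.tmul, bl_apply]
    | add t t' ht ht' =>
      rw [map_add, ht, ht', TensorProduct.tmul_add, map_add]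
  rw [sw3_eq, sw2_bl hG, sw2_bl hG', e1, e2]
  simp only [LinearMap.coe_comp, Function.comp_apply, LinearEquiv.coe_coe]
  rw [Coalgebra.coassoc_apply]

theorem sw2_counit_left {f : H → Z} (hf : IsLinearMap k f) (h : H) :
    sw2 k (fun a b => ep k H a • f b) h = f h := by
  have hF : Bil2 k (fun a b => ep k H a • f b) := by
    refine ⟨fun b => ⟨fun x y => ?_, fun c x => ?_⟩, fun a => ⟨fun x y => ?_, fun c x => ?_⟩⟩
    all_goals beta_reduce
    · rw [map_add, add_smul]
    · rw [map_smul, smul_eq_mul, mul_smul]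
    · rw [hf.map_add, smul_add]
    · rw [hf.map_smul, smul_comm]
  have e1 : TensorProduct.lift (bl hF) = (hf.mk' f) ∘ₗ (TensorProduct.lid k H).toLinearMap ∘ₗ
      (Coalgebra.counit (R := k) (A := H)).rTensor H := by
    apply TensorProduct.ext'
    intro a b
    rw [TensorProduct.lift.tmul, bl_apply]
    simp only [LinearMap.coe_comp, Function.comp_apply, LinearMap.rTensor_tmul,
      LinearEquiv.coe_coe, TensorProduct.lid_tmul, IsLinearMap.mk'_apply]
    rw [hf.map_smul]
  rw [sw2_bl hF, e1]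
  simp only [LinearMap.coe_comp, Function.comp_apply, LinearEquiv.coe_coe,
    Coalgebra.rTensor_counit_comul, TensorProduct.lid_tmul, one_smul, IsLinearMap.mk'_apply]

theorem sw2_counit_right {f : H → Z} (hf : IsLinearMap k f) (h : H) :
    sw2 k (fun a b => ep k H b • f a) h = f h := by
  have hF : Bil2 k (fun a b => ep k H b • f a) := by
    refine ⟨fun b => ⟨fun x y => ?_, fun c x => ?_⟩, fun a => ⟨fun x y => ?_, fun c x => ?_⟩⟩
    all_goals beta_reduce
    · rw [hf.map_add, smul_add]
    · rw [hf.map_smul, smul_comm]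
    · rw [map_add, add_smul]
    · rw [map_smul, smul_eq_mul, mul_smul]
  have e1 : TensorProduct.lift (bl hF) = (hf.mk' f) ∘ₗ (TensorProduct.rid k H).toLinearMap ∘ₗ
      (Coalgebra.counit (R := k) (A := H)).lTensor H := by
    apply TensorProduct.ext'
    intro a b
    rw [TensorProduct.lift.tmul, bl_apply]
    simp only [LinearMap.coe_comp, Function.comp_apply, LinearMap.lTensor_tmul,
      LinearEquiv.coe_coe, TensorProduct.rid_tmul, IsLinearMap.mk'_apply]
    rw [hf.map_smul]
  rw [sw2_bl hF, e1]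
  simp only [LinearMap.coe_comp, Function.comp_apply, LinearEquiv.coe_coe,
    Coalgebra.lTensor_counit_comul, TensorProduct.rid_tmul, one_smul, IsLinearMap.mk'_apply]

theorem sw2_mul {F : H → H → Z} (hF : Bil2 k F) (g h : H) :
    sw2 k F (g * h) = sw2 k (fun a a' => sw2 k (fun b b' => F (a * b) (a' * b')) h) g := by
  rw [sw2_bl hF, Bialgebra.comul_mul, comul_eq g, comul_eq h, Finset.sum_mul, map_sum]
  refine Finset.sum_congr rfl fun j _ => ?_
  rw [Finset.mul_sum, map_sum]
  refine Finset.sum_congr rfl fun l _ => ?_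
  rw [Algebra.TensorProduct.tmul_mul_tmul, TensorProduct.lift.tmul, bl_apply]

theorem sw2_one {F : H → H → Z} (hF : Bil2 k F) : sw2 k F (1 : H) = F 1 1 := by
  rw [sw2_bl hF, Bialgebra.comul_one, Algebra.TensorProduct.one_def, TensorProduct.lift.tmul,
    bl_apply]

private theorem S_mul {f : H → Z} (hf : IsLinearMap k f) (h : H) :
    sw2 k (fun a b => f (Sa k H a * b)) h = ep k H h • f 1 := by
  have hF : Bil2 k (fun a b => f (Sa k H a * b)) := by
    refine ⟨fun b => ⟨fun x y => ?_, fun c x => ?_⟩, fun a => ⟨fun x y => ?_, fun c x => ?_⟩⟩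
    all_goals beta_reduce
    · rw [map_add, add_mul, hf.map_add]
    · rw [map_smul, smul_mul_assoc, hf.map_smul]
    · rw [mul_add, hf.map_add]
    · rw [mul_smul_comm, hf.map_smul]
  have e1 : TensorProduct.lift (bl hF) = (hf.mk' f) ∘ₗ (LinearMap.mul' k H) ∘ₗ
      (HopfAlgebra.antipode k (A := H)).rTensor H := by
    apply TensorProduct.ext'
    intro a b
    rfl
  rw [sw2_bl hF, e1]
  simp only [LinearMap.coe_comp, Function.comp_apply,
    HopfAlgebra.mul_antipode_rTensor_comul_apply, IsLinearMap.mk'_apply]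
  rw [Algebra.algebraMap_eq_smul_one, hf.map_smul]

private theorem mul_S {f : H → Z} (hf : IsLinearMap k f) (h : H) :
    sw2 k (fun a b => f (a * Sa k H b)) h = ep k H h • f 1 := by
  have hF : Bil2 k (fun a b => f (a * Sa k H b)) := by
    refine ⟨fun b => ⟨fun x y => ?_, fun c x => ?_⟩, fun a => ⟨fun x y => ?_, fun c x => ?_⟩⟩
    all_goals beta_reduce
    · rw [add_mul, hf.map_add]
    · rw [smul_mul_assoc, hf.map_smul]
    · rw [map_add, mul_add, hf.map_add]
    · rw [map_smul, mul_smul_comm, hf.map_smul]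
  have e1 : TensorProduct.lift (bl hF) = (hf.mk' f) ∘ₗ (LinearMap.mul' k H) ∘ₗ
      (HopfAlgebra.antipode k (A := H)).lTensor H := by
    apply TensorProduct.ext'
    intro a b
    rfl
  rw [sw2_bl hF, e1]
  simp only [LinearMap.coe_comp, Function.comp_apply,
    HopfAlgebra.mul_antipode_lTensor_comul_apply, IsLinearMap.mk'_apply]
  rw [Algebra.algebraMap_eq_smul_one, hf.map_smul]

/-- `Q(h) = S(h₂) ⊗ S(h₁)` -/
private noncomputable def QQ (h : H) : H ⊗[k] H :=
  sw2 k (fun x y => Sa k H y ⊗ₜ[k] Sa k H x) h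

private theorem QQ_bil : Bil2 k (fun x y : H => Sa k H y ⊗ₜ[k] Sa k H x) := by
  refine ⟨fun b => ⟨fun x y => ?_, fun c x => ?_⟩, fun a => ⟨fun x y => ?_, fun c x => ?_⟩⟩
  all_goals beta_reduce
  · rw [map_add, TensorProduct.tmul_add]
  · rw [map_smul, TensorProduct.tmul_smul]
  · rw [map_add, TensorProduct.add_tmul]
  · rw [map_smul, ← TensorProduct.smul_tmul']

private theorem QQ_lin : IsLinearMap k (fun h : H => QQ (k := k) h) := sw2_linear QQ_bil

/-- `Q(h₁) Δ(h₂) = ε(h)` -/
private theorem QQ_mul (h : H) :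
    sw2 k (fun a b => QQ (k := k) a * Coalgebra.comul (R := k) b) h =
      ep k H h • (1 : H ⊗[k] H) := by
  -- expand
  have t1 : ∀ a b : H, QQ (k := k) a * Coalgebra.comul (R := k) b =
      sw2 k (fun x y => sw2 k (fun z w => (Sa k H y * z) ⊗ₜ[k] (Sa k H x * w)) b) a := by
    intro a b
    rw [comul_eq b]
    simp only [QQ, sw2]
    rw [Finset.sum_mul]
    refine Finset.sum_congr rfl fun j _ => ?_
    rw [Finset.mul_sum]
    refine Finset.sum_congr rfl fun l _ => ?_
    rw [Algebra.TensorProduct.tmul_mul_tmul]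
  have zw : ∀ x y : H, Bil2 k (fun z w : H => (Sa k H y * z) ⊗ₜ[k] (Sa k H x * w)) := by
    intro x y
    refine ⟨fun b => ⟨fun x y => ?_, fun c x => ?_⟩, fun a => ⟨fun x y => ?_, fun c x => ?_⟩⟩
    all_goals beta_reduce
    · rw [mul_add, TensorProduct.add_tmul]
    · rw [mul_smul_comm, ← TensorProduct.smul_tmul']
    · rw [mul_add, TensorProduct.tmul_add]
    · rw [mul_smul_comm, TensorProduct.tmul_smul]
  have hx : ∀ y z w : H, IsLinearMap k (fun x : H => (Sa k H y * z) ⊗ₜ[k] (Sa k H x * w)) := by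
    intro y z w
    refine ⟨fun x x' => ?_, fun c x => ?_⟩
    all_goals beta_reduce
    · rw [map_add, add_mul, TensorProduct.tmul_add]
    · rw [map_smul, smul_mul_assoc, TensorProduct.tmul_smul]
  have hy : ∀ x z w : H, IsLinearMap k (fun y : H => (Sa k H y * z) ⊗ₜ[k] (Sa k H x * w)) := by
    intro x z w
    refine ⟨fun x x' => ?_, fun c x => ?_⟩
    all_goals beta_reduce
    · rw [map_add, add_mul, TensorProduct.add_tmul]
    · rw [map_smul, smul_mul_assoc, ← TensorProduct.smul_tmul']
  have tri : Tri3 k (fun x y b : H =>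
      sw2 k (fun z w => (Sa k H y * z) ⊗ₜ[k] (Sa k H x * w)) b) := by
    refine ⟨fun y b => sw2_param (F := fun x z w => (Sa k H y * z) ⊗ₜ[k] (Sa k H x * w))
        (fun z w => hx y z w) b,
      fun x b => sw2_param (F := fun y z w => (Sa k H y * z) ⊗ₜ[k] (Sa k H x * w))
        (fun z w => hy x z w) b,
      fun x y => sw2_linear (zw x y)⟩
  have t2 : sw2 k (fun a b => QQ (k := k) a * Coalgebra.comul (R := k) b) h =
      sw2 k (fun a b => sw2 k (fun x y =>
        sw2 k (fun z w => (Sa k H y * z) ⊗ₜ[k] (Sa k H x * w)) b) a) h := by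
    congr 1
    funext a b
    exact t1 a b
  rw [t2, sw2_assoc tri, sw3_eq]
  have t3 : ∀ x y' : H, sw2 k (fun y b => sw2 k (fun z w =>
      (Sa k H y * z) ⊗ₜ[k] (Sa k H x * w)) b) y' = (1 : H) ⊗ₜ[k] (Sa k H x * y') := by
    intro x y'
    have tri2 : Tri3 k (fun y z w : H => (Sa k H y * z) ⊗ₜ[k] (Sa k H x * w)) :=
      ⟨fun z w => hy x z w, fun y w => (zw x y).1 w, fun y z => (zw x y).2 z⟩
    have t4 := sw2_assoc tri2 y'
    rw [sw3_eq] at t4
    rw [← t4]
    have t5 : ∀ u w : H, sw2 k (fun y z => (Sa k H y * z) ⊗ₜ[k] (Sa k H x * w)) u =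
        ep k H u • ((1 : H) ⊗ₜ[k] (Sa k H x * w)) := by
      intro u w
      exact S_mul (f := fun v : H => v ⊗ₜ[k] (Sa k H x * w))
        ⟨fun a b => TensorProduct.add_tmul _ _ _, fun c a => (TensorProduct.smul_tmul' c a _).symm⟩ u
    have t6 : (fun u w : H => sw2 k (fun y z => (Sa k H y * z) ⊗ₜ[k] (Sa k H x * w)) u) =
        fun u w => ep k H u • ((1 : H) ⊗ₜ[k] (Sa k H x * w)) := by
      funext u w
      exact t5 u w
    rw [t6]
    exact sw2_counit_left (f := fun w : H => (1 : H) ⊗ₜ[k] (Sa k H x * w))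
      ⟨fun a b => by rw [mul_add, TensorProduct.tmul_add],
        fun c a => by rw [mul_smul_comm, TensorProduct.tmul_smul]⟩ y'
  have t7 : (fun x y' : H => sw2 k (fun y b => sw2 k (fun z w =>
      (Sa k H y * z) ⊗ₜ[k] (Sa k H x * w)) b) y') =
      fun x y' => (1 : H) ⊗ₜ[k] (Sa k H x * y') := by
    funext x y'
    exact t3 x y'
  rw [t7]
  rw [S_mul (f := fun v : H => (1 : H) ⊗ₜ[k] v)
    ⟨fun a b => TensorProduct.tmul_add _ _ _, fun c a => TensorProduct.tmul_smul _ _ _⟩ h,
    Algebra.TensorProduct.one_def]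

/-- `Δ(S(h)) = S(h₂) ⊗ S(h₁)` -/
private theorem comul_S (h : H) : Coalgebra.comul (R := k) (Sa k H h) = QQ (k := k) h := by
  have hm : Tri3 k (fun a x y : H => QQ (k := k) a * Coalgebra.comul (R := k) (x * Sa k H y)) := by
    refine ⟨fun x y => ⟨fun a b => ?_, fun c a => ?_⟩, fun a y => ⟨fun x b => ?_, fun c x => ?_⟩,
      fun a x => ⟨fun y b => ?_, fun c y => ?_⟩⟩
    all_goals beta_reduce
    · rw [QQ_lin.map_add, add_mul]
    · rw [QQ_lin.map_smul, smul_mul_assoc]
    · rw [add_mul, map_add, mul_add]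
    · rw [smul_mul_assoc, map_smul, mul_smul_comm]
    · rw [map_add, mul_add, map_add, mul_add]
    · rw [map_smul, mul_smul_comm, map_smul, mul_smul_comm]
  have s1 := sw2_assoc hm h
  rw [sw3_eq] at s1
  have s2 : (fun a y : H => sw2 k (fun b c => QQ (k := k) a *
      Coalgebra.comul (R := k) (b * Sa k H c)) y) = fun a y => ep k H y • QQ (k := k) a := by
    funext a y
    rw [mul_S (f := fun v : H => QQ (k := k) a * Coalgebra.comul (R := k) v)
      ⟨fun x y => by rw [map_add, mul_add], fun c x => by rw [map_smul, mul_smul_comm]⟩ y,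
      Bialgebra.comul_one, mul_one]
  have s3 : (fun x c : H => sw2 k (fun a b => QQ (k := k) a *
      Coalgebra.comul (R := k) (b * Sa k H c)) x) =
      fun x c => ep k H x • Coalgebra.comul (R := k) (Sa k H c) := by
    funext x c
    have s4 : (fun a b : H => QQ (k := k) a * Coalgebra.comul (R := k) (b * Sa k H c)) =
        fun a b => (QQ (k := k) a * Coalgebra.comul (R := k) b) *
          Coalgebra.comul (R := k) (Sa k H c) := by
      funext a b
      rw [Bialgebra.comul_mul, mul_assoc]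
    rw [s4]
    have s5 : sw2 k (fun a b : H => (QQ (k := k) a * Coalgebra.comul (R := k) b) *
          Coalgebra.comul (R := k) (Sa k H c)) x =
        sw2 k (fun a b : H => QQ (k := k) a * Coalgebra.comul (R := k) b) x *
          Coalgebra.comul (R := k) (Sa k H c) := by
      simp only [sw2]
      rw [Finset.sum_mul]
    rw [s5, QQ_mul, smul_mul_assoc, one_mul]
  rw [s2, s3] at s1
  rw [sw2_counit_right QQ_lin, sw2_counit_left (f := fun c : H =>
    Coalgebra.comul (R := k) (Sa k H c))
    ⟨fun a b => by rw [map_add, map_add], fun c a => by rw [map_smul, map_smul]⟩] at s1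
  exact s1

theorem sw2_Sa {F : H → H → Z} (hF : Bil2 k F) (h : H) :
    sw2 k F (Sa k H h) = sw2 k (fun a b => F (Sa k H b) (Sa k H a)) h := by
  rw [sw2_bl hF, comul_S]
  simp only [QQ, sw2]
  rw [map_sum]
  exact Finset.sum_congr rfl fun j _ => rfl

theorem sw2_S_mul {f : H → Z} (hf : IsLinearMap k f) (h : H) :
    sw2 k (fun a b => f (Sa k H a * b)) h = ep k H h • f 1 := S_mul hf h

theorem sw2_mul_S {f : H → Z} (hf : IsLinearMap k f) (h : H) :
    sw2 k (fun a b => f (a * Sa k H b)) h = ep k H h • f 1 := mul_S hf h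

theorem sw2_mul_S' (hS : ∀ x : H, Sa k H (Sa k H x) = x) {f : H → Z} (hf : IsLinearMap k f)
    (h : H) : sw2 k (fun a b => f (b * Sa k H a)) h = ep k H h • f 1 := by
  have e1 : (fun a b : H => f (b * Sa k H a)) = fun a b => f (Sa k H (a * Sa k H b)) := by
    funext a b
    rw [HopfAlgebra.antipode_mul_antidistrib, hS]
  rw [e1, mul_S (f := fun v : H => f (Sa k H v))
    ⟨fun x y => by rw [map_add, hf.map_add], fun c x => by rw [map_smul, hf.map_smul]⟩ h,
    HopfAlgebra.antipode_one]

theorem sw2_S_mul' (hS : ∀ x : H, Sa k H (Sa k H x) = x) {f : H → Z} (hf : IsLinearMap k f)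
    (h : H) : sw2 k (fun a b => f (Sa k H b * a)) h = ep k H h • f 1 := by
  have e1 : (fun a b : H => f (Sa k H b * a)) = fun a b => f (Sa k H (Sa k H a * b)) := by
    funext a b
    rw [HopfAlgebra.antipode_mul_antidistrib, hS]
  rw [e1, S_mul (f := fun v : H => f (Sa k H v))
    ⟨fun x y => by rw [map_add, hf.map_add], fun c x => by rw [map_smul, hf.map_smul]⟩ h,
    HopfAlgebra.antipode_one]

theorem Sa_mul (a b : H) : Sa k H (a * b) = Sa k H b * Sa k H a :=
  HopfAlgebra.antipode_mul_antidistrib a b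

theorem Sa_one : Sa k H (1 : H) = 1 := HopfAlgebra.antipode_one

theorem ep_Sa (a : H) : ep k H (Sa k H a) = ep k H a := HopfAlgebra.counit_antipode a

theorem ep_mul (a b : H) : ep k H (a * b) = ep k H a * ep k H b := Bialgebra.counit_mul a b

theorem ep_one : ep k H (1 : H) = 1 := Bialgebra.counit_one

end Pool.Agent.KExp
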