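import Pool.Agent.Lib.KExp.Defs
import Pool.Agent.Lib.KExp.Sw

/-!
# KExp.QPow (MP_0d5e35_al, paper /team-store/MP_0d5e35_al_paper38.md)

Sweedler powers. PROOFS. Q_succ: definition. Q_succ': induction and coassociativity (sw2_assoc).
Q_Sa: `Q_n(S(h)) = S(h)₁ ⋯ S(h)ₙ = S(hₙ) ⋯ S(h₁) = S(h₁ ⋯ hₙ)`: induction with sw2_Sa, Sa_mul:
`Q_{n+1}(S h) = ∑ S(h₂) Q_n(S(h₁)) = ∑ S(h₂) S(Q_n(h₁)) = S(∑ Q_n(h₁) h₂) = S(Q_{n+1}(h))` by Q_succ'.
Q_add: `Q_{a+b}(h) = ∑ Q_a(h₁) Q_b(h₂)` by induction; Q_period follows from it and the counit.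
-/

set_option autoImplicit false

open scoped TensorProduct

namespace Pool.Agent.KExp

variable {k : Type} [Field k] {H : Type} [Ring H] [HopfAlgebra k H] [FiniteDimensional k H]

private lemma mul_sw2 (F : H → H → H) (a h : H) :
    a * sw2 k F h = sw2 k (fun x y => a * F x y) h := by
  rw [sw2, sw2, Finset.mul_sum]

private lemma sw2_mul_r (F : H → H → H) (a h : H) :
    sw2 k F h * a = sw2 k (fun x y => F x y * a) h := by
  rw [sw2, sw2, Finset.sum_mul]

theorem Q_zero (h : H) : Q k H 0 h = ep k H h • (1 : H) := by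
  show (Algebra.linearMap k H ∘ₗ Coalgebra.counit (R := k) (A := H)) h = _
  rw [LinearMap.comp_apply, Algebra.linearMap_apply, Algebra.algebraMap_eq_smul_one]

theorem Q_succ (n : ℕ) (h : H) : Q k H (n + 1) h = sw2 k (fun a b => a * Q k H n b) h := by
  have h1 := sw2_eq_lift ((LinearMap.mul k H).compl₂ (Q k H n)) h
  have h2 : TensorProduct.lift ((LinearMap.mul k H).compl₂ (Q k H n)) =
      LinearMap.mul' k H ∘ₗ TensorProduct.map LinearMap.id (Q k H n) := by
    apply TensorProduct.ext'
    intro x y
    simp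
  rw [h2] at h1
  show (LinearMap.mul' k H ∘ₗ TensorProduct.map LinearMap.id (Q k H n) ∘ₗ
      Coalgebra.comul (R := k) (A := H)) h = _
  refine Eq.trans ?_ h1.symm
  rfl

private lemma Q_one' (h : H) : Q k H 1 h = h := by
  rw [Q_succ]
  have h1 : (fun a b : H => a * Q k H 0 b) = fun a b => ep k H b • a := by
    funext a b
    rw [Q_zero, mul_smul_comm, mul_one]
  rw [h1]
  exact sw2_counit_right (f := fun x : H => x) ⟨fun _ _ => rfl, fun _ _ => rfl⟩ h

theorem Q_succ' (n : ℕ) (h : H) : Q k H (n + 1) h = sw2 k (fun a b => Q k H n a * b) h := by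
  induction n generalizing h with
  | zero =>
    rw [Q_one']
    have h1 : (fun a b : H => Q k H 0 a * b) = fun a b => ep k H a • b := by
      funext a b
      rw [Q_zero, smul_mul_assoc, one_mul]
    rw [h1]
    exact (sw2_counit_left (f := fun x : H => x) ⟨fun _ _ => rfl, fun _ _ => rfl⟩ h).symm
  | succ n ih =>
    rw [Q_succ]
    have h1 : (fun a y : H => a * Q k H (n + 1) y) =
        fun a y => sw2 k (fun b c => a * Q k H n b * c) y := by
      funext a y
      rw [ih, mul_sw2]
      simp only [mul_assoc]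
    have h2 : (fun x c : H => Q k H (n + 1) x * c) =
        fun x c => sw2 k (fun a b => a * Q k H n b * c) x := by
      funext x c
      rw [Q_succ, sw2_mul_r]
    have hT : Tri3 k (fun a b c : H => a * Q k H n b * c) := by
      refine ⟨fun b c => ⟨fun x y => ?_, fun t x => ?_⟩, fun a c => ⟨fun x y => ?_, fun t x => ?_⟩,
        fun a b => ⟨fun x y => ?_, fun t x => ?_⟩⟩
      · show (x + y) * Q k H n b * c = x * Q k H n b * c + y * Q k H n b * c
        rw [add_mul, add_mul]
      · show (t • x) * Q k H n b * c = t • (x * Q k H n b * c)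
        rw [smul_mul_assoc, smul_mul_assoc]
      · show a * Q k H n (x + y) * c = a * Q k H n x * c + a * Q k H n y * c
        rw [map_add, mul_add, add_mul]
      · show a * Q k H n (t • x) * c = t • (a * Q k H n x * c)
        rw [map_smul, mul_smul_comm, smul_mul_assoc]
      · show a * Q k H n b * (x + y) = a * Q k H n b * x + a * Q k H n b * y
        rw [mul_add]
      · show a * Q k H n b * (t • x) = t • (a * Q k H n b * x)
        rw [mul_smul_comm]
    rw [h1, h2, ← sw3_eq, sw2_assoc hT]

theorem Q_one (h : H) : Q k H 1 h = h := Q_one' h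

theorem Q_add (a b : ℕ) (h : H) :
    Q k H (a + b) h = sw2 k (fun x y => Q k H a x * Q k H b y) h := by
  induction b generalizing h with
  | zero =>
    have h1 : (fun x y : H => Q k H a x * Q k H 0 y) = fun x y => ep k H y • Q k H a x := by
      funext x y
      rw [Q_zero, mul_smul_comm, mul_one]
    rw [h1, add_zero]
    exact (sw2_counit_right (f := fun x : H => Q k H a x)
      ⟨fun x y => map_add _ x y, fun c x => map_smul _ c x⟩ h).symm
  | succ b ih =>
    rw [← add_assoc, Q_succ']
    have h1 : (fun x z : H => Q k H (a + b) x * z) =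
        fun x z => sw2 k (fun u v => Q k H a u * Q k H b v * z) x := by
      funext x z
      rw [ih, sw2_mul_r]
    have h2 : (fun x y : H => Q k H a x * Q k H (b + 1) y) =
        fun x y => sw2 k (fun v z => Q k H a x * Q k H b v * z) y := by
      funext x y
      rw [Q_succ', mul_sw2]
      simp only [mul_assoc]
    have hT : Tri3 k (fun u v z : H => Q k H a u * Q k H b v * z) := by
      refine ⟨fun v z => ⟨fun x y => ?_, fun t x => ?_⟩, fun u z => ⟨fun x y => ?_, fun t x => ?_⟩,
        fun u v => ⟨fun x y => ?_, fun t x => ?_⟩⟩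
      · show Q k H a (x + y) * Q k H b v * z = Q k H a x * Q k H b v * z + Q k H a y * Q k H b v * z
        rw [map_add, add_mul, add_mul]
      · show Q k H a (t • x) * Q k H b v * z = t • (Q k H a x * Q k H b v * z)
        rw [map_smul, smul_mul_assoc, smul_mul_assoc]
      · show Q k H a u * Q k H b (x + y) * z = Q k H a u * Q k H b x * z + Q k H a u * Q k H b y * z
        rw [map_add, mul_add, add_mul]
      · show Q k H a u * Q k H b (t • x) * z = t • (Q k H a u * Q k H b x * z)
        rw [map_smul, mul_smul_comm, smul_mul_assoc]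
      · show Q k H a u * Q k H b v * (x + y) = Q k H a u * Q k H b v * x + Q k H a u * Q k H b v * y
        rw [mul_add]
      · show Q k H a u * Q k H b v * (t • x) = t • (Q k H a u * Q k H b v * x)
        rw [mul_smul_comm]
    rw [h1, h2, ← sw3_eq, sw2_assoc hT]

theorem Q_Sa (n : ℕ) (h : H) : Q k H n (Sa k H h) = Sa k H (Q k H n h) := by
  induction n generalizing h with
  | zero => rw [Q_zero, Q_zero, ep_Sa, map_smul, Sa_one]
  | succ n ih =>
    have hB : Bil2 k (fun a b : H => a * Q k H n b) := by
      refine ⟨fun b => ⟨fun x y => ?_, fun t x => ?_⟩, fun a => ⟨fun x y => ?_, fun t x => ?_⟩⟩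
      · show (x + y) * Q k H n b = x * Q k H n b + y * Q k H n b
        rw [add_mul]
      · show (t • x) * Q k H n b = t • (x * Q k H n b)
        rw [smul_mul_assoc]
      · show a * Q k H n (x + y) = a * Q k H n x + a * Q k H n y
        rw [map_add, mul_add]
      · show a * Q k H n (t • x) = t • (a * Q k H n x)
        rw [map_smul, mul_smul_comm]
    rw [Q_succ, sw2_Sa hB, Q_succ', sw2, sw2, map_sum]
    refine Finset.sum_congr rfl fun j _ => ?_
    rw [ih, Sa_mul]

theorem Q_period {N : ℕ} (hQ : Q k H N = Q k H 0) (n : ℕ) : Q k H (n + N) = Q k H n := by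
  ext h
  rw [Q_add, hQ, ← Q_add, add_zero]

end Pool.Agent.KExp
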