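import Pool.Agent.Lib.KExp.Defs
import Pool.Agent.Lib.KExp.Sw
import Pool.Agent.Lib.KExp.CE

/-!
# KExp.Theta (MP_0d5e35_al, paper /team-store/MP_0d5e35_al_paper38.md)

(1.1) the twist commutes with action and coaction.
`θ ρ(h) = ∑ ρ(eᵢ) σ(e^i) ρ(h) = ∑ ρ(eᵢ) ρ(h₂) σ(e^i(h₁ · S(h₃)))` (yd). For fixed `a, b, c`:
`∑ᵢ ρ(eᵢ b) σ(e^i ∘ (x ↦ a x S(c))) = ∑ᵢ ρ(a eᵢ S(c) b) σ(e^i)` (ce_lin), so
`θ ρ(h) = ∑ᵢ ∑ ρ(h₁ eᵢ S(h₃) h₂) σ(e^i)`, and `∑ h₁ ⊗ S(h₃) h₂ = h ⊗ 1` (sw3_eq, sw2_S_mul' on the last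
two tensor factors `h₂, h₃`, then counit), so this is `∑ ρ(h eᵢ) σ(e^i) = ρ(h) θ`.
`θ σ(f) = ∑ ρ(eᵢ) σ(f * e^i)` (`σ(e^i)σ(f) = σ(cv f (ec i))`), and
`σ(f) θ = ∑ᵢ σ(f) ρ(eᵢ) σ(e^i) = ∑ᵢ ∑ ρ(eᵢ₂) σ(e^i * f(eᵢ₁ · S(eᵢ₃)))`. Both are `∑ G(a_t)(f_t)` with
`G a f = ρ a * σ f`; by ce_ext it is enough that the linear maps agree: the first is `x ↦ f(x₁) x₂`; the
second: `x ↦ ∑ᵢ e^i(x₁) f(eᵢ₁ x₂ S(eᵢ₃)) eᵢ₂ = f(x₁ x₄ S(x₃)) x₂ = f(x₁) x₂`, because `x₄ S(x₃) = ε`
(sw2_mul_S').
-/

set_option autoImplicit false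

open scoped TensorProduct

namespace Pool.Agent.KExp

variable {k : Type} [Field k] {H : Type} [Ring H] [HopfAlgebra k H] [FiniteDimensional k H]

variable {X Y : Type} [AddCommGroup X] [Module k X] [AddCommGroup Y] [Module k Y]
  {ρ : H →ₐ[k] Module.End k X} {σ : (H →ₗ[k] k) →ₗ[k] Module.End k X}
  {ρ' : H →ₐ[k] Module.End k Y} {σ' : (H →ₗ[k] k) →ₗ[k] Module.End k Y}

omit [FiniteDimensional k H] in
private theorem isl_rho (f : H →ₗ[k] H) (u : Module.End k X) :
    IsLinearMap k (fun v : H => ρ (f v) * u) where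
  map_add x y := by rw [map_add, map_add, add_mul]
  map_smul c x := by rw [map_smul, map_smul, smul_mul_assoc]

theorem theta_rho (hS : ∀ x : H, Sa k H (Sa k H x) = x) (hX : IsYD ρ σ) (h : H) :
    theta ρ σ * ρ h = ρ h * theta ρ σ := by
  have h1 : theta ρ σ * ρ h = ∑ i, sw3 k (fun a b c => ρ (e k H i) *
      (ρ b * σ (tw (ec k H i) a (Sa k H c)))) h := by
    unfold theta
    rw [Finset.sum_mul]
    refine Finset.sum_congr rfl fun i _ => ?_
    rw [mul_assoc, hX.yd]
    simp only [sw3, Finset.mul_sum]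
  have h2 : ∀ a b c : H, ∑ i, ρ (e k H i) * (ρ b * σ (tw (ec k H i) a (Sa k H c))) =
      ∑ i, ρ (a * (e k H i * (Sa k H c * b))) * σ (ec k H i) := by
    intro a b c
    have h3 := ce_lin (k := k) (H := H) (LinearMap.mulLeft k a ∘ₗ LinearMap.mulRight k (Sa k H c))
      (G := fun x f => ρ x * (ρ b * σ f))
      (fun f => isl_rho (ρ := ρ) LinearMap.id _)
      (fun x => ⟨fun f g => by rw [map_add, mul_add, mul_add], fun c f => by
        rw [map_smul, mul_smul_comm, mul_smul_comm]⟩)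
    refine Eq.trans h3 ?_
    refine Finset.sum_congr rfl fun i _ => ?_
    simp only [LinearMap.comp_apply, LinearMap.mulLeft_apply, LinearMap.mulRight_apply]
    rw [← mul_assoc, ← map_mul]
    simp only [mul_assoc]
  have h4 : theta ρ σ * ρ h = ∑ i, sw3 k (fun a b c =>
      ρ (a * (e k H i * (Sa k H c * b))) * σ (ec k H i)) h := by
    rw [h1]
    simp only [sw3]
    rw [Finset.sum_comm]
    conv_rhs => rw [Finset.sum_comm]
    refine Finset.sum_congr rfl fun j _ => ?_
    rw [Finset.sum_comm]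
    conv_rhs => rw [Finset.sum_comm]
    exact Finset.sum_congr rfl fun l _ => h2 _ _ _
  rw [h4]
  unfold theta
  rw [Finset.mul_sum]
  refine Finset.sum_congr rfl fun i _ => ?_
  rw [sw3_eq]
  have h5 : ∀ a y : H, sw2 k (fun b c => ρ (a * (e k H i * (Sa k H c * b))) * σ (ec k H i)) y =
      ep k H y • (ρ (a * (e k H i * 1)) * σ (ec k H i)) := by
    intro a y
    exact sw2_S_mul' hS (f := fun v => ρ (a * (e k H i * v)) * σ (ec k H i))
      (isl_rho (ρ := ρ) (LinearMap.mulLeft k a ∘ₗ LinearMap.mulLeft k (e k H i)) _) y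
  simp only [h5]
  rw [sw2_counit_right (f := fun a => ρ (a * (e k H i * 1)) * σ (ec k H i))
    (isl_rho (ρ := ρ) (LinearMap.mulRight k (e k H i * 1)) _)]
  rw [mul_one, map_mul, mul_assoc]

private theorem lin_sw2 {Z : Type} [AddCommGroup Z] [Module k Z] {G : H → H → H → Z}
    (hG : ∀ a b, IsLinearMap k (fun x => G x a b)) (w : H) :
    IsLinearMap k (fun x => sw2 k (fun a b => G x a b) w) where
  map_add x y := by
    simp only [sw2, (hG _ _).map_add, Finset.sum_add_distrib]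
  map_smul c x := by
    simp only [sw2, (hG _ _).map_smul, Finset.smul_sum]

private theorem key (hS : ∀ x : H, Sa k H (Sa k H x) = x) (f : H →ₗ[k] k) (x : H) :
    sw2 k (fun u v => sw3 k (fun a b c => f (a * (v * Sa k H c)) • b) u) x =
      sw2 k (fun a z => f a • z) x := by
  have l1 : ∀ v c b : H, IsLinearMap k (fun a : H => f (a * (v * Sa k H c)) • b) := fun v c b =>
    ⟨fun p q => by rw [add_mul, map_add, add_smul], fun r p => by
      rw [smul_mul_assoc, map_smul, smul_eq_mul, mul_smul]⟩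
  have l2 : ∀ a v c : H, IsLinearMap k (fun b : H => f (a * (v * Sa k H c)) • b) := fun a v c =>
    ⟨fun p q => by rw [smul_add], fun r p => by rw [smul_comm]⟩
  have l3 : ∀ a v b : H, IsLinearMap k (fun c : H => f (a * (v * Sa k H c)) • b) := fun a v b =>
    ⟨fun p q => by rw [map_add, mul_add, mul_add, map_add, add_smul], fun r p => by
      rw [map_smul, mul_smul_comm, mul_smul_comm, map_smul, smul_eq_mul, mul_smul]⟩
  have l4 : ∀ a c b : H, IsLinearMap k (fun v : H => f (a * (v * Sa k H c)) • b) := fun a c b =>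
    ⟨fun p q => by rw [add_mul, mul_add, map_add, add_smul], fun r p => by
      rw [smul_mul_assoc, mul_smul_comm, map_smul, smul_eq_mul, mul_smul]⟩
  simp only [sw3_eq]
  rw [sw2_assoc (F := fun a y v => sw2 k (fun b c => f (a * (v * Sa k H c)) • b) y), sw3_eq]
  · congr 1
    funext a z
    rw [sw2_assoc (F := fun b c v => f (a * (v * Sa k H c)) • b), sw3_eq]
    · have h5 : ∀ b z' : H, sw2 k (fun c v => f (a * (v * Sa k H c)) • b) z' =
          ep k H z' • (f (a * 1) • b) := fun b z' =>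
        sw2_mul_S' hS (f := fun w => f (a * w) • b)
          ⟨fun p q => by rw [mul_add, map_add, add_smul], fun r p => by
            rw [mul_smul_comm, map_smul, smul_eq_mul, mul_smul]⟩ z'
      simp only [h5]
      rw [sw2_counit_right (f := fun b => f (a * 1) • b)
        ⟨fun p q => by rw [smul_add], fun r p => by rw [smul_comm]⟩, mul_one]
    · exact ⟨fun c v => l2 a v c, fun b v => l3 a v b, fun b c => l4 a c b⟩
  · refine ⟨fun y v => ?_, fun a v => ?_, fun a y => ?_⟩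
    · exact lin_sw2 (G := fun a b c => f (a * (v * Sa k H c)) • b) (fun b c => l1 v c b) y
    · exact sw2_linear ⟨fun c => l2 a v c, fun b => l3 a v b⟩
    · exact lin_sw2 (G := fun v b c => f (a * (v * Sa k H c)) • b) (fun b c => l4 a c b) y

theorem theta_sigma (hS : ∀ x : H, Sa k H (Sa k H x) = x) (hX : IsYD ρ σ) (f : H →ₗ[k] k) :
    theta ρ σ * σ f = σ f * theta ρ σ := by
  have hG1 : ∀ g : H →ₗ[k] k, IsLinearMap k (fun a : H => ρ a * σ g) := fun g =>
    isl_rho (ρ := ρ) LinearMap.id _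
  have hG2 : ∀ a : H, IsLinearMap k (fun g : H →ₗ[k] k => ρ a * σ g) := fun a =>
    ⟨fun p q => by rw [map_add, mul_add], fun r p => by rw [map_smul, mul_smul_comm]⟩
  have hb : Bil2 k (fun a z : H => f a • z) :=
    ⟨fun z => ⟨fun p q => by beta_reduce; rw [map_add, add_smul], fun r p => by
      beta_reduce; rw [map_smul, smul_eq_mul, mul_smul]⟩, fun a => ⟨fun p q => by
      beta_reduce; rw [smul_add], fun r p => by beta_reduce; rw [smul_comm]⟩⟩
  let φ : H →ₗ[k] H := (sw2_linear hb).mk' _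
  have hφ : ∀ x, φ x = sw2 k (fun a z => f a • z) x := fun x => rfl
  have h1 : theta ρ σ * σ f = ∑ i, ρ (φ (e k H i)) * σ (ec k H i) := by
    have h2 : theta ρ σ * σ f = ∑ i, ρ (e k H i) * σ (cv f (ec k H i)) := by
      unfold theta
      rw [Finset.sum_mul]
      refine Finset.sum_congr rfl fun i _ => ?_
      rw [mul_assoc, hX.mul]
    rw [h2]
    refine ce_ext (k := k) Finset.univ (fun i => e k H i) (fun i => cv f (ec k H i)) φ
      (fun x => ?_) (G := fun a g => ρ a * σ g) hG1 hG2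
    rw [hφ]
    have h3 : ∀ i, cv f (ec k H i) x • e k H i =
        ∑ j, (f (e k H j) * ec k H i (D k H j x)) • e k H i := by
      intro i
      rw [cv_apply, sw2, Finset.sum_smul]
    simp only [h3]
    rw [Finset.sum_comm, sw2]
    refine Finset.sum_congr rfl fun j _ => ?_
    simp only [mul_smul]
    rw [← Finset.smul_sum, sum_ec]
  have h4 : σ f * theta ρ σ = ∑ i, ρ (φ (e k H i)) * σ (ec k H i) := by
    have h5 : σ f * theta ρ σ = ∑ i, ∑ j, ∑ l, ρ (e k H l) * σ (cv (ec k H i)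
        (tw f (e k H j) (Sa k H (D k H l (D k H j (e k H i)))))) := by
      unfold theta
      rw [Finset.mul_sum]
      refine Finset.sum_congr rfl fun i _ => ?_
      rw [← mul_assoc, hX.yd]
      simp only [sw3, Finset.sum_mul]
      refine Finset.sum_congr rfl fun j _ => Finset.sum_congr rfl fun l _ => ?_
      rw [mul_assoc, hX.mul]
    have h6 := ce_ext (k := k) (H := H) (Z := Module.End k X)
      (Finset.univ : Finset (Fin (Module.finrank k H) × Fin (Module.finrank k H) ×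
        Fin (Module.finrank k H)))
      (fun t => e k H t.2.2) (fun t => cv (ec k H t.1)
        (tw f (e k H t.2.1) (Sa k H (D k H t.2.2 (D k H t.2.1 (e k H t.1)))))) φ
      (fun x => ?_) (G := fun a g => ρ a * σ g) hG1 hG2
    · rw [h5, ← h6]
      simp only [Fintype.sum_prod_type]
    · simp only [Fintype.sum_prod_type]
      rw [hφ, ← key hS f x, sw2]
      refine Finset.sum_congr rfl fun i _ => ?_
      rw [sw3]
      refine Finset.sum_congr rfl fun j _ => Finset.sum_congr rfl fun l _ => ?_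
      rw [cv_ec, tw_apply]
  rw [h1, h4]

end Pool.Agent.KExp
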