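import Pool.Agent.Lib.KExp.Defs
import Pool.Agent.Lib.KExp.Sw
import Pool.Agent.Lib.KExp.CE
import Pool.Agent.Lib.KExp.QPow
import Pool.Agent.Lib.KExp.Theta

/-!
# KExp.ThetaPow (MP_0d5e35_al, paper /team-store/MP_0d5e35_al_paper38.md)

(1.2). `θ^n = ∑ ρ(Q_n(eᵢ)) σ(e^i)`: induction. `θ^{n+1} = θ θ^n = ∑ᵢ ρ(Q_n(eᵢ)) θ σ(e^i)` (theta_rho)
`= ∑ᵢⱼ ρ(Q_n(eᵢ)) ρ(eⱼ) σ(e^j) σ(e^i) = ∑ᵢⱼ ρ(Q_n(eᵢ) eⱼ) σ(e^i * e^j) = ∑ₗ ρ(Q_n(eₗ₁) eₗ₂) σ(e^l)` (ce_cv)
and Q_succ'. `n = 0`: `∑ ε(eᵢ) σ(e^i) = σ(ε) = 1`. theta_pow_one: `Q_N = Q_0`.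
theta_inv: `[S] θ = ∑ ρ(S(eᵢ)) σ(e^i) θ = ∑ ρ(S(eᵢ)) θ σ(e^i) = ∑ ρ(S(eᵢ) eⱼ) σ(e^i * e^j) =
∑ ρ(S(eₗ₁) eₗ₂) σ(e^l) = 1`, and the same on the other side with `θ` moved to the left of `ρ`.
-/

set_option autoImplicit false

open scoped TensorProduct

namespace Pool.Agent.KExp

variable {k : Type} [Field k] {H : Type} [Ring H] [HopfAlgebra k H] [FiniteDimensional k H]

variable {X Y : Type} [AddCommGroup X] [Module k X] [AddCommGroup Y] [Module k Y]
  {ρ : H →ₐ[k] Module.End k X} {σ : (H →ₗ[k] k) →ₗ[k] Module.End k X}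
  {ρ' : H →ₐ[k] Module.End k Y} {σ' : (H →ₗ[k] k) →ₗ[k] Module.End k Y}

private theorem eps_one (hX : IsYD ρ σ) :
    ∑ i, ρ (ep k H (e k H i) • (1 : H)) * σ (ec k H i) = 1 := by
  have h : ∑ i, ρ (ep k H (e k H i) • (1 : H)) * σ (ec k H i)
      = σ (∑ i, ep k H (e k H i) • ec k H i) := by
    rw [map_sum]
    refine Finset.sum_congr rfl fun i _ => ?_
    rw [map_smul, map_smul, map_one, smul_mul_assoc, one_mul]
  rw [h, sum_e]
  exact hX.one

private theorem mid (hX : IsYD ρ σ) (A : H →ₗ[k] H) :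
    ∑ i, ρ (A (e k H i)) * (theta ρ σ * σ (ec k H i))
      = ∑ i, sw2 k (fun a b => ρ (A a * b) * σ (ec k H i)) (e k H i) := by
  have h := ce_cv (k := k) (H := H) (G := fun a b f => ρ (A a * b) * σ f)
    (fun b f => ⟨fun x y => by simp only [map_add, add_mul],
      fun c x => by simp only [map_smul, smul_mul_assoc]⟩)
    (fun a f => ⟨fun x y => by simp only [map_add, mul_add, add_mul],
      fun c x => by simp only [map_smul, mul_smul_comm, smul_mul_assoc]⟩)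
    (fun a b => ⟨fun x y => by simp only [map_add, mul_add],
      fun c x => by simp only [map_smul, mul_smul_comm]⟩)
  rw [← h]
  refine Finset.sum_congr rfl fun i _ => ?_
  rw [theta, Finset.sum_mul, Finset.mul_sum]
  refine Finset.sum_congr rfl fun j _ => ?_
  rw [mul_assoc (ρ (e k H j)), hX.mul, map_mul, mul_assoc]

private theorem pull (A : H →ₗ[k] H) (f : H →ₗ[k] k) (x : H) :
    sw2 k (fun a b => ρ (A a * b) * σ f) x = ρ (sw2 k (fun a b => A a * b) x) * σ f := by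
  unfold sw2
  rw [map_sum, Finset.sum_mul]

theorem theta_pow (hS : ∀ x : H, Sa k H (Sa k H x) = x) (hX : IsYD ρ σ) (n : ℕ) :
    theta ρ σ ^ n = ∑ i, ρ (Q k H n (e k H i)) * σ (ec k H i) := by
  induction n with
  | zero =>
    rw [pow_zero]
    simp only [Q_zero]
    exact (eps_one hX).symm
  | succ n ih =>
    rw [pow_succ', ih, Finset.mul_sum]
    have h1 : ∀ i, theta ρ σ * (ρ (Q k H n (e k H i)) * σ (ec k H i))
        = ρ (Q k H n (e k H i)) * (theta ρ σ * σ (ec k H i)) := by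
      intro i
      rw [← mul_assoc, theta_rho hS hX, mul_assoc]
    rw [Finset.sum_congr rfl (fun i _ => h1 i), mid hX (Q k H n)]
    refine Finset.sum_congr rfl fun i _ => ?_
    rw [pull, Q_succ']

theorem theta_pow_one (hS : ∀ x : H, Sa k H (Sa k H x) = x) (hX : IsYD ρ σ) {N : ℕ}
    (hQ : Q k H N = Q k H 0) : theta ρ σ ^ N = 1 := by
  rw [theta_pow hS hX, hQ, ← theta_pow hS hX, pow_zero]

private theorem sum_theta_inv (hX : IsYD ρ σ) :
    ∑ i, ρ (Sa k H (e k H i)) * (theta ρ σ * σ (ec k H i)) = 1 := by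
  rw [mid hX (Sa k H)]
  have h : ∀ i, sw2 k (fun a b => ρ (Sa k H a * b) * σ (ec k H i)) (e k H i)
      = ρ (ep k H (e k H i) • (1 : H)) * σ (ec k H i) := by
    intro i
    have h1 := sw2_S_mul (k := k) (H := H) (f := fun y => ρ y * σ (ec k H i))
      ⟨fun x y => by simp only [map_add, add_mul],
        fun c x => by simp only [map_smul, smul_mul_assoc]⟩ (e k H i)
    rw [h1, map_smul, smul_mul_assoc]
  rw [Finset.sum_congr rfl (fun i _ => h i)]
  exact eps_one hX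

theorem inv_theta (hS : ∀ x : H, Sa k H (Sa k H x) = x) (hX : IsYD ρ σ) :
    (∑ i, ρ (Sa k H (e k H i)) * σ (ec k H i)) * theta ρ σ = 1 := by
  rw [← sum_theta_inv hX, Finset.sum_mul]
  refine Finset.sum_congr rfl fun i _ => ?_
  rw [mul_assoc, theta_sigma hS hX]

theorem theta_inv (hS : ∀ x : H, Sa k H (Sa k H x) = x) (hX : IsYD ρ σ) :
    theta ρ σ * (∑ i, ρ (Sa k H (e k H i)) * σ (ec k H i)) = 1 := by
  rw [← sum_theta_inv hX, Finset.mul_sum]
  refine Finset.sum_congr rfl fun i _ => ?_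
  rw [← mul_assoc, theta_rho hS hX, mul_assoc]

end Pool.Agent.KExp
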