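import Pool.Agent.Lib.KExp.Defs
import Pool.Agent.Lib.KExp.Sw
import Pool.Agent.Lib.KExp.CE
import Pool.Agent.Lib.KExp.QPow
import Pool.Agent.Lib.KExp.Theta
import Pool.Agent.Lib.KExp.ThetaPow

/-!
# KExp.PYD (MP_0d5e35_al, paper /team-store/MP_0d5e35_al_paper38.md)

(1.6), first part: the regular Yetter-Drinfeld data on `P = H ⊗ H`. rP_tmul, sP_tmul: unfold
(`σ f (x ⊗ w) = f(x₁ w₁ S(x₃)) x₂ ⊗ w₂`). isYD_P: one: `ε(x₁w₁S(x₃)) x₂ ⊗ w₂ = x ⊗ w`. mul:
`σ f (σ g (x ⊗ w)) = g(x₁w₁S(x₅)) f(x₂w₂S(x₄)) x₃ ⊗ w₃` and `Δ(x₁ w₁ S(x₃)) = x₁w₁S(x₅) ⊗ x₂w₂S(x₄)` (sw2_mul, sw2_Sa).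
yd: `σ f (h x ⊗ w) = f(h₁x₁w₁S(h₃x₃)) h₂x₂ ⊗ w₂ = f(h₁ (x₁w₁S(x₃)) S(h₃)) h₂ x₂ ⊗ w₂`.
theta_P: `θ(x ⊗ w) = x₁w₁S(x₃)x₂ ⊗ w₂ = x w₁ ⊗ w₂` (sw2_S_mul').
theta_P_pow: by theta_pow `θ^n (x ⊗ w) = ∑ᵢ e^i(x₁w₁S(x₃)) Q_n(eᵢ) x₂ ⊗ w₂`; easier: induction from theta_P:
`θ^n(x ⊗ w) = x Q_n(w₁) ⊗ w₂`. If `θ^n = 1`, put `x = 1` and apply `id ⊗ ε`: `Q_n(w) = ε(w) 1`.
-/

set_option autoImplicit false

open scoped TensorProduct

namespace Pool.Agent.KExp

variable {k : Type} [Field k] {H : Type} [Ring H] [HopfAlgebra k H] [FiniteDimensional k H]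

section aux

variable {Z Z' : Type} [AddCommGroup Z] [Module k Z] [AddCommGroup Z'] [Module k Z']

private theorem map_sw2 (φ : Z →ₗ[k] Z') (F : H → H → Z) (h : H) :
    φ (sw2 k F h) = sw2 k (fun a b => φ (F a b)) h := by
  simp only [sw2, map_sum]

private theorem map_sw3 (φ : Z →ₗ[k] Z') (F : H → H → H → Z) (h : H) :
    φ (sw3 k F h) = sw3 k (fun a b c => φ (F a b c)) h := by
  simp only [sw3, map_sum]

private theorem lin_sw2 {F : Z' → H → H → Z} (hF : ∀ a b, IsLinearMap k (fun z => F z a b))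
    (h : H) : IsLinearMap k (fun z => sw2 k (F z) h) := by
  constructor
  · intro x y
    simp only [sw2, (hF _ _).map_add, Finset.sum_add_distrib]
  · intro c x
    simp only [sw2, (hF _ _).map_smul, Finset.smul_sum]

private theorem lin_sw3 {F : Z' → H → H → H → Z}
    (hF : ∀ a b c, IsLinearMap k (fun z => F z a b c))
    (h : H) : IsLinearMap k (fun z => sw3 k (F z) h) := by
  constructor
  · intro x y
    simp only [sw3, (hF _ _ _).map_add, Finset.sum_add_distrib]
  · intro c x
    simp only [sw3, (hF _ _ _).map_smul, Finset.smul_sum]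

private theorem sw2_comm (F : H → H → H → H → Z) (x w : H) :
    sw2 k (fun a b => sw2 k (fun p q => F a b p q) w) x =
      sw2 k (fun p q => sw2 k (fun a b => F a b p q) x) w := by
  simp only [sw2]
  exact Finset.sum_comm

private theorem sw3_sw2_comm (F : H → H → H → H → H → Z) (x w : H) :
    sw3 k (fun a b c => sw2 k (fun p q => F a b c p q) w) x =
      sw2 k (fun p q => sw3 k (fun a b c => F a b c p q) x) w := by
  rw [sw3_eq]
  have : ∀ p q : H, sw3 k (fun a b c => F a b c p q) x =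
      sw2 k (fun a y => sw2 k (fun b c => F a b c p q) y) x := fun p q => sw3_eq _ _
  simp only [this]
  rw [sw2_comm (k := k) (fun p q a y => sw2 k (fun b c => F a b c p q) y) w x]
  congr 1
  funext a y
  exact sw2_comm _ _ _

private theorem sw3_lin {F : H → H → H → Z} (hF : Tri3 k F) :
    IsLinearMap k (fun h => sw3 k F h) := by
  have e : (fun h => sw3 k F h) = fun h => sw2 k (fun a y => sw2 k (fun b c => F a b c) y) h := by
    funext h
    exact sw3_eq _ _
  rw [e]
  apply sw2_linear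
  refine ⟨fun y => ?_, fun a => ?_⟩
  · exact lin_sw2 (F := fun a b c => F a b c) (fun b c => hF.1 b c) y
  · exact sw2_linear ⟨fun c => hF.2.1 a c, fun b => hF.2.2 a b⟩

private theorem sw3_mul {F : H → H → H → Z} (hF : Tri3 k F) (g h : H) :
    sw3 k F (g * h) = sw3 k (fun a b c => sw3 k (fun a' b' c' =>
      F (a * a') (b * b') (c * c')) h) g := by
  have hb : ∀ a, Bil2 k (fun b c => F a b c) := fun a => ⟨fun c => hF.2.1 a c, fun b => hF.2.2 a b⟩
  rw [sw3_eq, sw2_mul (k := k)]
  · simp only [sw3_eq]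
    congr 1
    funext a a'
    rw [sw2_comm (k := k) (fun b c a'' y => sw2 k (fun b' c' => F (a * a'') (b * b') (c * c')) y)
      a' h]
    congr 1
    funext b b'
    exact sw2_mul (hb _) _ _
  · refine ⟨fun y => ?_, fun a => ?_⟩
    · exact lin_sw2 (F := fun a b c => F a b c) (fun b c => hF.1 b c) y
    · exact sw2_linear (hb a)

/-- coassociativity for five factors -/
private theorem sw_five {K : H → H → H → H → H → Z}
    (h1 : ∀ b c d e, IsLinearMap k (fun a => K a b c d e))
    (h2 : ∀ a c d e, IsLinearMap k (fun b => K a b c d e))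
    (h3 : ∀ a b d e, IsLinearMap k (fun c => K a b c d e))
    (h4 : ∀ a b c e, IsLinearMap k (fun d => K a b c d e))
    (h5 : ∀ a b c d, IsLinearMap k (fun e => K a b c d e)) (x : H) :
    sw3 k (fun A B C => sw2 k (fun a1 a2 => sw2 k (fun c1 c2 => K a1 a2 B c1 c2) C) A) x =
      sw3 k (fun a b c => sw3 k (fun a' b' c' => K a a' b' c' c) b) x := by
  -- the right nested form
  have hL : sw3 k (fun A B C => sw2 k (fun a1 a2 => sw2 k (fun c1 c2 => K a1 a2 B c1 c2) C) A) x =
      sw2 k (fun a1 z => sw2 k (fun a2 y => sw2 k (fun B C =>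
        sw2 k (fun c1 c2 => K a1 a2 B c1 c2) C) y) z) x := by
    rw [sw3_eq]
    have e1 : ∀ A y, sw2 k (fun B C => sw2 k (fun a1 a2 =>
        sw2 k (fun c1 c2 => K a1 a2 B c1 c2) C) A) y =
        sw2 k (fun a1 a2 => sw2 k (fun B C => sw2 k (fun c1 c2 => K a1 a2 B c1 c2) C) y) A :=
      fun A y => sw2_comm _ _ _
    simp only [e1]
    rw [sw2_assoc (k := k) (F := fun a1 a2 y => sw2 k (fun B C =>
      sw2 k (fun c1 c2 => K a1 a2 B c1 c2) C) y), sw3_eq]
    refine ⟨fun a2 y => ?_, fun a1 y => ?_, fun a1 a2 => ?_⟩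
    · exact lin_sw2 (F := fun a1 B C => sw2 k (fun c1 c2 => K a1 a2 B c1 c2) C)
        (fun B C => lin_sw2 (F := fun a1 c1 c2 => K a1 a2 B c1 c2) (fun c1 c2 => h1 _ _ _ _) C) y
    · exact lin_sw2 (F := fun a2 B C => sw2 k (fun c1 c2 => K a1 a2 B c1 c2) C)
        (fun B C => lin_sw2 (F := fun a2 c1 c2 => K a1 a2 B c1 c2) (fun c1 c2 => h2 _ _ _ _) C) y
    · apply sw2_linear
      refine ⟨fun C => ?_, fun B => ?_⟩
      · exact lin_sw2 (F := fun B c1 c2 => K a1 a2 B c1 c2) (fun c1 c2 => h3 _ _ _ _) C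
      · exact sw2_linear ⟨fun c2 => h4 _ _ _ _, fun c1 => h5 _ _ _ _⟩
  have hR : ∀ a z, sw2 k (fun b c => sw3 k (fun a' b' c' => K a a' b' c' c) b) z =
      sw2 k (fun a2 y => sw2 k (fun B C => sw2 k (fun c1 c2 => K a a2 B c1 c2) C) y) z := by
    intro a z
    have e1 : ∀ b c, sw3 k (fun a' b' c' => K a a' b' c' c) b =
        sw2 k (fun a' r => sw2 k (fun b' c' => K a a' b' c' c) r) b := fun b c => sw3_eq _ _
    simp only [e1]
    rw [sw2_assoc (k := k) (F := fun a' r c => sw2 k (fun b' c' => K a a' b' c' c) r), sw3_eq]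
    · congr 1
      funext a' y
      rw [sw2_assoc (k := k) (F := fun b' c' c => K a a' b' c' c), sw3_eq]
      exact ⟨fun c' c => h3 _ _ _ _, fun b' c => h4 _ _ _ _, fun b' c' => h5 _ _ _ _⟩
    · refine ⟨fun r c => ?_, fun a' c => ?_, fun a' r => ?_⟩
      · exact lin_sw2 (F := fun a' b' c' => K a a' b' c' c) (fun b' c' => h2 _ _ _ _) r
      · exact sw2_linear ⟨fun c' => h3 _ _ _ _, fun b' => h4 _ _ _ _⟩
      · exact lin_sw2 (F := fun c b' c' => K a a' b' c' c) (fun b' c' => h5 _ _ _ _) r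
  rw [hL, sw3_eq]
  congr 1
  funext a z
  exact (hR a z).symm

end aux

theorem rP_tmul (h x w : H) : (rP (k := k) (H := H)) h (x ⊗ₜ[k] w) = (h * x) ⊗ₜ[k] w := by
  simp [rP]
  rfl

theorem sP_tmul (f : H →ₗ[k] k) (x w : H) : (sP (k := k) (H := H)) f (x ⊗ₜ[k] w) =
    sw3 k (fun a b c => sw2 k (fun p q => f (a * (p * Sa k H c)) • (b ⊗ₜ[k] q)) w) x := by
  simp [sP, sw3, sw2, LinearMap.sum_apply, TensorProduct.smul_tmul']

private theorem ten_lin_left (w : H) : IsLinearMap k (fun b : H => b ⊗ₜ[k] w) :=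
  ⟨fun x y => TensorProduct.add_tmul _ _ _, fun c x => TensorProduct.smul_tmul' _ _ _⟩

private theorem ten_lin_right (b : H) : IsLinearMap k (fun w : H => b ⊗ₜ[k] w) :=
  ⟨fun x y => TensorProduct.tmul_add _ _ _, fun c x => TensorProduct.tmul_smul _ _ _⟩

private theorem sP_one : (sP (k := k) (H := H)) (Coalgebra.counit (R := k) (A := H)) = 1 := by
  apply TensorProduct.ext'
  intro x w
  rw [sP_tmul, Module.End.one_apply]
  have e1 : ∀ a b c : H, sw2 k (fun p q => (Coalgebra.counit (R := k) (A := H))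
      (a * (p * Sa k H c)) • (b ⊗ₜ[k] q)) w = (ep k H a * ep k H c) • (b ⊗ₜ[k] w) := by
    intro a b c
    have e2 : ∀ p q : H, (Coalgebra.counit (R := k) (A := H))
      (a * (p * Sa k H c)) • (b ⊗ₜ[k] q) = ep k H p • ((ep k H a * ep k H c) • (b ⊗ₜ[k] q)) := by
      intro p q
      change ep k H (a * (p * Sa k H c)) • _ = _
      rw [ep_mul, ep_mul, ep_Sa, smul_smul]
      congr 1
      ring
    simp only [e2]
    apply sw2_counit_left (f := fun q => (ep k H a * ep k H c) • (b ⊗ₜ[k] q))
    constructor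
    · intro u v
      rw [TensorProduct.tmul_add, smul_add]
    · intro r u
      rw [TensorProduct.tmul_smul, smul_comm]
  simp only [e1]
  rw [sw3_eq]
  have e3 : ∀ a y : H, sw2 k (fun b c => (ep k H a * ep k H c) • (b ⊗ₜ[k] w)) y =
      ep k H a • (y ⊗ₜ[k] w) := by
    intro a y
    have e4 : ∀ b c : H, (ep k H a * ep k H c) • (b ⊗ₜ[k] w) =
        ep k H c • (ep k H a • (b ⊗ₜ[k] w)) := by
      intro b c
      rw [smul_smul, mul_comm]
    simp only [e4]
    apply sw2_counit_right (f := fun b => ep k H a • (b ⊗ₜ[k] w))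
    constructor
    · intro u v
      rw [TensorProduct.add_tmul, smul_add]
    · intro r u
      rw [TensorProduct.smul_tmul', TensorProduct.smul_tmul', TensorProduct.smul_tmul',
        smul_comm]
  simp only [e3]
  exact sw2_counit_left (ten_lin_left w) x

/-- the function of eight variables in the proof of `mul` -/
private noncomputable def G8 (f g : H →ₗ[k] k) (a a' b' c' c p p' q' : H) : H ⊗[k] H :=
  (g (a * (p * Sa k H c)) * f (a' * (p' * Sa k H c'))) • (b' ⊗ₜ[k] q')

private theorem sP_mul (f g : H →ₗ[k] k) :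
    (sP (k := k) (H := H)) f * sP g = sP (cv g f) := by
  apply TensorProduct.ext'
  intro x w
  rw [Module.End.mul_apply, sP_tmul g, map_sw3]
  -- left side
  have hL : ∀ a b c : H, (sP f) (sw2 k (fun p q => g (a * (p * Sa k H c)) • (b ⊗ₜ[k] q)) w) =
      sw3 k (fun a' b' c' => sw3 k (fun p p' q' => G8 f g a a' b' c' c p p' q') w) b := by
    intro a b c
    rw [map_sw2]
    simp only [map_smul, sP_tmul]
    have e1 : ∀ p q : H, g (a * (p * Sa k H c)) • sw3 k (fun a' b' c' => sw2 k (fun p' q' =>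
        f (a' * (p' * Sa k H c')) • (b' ⊗ₜ[k] q')) q) b =
        sw3 k (fun a' b' c' => sw2 k (fun p' q' => G8 f g a a' b' c' c p p' q') q) b := by
      intro p q
      simp only [sw3, sw2, Finset.smul_sum, smul_smul, G8]
    simp only [e1]
    rw [← sw3_sw2_comm]
    congr 1
  simp only [hL]
  -- right side
  rw [sP_tmul]
  have hR : ∀ A B C : H, sw2 k (fun P Q => cv g f (A * (P * Sa k H C)) • (B ⊗ₜ[k] Q)) w =
      sw2 k (fun a1 a2 => sw2 k (fun c1 c2 =>
        sw3 k (fun p p' q' => G8 f g a1 a2 B c1 c2 p p' q') w) C) A := by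
    intro A B C
    have e1 : ∀ P : H, cv g f (A * (P * Sa k H C)) =
        sw2 k (fun a1 a2 => sw2 k (fun p p' => sw2 k (fun c1 c2 =>
          g (a1 * (p * Sa k H c2)) * f (a2 * (p' * Sa k H c1))) C) P) A := by
      intro P
      have hb0 : Bil2 k (fun a b : H => g a * f b) :=
        ⟨fun b => ⟨fun u v => by simp [add_mul], fun r u => by simp [mul_assoc]⟩,
          fun a => ⟨fun u v => by simp [mul_add], fun r u => by simp; ring⟩⟩
      rw [cv_apply, sw2_mul (k := k) hb0]
      congr 1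
      funext a1 a2
      have hb1 : Bil2 k (fun a b : H => g (a1 * a) * f (a2 * b)) :=
        ⟨fun b => ⟨fun u v => by simp [add_mul, mul_add], fun r u => by simp [mul_assoc]⟩,
          fun a => ⟨fun u v => by simp [mul_add], fun r u => by simp; ring⟩⟩
      rw [sw2_mul (k := k) hb1]
      congr 1
      funext p p'
      have hb2 : Bil2 k (fun a b : H => g (a1 * (p * a)) * f (a2 * (p' * b))) :=
        ⟨fun b => ⟨fun u v => by simp [add_mul, mul_add], fun r u => by simp [mul_assoc]⟩,
          fun a => ⟨fun u v => by simp [mul_add], fun r u => by simp; ring⟩⟩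
      exact sw2_Sa hb2 _
    simp only [e1]
    have e2 : ∀ P Q : H, (sw2 k (fun a1 a2 => sw2 k (fun p p' => sw2 k (fun c1 c2 =>
          g (a1 * (p * Sa k H c2)) * f (a2 * (p' * Sa k H c1))) C) P) A) • (B ⊗ₜ[k] Q) =
        sw2 k (fun a1 a2 => sw2 k (fun p p' => sw2 k (fun c1 c2 =>
          G8 f g a1 a2 B c1 c2 p p' Q) C) P) A := by
      intro P Q
      simp only [sw2, Finset.sum_smul, G8]
    simp only [e2]
    rw [sw2_comm (k := k)]
    congr 1
    funext a1 a2
    have e3 : ∀ P Q : H, sw2 k (fun p p' => sw2 k (fun c1 c2 =>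
          G8 f g a1 a2 B c1 c2 p p' Q) C) P = sw2 k (fun c1 c2 => sw2 k (fun p p' =>
          G8 f g a1 a2 B c1 c2 p p' Q) P) C := fun P Q => sw2_comm _ _ _
    simp only [e3]
    rw [sw2_comm (k := k)]
    congr 1
    funext c1 c2
    apply sw2_assoc (k := k) (F := fun p p' q' => G8 f g a1 a2 B c1 c2 p p' q')
    refine ⟨fun p' q' => ?_, fun p q' => ?_, fun p p' => ?_⟩
    · constructor
      · intro u v
        simp [G8, add_mul, mul_add, add_smul]
      · intro r u
        simp [G8, smul_smul, mul_assoc]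
    · constructor
      · intro u v
        simp [G8, add_mul, mul_add, add_smul]
      · intro r u
        simp [G8, smul_smul, mul_left_comm]
    · constructor
      · intro u v
        simp [G8, TensorProduct.tmul_add]
      · intro r u
        simp only [G8, TensorProduct.tmul_smul]
        rw [smul_comm]
  simp only [hR]
  symm
  apply sw_five (K := fun a1 a2 B c1 c2 =>
    sw3 k (fun p p' q' => G8 f g a1 a2 B c1 c2 p p' q') w)
  · intro b c d e
    apply lin_sw3 (F := fun a p p' q' => G8 f g a b c d e p p' q')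
    intro p p' q'
    constructor
    · intro u v
      simp [G8, add_mul, add_smul]
    · intro r u
      simp [G8, smul_smul, mul_assoc]
  · intro a c d e
    apply lin_sw3 (F := fun b p p' q' => G8 f g a b c d e p p' q')
    intro p p' q'
    constructor
    · intro u v
      simp [G8, add_mul, mul_add, add_smul]
    · intro r u
      simp [G8, smul_smul, mul_left_comm]
  · intro a b d e
    apply lin_sw3 (F := fun c p p' q' => G8 f g a b c d e p p' q')
    intro p p' q'
    constructor
    · intro u v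
      simp only [G8, TensorProduct.add_tmul, smul_add]
    · intro r u
      simp only [G8]
      rw [← TensorProduct.smul_tmul', smul_comm]
  · intro a b c e
    apply lin_sw3 (F := fun d p p' q' => G8 f g a b c d e p p' q')
    intro p p' q'
    constructor
    · intro u v
      simp [G8, mul_add, add_smul]
    · intro r u
      simp [G8, smul_smul, mul_left_comm]
  · intro a b c d
    apply lin_sw3 (F := fun e p p' q' => G8 f g a b c d e p p' q')
    intro p p' q'
    constructor
    · intro u v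
      simp [G8, mul_add, add_mul, add_smul]
    · intro r u
      simp [G8, smul_smul, mul_assoc]

private theorem sP_yd (f : H →ₗ[k] k) (h : H) :
    (sP (k := k) (H := H)) f * rP h =
      sw3 k (fun a b c => rP b * sP (tw f a (Sa k H c))) h := by
  apply TensorProduct.ext'
  intro x w
  rw [Module.End.mul_apply, rP_tmul, sP_tmul, sw3_mul (k := k)]
  · have e1 : (sw3 k (fun a b c => (rP (k := k) (H := H)) b * sP (tw f a (Sa k H c))) h)
        (x ⊗ₜ[k] w) = sw3 k (fun a b c => ((rP (k := k) (H := H)) b * sP (tw f a (Sa k H c)))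
          (x ⊗ₜ[k] w)) h := by
      simp only [sw3, LinearMap.sum_apply]
    rw [e1]
    congr 1
    funext a b c
    rw [Module.End.mul_apply, sP_tmul, map_sw3]
    congr 1
    funext a' b' c'
    rw [map_sw2]
    congr 1
    funext p q
    rw [map_smul, rP_tmul, tw_apply, Sa_mul]
    congr 2
    simp only [mul_assoc]
  · refine ⟨fun b c => ?_, fun a c => ?_, fun a b => ?_⟩
    · apply lin_sw2 (F := fun a p q => f (a * (p * Sa k H c)) • (b ⊗ₜ[k] q))
      intro p q
      constructor
      · intro u v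
        simp [add_mul, add_smul]
      · intro r u
        simp [smul_smul]
    · apply lin_sw2 (F := fun b p q => f (a * (p * Sa k H c)) • (b ⊗ₜ[k] q))
      intro p q
      constructor
      · intro u v
        rw [TensorProduct.add_tmul, smul_add]
      · intro r u
        rw [← TensorProduct.smul_tmul', smul_comm]
    · apply lin_sw2 (F := fun c p q => f (a * (p * Sa k H c)) • (b ⊗ₜ[k] q))
      intro p q
      constructor
      · intro u v
        simp [mul_add, add_smul]
      · intro r u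
        simp [smul_smul]

theorem isYD_P (hS : ∀ x : H, Sa k H (Sa k H x) = x) : IsYD (rP (k := k) (H := H)) sP :=
  ⟨sP_one, sP_mul, sP_yd⟩

theorem theta_P (hS : ∀ x : H, Sa k H (Sa k H x) = x) (x w : H) :
    theta (rP (k := k) (H := H)) sP (x ⊗ₜ[k] w) = sw2 k (fun a b => (x * a) ⊗ₜ[k] b) w := by
  have e0 : theta (rP (k := k) (H := H)) sP (x ⊗ₜ[k] w) =
      sw3 k (fun a b c => sw2 k (fun p q => ((a * (p * Sa k H c)) * b) ⊗ₜ[k] q) w) x := by
    unfold theta
    rw [LinearMap.sum_apply]
    simp only [Module.End.mul_apply, sP_tmul, map_sw3, map_sw2, map_smul, rP_tmul]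
    have e1 : ∀ a b c p q : H, ((a * (p * Sa k H c)) * b) ⊗ₜ[k] q =
        ∑ i, ec k H i (a * (p * Sa k H c)) • ((e k H i * b) ⊗ₜ[k] q) := by
      intro a b c p q
      conv_lhs => rw [← sum_ec (k := k) (a * (p * Sa k H c))]
      rw [Finset.sum_mul, TensorProduct.sum_tmul]
      refine Finset.sum_congr rfl fun i _ => ?_
      rw [smul_mul_assoc, TensorProduct.smul_tmul']
    simp only [e1, sw3, sw2]
    rw [Finset.sum_comm]
    refine Finset.sum_congr rfl fun j _ => ?_
    rw [Finset.sum_comm]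
    refine Finset.sum_congr rfl fun l _ => ?_
    rw [Finset.sum_comm]
  rw [e0, sw3_sw2_comm]
  congr 1
  funext p q
  rw [sw3_eq]
  have e2 : ∀ a y : H, sw2 k (fun b c => ((a * (p * Sa k H c)) * b) ⊗ₜ[k] q) y =
      ep k H y • ((a * p) ⊗ₜ[k] q) := by
    intro a y
    have e3 : ∀ b c : H, ((a * (p * Sa k H c)) * b) ⊗ₜ[k] q =
        (fun t : H => ((a * p) * t) ⊗ₜ[k] q) (Sa k H c * b) := by
      intro b c
      simp only [mul_assoc]
    simp only [e3]
    rw [sw2_S_mul' (k := k) hS (f := fun t : H => ((a * p) * t) ⊗ₜ[k] q), mul_one]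
    constructor
    · intro u v
      rw [mul_add, TensorProduct.add_tmul]
    · intro r u
      rw [mul_smul_comm, TensorProduct.smul_tmul']
  simp only [e2]
  apply sw2_counit_right (f := fun a => (a * p) ⊗ₜ[k] q)
  constructor
  · intro u v
    rw [add_mul, TensorProduct.add_tmul]
  · intro r u
    rw [smul_mul_assoc, TensorProduct.smul_tmul']

private theorem theta_P_pow_apply (hS : ∀ x : H, Sa k H (Sa k H x) = x) (n : ℕ) :
    ∀ x w : H, (theta (rP (k := k) (H := H)) sP ^ n) (x ⊗ₜ[k] w) =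
      sw2 k (fun a b => (x * Q k H n a) ⊗ₜ[k] b) w := by
  induction n with
  | zero =>
    intro x w
    rw [pow_zero, Module.End.one_apply]
    have e1 : ∀ a b : H, (x * Q k H 0 a) ⊗ₜ[k] b = ep k H a • (x ⊗ₜ[k] b) := by
      intro a b
      rw [Q_zero, mul_smul_comm, mul_one, TensorProduct.smul_tmul']
    simp only [e1]
    exact (sw2_counit_left (ten_lin_right x) w).symm
  | succ n ih =>
    intro x w
    rw [pow_succ, Module.End.mul_apply, theta_P hS, map_sw2]
    simp only [ih]
    have e1 : ∀ a b : H, (x * Q k H (n + 1) a) ⊗ₜ[k] b =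
        sw2 k (fun u v => (x * u * Q k H n v) ⊗ₜ[k] b) a := by
      intro a b
      rw [Q_succ, sw2, Finset.mul_sum, TensorProduct.sum_tmul]
      simp only [mul_assoc]
      rfl
    simp only [e1]
    rw [sw2_assoc (k := k) (F := fun u v b => (x * u * Q k H n v) ⊗ₜ[k] b), sw3_eq]
    refine ⟨fun v b => ?_, fun u b => ?_, fun u v => ?_⟩
    · constructor
      · intro s t
        beta_reduce
        rw [mul_add, add_mul, TensorProduct.add_tmul]
      · intro r s
        beta_reduce
        rw [mul_smul_comm, smul_mul_assoc, TensorProduct.smul_tmul']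
    · constructor
      · intro s t
        beta_reduce
        rw [map_add, mul_add, TensorProduct.add_tmul]
      · intro r s
        beta_reduce
        rw [map_smul, mul_smul_comm, TensorProduct.smul_tmul']
    · exact ten_lin_right _

theorem theta_P_pow (hS : ∀ x : H, Sa k H (Sa k H x) = x) {n : ℕ}
    (h : theta (rP (k := k) (H := H)) sP ^ n = 1) : Q k H n = Q k H 0 := by
  ext w
  have h1 := theta_P_pow_apply hS n 1 w
  rw [h, Module.End.one_apply] at h1
  have h2 := congrArg (fun t => TensorProduct.rid k H (TensorProduct.map LinearMap.id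
    (Coalgebra.counit (R := k) (A := H)) t)) h1
  simp only [TensorProduct.map_tmul, TensorProduct.rid_tmul, LinearMap.id_coe, id_eq] at h2
  have h3 : TensorProduct.rid k H (TensorProduct.map LinearMap.id
      (Coalgebra.counit (R := k) (A := H)) (sw2 k (fun a b => (1 * Q k H n a) ⊗ₜ[k] b) w)) =
      sw2 k (fun a b => ep k H b • Q k H n a) w := by
    simp only [sw2, map_sum, TensorProduct.map_tmul, TensorProduct.rid_tmul, LinearMap.id_coe,
      id_eq, one_mul]
  rw [h3, sw2_counit_right (f := fun a => Q k H n a)] at h2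
  · rw [← h2, Q_zero]
  · exact ⟨fun u v => map_add _ _ _, fun r u => map_smul _ _ _⟩

end Pool.Agent.KExp
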