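import Pool.Agent.Lib.KExp.Defs
import Pool.Agent.Lib.KExp.Sw
import Pool.Agent.Lib.KExp.CE
import Pool.Agent.Lib.KExp.QPow
import Pool.Agent.Lib.KExp.Theta
import Pool.Agent.Lib.KExp.ThetaPow
import Pool.Agent.Lib.KExp.PYD

/-!
# KExp.ExY (MP_0d5e35_al, paper /team-store/MP_0d5e35_al_paper38.md)

Section 2: a simple Yetter-Drinfeld module with twist of full `p`-order. PROOF. `θ = θ_P` on `P = H ⊗ H`,
`θ^N = 1` (theta_pow_one). If `θ^(N/p) = 1` then `Q (N/p) = Q 0` (theta_P_pow), excluded. `θ` is diagonalisable
(`X^N - 1` is separable and splits): the eigenspaces span `P`, so there is an eigenvalue `v` (`v^N = 1`) with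
`v^(N/p) ≠ 1` (else `θ^(N/p) = 1` on all eigenvectors). Among the nonzero subspaces of the `v`-eigenspace of `θ` that
are stable under all `ρ(h)` and `σ(f)` (the eigenspace itself is one by theta_rho, theta_sigma) choose `U` of
minimal dimension. Restrict: `Y = U` (a Type), `ρ_Y(h)`, `σ_Y(f)` the restrictions (`LinearMap.restrict`); the
relations of IsYD restrict. `θ_Y = v`. If `T` commutes with `ρ_Y, σ_Y`, it has an eigenvalue `c`
(`Module.End.exists_eigenvalue`), the eigenspace is stable and nonzero, by minimality it is everything.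
-/

set_option autoImplicit false

open scoped TensorProduct

namespace Pool.Agent.KExp

variable {k : Type} [Field k] {H : Type} [Ring H] [HopfAlgebra k H] [FiniteDimensional k H]

private theorem eig_exists {P : Type} [AddCommGroup P] [Module k P] [FiniteDimensional k P]
    [IsAlgClosed k] [CharZero k] (θ : Module.End k P) {N m : ℕ} (hN : 0 < N) (hθ : θ ^ N = 1)
    (hm : θ ^ m ≠ 1) : ∃ v : k, Module.End.eigenspace θ v ≠ ⊥ ∧ v ^ N = 1 ∧ v ^ m ≠ 1 := by
  have hsep : (Polynomial.X ^ N - 1 : Polynomial k).Separable :=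
    Polynomial.X_pow_sub_one_separable_iff.2 (by exact_mod_cast hN.ne')
  have hss : θ.IsSemisimple := by
    refine Module.End.isSemisimple_of_squarefree_aeval_eq_zero hsep.squarefree ?_
    simp [hθ]
  have htop : ⨆ v : k, Module.End.eigenspace θ v = ⊤ := by
    rw [← Module.End.iSup_maxGenEigenspace_eq_top θ]
    exact iSup_congr fun v => (hss.isFinitelySemisimple.maxGenEigenspace_eq_eigenspace v).symm
  by_contra hcon
  push Not at hcon
  apply hm
  have hle : (⊤ : Submodule k P) ≤ LinearMap.ker (θ ^ m - 1) := by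
    rw [← htop]
    refine iSup_le fun v => ?_
    intro x hx
    by_cases hb : Module.End.eigenspace θ v = ⊥
    · rw [hb, Submodule.mem_bot] at hx
      subst hx
      exact Submodule.zero_mem _
    · have hx' : θ x = v • x := Module.End.mem_eigenspace_iff.1 hx
      have hpow : ∀ n : ℕ, (θ ^ n) x = v ^ n • x := by
        intro n
        induction n with
        | zero => simp
        | succ n ih => rw [pow_succ', Module.End.mul_apply, ih, map_smul, hx', smul_smul, pow_succ]
      have hvN : v ^ N = 1 := by
        by_contra hne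
        obtain ⟨y, hy, hy0⟩ := Submodule.exists_mem_ne_zero_of_ne_bot hb
        have hy' : θ y = v • y := Module.End.mem_eigenspace_iff.1 hy
        have hpowy : ∀ n : ℕ, (θ ^ n) y = v ^ n • y := by
          intro n
          induction n with
          | zero => simp
          | succ n ih =>
            rw [pow_succ', Module.End.mul_apply, ih, map_smul, hy', smul_smul, pow_succ]
        have h1 := hpowy N
        rw [hθ, Module.End.one_apply] at h1
        have h2 : (v ^ N - 1) • y = 0 := by rw [sub_smul, ← h1, one_smul, sub_self]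
        rcases smul_eq_zero.1 h2 with h3 | h3
        · exact hne (sub_eq_zero.1 h3)
        · exact hy0 h3
      have hvm := hcon v hb hvN
      rw [LinearMap.mem_ker, LinearMap.sub_apply, hpow, hvm, one_smul, Module.End.one_apply,
        sub_self]
  have h0 : θ ^ m - 1 = 0 := by
    apply LinearMap.ext
    intro x
    exact LinearMap.mem_ker.1 (hle Submodule.mem_top)
  exact sub_eq_zero.1 h0

/-- restriction of the action -/
private noncomputable def resρ {P : Type} [AddCommGroup P] [Module k P]
    (ρ : H →ₐ[k] Module.End k P) (U : Submodule k P) (hU : ∀ h, ∀ x ∈ U, ρ h x ∈ U) :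
    H →ₐ[k] Module.End k U :=
  AlgHom.ofLinearMap
    { toFun := fun h => (ρ h).restrict (hU h)
      map_add' := fun a b => by
        apply LinearMap.ext
        intro x
        apply Subtype.ext
        simp
      map_smul' := fun c b => by
        apply LinearMap.ext
        intro x
        apply Subtype.ext
        simp }
    (by
      apply LinearMap.ext
      intro x
      apply Subtype.ext
      simp)
    (by
      intro a b
      apply LinearMap.ext
      intro x
      apply Subtype.ext
      simp)

private theorem resρ_coe {P : Type} [AddCommGroup P] [Module k P]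
    (ρ : H →ₐ[k] Module.End k P) (U : Submodule k P) (hU : ∀ h, ∀ x ∈ U, ρ h x ∈ U) (h : H)
    (x : U) : ((resρ ρ U hU h x : U) : P) = ρ h (x : P) := rfl

/-- restriction of the coaction -/
private noncomputable def resσ {P : Type} [AddCommGroup P] [Module k P]
    (σ : (H →ₗ[k] k) →ₗ[k] Module.End k P) (U : Submodule k P)
    (hU : ∀ f, ∀ x ∈ U, σ f x ∈ U) : (H →ₗ[k] k) →ₗ[k] Module.End k U where
  toFun := fun f => (σ f).restrict (hU f)
  map_add' := fun a b => by
    apply LinearMap.ext
    intro x
    apply Subtype.ext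
    simp
  map_smul' := fun c b => by
    apply LinearMap.ext
    intro x
    apply Subtype.ext
    simp

private theorem resσ_coe {P : Type} [AddCommGroup P] [Module k P]
    (σ : (H →ₗ[k] k) →ₗ[k] Module.End k P) (U : Submodule k P)
    (hU : ∀ f, ∀ x ∈ U, σ f x ∈ U) (f : H →ₗ[k] k)
    (x : U) : ((resσ σ U hU f x : U) : P) = σ f (x : P) := rfl

private theorem simple_of {P : Type} [AddCommGroup P] [Module k P] [FiniteDimensional k P]
    [IsAlgClosed k] [CharZero k] (ρ : H →ₐ[k] Module.End k P)
    (σ : (H →ₗ[k] k) →ₗ[k] Module.End k P)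
    (hS : ∀ x : H, Sa k H (Sa k H x) = x) (hP : IsYD ρ σ)
    {N m : ℕ} (hN : 0 < N) (hθ : theta ρ σ ^ N = 1) (hm : theta ρ σ ^ m ≠ 1) :
    ∃ (Y : Type) (_ : AddCommGroup Y) (_ : Module k Y) (_ : FiniteDimensional k Y)
      (ρ : H →ₐ[k] Module.End k Y) (σ : (H →ₗ[k] k) →ₗ[k] Module.End k Y) (v : k),
      IsYD ρ σ ∧ 0 < Module.finrank k Y ∧ theta ρ σ = v • 1 ∧ v ^ N = 1 ∧ v ^ m ≠ 1 ∧
      ∀ T : Module.End k Y, (∀ h, T * ρ h = ρ h * T) → (∀ f, T * σ f = σ f * T) →
        ∃ c : k, T = c • 1 := by
  obtain ⟨v, hv0, hvN, hvm⟩ := eig_exists (theta ρ σ) hN hθ hm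
  let good : Set (Submodule k P) := {U | U ≠ ⊥ ∧ U ≤ Module.End.eigenspace (theta ρ σ) v ∧
    (∀ h, ∀ x ∈ U, ρ h x ∈ U) ∧ (∀ f, ∀ x ∈ U, σ f x ∈ U)}
  have hgood : good.Nonempty := by
    refine ⟨Module.End.eigenspace (theta ρ σ) v, hv0, le_refl _, ?_, ?_⟩
    · intro h x hx
      rw [Module.End.mem_eigenspace_iff] at hx ⊢
      have := congrArg (fun T : Module.End k P => T x) (theta_rho hS hP h)
      simp only [Module.End.mul_apply] at this
      rw [this, hx, map_smul]
    · intro f x hx
      rw [Module.End.mem_eigenspace_iff] at hx ⊢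
      have := congrArg (fun T : Module.End k P => T x) (theta_sigma hS hP f)
      simp only [Module.End.mul_apply] at this
      rw [this, hx, map_smul]
  obtain ⟨U, ⟨hU0, hUe, hUρ, hUσ⟩, hUmin⟩ :=
    (wellFounded_lt : WellFounded ((· < ·) : Submodule k P → Submodule k P → Prop)).has_min
      good hgood
  have hnt : Nontrivial U := (Submodule.nontrivial_iff_ne_bot).2 hU0
  refine ⟨U, inferInstance, inferInstance, inferInstance, resρ ρ U hUρ, resσ σ U hUσ, v,
    ⟨?_, ?_, ?_⟩, Module.finrank_pos, ?_, hvN, hvm, ?_⟩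
  · apply LinearMap.ext
    intro x
    apply Subtype.ext
    rw [resσ_coe, hP.one]
    rfl
  · intro f g
    apply LinearMap.ext
    intro x
    apply Subtype.ext
    rw [Module.End.mul_apply, resσ_coe, resσ_coe, resσ_coe, ← hP.mul, Module.End.mul_apply]
  · intro f h
    apply LinearMap.ext
    intro x
    apply Subtype.ext
    rw [Module.End.mul_apply, resσ_coe, resρ_coe]
    have := congrArg (fun T : Module.End k P => T (x : P)) (hP.yd f h)
    simp only [Module.End.mul_apply] at this
    rw [this]
    simp only [sw3, LinearMap.sum_apply, Submodule.coe_sum, Module.End.mul_apply, resρ_coe,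
      resσ_coe]
  · apply LinearMap.ext
    intro x
    apply Subtype.ext
    have hx : theta ρ σ (x : P) = v • (x : P) := Module.End.mem_eigenspace_iff.1 (hUe x.2)
    rw [LinearMap.smul_apply, Module.End.one_apply, Submodule.coe_smul, ← hx]
    simp only [theta, LinearMap.sum_apply, Submodule.coe_sum, Module.End.mul_apply, resρ_coe,
      resσ_coe]
  · intro T hTρ hTσ
    obtain ⟨c, hc⟩ := Module.End.exists_eigenvalue T
    refine ⟨c, ?_⟩
    have hle : (Module.End.eigenspace T c).map U.subtype ≤ U := by
      rintro _ ⟨y, _, rfl⟩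
      exact y.2
    have hmem : (Module.End.eigenspace T c).map U.subtype ∈ good := by
      refine ⟨?_, hle.trans hUe, ?_, ?_⟩
      · intro h
        exact hc (Submodule.map_injective_of_injective (Submodule.injective_subtype U)
          (h.trans (Submodule.map_bot _).symm))
      · rintro h _ ⟨y, hy, rfl⟩
        refine ⟨resρ ρ U hUρ h y, ?_, rfl⟩
        have hy' : T y = c • y := Module.End.mem_eigenspace_iff.1 hy
        show resρ ρ U hUρ h y ∈ Module.End.eigenspace T c
        rw [Module.End.mem_eigenspace_iff]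
        have := congrArg (fun A : Module.End k U => A y) (hTρ h)
        simp only [Module.End.mul_apply] at this
        rw [this, hy', map_smul]
      · rintro f _ ⟨y, hy, rfl⟩
        refine ⟨resσ σ U hUσ f y, ?_, rfl⟩
        have hy' : T y = c • y := Module.End.mem_eigenspace_iff.1 hy
        show resσ σ U hUσ f y ∈ Module.End.eigenspace T c
        rw [Module.End.mem_eigenspace_iff]
        have := congrArg (fun A : Module.End k U => A y) (hTσ f)
        simp only [Module.End.mul_apply] at this
        rw [this, hy', map_smul]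
    have heq : (Module.End.eigenspace T c).map U.subtype = U := by
      by_contra hne
      exact hUmin _ hmem (lt_of_le_of_ne hle hne)
    apply LinearMap.ext
    intro x
    have hx : (x : P) ∈ (Module.End.eigenspace T c).map U.subtype := by
      rw [heq]; exact x.2
    obtain ⟨y, hy, hyx⟩ := hx
    have : y = x := Subtype.ext hyx
    subst this
    have hy' : T y = c • y := Module.End.mem_eigenspace_iff.1 hy
    rw [hy']
    rfl

theorem exists_simple [IsAlgClosed k] [CharZero k] (hS : ∀ x : H, Sa k H (Sa k H x) = x)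
    {N p : ℕ} (hN : 0 < N) (hp : p.Prime) (hpN : p ∣ N) (hQ : Q k H N = Q k H 0)
    (hQp : Q k H (N / p) ≠ Q k H 0) :
    ∃ (Y : Type) (_ : AddCommGroup Y) (_ : Module k Y) (_ : FiniteDimensional k Y)
      (ρ : H →ₐ[k] Module.End k Y) (σ : (H →ₗ[k] k) →ₗ[k] Module.End k Y) (v : k),
      IsYD ρ σ ∧ 0 < Module.finrank k Y ∧ theta ρ σ = v • 1 ∧ v ^ N = 1 ∧ v ^ (N / p) ≠ 1 ∧
      ∀ T : Module.End k Y, (∀ h, T * ρ h = ρ h * T) → (∀ f, T * σ f = σ f * T) →
        ∃ c : k, T = c • 1 := by
  have hP := isYD_P (k := k) (H := H) hS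
  refine simple_of (P := H ⊗[k] H) rP sP hS hP hN (theta_pow_one hS hP hQ) ?_
  intro h
  exact hQp (theta_P_pow hS h)
end Pool.Agent.KExp
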