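import Mathlib

/-!
# KExp.Four (MP_0d5e35_al, paper /team-store/MP_0d5e35_al_paper38.md)

(Mathlib only.) Fourier inversion on `ℤ/N`: `∑_{i<N} ζ^(i(n-l)) = N [n ≡ l mod N]`.
-/

set_option autoImplicit false

open scoped TensorProduct

namespace Pool.Agent.KExp


theorem fourier_inv {k : Type} [Field k] [CharZero k] {N : ℕ} (hN : 0 < N) {ζ : k}
    (hζ : IsPrimitiveRoot ζ N) (t : ℕ → k) (ht : ∀ n, t (n + N) = t n) (n : ℕ) :
    t n = ∑ i ∈ Finset.range N, ζ ^ (i * n) *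
      ((N : k)⁻¹ * ∑ l ∈ Finset.range N, ((ζ ^ i)⁻¹) ^ l * t l) := by
  have hper : Function.Periodic t N := ht
  have htm : t (n % N) = t n := hper.map_mod_nat n
  have hN' : (N : k) ≠ 0 := Nat.cast_ne_zero.2 hN.ne'
  have hζ0 : ζ ≠ 0 := hζ.ne_zero hN.ne'
  have hnm : ζ ^ n = ζ ^ (n % N) := by
    conv_lhs => rw [← Nat.mod_add_div n N, pow_add, pow_mul, hζ.pow_eq_one, one_pow, mul_one]
  have key : ∀ l ∈ Finset.range N, ∑ i ∈ Finset.range N, ζ ^ (i * n) * ((ζ ^ i)⁻¹) ^ l =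
      if l = n % N then (N : k) else 0 := by
    intro l hl
    have h1 : ∀ i, ζ ^ (i * n) * ((ζ ^ i)⁻¹) ^ l = (ζ ^ n * (ζ⁻¹) ^ l) ^ i := by
      intro i
      rw [mul_pow, ← pow_mul, ← pow_mul, ← inv_pow, ← pow_mul, mul_comm i n, mul_comm i l]
    simp only [h1]
    split_ifs with h
    · have h2 : ζ ^ n * (ζ⁻¹) ^ l = 1 := by
        rw [h, hnm, inv_pow, mul_inv_cancel₀ (pow_ne_zero _ hζ0)]
      simp only [h2, one_pow, Finset.sum_const, Finset.card_range, nsmul_eq_mul, mul_one]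
    · have h2 : ζ ^ n * (ζ⁻¹) ^ l ≠ 1 := by
        intro h3
        rw [inv_pow, hnm, mul_inv_eq_one₀ (pow_ne_zero _ hζ0)] at h3
        exact h (hζ.pow_inj (Finset.mem_range.1 hl) (Nat.mod_lt _ hN) h3.symm)
      have h4 : (ζ ^ n * (ζ⁻¹) ^ l) ^ N = 1 := by
        rw [mul_pow, ← pow_mul, ← pow_mul, mul_comm n N, mul_comm l N, pow_mul, pow_mul, inv_pow,
          hζ.pow_eq_one, inv_one, one_pow, one_pow, one_mul]
      have h5 := geom_sum_mul (ζ ^ n * (ζ⁻¹) ^ l) N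
      rw [h4, sub_self] at h5
      exact (mul_eq_zero.1 h5).resolve_right (sub_ne_zero.2 h2)
  calc t n = (N : k)⁻¹ * ∑ l ∈ Finset.range N, (if l = n % N then (N : k) else 0) * t l := by
        simp only [ite_mul, zero_mul, Finset.sum_ite_eq', Finset.mem_range, Nat.mod_lt n hN,
          if_true]
        rw [inv_mul_cancel_left₀ hN', htm]
    _ = (N : k)⁻¹ * ∑ l ∈ Finset.range N,
          (∑ i ∈ Finset.range N, ζ ^ (i * n) * ((ζ ^ i)⁻¹) ^ l) * t l := by
        congr 1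
        exact Finset.sum_congr rfl fun l hl => by rw [key l hl]
    _ = _ := by
        simp only [Finset.mul_sum, Finset.sum_mul]
        rw [Finset.sum_comm]
        exact Finset.sum_congr rfl fun i _ => Finset.sum_congr rfl fun l _ => by ring

end Pool.Agent.KExp
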