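import Mathlib

/-!
# KExp.Gal (MP_0d5e35_al, paper /team-store/MP_0d5e35_al_paper38.md)

(Mathlib only.) The Galois tool. aeval_pow: the minimal polynomial of `ζ` over `ℚ` is `Φ_M`
(`Polynomial.cyclotomic_eq_minpoly_rat`), it divides `f`, and `ζ^r` is also a primitive `M`-th root
(`IsPrimitiveRoot.pow_of_coprime`), hence a root of `Φ_M`.
int_adjoin: an element of `ℤ[ζ]` is `aeval ζ f` with `f : ℤ[X]`.
gal_transfer: if `x = ∑ a_j ζ^j = aeval (ζ^n) g` (`ζ` of order `M`, `x ∈ ℚ(ζ^n)`) then for `r` prime to `M` with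
`(ζ^n)^r = ζ^n`: `∑ a_j ζ^{jr} = x` (aeval_pow for the polynomial `∑ a_j X^j - g(X^n)`).
-/

set_option autoImplicit false

open scoped TensorProduct

namespace Pool.Agent.KExp


theorem aeval_pow {k : Type} [Field k] [CharZero k] {M r : ℕ} (hM : 0 < M) {ζ : k}
    (hζ : IsPrimitiveRoot ζ M) (hr : Nat.Coprime r M) (f : Polynomial ℚ)
    (hf : Polynomial.aeval ζ f = 0) : Polynomial.aeval (ζ ^ r) f = 0 := by
  have h1 : minpoly ℚ ζ ∣ f := minpoly.dvd ℚ ζ hf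
  have h2 := hζ.pow_of_coprime r hr
  have h3 : minpoly ℚ ζ = minpoly ℚ (ζ ^ r) := by
    rw [← Polynomial.cyclotomic_eq_minpoly_rat hζ hM, ← Polynomial.cyclotomic_eq_minpoly_rat h2 hM]
  rw [h3] at h1
  obtain ⟨g, rfl⟩ := h1
  rw [map_mul, minpoly.aeval, zero_mul]

theorem gal_transfer {k : Type} [Field k] [CharZero k] {M r n : ℕ} (hM : 0 < M) {ζ : k}
    (hζ : IsPrimitiveRoot ζ M) (hr : Nat.Coprime r M) (hn : (ζ ^ n) ^ r = ζ ^ n) (a : ℕ → ℕ)
    (b c : k) (q : ℚ) (hq : c * (q : k) = 1)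
    (hb : b ∈ Algebra.adjoin ℤ ({ζ ^ n} : Set k))
    (h : c * ∑ j ∈ Finset.range M, (a j : k) * ζ ^ j = b) :
    c * ∑ j ∈ Finset.range M, (a j : k) * ζ ^ (j * r) = b := by
  rw [Algebra.adjoin_singleton_eq_range_aeval] at hb
  obtain ⟨f, hf⟩ := hb
  have hfb : Polynomial.aeval (ζ ^ n) f = b := hf
  have hq0 : (q : k) ≠ 0 := by
    intro h0
    rw [h0, mul_zero] at hq
    exact zero_ne_one hq
  have hc : c = ((q⁻¹ : ℚ) : k) := by
    rw [Rat.cast_inv]
    exact eq_inv_of_mul_eq_one_left hq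
  have key : ∀ z : k, Polynomial.aeval z (Polynomial.C q⁻¹ *
      ∑ j ∈ Finset.range M, Polynomial.C (a j : ℚ) * Polynomial.X ^ j -
      (f.map (Int.castRingHom ℚ)).comp (Polynomial.X ^ n)) =
      c * ∑ j ∈ Finset.range M, (a j : k) * z ^ j - Polynomial.aeval (z ^ n) f := by
    intro z
    rw [map_sub, map_mul, map_sum, Polynomial.aeval_comp, hc]
    congr 1
    · simp
    · rw [map_pow, Polynomial.aeval_X]
      exact Polynomial.aeval_map_algebraMap (R := ℤ) ℚ (z ^ n) f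
  have h1 := aeval_pow hM hζ hr _ (by rw [key ζ, h, hfb, sub_self])
  rw [key (ζ ^ r)] at h1
  have h2 : (ζ ^ r) ^ n = ζ ^ n := by
    rw [← hn, ← pow_mul, ← pow_mul, mul_comm]
  rw [h2, hfb, sub_eq_zero] at h1
  rw [← h1]
  congr 1
  apply Finset.sum_congr rfl
  intro j _
  rw [← pow_mul, mul_comm j r]

end Pool.Agent.KExp
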