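import Mathlib

/-!
# KExp.Almost (MP_0d5e35_al, paper /team-store/MP_0d5e35_al_paper38.md)

(Mathlib only.) If `d x^j ∈ ℤ[ζ]` for all `j ≥ 1` then `x` is integral. PROOF. `A = ℤ[ζ]` is a finitely
generated `ℤ`-module (`ζ` is integral), so is `d⁻¹ A + ℤ`, which contains `ℤ[x]`; `ℤ` is noetherian, so `ℤ[x]` is a
finitely generated module and `x` is integral (`IsIntegral.of_mem_of_fg`, `isIntegral_of_smul_mem_submodule` ...).
-/

set_option autoImplicit false

open scoped TensorProduct

namespace Pool.Agent.KExp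


theorem integral_of_almost {k : Type} [Field k] [CharZero k] {ζ x d : k} (hζ : IsIntegral ℤ ζ)
    (hd : d ≠ 0) (h : ∀ j : ℕ, d * x ^ (j + 1) ∈ Algebra.adjoin ℤ ({ζ} : Set k)) :
    IsIntegral ℤ x := by
  classical
  by_cases hx : x = 0
  · rw [hx]; exact isIntegral_zero
  set A : Submodule ℤ k := Subalgebra.toSubmodule (Algebra.adjoin ℤ ({ζ} : Set k)) with hA
  have hfg : A.FG := hζ.fg_adjoin_singleton
  have hAn : IsNoetherian ℤ A := isNoetherian_of_fg_of_noetherian A hfg
  set M : Submodule ℤ k := Submodule.span ℤ (Set.range fun j : ℕ => x ^ (j + 1)) with hM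
  have hle : M.map (LinearMap.mulLeft ℤ d) ≤ A := by
    rw [hM, Submodule.map_span, Submodule.span_le]
    rintro _ ⟨_, ⟨j, rfl⟩, rfl⟩
    exact h j
  have hfg2 : (M.map (LinearMap.mulLeft ℤ d)).FG := by
    have h1 : IsNoetherian ℤ (M.map (LinearMap.mulLeft ℤ d)) := isNoetherian_of_le hle
    exact (isNoetherian_submodule.1 h1) _ le_rfl
  have hinj : Function.Injective (LinearMap.mulLeft ℤ d) := fun a b hab => by
    simpa [hd] using hab
  have hMfg : M.FG := Submodule.fg_of_fg_map_injective _ hinj hfg2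
  refine isIntegral_of_smul_mem_submodule (A := k) (M := k) M ?_ hMfg x ?_
  · intro hbot
    have h1 : x ^ (0 + 1) ∈ M := Submodule.subset_span ⟨0, rfl⟩
    rw [hbot, Submodule.mem_bot] at h1
    exact hx (by simpa using h1)
  · intro n hn
    induction hn using Submodule.span_induction with
    | mem y hy =>
      obtain ⟨j, rfl⟩ := hy
      have h1 : x • x ^ (j + 1) = x ^ (j + 1 + 1) := by rw [smul_eq_mul, pow_succ x (j + 1), mul_comm]
      show x • x ^ (j + 1) ∈ M
      rw [h1]
      exact Submodule.subset_span ⟨j + 1, rfl⟩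
    | zero => rw [smul_zero]; exact M.zero_mem
    | add y z _ _ hy hz => rw [smul_add]; exact M.add_mem hy hz
    | smul c y _ hy => rw [smul_comm]; exact M.smul_mem c hy

end Pool.Agent.KExp
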