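import Pool.Agent.Lib.KExp.Defs
import Pool.Agent.Lib.KExp.Sw

/-!
# KExp.TensApp (MP_0d5e35_al, paper /team-store/MP_0d5e35_al_paper38.md)

The values of the tensor product action and coaction. PROOFS. tR_apply: unfold, `comulAlgHom_apply`,
`sw2_eq_lift` (or: both sides linear in `Δ(h) = ∑ eⱼ ⊗ D j h`). tS_apply: `LinearMap.sum_apply`, smulRight.
-/

set_option autoImplicit false

open scoped TensorProduct

namespace Pool.Agent.KExp

variable {k : Type} [Field k] {H : Type} [Ring H] [HopfAlgebra k H] [FiniteDimensional k H]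

variable {X Y : Type} [AddCommGroup X] [Module k X] [AddCommGroup Y] [Module k Y]

private theorem bil_map_aux (ρ : H →ₐ[k] Module.End k X) (ρ' : H →ₐ[k] Module.End k Y) :
    Bil2 k (fun a b : H => TensorProduct.map (ρ a) (ρ' b)) := by
  refine ⟨fun b => ⟨fun x y => ?_, fun c x => ?_⟩, fun a => ⟨fun x y => ?_, fun c x => ?_⟩⟩
  · change TensorProduct.map (ρ (x + y)) (ρ' b) = _
    rw [map_add, TensorProduct.map_add_left]
  · change TensorProduct.map (ρ (c • x)) (ρ' b) = _
    rw [map_smul, TensorProduct.map_smul_left]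
  · change TensorProduct.map (ρ a) (ρ' (x + y)) = _
    rw [map_add, TensorProduct.map_add_right]
  · change TensorProduct.map (ρ a) (ρ' (c • x)) = _
    rw [map_smul, TensorProduct.map_smul_right]

theorem tR_apply (ρ : H →ₐ[k] Module.End k X) (ρ' : H →ₐ[k] Module.End k Y) (h : H) :
    tR ρ ρ' h = sw2 k (fun a b => TensorProduct.map (ρ a) (ρ' b)) h := by
  have hb := bil_map_aux ρ ρ'
  obtain ⟨B, hB⟩ : ∃ B : H →ₗ[k] H →ₗ[k] Module.End k (X ⊗[k] Y),
      ∀ a b, B a b = TensorProduct.map (ρ a) (ρ' b) :=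
    ⟨LinearMap.mk₂ k (fun a b => TensorProduct.map (ρ a) (ρ' b))
      (fun a a' b => (hb.1 b).map_add a a') (fun c a b => (hb.1 b).map_smul c a)
      (fun a b b' => (hb.2 a).map_add b b') (fun c a b => (hb.2 a).map_smul c b),
      fun _ _ => rfl⟩
  have h1 := sw2_eq_lift B h
  simp only [hB] at h1
  rw [h1]
  have key : ∀ t : H ⊗[k] H,
      Module.endTensorEndAlgHom (R := k) (S := k) (A := k) (M := X) (N := Y)
        (Algebra.TensorProduct.map ρ ρ' t) = TensorProduct.lift B t := by
    intro t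
    induction t using TensorProduct.induction_on with
    | zero => rw [map_zero, map_zero, map_zero]
    | tmul x y =>
      rw [Algebra.TensorProduct.map_tmul, Module.endTensorEndAlgHom_apply,
        TensorProduct.lift.tmul, hB]
      rfl
    | add x y hx hy => rw [map_add, map_add, map_add, hx, hy]
  exact key _

theorem tS_apply (σ : (H →ₗ[k] k) →ₗ[k] Module.End k X) (σ' : (H →ₗ[k] k) →ₗ[k] Module.End k Y)
    (f : H →ₗ[k] k) : tS σ σ' f =
      ∑ i, ∑ j, f (e k H i * e k H j) • TensorProduct.map (σ (ec k H i)) (σ' (ec k H j)) := by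
  unfold tS
  simp only [LinearMap.sum_apply, LinearMap.smulRight_apply, LinearMap.applyₗ_apply_apply]

theorem bil_map (ρ : H →ₐ[k] Module.End k X) (ρ' : H →ₐ[k] Module.End k Y) :
    Bil2 k (fun a b : H => TensorProduct.map (ρ a) (ρ' b)) :=
  bil_map_aux ρ ρ'

end Pool.Agent.KExp
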