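import Pool.Agent.Lib.KExp.Defs
import Pool.Agent.Lib.KExp.Sw
import Pool.Agent.Lib.KExp.CE
import Pool.Agent.Lib.KExp.TensApp
import Pool.Agent.Lib.KExp.Theta

/-!
# KExp.MTheta (MP_0d5e35_al, paper /team-store/MP_0d5e35_al_paper38.md)

(1.3) `θ_{X⊗Y} = M (θ_X ⊗ θ_Y)`. PROOF.
LHS `= ∑_q tR(e_q) tS(e^q)`. By ce_cv and ce_mul it equals
`∑_{a,b,c,d} ρ(e_a e_b) σ(e^a * e^c) ⊗ ρ'(e_c e_d) σ'(e^b * e^d)` (element check: `x ⊗ y ↦ x₋₂y₋₂x₀ ⊗ x₋₁y₋₁y₀`)
`= ∑ ρ(e_a) ρ(e_b) σ(e^c) σ(e^a) ⊗ ρ'(e_c) [∑_d ρ'(e_d) σ'(e^d)] σ'(e^b)`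
`= ∑_{a,b,c} ρ(e_a e_b) σ(e^a * e^c) ⊗ ρ'(e_c) σ'(e^b) θ_Y` (theta_sigma).
RHS `= ∑_{i,j} ρ(e_j) σ(e^i) θ_X ⊗ σ'(e^j) ρ'(e_i) θ_Y = ∑_{i,j,a} ρ(e_j e_a) σ(e^i * e^a) ⊗ σ'(e^j) ρ'(e_i) θ_Y`
(θ_X commutes with σ, and `θ_X = ∑ ρ(e_a) σ(e^a)`, `σ(e^a) σ(e^i) = σ(cv e^i e^a)`). Insert
`σ'(e^j) ρ'(e_i) = ∑ ρ'(e_{i2}) σ'(e^j(e_{i1}·S(e_{i3})))` (yd) and move by ce_lin in `j`:
`∑ ρ(e_{i1} e_j S(e_{i3}) e_a) σ(e^i * e^a) ⊗ ρ'(e_{i2}) σ'(e^j) θ_Y`. Since
`∑_{i,a} e_{i1} ⊗ e_{i2} ⊗ e_{i3} ⊗ e_a ⊗ (e^i * e^a)` is `∑_l e_{l1} ⊗ e_{l2} ⊗ e_{l3} ⊗ e_{l4} ⊗ e^l` (ce_cv), the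
factor `S(e_{l3}) e_{l4}` collapses (sw2_S_mul) and we get `∑_{l,j} ρ(e_{l1} e_j) σ(e^l) ⊗ ρ'(e_{l2}) σ'(e^j) θ_Y`
`= ∑_{p,q,j} ρ(e_p e_j) σ(e^p * e^q) ⊗ ρ'(e_q) σ'(e^j) θ_Y`, which is the LHS.
-/

set_option autoImplicit false

open scoped TensorProduct

namespace Pool.Agent.KExp

variable {k : Type} [Field k] {H : Type} [Ring H] [HopfAlgebra k H] [FiniteDimensional k H]

variable {X Y : Type} [AddCommGroup X] [Module k X] [AddCommGroup Y] [Module k Y]
  {ρ : H →ₐ[k] Module.End k X} {σ : (H →ₗ[k] k) →ₗ[k] Module.End k X}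
  {ρ' : H →ₐ[k] Module.End k Y} {σ' : (H →ₗ[k] k) →ₗ[k] Module.End k Y}

/-- linearity in three variables -/
private structure Lin3 {Z : Type} [AddCommGroup Z] [Module k Z] (Φ : H → H → H → Z) :
    Prop where
  a1 : ∀ x x' b c, Φ (x + x') b c = Φ x b c + Φ x' b c
  s1 : ∀ (r : k) x b c, Φ (r • x) b c = r • Φ x b c
  a2 : ∀ a x x' c, Φ a (x + x') c = Φ a x c + Φ a x' c
  s2 : ∀ (r : k) a x c, Φ a (r • x) c = r • Φ a x c
  a3 : ∀ a b x x', Φ a b (x + x') = Φ a b x + Φ a b x'
  s3 : ∀ (r : k) a b x, Φ a b (r • x) = r • Φ a b x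

private theorem sw2_congr {Z : Type} [AddCommMonoid Z] {F G : H → H → Z}
    (h : ∀ a b, F a b = G a b) (x : H) : sw2 k F x = sw2 k G x := by
  unfold sw2
  exact Finset.sum_congr rfl fun j _ => h _ _

private theorem sw3_congr {Z : Type} [AddCommMonoid Z] {F G : H → H → H → Z}
    (h : ∀ a b c, F a b c = G a b c) (x : H) : sw3 k F x = sw3 k G x := by
  unfold sw3
  exact Finset.sum_congr rfl fun j _ => Finset.sum_congr rfl fun l _ => h _ _ _

private theorem sum_sw2 {Z : Type} [AddCommMonoid Z] {ι : Type} (T : Finset ι)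
    (F : ι → H → H → Z) (a : H) :
    ∑ t ∈ T, sw2 k (F t) a = sw2 k (fun x y => ∑ t ∈ T, F t x y) a := by
  unfold sw2
  rw [Finset.sum_comm]

private theorem smul_sw2 {Z : Type} [AddCommGroup Z] [Module k Z] (r : k)
    (F : H → H → Z) (a : H) : r • (sw2 k F a) = sw2 k (fun x y => r • (F x y)) a := by
  unfold sw2
  simp only [Finset.smul_sum]

private theorem sum_sw3 {Z : Type} [AddCommMonoid Z] {ι : Type} (T : Finset ι)
    (F : ι → H → H → H → Z) (a : H) :
    ∑ t ∈ T, sw3 k (F t) a = sw3 k (fun x y z => ∑ t ∈ T, F t x y z) a := by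
  unfold sw3
  rw [Finset.sum_comm]
  refine Finset.sum_congr rfl fun j _ => ?_
  rw [Finset.sum_comm]

private theorem map_sw3 {Z Z' : Type} [AddCommGroup Z] [Module k Z] [AddCommGroup Z']
    [Module k Z'] (L : Z →ₗ[k] Z') (F : H → H → H → Z) (a : H) :
    L (sw3 k F a) = sw3 k (fun x y z => L (F x y z)) a := by
  unfold sw3
  simp only [map_sum]

/-- `h₁ ⊗ h₂ ⊗ S(h₃) h₄ = h₁ ⊗ h₂ ⊗ 1` -/
private theorem four {Z : Type} [AddCommGroup Z] [Module k Z] {Φ : H → H → H → Z}
    (hΦ : Lin3 (k := k) Φ) (h : H) :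
    sw2 k (fun u v => sw3 k (fun x y z => Φ x y (Sa k H z * v)) u) h =
      sw2 k (fun x y => Φ x y 1) h := by
  obtain ⟨a1, s1, a2, s2, a3, s3⟩ := hΦ
  simp only [sw3_eq]
  have t1 : Tri3 k (fun x u' v => sw2 k (fun y z => Φ x y (Sa k H z * v)) u') := by
    refine ⟨fun b c => ⟨?_, ?_⟩, fun b c => ⟨?_, ?_⟩, fun b c => ⟨?_, ?_⟩⟩
    · intro x x'
      simp only [sw2, a1, Finset.sum_add_distrib]
    · intro r x
      simp only [sw2, s1, Finset.smul_sum]
    · intro x x'
      simp only [sw2, map_add, add_mul, a3, Finset.sum_add_distrib]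
    · intro r x
      simp only [sw2, map_smul, smul_mul_assoc, s3, Finset.smul_sum]
    · intro x x'
      simp only [sw2, mul_add, a3, Finset.sum_add_distrib]
    · intro r x
      simp only [sw2, mul_smul_comm, s3, Finset.smul_sum]
  have t2 := sw2_assoc t1 h
  rw [sw3_eq] at t2
  rw [t2]
  refine sw2_congr (fun x w => ?_) h
  have t3 : Tri3 k (fun y z v => Φ x y (Sa k H z * v)) := by
    refine ⟨fun b c => ⟨?_, ?_⟩, fun b c => ⟨?_, ?_⟩, fun b c => ⟨?_, ?_⟩⟩
    · intro x x'
      simp only [a2]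
    · intro r x
      simp only [s2]
    · intro x x'
      simp only [map_add, add_mul, a3]
    · intro r x
      simp only [map_smul, smul_mul_assoc, s3]
    · intro x x'
      simp only [mul_add, a3]
    · intro r x
      simp only [mul_smul_comm, s3]
  have t4 := sw2_assoc t3 w
  rw [sw3_eq] at t4
  rw [t4]
  have t5 : ∀ y w' : H, sw2 k (fun z v => Φ x y (Sa k H z * v)) w' =
      ep k H w' • Φ x y 1 := fun y w' =>
    sw2_S_mul (f := fun z => Φ x y z) ⟨fun _ _ => a3 _ _ _ _, fun _ _ => s3 _ _ _ _⟩ w'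
  rw [sw2_congr (fun y w' => t5 y w')]
  exact sw2_counit_right (f := fun y => Φ x y 1) ⟨fun _ _ => a2 _ _ _ _, fun _ _ => s2 _ _ _ _⟩ w

/-- `TensorProduct.map` as a bilinear map -/
private noncomputable def MB (k : Type) [Field k] (X Y : Type) [AddCommGroup X] [Module k X]
    [AddCommGroup Y] [Module k Y] :
    Module.End k X →ₗ[k] Module.End k Y →ₗ[k] Module.End k (X ⊗[k] Y) :=
  TensorProduct.mapBilinear (RingHom.id k) X Y X Y

omit [FiniteDimensional k H] [HopfAlgebra k H] [Ring H] in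
private theorem MB_apply (A : Module.End k X) (B : Module.End k Y) :
    TensorProduct.map A B = MB k X Y A B := rfl

omit [FiniteDimensional k H] [HopfAlgebra k H] [Ring H] in
private theorem MB_mul (A A' : Module.End k X) (B B' : Module.End k Y) :
    MB k X Y A B * MB k X Y A' B' = MB k X Y (A * A') (B * B') :=
  (TensorProduct.map_mul _ _ _ _).symm

theorem theta_tens (hS : ∀ x : H, Sa k H (Sa k H x) = x) (hX : IsYD ρ σ) (hY : IsYD ρ' σ') :
    theta (tR ρ ρ') (tS σ σ') =
      Mop ρ σ ρ' σ' * TensorProduct.map (theta ρ σ) (theta ρ' σ') := by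
  -- the left hand side
  have m1 : ∀ (T : Module.End k (X ⊗[k] Y)) (F : H → H → Module.End k (X ⊗[k] Y)) (x : H),
      sw2 k F x * T = sw2 k (fun a b => F a b * T) x := by
    intro T F x
    unfold sw2
    rw [Finset.sum_mul]
  have L1 : theta (tR ρ ρ') (tS σ σ') = ∑ i, ∑ j, sw2 k (fun a a' => sw2 k (fun b b' =>
      MB k X Y (ρ (a * b) * σ (ec k H i)) (ρ' (a' * b') * σ' (ec k H j))) (e k H j))
        (e k H i) := by
    unfold theta
    have h1 : ∀ q, tR ρ ρ' (e k H q) * tS σ σ' (ec k H q) =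
        ∑ i, ∑ j, ec k H q (e k H i * e k H j) • sw2 k (fun a b =>
          MB k X Y (ρ a * σ (ec k H i)) (ρ' b * σ' (ec k H j))) (e k H q) := by
      intro q
      rw [tR_apply, tS_apply]
      simp only [Finset.mul_sum, mul_smul_comm, m1, MB_apply, MB_mul, smul_sw2, sum_sw2]
    rw [Finset.sum_congr rfl fun q _ => h1 q]
    have h2 := ce_mul (k := k) (H := H) (G := fun F F' x => sw2 k (fun a b =>
      MB k X Y (ρ a * σ F) (ρ' b * σ' F')) x) ?_ ?_ ?_
    · refine h2.trans ?_
      refine Finset.sum_congr rfl fun i _ => Finset.sum_congr rfl fun j _ => ?_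
      refine sw2_mul ⟨fun b => ⟨?_, ?_⟩, fun b => ⟨?_, ?_⟩⟩ _ _
      · intro x y
        simp only [map_add, add_mul, LinearMap.add_apply]
      · intro r x
        simp only [map_smul, smul_mul_assoc, LinearMap.smul_apply]
      · intro x y
        simp only [map_add, add_mul]
      · intro r x
        simp only [map_smul, smul_mul_assoc]
    · intro F x
      refine ⟨fun x y => ?_, fun r x => ?_⟩
      · simp only [sw2, map_add, mul_add, LinearMap.add_apply, Finset.sum_add_distrib]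
      · simp only [sw2, map_smul, mul_smul_comm, LinearMap.smul_apply, Finset.smul_sum]
    · intro F x
      refine ⟨fun x y => ?_, fun r x => ?_⟩
      · simp only [sw2, map_add, mul_add, Finset.sum_add_distrib]
      · simp only [sw2, map_smul, mul_smul_comm, Finset.smul_sum]
    · intro F F'
      refine ⟨fun x y => ?_, fun r x => ?_⟩
      · simp only [sw2, map_add, add_mul, Finset.sum_add_distrib]
      · simp only [sw2, map_smul, smul_mul_assoc, Finset.smul_sum]
  have L2 : ∀ (i : Fin (Module.finrank k H)) (a a' : H),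
      ∑ j, sw2 k (fun b b' => MB k X Y (ρ (a * b) * σ (ec k H i))
        (ρ' (a' * b') * σ' (ec k H j))) (e k H j) =
      (∑ j, MB k X Y (ρ (a * e k H j) * σ (ec k H i)) (ρ' a' * σ' (ec k H j))) *
        MB k X Y 1 (theta ρ' σ') := by
    intro i a a'
    have h1 := ce_cv (k := k) (H := H) (G := fun b b' F =>
      MB k X Y (ρ (a * b) * σ (ec k H i)) (ρ' (a' * b') * σ' F)) ?_ ?_ ?_
    · refine h1.symm.trans ?_
      rw [Finset.sum_mul]
      refine Finset.sum_congr rfl fun r _ => ?_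
      rw [MB_mul, mul_one, mul_assoc, ← theta_sigma hS hY, ← map_sum]
      congr 1
      unfold theta
      rw [Finset.sum_mul, Finset.mul_sum]
      refine Finset.sum_congr rfl fun s _ => ?_
      rw [← hY.mul, map_mul]
      simp only [mul_assoc]
    · intro b F
      refine ⟨fun x y => ?_, fun r x => ?_⟩
      · simp only [map_add, mul_add, add_mul, LinearMap.add_apply]
      · simp only [map_smul, mul_smul_comm, smul_mul_assoc, LinearMap.smul_apply]
    · intro b F
      refine ⟨fun x y => ?_, fun r x => ?_⟩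
      · simp only [map_add, mul_add, add_mul]
      · simp only [map_smul, mul_smul_comm, smul_mul_assoc]
    · intro b F
      refine ⟨fun x y => ?_, fun r x => ?_⟩
      · simp only [map_add, mul_add]
      · simp only [map_smul, mul_smul_comm]
  have L3 : theta (tR ρ ρ') (tS σ σ') = (∑ i, sw2 k (fun a a' =>
      ∑ j, MB k X Y (ρ (a * e k H j) * σ (ec k H i)) (ρ' a' * σ' (ec k H j))) (e k H i)) *
        MB k X Y 1 (theta ρ' σ') := by
    rw [L1, Finset.sum_mul]
    refine Finset.sum_congr rfl fun i _ => ?_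
    rw [sum_sw2, m1]
    exact sw2_congr (fun a a' => L2 i a a') _
  -- the right hand side
  have R1 : Mop ρ σ ρ' σ' * TensorProduct.map (theta ρ σ) (theta ρ' σ') =
      (∑ i, ∑ a, sw3 k (fun x y z => ∑ j, MB k X Y
        (ρ (e k H j * e k H a) * σ (cv (ec k H i) (ec k H a)))
        (ρ' y * σ' (tw (ec k H j) x (Sa k H z)))) (e k H i)) * MB k X Y 1 (theta ρ' σ') := by
    unfold Mop
    rw [Finset.sum_mul, Finset.sum_mul]
    refine Finset.sum_congr rfl fun i _ => ?_
    rw [Finset.sum_mul, Finset.sum_mul]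
    have h1 : ∀ j, TensorProduct.map (ρ (e k H j) * σ (ec k H i)) (σ' (ec k H j) * ρ' (e k H i)) *
        TensorProduct.map (theta ρ σ) (theta ρ' σ') =
        ∑ a, sw3 k (fun x y z => MB k X Y
          (ρ (e k H j * e k H a) * σ (cv (ec k H i) (ec k H a)))
          (ρ' y * σ' (tw (ec k H j) x (Sa k H z)))) (e k H i) * MB k X Y 1 (theta ρ' σ') := by
      intro j
      have h2 : ρ (e k H j) * σ (ec k H i) * theta ρ σ =
          ∑ a, ρ (e k H j * e k H a) * σ (cv (ec k H i) (ec k H a)) := by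
        rw [mul_assoc, ← theta_sigma hS hX]
        unfold theta
        rw [Finset.sum_mul, Finset.mul_sum]
        refine Finset.sum_congr rfl fun s _ => ?_
        rw [← hX.mul, map_mul]
        simp only [mul_assoc]
      rw [MB_apply, MB_apply, MB_mul, h2, map_sum, LinearMap.sum_apply]
      refine Finset.sum_congr rfl fun a _ => ?_
      have h3 := MB_mul (k := k) (X := X) (Y := Y)
        (ρ (e k H j * e k H a) * σ (cv (ec k H i) (ec k H a))) 1
        (σ' (ec k H j) * ρ' (e k H i)) (theta ρ' σ')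
      rw [mul_one] at h3
      rw [← h3, hY.yd, map_sw3]
    rw [Finset.sum_congr rfl fun j _ => h1 j, Finset.sum_comm]
    refine Finset.sum_congr rfl fun a _ => ?_
    rw [← Finset.sum_mul, sum_sw3]
  have R2 : ∀ (i a : Fin (Module.finrank k H)) (x y z : H), ∑ j, MB k X Y
        (ρ (e k H j * e k H a) * σ (cv (ec k H i) (ec k H a)))
        (ρ' y * σ' (tw (ec k H j) x (Sa k H z))) =
      ∑ j, MB k X Y
        (ρ (x * (e k H j * (Sa k H z * e k H a))) * σ (cv (ec k H i) (ec k H a)))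
        (ρ' y * σ' (ec k H j)) := by
    intro i a x y z
    have h1 := ce_lin (LinearMap.mulLeft k x ∘ₗ LinearMap.mulRight k (Sa k H z))
      (G := fun w F => MB k X Y (ρ (w * e k H a) * σ (cv (ec k H i) (ec k H a)))
        (ρ' y * σ' F)) ?_ ?_
    · refine h1.trans ?_
      simp only [LinearMap.comp_apply, LinearMap.mulLeft_apply, LinearMap.mulRight_apply,
          mul_assoc]
    · intro F
      refine ⟨fun x y => ?_, fun r x => ?_⟩
      · simp only [map_add, add_mul, LinearMap.add_apply]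
      · simp only [map_smul, smul_mul_assoc, LinearMap.smul_apply]
    · intro F
      refine ⟨fun x y => ?_, fun r x => ?_⟩
      · simp only [map_add, mul_add]
      · simp only [map_smul, mul_smul_comm]
  rw [L3, R1]
  congr 1
  have R3 : (∑ i, ∑ a, sw3 k (fun x y z => ∑ j, MB k X Y
        (ρ (e k H j * e k H a) * σ (cv (ec k H i) (ec k H a)))
        (ρ' y * σ' (tw (ec k H j) x (Sa k H z)))) (e k H i)) =
      ∑ i, ∑ a, sw3 k (fun x y z => ∑ j, MB k X Y
        (ρ (x * (e k H j * (Sa k H z * e k H a))) * σ (cv (ec k H i) (ec k H a)))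
        (ρ' y * σ' (ec k H j))) (e k H i) :=
    Finset.sum_congr rfl fun i _ => Finset.sum_congr rfl fun a _ =>
      sw3_congr (fun x y z => R2 i a x y z) _
  rw [R3]
  have R4 := ce_cv (k := k) (H := H) (G := fun u v F => sw3 k (fun x y z => ∑ j, MB k X Y
        (ρ (x * (e k H j * (Sa k H z * v))) * σ F)
        (ρ' y * σ' (ec k H j))) u) ?_ ?_ ?_
  · refine Eq.symm (R4.trans ?_)
    refine Finset.sum_congr rfl fun l _ => ?_
    have h1 := four (k := k) (H := H) (Φ := fun x y w => ∑ j, MB k X Y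
        (ρ (x * (e k H j * w)) * σ (ec k H l)) (ρ' y * σ' (ec k H j))) ?_ (e k H l)
    · refine h1.trans ?_
      simp only [mul_one]
    · constructor
      · intro x x' b c
        simp only [add_mul, map_add, LinearMap.add_apply, Finset.sum_add_distrib]
      · intro r x b c
        simp only [smul_mul_assoc, map_smul, LinearMap.smul_apply, Finset.smul_sum]
      · intro x x' b c
        simp only [add_mul, map_add, Finset.sum_add_distrib]
      · intro r x b c
        simp only [smul_mul_assoc, map_smul, Finset.smul_sum]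
      · intro x x' b c
        simp only [mul_add, add_mul, map_add, LinearMap.add_apply, Finset.sum_add_distrib]
      · intro r x b c
        simp only [mul_smul_comm, smul_mul_assoc, map_smul, LinearMap.smul_apply,
          Finset.smul_sum]
  · intro b F
    refine ⟨fun x y => ?_, fun r x => ?_⟩
    · simp only [sw3, map_add, mul_add, add_mul, LinearMap.add_apply, Finset.sum_add_distrib]
    · simp only [sw3, map_smul, mul_smul_comm, smul_mul_assoc, LinearMap.smul_apply,
        Finset.smul_sum]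
  · intro b F
    refine ⟨fun x y => ?_, fun r x => ?_⟩
    · simp only [sw3, map_add, mul_add, add_mul, LinearMap.add_apply, Finset.sum_add_distrib]
    · simp only [sw3, map_smul, mul_smul_comm, smul_mul_assoc, LinearMap.smul_apply,
        Finset.smul_sum]
  · intro a b
    refine ⟨fun x y => ?_, fun r x => ?_⟩
    · simp only [sw3, map_add, mul_add, LinearMap.add_apply, Finset.sum_add_distrib]
    · simp only [sw3, map_smul, mul_smul_comm, LinearMap.smul_apply, Finset.smul_sum]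

end Pool.Agent.KExp
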