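import Pool.Agent.Lib.KExp.Defs
import Pool.Agent.Lib.KExp.Sw
import Pool.Agent.Lib.KExp.CE
import Pool.Agent.Lib.KExp.TensApp

/-!
# KExp.TensYD (MP_0d5e35_al, paper /team-store/MP_0d5e35_al_paper38.md)

The tensor product of Yetter-Drinfeld data. PROOFS. one: `∑ ε(eᵢ eⱼ) σ(e^i) ⊗ σ(e^j) = σ(ε) ⊗ σ(ε)`.
mul: `σ(f)σ(g) = ∑ f(eᵢeⱼ) g(e_p e_q) σ(e^p * e^i) ⊗ σ'(e^q * e^j)`, expand by ce_cv twice: this is
`∑_{a,b} g(a₁b₁) f(a₂b₂) σ(e^a) ⊗ σ'(e^b)` with `a = e_a, b = e_b`, which is `tS (cv g f)` (sw2_mul and cv_apply).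
yd: `tS f * tR h = ∑ f(eᵢeⱼ) σ(e^i)ρ(h₁) ⊗ σ'(e^j)ρ'(h₂)
= ∑ f(eᵢeⱼ) ρ(h₂) σ(e^i(h₁·S(h₃))) ⊗ ρ'(h₅) σ'(e^j(h₄·S(h₆)))
= ∑ f(h₁ eᵢ S(h₃) h₄ eⱼ S(h₆)) ρ(h₂) σ(e^i) ⊗ ρ'(h₅) σ'(e^j)` (ce_lin in both factors)
`= ∑ f(h₁ eᵢ eⱼ S(h₄)) ρ(h₂) σ(e^i) ⊗ ρ'(h₃) σ'(e^j)`, and the right hand side
`sw3 (a,b,c ↦ tR b * tS (tw f a (S c)))` is the same expression. All steps: sw2_assoc, sw2_S_mul.
-/

set_option autoImplicit false

open scoped TensorProduct

namespace Pool.Agent.KExp

variable {k : Type} [Field k] {H : Type} [Ring H] [HopfAlgebra k H] [FiniteDimensional k H]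

variable {X Y : Type} [AddCommGroup X] [Module k X] [AddCommGroup Y] [Module k Y]
  {ρ : H →ₐ[k] Module.End k X} {σ : (H →ₗ[k] k) →ₗ[k] Module.End k X}
  {ρ' : H →ₐ[k] Module.End k Y} {σ' : (H →ₗ[k] k) →ₗ[k] Module.End k Y}

/-- linearity in five variables -/
private structure Lin5 {Z : Type} [AddCommGroup Z] [Module k Z] (Φ : H → H → H → H → H → Z) :
    Prop where
  a1 : ∀ x x' b c d e, Φ (x + x') b c d e = Φ x b c d e + Φ x' b c d e
  s1 : ∀ (r : k) x b c d e, Φ (r • x) b c d e = r • Φ x b c d e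
  a2 : ∀ a x x' c d e, Φ a (x + x') c d e = Φ a x c d e + Φ a x' c d e
  s2 : ∀ (r : k) a x c d e, Φ a (r • x) c d e = r • Φ a x c d e
  a3 : ∀ a b x x' d e, Φ a b (x + x') d e = Φ a b x d e + Φ a b x' d e
  s3 : ∀ (r : k) a b x d e, Φ a b (r • x) d e = r • Φ a b x d e
  a4 : ∀ a b c x x' e, Φ a b c (x + x') e = Φ a b c x e + Φ a b c x' e
  s4 : ∀ (r : k) a b c x e, Φ a b c (r • x) e = r • Φ a b c x e
  a5 : ∀ a b c d x x', Φ a b c d (x + x') = Φ a b c d x + Φ a b c d x'
  s5 : ∀ (r : k) a b c d x, Φ a b c d (r • x) = r • Φ a b c d x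

private theorem sw2_congr {Z : Type} [AddCommMonoid Z] {F G : H → H → Z}
    (h : ∀ a b, F a b = G a b) (x : H) : sw2 k F x = sw2 k G x := by
  unfold sw2
  exact Finset.sum_congr rfl fun j _ => h _ _

private theorem five {Z : Type} [AddCommGroup Z] [Module k Z] {Φ : H → H → H → H → H → Z}
    (hΦ : Lin5 (k := k) Φ) (h : H) :
    sw2 k (fun a b => sw3 k (fun a1 a2 a3 =>
      sw3 k (fun b1 b2 b3 => Φ a1 a2 (Sa k H a3 * b1) b2 b3) b) a) h =
    sw3 k (fun a b c => sw2 k (fun b1 b2 => Φ a b1 1 b2 c) b) h := by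
  obtain ⟨a1, s1, a2, s2, a3, s3, a4, s4, a5, s5⟩ := hΦ
  have step1 : ∀ y : H, ∀ x1 x2 : H,
      sw2 k (fun x3 b => sw2 k (fun b1 b' => sw2 k (fun b2 b3 =>
        Φ x1 x2 (Sa k H x3 * b1) b2 b3) b') b) y =
      sw2 k (fun b2 b3 => Φ x1 x2 1 b2 b3) y := by
    intro y x1 x2
    have t1 : Tri3 k (fun x3 b1 b' => sw2 k (fun b2 b3 =>
        Φ x1 x2 (Sa k H x3 * b1) b2 b3) b') := by
      refine ⟨fun b c => ⟨?_, ?_⟩, fun b c => ⟨?_, ?_⟩, fun b c => ⟨?_, ?_⟩⟩
      · intro x x'
        simp only [sw2, map_add, add_mul, a3, Finset.sum_add_distrib]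
      · intro r x
        simp only [sw2, map_smul, smul_mul_assoc, s3, Finset.smul_sum]
      · intro x x'
        simp only [sw2, mul_add, a3, Finset.sum_add_distrib]
      · intro r x
        simp only [sw2, mul_smul_comm, s3, Finset.smul_sum]
      · intro x x'
        simp only [sw2, map_add, a5, Finset.sum_add_distrib]
      · intro r x
        simp only [sw2, map_smul, s5, Finset.smul_sum]
    have t2 := sw2_assoc t1 y
    rw [sw3_eq] at t2
    rw [← t2]
    have t3 : ∀ x b' : H, sw2 k (fun x3 b1 => sw2 k (fun b2 b3 =>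
        Φ x1 x2 (Sa k H x3 * b1) b2 b3) b') x =
        ep k H x • sw2 k (fun b2 b3 => Φ x1 x2 1 b2 b3) b' := by
      intro x b'
      refine sw2_S_mul (f := fun z => sw2 k (fun b2 b3 => Φ x1 x2 z b2 b3) b') ⟨?_, ?_⟩ x
      · intro x x'
        simp only [sw2, a3, Finset.sum_add_distrib]
      · intro r x
        simp only [sw2, s3, Finset.smul_sum]
    rw [sw2_congr (fun x b' => t3 x b')]
    refine sw2_counit_left (f := fun b' => sw2 k (fun b2 b3 => Φ x1 x2 1 b2 b3) b') ⟨?_, ?_⟩ y
    · intro x x'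
      simp only [sw2, map_add, a5, Finset.sum_add_distrib]
    · intro r x
      simp only [sw2, map_smul, s5, Finset.smul_sum]
  -- the left hand side
  have lhs : sw2 k (fun a b => sw3 k (fun a1 a2 a3 =>
      sw3 k (fun b1 b2 b3 => Φ a1 a2 (Sa k H a3 * b1) b2 b3) b) a) h =
      sw2 k (fun x1 y => sw2 k (fun x2 y' => sw2 k (fun x3 b => sw2 k (fun b1 b' =>
        sw2 k (fun b2 b3 => Φ x1 x2 (Sa k H x3 * b1) b2 b3) b') b) y') y) h := by
    simp only [sw3_eq]
    have t1 : Tri3 k (fun x1 a' b => sw2 k (fun x2 x3 => sw2 k (fun b1 b' =>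
        sw2 k (fun b2 b3 => Φ x1 x2 (Sa k H x3 * b1) b2 b3) b') b) a') := by
      refine ⟨fun b c => ⟨?_, ?_⟩, fun b c => ⟨?_, ?_⟩, fun b c => ⟨?_, ?_⟩⟩
      · intro x x'
        simp only [sw2, a1, Finset.sum_add_distrib]
      · intro r x
        simp only [sw2, s1, Finset.smul_sum]
      · intro x x'
        simp only [sw2, map_add, add_mul, a3, Finset.sum_add_distrib]
      · intro r x
        simp only [sw2, map_smul, smul_mul_assoc, s3, Finset.smul_sum]
      · intro x x'
        simp only [sw2, map_add, a5, Finset.sum_add_distrib]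
      · intro r x
        simp only [sw2, map_smul, s5, Finset.smul_sum]
    have t2 := sw2_assoc t1 h
    rw [sw3_eq] at t2
    rw [t2]
    refine sw2_congr (fun x1 y => ?_) h
    have t3 : Tri3 k (fun x2 x3 b => sw2 k (fun b1 b' =>
        sw2 k (fun b2 b3 => Φ x1 x2 (Sa k H x3 * b1) b2 b3) b') b) := by
      refine ⟨fun b c => ⟨?_, ?_⟩, fun b c => ⟨?_, ?_⟩, fun b c => ⟨?_, ?_⟩⟩
      · intro x x'
        simp only [sw2, a2, Finset.sum_add_distrib]
      · intro r x
        simp only [sw2, s2, Finset.smul_sum]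
      · intro x x'
        simp only [sw2, map_add, add_mul, a3, Finset.sum_add_distrib]
      · intro r x
        simp only [sw2, map_smul, smul_mul_assoc, s3, Finset.smul_sum]
      · intro x x'
        simp only [sw2, map_add, a5, Finset.sum_add_distrib]
      · intro r x
        simp only [sw2, map_smul, s5, Finset.smul_sum]
    have t4 := sw2_assoc t3 y
    rw [sw3_eq] at t4
    exact t4
  rw [lhs, sw3_eq]
  refine sw2_congr (fun x1 y => ?_) h
  rw [sw2_congr (fun x2 y' => step1 y' x1 x2)]
  have t1 : Tri3 k (fun b1 b2 c => Φ x1 b1 1 b2 c) := by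
    refine ⟨fun b c => ⟨?_, ?_⟩, fun b c => ⟨?_, ?_⟩, fun b c => ⟨?_, ?_⟩⟩
    · intro x x'
      exact a2 _ _ _ _ _ _
    · intro r x
      exact s2 _ _ _ _ _ _
    · intro x x'
      exact a4 _ _ _ _ _ _
    · intro r x
      exact s4 _ _ _ _ _ _
    · intro x x'
      exact a5 _ _ _ _ _ _
    · intro r x
      exact s5 _ _ _ _ _ _
  have t2 := sw2_assoc t1 y
  rw [sw3_eq] at t2
  exact t2.symm

/-- `TensorProduct.map` as a bilinear map -/
private noncomputable def MB (k : Type) [Field k] (X Y : Type) [AddCommGroup X] [Module k X]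
    [AddCommGroup Y] [Module k Y] :
    Module.End k X →ₗ[k] Module.End k Y →ₗ[k] Module.End k (X ⊗[k] Y) :=
  TensorProduct.mapBilinear (RingHom.id k) X Y X Y

omit [FiniteDimensional k H] [HopfAlgebra k H] [Ring H] in
private theorem MB_apply (A : Module.End k X) (B : Module.End k Y) :
    TensorProduct.map A B = MB k X Y A B := rfl

omit [FiniteDimensional k H] [HopfAlgebra k H] [Ring H] in
private theorem MB_mul (A A' : Module.End k X) (B B' : Module.End k Y) :
    MB k X Y A B * MB k X Y A' B' = MB k X Y (A * A') (B * B') :=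
  (TensorProduct.map_mul _ _ _ _).symm

private theorem sum_sw3 {Z : Type} [AddCommMonoid Z] {ι : Type} (T : Finset ι)
    (F : ι → H → H → H → Z) (a : H) :
    ∑ t ∈ T, sw3 k (F t) a = sw3 k (fun x y z => ∑ t ∈ T, F t x y z) a := by
  unfold sw3
  rw [Finset.sum_comm]
  refine Finset.sum_congr rfl fun j _ => ?_
  rw [Finset.sum_comm]

private theorem sw3_congr {Z : Type} [AddCommMonoid Z] {F G : H → H → H → Z}
    (h : ∀ a b c, F a b c = G a b c) (x : H) : sw3 k F x = sw3 k G x := by
  unfold sw3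
  exact Finset.sum_congr rfl fun j _ => Finset.sum_congr rfl fun l _ => h _ _ _

private theorem map_sw3 {Z Z' : Type} [AddCommGroup Z] [Module k Z] [AddCommGroup Z']
    [Module k Z'] (L : Z →ₗ[k] Z') (F : H → H → H → Z) (a : H) :
    L (sw3 k F a) = sw3 k (fun x y z => L (F x y z)) a := by
  unfold sw3
  simp only [map_sum]

private theorem smul_sw3 {Z : Type} [AddCommGroup Z] [Module k Z] (r : k)
    (F : H → H → H → Z) (a : H) :
    r • (sw3 k F a) = sw3 k (fun x y z => r • (F x y z)) a := by
  unfold sw3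
  simp only [Finset.smul_sum]

private theorem MB_sw3 (A : H → H → H → Module.End k X) (B : H → H → H → Module.End k Y)
    (a b : H) : MB k X Y (sw3 k A a) (sw3 k B b) =
      sw3 k (fun a1 a2 a3 => sw3 k (fun b1 b2 b3 => MB k X Y (A a1 a2 a3) (B b1 b2 b3)) b) a := by
  have h1 := map_sw3 ((MB k X Y).flip (sw3 k B b)) A a
  rw [LinearMap.flip_apply] at h1
  rw [h1]
  refine sw3_congr (fun a1 a2 a3 => ?_) a
  rw [LinearMap.flip_apply]
  exact map_sw3 (MB k X Y (A a1 a2 a3)) B b

theorem isYD_tens (hX : IsYD ρ σ) (hY : IsYD ρ' σ') : IsYD (tR ρ ρ') (tS σ σ') := by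
  refine ⟨?_, ?_, ?_⟩
  · -- the counit
    rw [tS_apply]
    have h1 : ∀ i j, (Coalgebra.counit (R := k) (A := H)) (e k H i * e k H j) =
        ep k H (e k H i) * ep k H (e k H j) := fun i j => ep_mul _ _
    have h2 : MB k X Y (σ (ep k H)) (σ' (ep k H)) = 1 := by
      rw [show σ (ep k H) = 1 from hX.one, show σ' (ep k H) = 1 from hY.one]
      exact TensorProduct.map_one
    rw [← h2]
    conv_rhs => rw [← sum_e (ep k H)]
    simp only [map_sum, map_smul, LinearMap.sum_apply, LinearMap.smul_apply,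
      MB_apply, Finset.smul_sum, h1, mul_smul]
    conv_rhs => rw [Finset.sum_comm]
    refine Finset.sum_congr rfl fun i _ => Finset.sum_congr rfl fun j _ => ?_
    rw [smul_comm]
  · -- the product
    intro f g
    rw [tS_apply, tS_apply, tS_apply]
    have e1 : (∑ i, ∑ j, f (e k H i * e k H j) •
          TensorProduct.map (σ (ec k H i)) (σ' (ec k H j))) *
        (∑ p, ∑ q, g (e k H p * e k H q) • TensorProduct.map (σ (ec k H p)) (σ' (ec k H q))) =
        ∑ p, ∑ i, ∑ q, ∑ j, (f (e k H i * e k H j) * g (e k H p * e k H q)) •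
          MB k X Y (σ (cv (ec k H p) (ec k H i))) (σ' (cv (ec k H q) (ec k H j))) := by
      rw [Finset.sum_mul_sum, Finset.sum_comm]
      refine Finset.sum_congr rfl fun p _ => Finset.sum_congr rfl fun i _ => ?_
      rw [Finset.sum_mul_sum, Finset.sum_comm]
      refine Finset.sum_congr rfl fun q _ => Finset.sum_congr rfl fun j _ => ?_
      rw [smul_mul_smul_comm, ← TensorProduct.map_mul, hX.mul, hY.mul, MB_apply]
    rw [e1]
    have e2 : ∀ p i, ∑ q, ∑ j, (f (e k H i * e k H j) * g (e k H p * e k H q)) •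
          MB k X Y (σ (cv (ec k H p) (ec k H i))) (σ' (cv (ec k H q) (ec k H j))) =
        ∑ m, sw2 k (fun c d => (f (e k H i * d) * g (e k H p * c)) •
          MB k X Y (σ (cv (ec k H p) (ec k H i))) (σ' (ec k H m))) (e k H m) := by
      intro p i
      refine ce_cv (G := fun c d F => (f (e k H i * d) * g (e k H p * c)) •
          MB k X Y (σ (cv (ec k H p) (ec k H i))) (σ' F)) ?_ ?_ ?_
      · intro b F
        refine ⟨fun x y => ?_, fun r x => ?_⟩
        · simp only [mul_add, map_add, add_smul]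
        · simp only [mul_smul_comm, map_smul, smul_eq_mul, smul_smul, mul_left_comm]
      · intro b F
        refine ⟨fun x y => ?_, fun r x => ?_⟩
        · simp only [mul_add, map_add, add_smul, add_mul]
        · simp only [mul_smul_comm, map_smul, smul_eq_mul, smul_smul, mul_assoc]
      · intro a b
        refine ⟨fun x y => ?_, fun r x => ?_⟩
        · simp only [map_add, smul_add]
        · simp only [map_smul, smul_smul, mul_comm]
    simp only [e2]
    have e3 := ce_cv (k := k) (H := H) (G := fun a b F => ∑ m, sw2 k (fun c d =>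
        (f (b * d) * g (a * c)) • MB k X Y (σ F) (σ' (ec k H m))) (e k H m)) ?_ ?_ ?_
    · rw [e3]
      refine Finset.sum_congr rfl fun l _ => ?_
      have e4 : ∀ m, cv g f (e k H l * e k H m) =
          sw2 k (fun a b => sw2 k (fun c d => g (a * c) * f (b * d)) (e k H m)) (e k H l) := by
        intro m
        rw [cv_apply]
        refine sw2_mul ⟨fun b => ⟨?_, ?_⟩, fun b => ⟨?_, ?_⟩⟩ _ _
        · intro x y
          simp only [map_add, add_mul]
        · intro r x
          simp only [map_smul, smul_eq_mul, mul_assoc]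
        · intro x y
          simp only [map_add, mul_add]
        · intro r x
          simp only [map_smul, smul_eq_mul, mul_left_comm]
      simp only [e4, MB_apply]
      unfold sw2
      rw [Finset.sum_comm]
      refine Finset.sum_congr rfl fun m _ => ?_
      rw [Finset.sum_smul]
      refine Finset.sum_congr rfl fun j _ => ?_
      rw [Finset.sum_smul]
      refine Finset.sum_congr rfl fun j _ => ?_
      simp only [mul_comm]
    · intro b F
      refine ⟨fun x y => ?_, fun r x => ?_⟩
      · simp only [sw2, add_mul, mul_add, map_add, add_smul, Finset.sum_add_distrib]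
      · simp only [sw2, smul_mul_assoc, map_smul, smul_eq_mul, smul_smul,
          Finset.smul_sum, mul_left_comm]
    · intro b F
      refine ⟨fun x y => ?_, fun r x => ?_⟩
      · simp only [sw2, add_mul, mul_add, map_add, add_smul, Finset.sum_add_distrib]
      · simp only [sw2, smul_mul_assoc, map_smul, smul_eq_mul, smul_smul,
          Finset.smul_sum, mul_assoc]
    · intro a b
      refine ⟨fun x y => ?_, fun r x => ?_⟩
      · simp only [sw2, map_add, LinearMap.add_apply, smul_add, Finset.sum_add_distrib]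
      · simp only [sw2, map_smul, LinearMap.smul_apply, smul_smul, Finset.smul_sum, mul_comm]
  · -- the compatibility
    intro f h
    set Φ : H → H → H → H → H → Module.End k (X ⊗[k] Y) := fun x y z u w =>
      ∑ i, ∑ j, f (x * (e k H i * (z * (e k H j * Sa k H w)))) •
        MB k X Y (ρ y * σ (ec k H i)) (ρ' u * σ' (ec k H j)) with hΦ
    have hl : Lin5 (k := k) Φ := by
      constructor
      · intro x x' b c d e
        simp only [hΦ, add_mul, map_add, add_smul, Finset.sum_add_distrib]
      · intro r x b c d e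
        simp only [hΦ, smul_mul_assoc, map_smul, smul_eq_mul, mul_smul, Finset.smul_sum]
      · intro x x' b c d e
        simp only [hΦ, add_mul, map_add, LinearMap.add_apply, smul_add, Finset.sum_add_distrib]
      · intro r x b c d e
        simp only [hΦ, smul_mul_assoc, map_smul, LinearMap.smul_apply, Finset.smul_sum,
          smul_comm r]
      · intro x x' b c d e
        simp only [hΦ, add_mul, mul_add, map_add, add_smul, Finset.sum_add_distrib]
      · intro r x b c d e
        simp only [hΦ, smul_mul_assoc, mul_smul_comm, map_smul, smul_eq_mul, mul_smul,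
          Finset.smul_sum]
      · intro x x' b c d e
        simp only [hΦ, add_mul, map_add, smul_add, Finset.sum_add_distrib]
      · intro r x b c d e
        simp only [hΦ, smul_mul_assoc, map_smul, Finset.smul_sum, smul_comm r]
      · intro x x' b c d e
        simp only [hΦ, mul_add, map_add, add_smul, Finset.sum_add_distrib]
      · intro r x b c d e
        simp only [hΦ, mul_smul_comm, map_smul, smul_eq_mul, mul_smul, Finset.smul_sum]
    have hL : tS σ σ' f * tR ρ ρ' h = sw2 k (fun a b => sw3 k (fun a1 a2 a3 =>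
        sw3 k (fun b1 b2 b3 => Φ a1 a2 (Sa k H a3 * b1) b2 b3) b) a) h := by
      rw [tR_apply, tS_apply]
      have m1 : ∀ (T : Module.End k (X ⊗[k] Y)) (F : H → H → Module.End k (X ⊗[k] Y)) (x : H),
          T * sw2 k F x = sw2 k (fun a b => T * F a b) x := by
        intro T F x
        unfold sw2
        rw [Finset.mul_sum]
      rw [m1]
      refine sw2_congr (fun a b => ?_) h
      simp only [Finset.sum_mul, smul_mul_assoc, MB_apply, MB_mul, hX.yd, hY.yd,
        MB_sw3, smul_sw3, sum_sw3]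
      refine sw3_congr (fun a1 a2 a3 => sw3_congr (fun b1 b2 b3 => ?_) b) a
      have c1 : ∀ i, ∑ j, f (e k H i * e k H j) •
          MB k X Y (ρ a2 * σ (tw (ec k H i) a1 (Sa k H a3)))
            (ρ' b2 * σ' (tw (ec k H j) b1 (Sa k H b3))) =
          ∑ j, f (e k H i * (b1 * (e k H j * Sa k H b3))) •
          MB k X Y (ρ a2 * σ (tw (ec k H i) a1 (Sa k H a3)))
            (ρ' b2 * σ' (ec k H j)) := by
        intro i
        refine ce_lin (LinearMap.mulLeft k b1 ∘ₗ LinearMap.mulRight k (Sa k H b3))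
          (G := fun y F => f (e k H i * y) •
          MB k X Y (ρ a2 * σ (tw (ec k H i) a1 (Sa k H a3))) (ρ' b2 * σ' F)) ?_ ?_
        · intro F
          refine ⟨fun x y => ?_, fun r x => ?_⟩
          · simp only [mul_add, map_add, add_smul]
          · simp only [mul_smul_comm, map_smul, smul_eq_mul, mul_smul]
        · intro F
          refine ⟨fun x y => ?_, fun r x => ?_⟩
          · simp only [mul_add, map_add, smul_add]
          · simp only [mul_smul_comm, map_smul, smul_comm r]
      rw [Finset.sum_congr rfl fun i _ => c1 i]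
      have c2 := ce_lin (LinearMap.mulLeft k a1 ∘ₗ LinearMap.mulRight k (Sa k H a3))
          (G := fun y F => ∑ j, f (y * (b1 * (e k H j * Sa k H b3))) •
          MB k X Y (ρ a2 * σ F) (ρ' b2 * σ' (ec k H j))) ?_ ?_
      · refine c2.trans ?_
        simp only [hΦ, LinearMap.comp_apply, LinearMap.mulLeft_apply, LinearMap.mulRight_apply,
          mul_assoc]
      · intro F
        refine ⟨fun x y => ?_, fun r x => ?_⟩
        · simp only [add_mul, map_add, add_smul, Finset.sum_add_distrib]
        · simp only [smul_mul_assoc, map_smul, smul_eq_mul, mul_smul, Finset.smul_sum]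
      · intro F
        refine ⟨fun x y => ?_, fun r x => ?_⟩
        · simp only [mul_add, map_add, LinearMap.add_apply, smul_add, Finset.sum_add_distrib]
        · simp only [mul_smul_comm, map_smul, LinearMap.smul_apply, smul_comm r,
            Finset.smul_sum]
    have hR : sw3 k (fun a b c => tR ρ ρ' b * tS σ σ' (tw f a (Sa k H c))) h =
        sw3 k (fun a b c => sw2 k (fun b1 b2 => Φ a b1 1 b2 c) b) h := by
      refine sw3_congr (fun a b c => ?_) h
      rw [tR_apply, tS_apply]
      have m1 : ∀ (T : Module.End k (X ⊗[k] Y)) (F : H → H → Module.End k (X ⊗[k] Y)) (x : H),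
          sw2 k F x * T = sw2 k (fun a b => F a b * T) x := by
        intro T F x
        unfold sw2
        rw [Finset.sum_mul]
      rw [m1]
      refine sw2_congr (fun b1 b2 => ?_) b
      simp only [Finset.mul_sum, mul_smul_comm, MB_apply, MB_mul, hΦ, tw_apply,
        mul_assoc, one_mul]
    rw [hL, hR]
    exact five hl h

end Pool.Agent.KExp
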