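import Pool.Agent.Lib.KExp.Defs
import Pool.Agent.Lib.KExp.QPow
import Pool.Agent.Lib.KExp.Theta
import Pool.Agent.Lib.KExp.ThetaPow
import Pool.Agent.Lib.KExp.TensApp
import Pool.Agent.Lib.KExp.TensYD
import Pool.Agent.Lib.KExp.MTheta

/-!
# KExp.MFin (MP_0d5e35_al, paper /team-store/MP_0d5e35_al_paper38.md)

Consequences of (1.3). Let `Θ = θ_X ⊗ θ_Y`. `θ_{X⊗Y} = M Θ` commutes with `tR h`, `tS f` (Theta for the
tensor product, isYD_tens). `Θ` commutes with `tR h = ∑ ρ(h₁) ⊗ ρ'(h₂)` and with `tS f` (theta_rho,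
theta_sigma) and is invertible (theta_inv), so `M` commutes with `tR h`, `tS f`. Mop_end: `M` is a sum of
`ρ(eⱼ)σ(e^i) ⊗ ...`, `a` commutes with `ρ, σ`. Mop_pow: `M` commutes with `Θ` (Mop_end for
`θ_X ⊗ 1` and the same for `1 ⊗ θ_Y`), so `1 = θ_{X⊗Y}^N = M^N Θ^N = M^N` (theta_pow_one three times).
-/

set_option autoImplicit false

open scoped TensorProduct

namespace Pool.Agent.KExp

variable {k : Type} [Field k] {H : Type} [Ring H] [HopfAlgebra k H] [FiniteDimensional k H]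

variable {X Y : Type} [AddCommGroup X] [Module k X] [AddCommGroup Y] [Module k Y]
  {ρ : H →ₐ[k] Module.End k X} {σ : (H →ₗ[k] k) →ₗ[k] Module.End k X}
  {ρ' : H →ₐ[k] Module.End k Y} {σ' : (H →ₗ[k] k) →ₗ[k] Module.End k Y}

private theorem map_mul_map (a a' : Module.End k X) (b b' : Module.End k Y) :
    TensorProduct.map a b * TensorProduct.map a' b' = TensorProduct.map (a * a') (b * b') :=
  (TensorProduct.map_mul a a' b b').symm

private theorem T_right_inv (hS : ∀ x : H, Sa k H (Sa k H x) = x) (hX : IsYD ρ σ)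
    (hY : IsYD ρ' σ') : ∃ T' : Module.End k (X ⊗[k] Y),
      TensorProduct.map (theta ρ σ) (theta ρ' σ') * T' = 1 := by
  refine ⟨TensorProduct.map (∑ i, ρ (Sa k H (e k H i)) * σ (ec k H i))
    (∑ i, ρ' (Sa k H (e k H i)) * σ' (ec k H i)), ?_⟩
  rw [map_mul_map, theta_inv hS hX, theta_inv hS hY, TensorProduct.map_one]

private theorem cancel {A : Type} [Ring A] {M T T' a : A} (hT : T * T' = 1)
    (h1 : (M * T) * a = a * (M * T)) (h2 : T * a = a * T) : M * a = a * M := by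
  have h3 : (M * a) * T = (a * M) * T := by
    rw [mul_assoc, ← h2, ← mul_assoc, h1, mul_assoc]
  calc M * a = (M * a) * (T * T') := by rw [hT, mul_one]
    _ = (a * M) * (T * T') := by rw [← mul_assoc, h3, mul_assoc]
    _ = a * M := by rw [hT, mul_one]

theorem Mop_tR (hS : ∀ x : H, Sa k H (Sa k H x) = x) (hX : IsYD ρ σ) (hY : IsYD ρ' σ') (h : H) :
    Mop ρ σ ρ' σ' * tR ρ ρ' h = tR ρ ρ' h * Mop ρ σ ρ' σ' := by
  obtain ⟨T', hT⟩ := T_right_inv hS hX hY
  refine cancel hT ?_ ?_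
  · rw [← theta_tens hS hX hY]
    exact theta_rho hS (isYD_tens hX hY) h
  · rw [tR_apply]
    unfold sw2
    rw [Finset.mul_sum, Finset.sum_mul]
    refine Finset.sum_congr rfl fun j _ => ?_
    rw [map_mul_map, map_mul_map, theta_rho hS hX, theta_rho hS hY]

theorem Mop_tS (hS : ∀ x : H, Sa k H (Sa k H x) = x) (hX : IsYD ρ σ) (hY : IsYD ρ' σ')
    (f : H →ₗ[k] k) : Mop ρ σ ρ' σ' * tS σ σ' f = tS σ σ' f * Mop ρ σ ρ' σ' := by
  obtain ⟨T', hT⟩ := T_right_inv hS hX hY
  refine cancel hT ?_ ?_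
  · rw [← theta_tens hS hX hY]
    exact theta_sigma hS (isYD_tens hX hY) f
  · rw [tS_apply, Finset.mul_sum, Finset.sum_mul]
    refine Finset.sum_congr rfl fun i _ => ?_
    rw [Finset.mul_sum, Finset.sum_mul]
    refine Finset.sum_congr rfl fun j _ => ?_
    rw [mul_smul_comm, smul_mul_assoc, map_mul_map, map_mul_map, theta_sigma hS hX,
      theta_sigma hS hY]

theorem Mop_end {a : Module.End k X} (ha : ∀ h, a * ρ h = ρ h * a) (ha' : ∀ f, a * σ f = σ f * a) :
    Mop ρ σ ρ' σ' * TensorProduct.map a 1 = TensorProduct.map a 1 * Mop ρ σ ρ' σ' := by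
  unfold Mop
  rw [Finset.mul_sum, Finset.sum_mul]
  refine Finset.sum_congr rfl fun i _ => ?_
  rw [Finset.mul_sum, Finset.sum_mul]
  refine Finset.sum_congr rfl fun j _ => ?_
  rw [map_mul_map, map_mul_map, mul_one, one_mul, mul_assoc, ← ha', ← mul_assoc, ← ha,
    mul_assoc]

private theorem Mop_end' {b : Module.End k Y} (hb : ∀ h, b * ρ' h = ρ' h * b)
    (hb' : ∀ f, b * σ' f = σ' f * b) :
    Mop ρ σ ρ' σ' * TensorProduct.map 1 b = TensorProduct.map 1 b * Mop ρ σ ρ' σ' := by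
  unfold Mop
  rw [Finset.mul_sum, Finset.sum_mul]
  refine Finset.sum_congr rfl fun i _ => ?_
  rw [Finset.mul_sum, Finset.sum_mul]
  refine Finset.sum_congr rfl fun j _ => ?_
  rw [map_mul_map, map_mul_map, mul_one, one_mul, mul_assoc, ← hb, ← mul_assoc, ← hb',
    mul_assoc]

theorem Mop_pow (hS : ∀ x : H, Sa k H (Sa k H x) = x) (hX : IsYD ρ σ) (hY : IsYD ρ' σ') {N : ℕ}
    (hQ : Q k H N = Q k H 0) : Mop ρ σ ρ' σ' ^ N = 1 := by
  have h1 : Commute (Mop ρ σ ρ' σ') (TensorProduct.map (theta ρ σ) (theta ρ' σ')) := by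
    have e1 : TensorProduct.map (theta ρ σ) (theta ρ' σ') =
        TensorProduct.map (theta ρ σ) 1 * TensorProduct.map 1 (theta ρ' σ') := by
      rw [map_mul_map, mul_one, one_mul]
    rw [e1]
    refine Commute.mul_right ?_ ?_
    · exact Mop_end (fun h => theta_rho hS hX h) (fun f => theta_sigma hS hX f)
    · exact Mop_end' (fun h => theta_rho hS hY h) (fun f => theta_sigma hS hY f)
  have h2 := theta_pow_one hS (isYD_tens hX hY) hQ
  rw [theta_tens hS hX hY, h1.mul_pow, TensorProduct.map_pow, theta_pow_one hS hX hQ,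
    theta_pow_one hS hY hQ, TensorProduct.map_one, mul_one] at h2
  exact h2

end Pool.Agent.KExp
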