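import Pool.Agent.Lib.KExp.Defs
import Pool.Agent.Lib.KExp.Sw
import Pool.Agent.Lib.KExp.CE

/-!
# KExp.LamInt (MP_0d5e35_al, paper /team-store/MP_0d5e35_al_paper38.md)

(0.1), (0.2): the regular character `λ(h) = Tr(x ↦ h x)` is a two sided integral of `H*`.
PROOF of lam_comul (it suffices to take `f : H → k` linear, i.e. `f ∈ H*`, then expand `f : H → Z`
in a basis, or: it suffices `sw2 (fun a b => lam a • b) h = lam h • 1` in `H` and apply `f`; an
element of `H` is determined by all functionals). For `f ∈ H*` let `r_f(x) = x₁ f(x₂)`, `l_h(x) = h x`.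
`r_f r_g = r_{f*g}`, and `r_f l_h = ∑ l_{h₁ f₁(h₂)} r_{f₂}` where `f(ab) = ∑ f₁(a) f₂(b)`. Equivalently,
without splitting `f`: for every `f, h` the operator `l_{h₁ f(h₂)}` is
`x ↦ h₁ x f(h₂)`. Consider `x ⊗ y ↦` ... explicit version: with the operators
`A_c(x) = x₁ ⊗ x₂`-free form: let `B : H → H ⊗ H*`... The short way: choose the basis and put
`f_{ij}`: `f(e_i e_j ·)`. For all `x`: `h₁ x f(h₂) = (h x₁)₁ f((h x₁)₂ S(x₂))`, i.e.
`l_{h₁f(h₂)} = ∑_{i,j} f(eᵢ eⱼ) r_{e^i} l_h r_{e^j ∘ S}` [check: `r_{e^j∘S}(x) = x₁ e^j(S(x₂))`,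
`r_{e^i}(h x₁) = (h x₁)₁ e^i((h x₁)₂)`, sum: `(h x₁)₁ f((h x₁)₂ S(x₂)) = h₁ x₁ f(h₂ x₂ S(x₃)) = h₁ x f(h₂)`].
Take traces: `Tr(r_{e^i} l_h r_{e^j∘S}) = Tr(l_h r_{e^j∘S} r_{e^i})` and
`∑ f(eᵢ eⱼ) r_{e^j∘S} r_{e^i}` is the operator `x ↦ x₁ f(x₃ S(x₂)) = f(1) x` (here `x₂S(x₁) = ε`, sw2_mul_S').
So `λ(h₁) f(h₂) = f(1) λ(h)`.
lam_comul': mirror image with `l'_f(x) = f(x₁) x₂`: `f(h₁) h₂ x = f(S?..)`: `f(h₁) h₂ x =
∑ f(eⱼ eᵢ...)`: use `f((h x₂)₁ S'(x₁)) (h x₂)₂` with `S'(x₁) = S(x₁)`: `h₁ x₂ S(x₁) = h₁ ε` (sw2_mul_S'),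
so `l_{f(h₁)h₂} = ∑ f(eᵢ eⱼ) l'_{e^i} l_h l'_{e^j∘S}`; trace: `∑ f(eᵢ eⱼ) l'_{e^j∘S} l'_{e^i}` is
`x ↦ f(x₁ S(x₂)) x₃ = f(1) x`.
lam_Sa: both `λ` and `λ∘S` are two sided integrals with value `m` at `1`; compute
`∑ λ(h₁) λ(S(h₂))` in two ways: `= λ(h) λ(S 1) = m λ(h)` by lam_comul, and `= m λ(S(h))`: apply
lam_comul' or lam_comul to `S(h)` (sw2_Sa). `m ≠ 0` in `k` (`H` is nontrivial because `ε(1) = 1`).
lam_mul_comm: `LinearMap.trace_mul_comm`.
-/

set_option autoImplicit false

open scoped TensorProduct

namespace Pool.Agent.KExp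

variable {k : Type} [Field k] {H : Type} [Ring H] [HopfAlgebra k H] [FiniteDimensional k H]
variable {Z : Type} [AddCommGroup Z] [Module k Z]

private theorem lin_sum {M N : Type} [AddCommGroup M] [Module k M] [AddCommGroup N] [Module k N]
    {F : M → N} (hF : IsLinearMap k F) {ι : Type} (s : Finset ι) (c : ι → k) (v : ι → M) :
    F (∑ i ∈ s, c i • v i) = ∑ i ∈ s, c i • F (v i) := by
  have h := map_sum (hF.mk' F) (fun i => c i • v i) s
  simp only [IsLinearMap.mk'_apply] at h
  rw [h]
  exact Finset.sum_congr rfl fun i _ => hF.map_smul _ _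

private theorem lam_eq (h : H) : lam k H h = ∑ a, ec k H a (h * e k H a) := by
  unfold lam
  rw [LinearMap.comp_apply, LinearMap.trace_eq_matrix_trace k (Module.finBasis k H)]
  unfold Matrix.trace
  refine Finset.sum_congr rfl fun a _ => ?_
  rw [Matrix.diag_apply, LinearMap.toMatrix_apply]
  rfl

/-- swapping two Sweedler sums -/
private theorem sw2_swap {F : H → H → H → H → k} (x y : H) :
    sw2 k (fun p q => sw2 k (fun a b => F p q a b) y) x =
      sw2 k (fun a b => sw2 k (fun p q => F p q a b) x) y := by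
  unfold sw2
  exact Finset.sum_comm

private theorem exp_mul (f : H →ₗ[k] k) (z w : H) :
    f (z * w) = ∑ b, ec k H b z * f (e k H b * w) := by
  have h := sum_ec (k := k) z
  calc f (z * w) = f ((∑ b, ec k H b z • e k H b) * w) := by rw [h]
    _ = _ := by
      rw [Finset.sum_mul, map_sum]
      refine Finset.sum_congr rfl fun b _ => ?_
      rw [smul_mul_assoc, map_smul, smul_eq_mul]

private theorem st2 (g f : H →ₗ[k] k) (h x : H) :
    sw2 k (fun u v => g (u * x) * f v) h =
      sw2 k (fun p q => sw2 k (fun u v => g u * f (v * Sa k H q)) (h * p)) x := by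
  have e1 : ∀ p q : H, sw2 k (fun u v => g u * f (v * Sa k H q)) (h * p) =
      sw2 k (fun a a' => sw2 k (fun b b' => g (a * b) * f (a' * b' * Sa k H q)) p) h := by
    intro p q
    exact sw2_mul ⟨fun b => ⟨fun x y => by beta_reduce; rw [map_add, add_mul], fun c x => by
        beta_reduce; rw [map_smul, smul_eq_mul, smul_eq_mul, mul_assoc]⟩,
      fun a => ⟨fun x y => by beta_reduce; rw [add_mul, map_add, mul_add], fun c x => by
        beta_reduce; rw [smul_mul_assoc, map_smul, smul_eq_mul, smul_eq_mul, mul_left_comm]⟩⟩ h p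
  simp only [e1]
  rw [sw2_swap (F := fun p q a a' => sw2 k (fun b b' => g (a * b) * f (a' * b' * Sa k H q)) p)]
  refine congrArg (fun F => sw2 k F h) (funext fun a => funext fun a' => ?_)
  rw [sw2_assoc (F := fun b b' q => g (a * b) * f (a' * b' * Sa k H q))
    ⟨fun b c => ⟨fun x y => by beta_reduce; rw [mul_add, map_add, add_mul], fun c x => by
        beta_reduce; rw [mul_smul_comm, map_smul, smul_eq_mul, smul_eq_mul, mul_assoc]⟩,
      fun b c => ⟨fun x y => by beta_reduce; rw [mul_add, add_mul, map_add, mul_add], fun c x => by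
        beta_reduce; rw [mul_smul_comm, smul_mul_assoc, map_smul, smul_eq_mul, smul_eq_mul, mul_left_comm]⟩,
      fun b c => ⟨fun x y => by beta_reduce; rw [map_add, mul_add, map_add, mul_add], fun c x => by
        beta_reduce; rw [map_smul, mul_smul_comm, map_smul, smul_eq_mul, smul_eq_mul, mul_left_comm]⟩⟩ x, sw3_eq]
  have e2 : ∀ b y : H, sw2 k (fun b' q => g (a * b) * f (a' * b' * Sa k H q)) y =
      ep k H y • (g (a * b) * f a') := by
    intro b y
    have h1 := sw2_mul_S (k := k) (f := fun t : H => g (a * b) * f (a' * t))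
      ⟨fun x y => by beta_reduce; rw [mul_add, map_add, mul_add], fun c x => by
        beta_reduce; rw [mul_smul_comm, map_smul, smul_eq_mul, smul_eq_mul, mul_left_comm]⟩ y
    simp only [mul_one] at h1
    rw [← h1]
    refine congrArg (fun F => sw2 k F y) (funext fun u => funext fun v => ?_)
    rw [mul_assoc a' u]
  simp only [e2]
  exact (sw2_counit_right (k := k) (f := fun b : H => g (a * b) * f a')
    ⟨fun x y => by beta_reduce; rw [mul_add, map_add, add_mul], fun c x => by
        beta_reduce; rw [mul_smul_comm, map_smul, smul_eq_mul, smul_eq_mul, mul_assoc]⟩ x).symm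

private theorem st2' (hS : ∀ x : H, Sa k H (Sa k H x) = x) (g f : H →ₗ[k] k) (h x : H) :
    sw2 k (fun v u => g (u * x) * f v) h =
      sw2 k (fun q p => sw2 k (fun v u => g u * f (v * Sa k H q)) (h * p)) x := by
  have e1 : ∀ q p : H, sw2 k (fun v u => g u * f (v * Sa k H q)) (h * p) =
      sw2 k (fun a a' => sw2 k (fun b b' => g (a' * b') * f (a * b * Sa k H q)) p) h := by
    intro q p
    exact sw2_mul ⟨fun b => ⟨fun x y => by beta_reduce; rw [add_mul, map_add, mul_add], fun c x => by
        beta_reduce; rw [smul_mul_assoc, map_smul, smul_eq_mul, smul_eq_mul, mul_left_comm]⟩,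
      fun a => ⟨fun x y => by beta_reduce; rw [map_add, add_mul], fun c x => by
        beta_reduce; rw [map_smul, smul_eq_mul, smul_eq_mul, mul_assoc]⟩⟩ h p
  simp only [e1]
  rw [sw2_swap (F := fun q p a a' => sw2 k (fun b b' => g (a' * b') * f (a * b * Sa k H q)) p)]
  refine congrArg (fun F => sw2 k F h) (funext fun a => funext fun a' => ?_)
  rw [← sw3_eq (k := k) (fun q b b' => g (a' * b') * f (a * b * Sa k H q)),
    ← sw2_assoc (F := fun q b b' => g (a' * b') * f (a * b * Sa k H q))
    ⟨fun b c => ⟨fun x y => by beta_reduce; rw [map_add, mul_add, map_add, mul_add], fun c x => by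
        beta_reduce; rw [map_smul, mul_smul_comm, map_smul, smul_eq_mul, smul_eq_mul, mul_left_comm]⟩,
      fun b c => ⟨fun x y => by beta_reduce; rw [mul_add, add_mul, map_add, mul_add], fun c x => by
        beta_reduce; rw [mul_smul_comm, smul_mul_assoc, map_smul, smul_eq_mul, smul_eq_mul, mul_left_comm]⟩,
      fun b c => ⟨fun x y => by beta_reduce; rw [mul_add, map_add, add_mul], fun c x => by
        beta_reduce; rw [mul_smul_comm, map_smul, smul_eq_mul, smul_eq_mul, mul_assoc]⟩⟩ x]
  have e2 : ∀ b' y : H, sw2 k (fun q b => g (a' * b') * f (a * b * Sa k H q)) y =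
      ep k H y • (g (a' * b') * f a) := by
    intro b' y
    have h1 := sw2_mul_S' (k := k) hS (f := fun t : H => g (a' * b') * f (a * t))
      ⟨fun x y => by beta_reduce; rw [mul_add, map_add, mul_add], fun c x => by
        beta_reduce; rw [mul_smul_comm, map_smul, smul_eq_mul, smul_eq_mul, mul_left_comm]⟩ y
    simp only [mul_one] at h1
    rw [← h1]
    refine congrArg (fun F => sw2 k F y) (funext fun u => funext fun v => ?_)
    rw [mul_assoc a v]
  simp only [e2]
  exact (sw2_counit_left (k := k) (f := fun b' : H => g (a' * b') * f a)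
    ⟨fun x y => by beta_reduce; rw [mul_add, map_add, add_mul], fun c x => by
        beta_reduce; rw [mul_smul_comm, map_smul, smul_eq_mul, smul_eq_mul, mul_assoc]⟩ x).symm

/-- the abstract cyclicity: `R` splits off a factor -/
private theorem cyc_step (f : H →ₗ[k] k) (h : H) (sw : (H → H → k) → H → k)
    (hsw : ∀ F : H → H → k, Bil2 k F → IsLinearMap k (fun y => sw F y))
    (R : Fin (Module.finrank k H) → (H →ₗ[k] H))
    (hswsum : ∀ (F : Fin (Module.finrank k H) → H → H → k) (x : H),
      sw (fun p q => ∑ b, F b p q) x = ∑ b, sw (F b) x)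
    (hswadd : ∀ (F G : H → H → k) (x : H), sw (fun p q => F p q + G p q) x = sw F x + sw G x)
    (hswsmul : ∀ (c : k) (F : H → H → k) (x : H), sw (fun p q => c * F p q) x = c * sw F x) :
    ∑ a, sw (fun p q => ∑ b, ec k H a (R b (h * p)) * f (e k H b * Sa k H q)) (e k H a) =
      ∑ a, ∑ b, sw (fun p q => ec k H a (h * p) * f (e k H b * Sa k H q)) (R b (e k H a)) := by
  have h1 : ∀ a, sw (fun p q => ∑ b, ec k H a (R b (h * p)) * f (e k H b * Sa k H q)) (e k H a) =
      ∑ b, sw (fun p q => (ec k H a ∘ₗ R b) (h * p) * f (e k H b * Sa k H q)) (e k H a) := by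
    intro a
    exact hswsum _ _
  simp only [h1]
  rw [Finset.sum_comm]
  rw [Finset.sum_comm (f := fun a b =>
    sw (fun p q => ec k H a (h * p) * f (e k H b * Sa k H q)) (R b (e k H a)))]
  refine Finset.sum_congr rfl fun b _ => ?_
  refine ce_lin (R b) (G := fun x g => sw (fun p q => g (h * p) * f (e k H b * Sa k H q)) x)
    (fun g => ?_) (fun x => ?_)
  · refine hsw _ ⟨fun q => ⟨fun x y => ?_, fun c x => ?_⟩, fun p => ⟨fun x y => ?_, fun c x => ?_⟩⟩
    · beta_reduce; rw [mul_add, map_add, add_mul]
    · beta_reduce; rw [mul_smul_comm, map_smul, smul_eq_mul, smul_eq_mul, mul_assoc]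
    · beta_reduce; rw [map_add, mul_add, map_add, mul_add]
    · beta_reduce; rw [map_smul, mul_smul_comm, map_smul, smul_eq_mul, smul_eq_mul, mul_left_comm]
  · refine ⟨fun g g' => ?_, fun c g => ?_⟩
    · rw [← hswadd]
      refine congrArg (fun F => sw F x) (funext fun p => funext fun q => ?_)
      rw [LinearMap.add_apply, add_mul]
    · rw [smul_eq_mul, ← hswsmul]
      refine congrArg (fun F => sw F x) (funext fun p => funext fun q => ?_)
      rw [LinearMap.smul_apply, smul_eq_mul, mul_assoc]

private theorem lam_dual (hS : ∀ x : H, Sa k H (Sa k H x) = x) (f : H →ₗ[k] k) (h : H) :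
    sw2 k (fun a b => lam k H a * f b) h = lam k H h * f 1 := by
  have s1 : sw2 k (fun a b => lam k H a * f b) h =
      ∑ a, sw2 k (fun u v => ec k H a (u * e k H a) * f v) h := by
    unfold sw2
    beta_reduce
    rw [Finset.sum_comm]
    refine Finset.sum_congr rfl fun j _ => ?_
    rw [lam_eq, Finset.sum_mul]
  rw [s1]
  simp only [st2]
  have hR : ∀ b, IsLinearMap k (fun y : H => sw2 k (fun u v => ec k H b v • u) y) := fun b =>
    sw2_linear ⟨fun v => ⟨fun x y => by beta_reduce; rw [smul_add], fun c x => by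
        beta_reduce; rw [smul_comm]⟩,
      fun u => ⟨fun x y => by beta_reduce; rw [map_add, add_smul], fun c x => by
        beta_reduce; rw [map_smul, smul_eq_mul, mul_smul]⟩⟩
  have s3 : ∀ (g : H →ₗ[k] k) (q y : H), sw2 k (fun u v => g u * f (v * Sa k H q)) y =
      ∑ b, g ((hR b).mk' _ y) * f (e k H b * Sa k H q) := by
    intro g q y
    simp only [IsLinearMap.mk'_apply]
    unfold sw2
    beta_reduce
    simp only [map_sum, map_smul, Finset.sum_mul, smul_eq_mul]
    rw [Finset.sum_comm]
    refine Finset.sum_congr rfl fun j _ => ?_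
    rw [exp_mul, Finset.mul_sum]
    refine Finset.sum_congr rfl fun b _ => ?_
    ring
  simp only [s3]
  rw [cyc_step f h (fun F x => sw2 k F x) (fun F hF => sw2_linear hF) (fun b => (hR b).mk' _)]
  · have s4 : ∀ (g : H →ₗ[k] k) (x : H),
        ∑ b, sw2 k (fun p q => g (h * p) * f (e k H b * Sa k H q)) ((hR b).mk' _ x) =
          sw2 k (fun y z => sw2 k (fun p q => g (h * p) * f (z * Sa k H q)) y) x := by
      intro g x
      simp only [IsLinearMap.mk'_apply]
      have hK : ∀ b, IsLinearMap k
          (fun y => sw2 k (fun p q => g (h * p) * f (e k H b * Sa k H q)) y) := fun b =>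
        sw2_linear ⟨fun v => ⟨fun x y => by beta_reduce; rw [mul_add, map_add, add_mul], fun c x => by
          beta_reduce; rw [mul_smul_comm, map_smul, smul_eq_mul, smul_eq_mul, mul_assoc]⟩,
        fun u => ⟨fun x y => by beta_reduce; rw [map_add, mul_add, map_add, mul_add], fun c x => by
          beta_reduce
          rw [map_smul, mul_smul_comm, map_smul, smul_eq_mul, smul_eq_mul, mul_left_comm]⟩⟩
      have h1 : ∀ b, sw2 k (fun p q => g (h * p) * f (e k H b * Sa k H q))
          (sw2 k (fun u v => ec k H b v • u) x) =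
          ∑ j, ec k H b (D k H j x) * sw2 k (fun p q => g (h * p) * f (e k H b * Sa k H q))
            (e k H j) := by
        intro b
        exact lin_sum (hK b) Finset.univ (fun j => ec k H b (D k H j x)) (fun j => e k H j)
      simp only [h1]
      rw [Finset.sum_comm]
      unfold sw2
      beta_reduce
      refine Finset.sum_congr rfl fun j _ => ?_
      simp only [Finset.mul_sum]
      rw [Finset.sum_comm]
      refine Finset.sum_congr rfl fun i _ => ?_
      rw [exp_mul f (D k H j x), Finset.mul_sum]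
      refine Finset.sum_congr rfl fun b _ => ?_
      ring
    simp only [s4]
    have s5 : ∀ (g : H →ₗ[k] k) (x : H),
        sw2 k (fun y z => sw2 k (fun p q => g (h * p) * f (z * Sa k H q)) y) x =
          g (h * x) * f 1 := by
      intro g x
      rw [sw2_assoc (F := fun p q z => g (h * p) * f (z * Sa k H q))
        ⟨fun b c => ⟨fun x y => by beta_reduce; rw [mul_add, map_add, add_mul], fun c x => by
          beta_reduce; rw [mul_smul_comm, map_smul, smul_eq_mul, smul_eq_mul, mul_assoc]⟩,
        fun b c => ⟨fun x y => by beta_reduce; rw [map_add, mul_add, map_add, mul_add], fun c x => by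
          beta_reduce
          rw [map_smul, mul_smul_comm, map_smul, smul_eq_mul, smul_eq_mul, mul_left_comm]⟩,
        fun b c => ⟨fun x y => by beta_reduce; rw [add_mul, map_add, mul_add], fun c x => by
          beta_reduce
          rw [smul_mul_assoc, map_smul, smul_eq_mul, smul_eq_mul, mul_left_comm]⟩⟩ x, sw3_eq]
      have e2 : ∀ p w : H, sw2 k (fun q z => g (h * p) * f (z * Sa k H q)) w =
          ep k H w • (g (h * p) * f 1) := by
        intro p w
        exact sw2_mul_S' (k := k) hS (f := fun t : H => g (h * p) * f t)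
          ⟨fun x y => by beta_reduce; rw [map_add, mul_add], fun c x => by
            beta_reduce; rw [map_smul, smul_eq_mul, smul_eq_mul, mul_left_comm]⟩ w
      simp only [e2]
      exact sw2_counit_right (k := k) (f := fun p : H => g (h * p) * f 1)
        ⟨fun x y => by beta_reduce; rw [mul_add, map_add, add_mul], fun c x => by
          beta_reduce; rw [mul_smul_comm, map_smul, smul_eq_mul, smul_eq_mul, mul_assoc]⟩ x
    simp only [s5]
    rw [← Finset.sum_mul, ← lam_eq]
  · intro F x
    unfold sw2
    beta_reduce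
    exact Finset.sum_comm
  · intro F G x
    unfold sw2
    beta_reduce
    exact Finset.sum_add_distrib
  · intro c F x
    unfold sw2
    beta_reduce
    rw [Finset.mul_sum]

private theorem lam_dual' (hS : ∀ x : H, Sa k H (Sa k H x) = x) (f : H →ₗ[k] k) (h : H) :
    sw2 k (fun a b => lam k H b * f a) h = lam k H h * f 1 := by
  have s1 : sw2 k (fun a b => lam k H b * f a) h =
      ∑ a, sw2 k (fun v u => ec k H a (u * e k H a) * f v) h := by
    unfold sw2
    beta_reduce
    rw [Finset.sum_comm]
    refine Finset.sum_congr rfl fun j _ => ?_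
    rw [lam_eq, Finset.sum_mul]
  rw [s1]
  simp only [st2' hS]
  have hR : ∀ b, IsLinearMap k (fun y : H => sw2 k (fun v u => ec k H b v • u) y) := fun b =>
    sw2_linear ⟨fun u => ⟨fun x y => by beta_reduce; rw [map_add, add_smul], fun c x => by
        beta_reduce; rw [map_smul, smul_eq_mul, mul_smul]⟩,
      fun v => ⟨fun x y => by beta_reduce; rw [smul_add], fun c x => by
        beta_reduce; rw [smul_comm]⟩⟩
  have s3 : ∀ (g : H →ₗ[k] k) (q y : H), sw2 k (fun v u => g u * f (v * Sa k H q)) y =
      ∑ b, g ((hR b).mk' _ y) * f (e k H b * Sa k H q) := by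
    intro g q y
    simp only [IsLinearMap.mk'_apply]
    unfold sw2
    beta_reduce
    simp only [map_sum, map_smul, Finset.sum_mul, smul_eq_mul]
    rw [Finset.sum_comm]
    refine Finset.sum_congr rfl fun j _ => ?_
    rw [exp_mul, Finset.mul_sum]
    refine Finset.sum_congr rfl fun b _ => ?_
    ring
  simp only [s3]
  rw [cyc_step f h (fun F x => sw2 k (fun q p => F p q) x)
    (fun F hF => sw2_linear ⟨hF.2, hF.1⟩) (fun b => (hR b).mk' _)]
  · have s4 : ∀ (g : H →ₗ[k] k) (x : H),
        ∑ b, sw2 k (fun q p => g (h * p) * f (e k H b * Sa k H q)) ((hR b).mk' _ x) =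
          sw2 k (fun z y => sw2 k (fun q p => g (h * p) * f (z * Sa k H q)) y) x := by
      intro g x
      simp only [IsLinearMap.mk'_apply]
      have hK : ∀ b, IsLinearMap k
          (fun y => sw2 k (fun q p => g (h * p) * f (e k H b * Sa k H q)) y) := fun b =>
        sw2_linear ⟨fun u => ⟨fun x y => by beta_reduce; rw [map_add, mul_add, map_add, mul_add],
          fun c x => by
          beta_reduce
          rw [map_smul, mul_smul_comm, map_smul, smul_eq_mul, smul_eq_mul, mul_left_comm]⟩,
        fun v => ⟨fun x y => by beta_reduce; rw [mul_add, map_add, add_mul], fun c x => by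
          beta_reduce; rw [mul_smul_comm, map_smul, smul_eq_mul, smul_eq_mul, mul_assoc]⟩⟩
      have h1 : ∀ b, sw2 k (fun q p => g (h * p) * f (e k H b * Sa k H q))
          (sw2 k (fun v u => ec k H b v • u) x) =
          ∑ j, ec k H b (e k H j) * sw2 k (fun q p => g (h * p) * f (e k H b * Sa k H q))
            (D k H j x) := by
        intro b
        exact lin_sum (hK b) Finset.univ (fun j => ec k H b (e k H j)) (fun j => D k H j x)
      simp only [h1]
      rw [Finset.sum_comm]
      unfold sw2
      beta_reduce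
      refine Finset.sum_congr rfl fun j _ => ?_
      simp only [Finset.mul_sum]
      rw [Finset.sum_comm]
      refine Finset.sum_congr rfl fun i _ => ?_
      rw [exp_mul f (e k H j), Finset.mul_sum]
      refine Finset.sum_congr rfl fun b _ => ?_
      ring
    simp only [s4]
    have s5 : ∀ (g : H →ₗ[k] k) (x : H),
        sw2 k (fun z y => sw2 k (fun q p => g (h * p) * f (z * Sa k H q)) y) x =
          g (h * x) * f 1 := by
      intro g x
      rw [← sw3_eq (k := k) (fun z q p => g (h * p) * f (z * Sa k H q)),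
        ← sw2_assoc (F := fun z q p => g (h * p) * f (z * Sa k H q))
        ⟨fun b c => ⟨fun x y => by beta_reduce; rw [add_mul, map_add, mul_add], fun c x => by
          beta_reduce
          rw [smul_mul_assoc, map_smul, smul_eq_mul, smul_eq_mul, mul_left_comm]⟩,
        fun b c => ⟨fun x y => by beta_reduce; rw [map_add, mul_add, map_add, mul_add], fun c x => by
          beta_reduce
          rw [map_smul, mul_smul_comm, map_smul, smul_eq_mul, smul_eq_mul, mul_left_comm]⟩,
        fun b c => ⟨fun x y => by beta_reduce; rw [mul_add, map_add, add_mul], fun c x => by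
          beta_reduce; rw [mul_smul_comm, map_smul, smul_eq_mul, smul_eq_mul, mul_assoc]⟩⟩ x]
      have e2 : ∀ p w : H, sw2 k (fun z q => g (h * p) * f (z * Sa k H q)) w =
          ep k H w • (g (h * p) * f 1) := by
        intro p w
        exact sw2_mul_S (k := k) (f := fun t : H => g (h * p) * f t)
          ⟨fun x y => by beta_reduce; rw [map_add, mul_add], fun c x => by
            beta_reduce; rw [map_smul, smul_eq_mul, smul_eq_mul, mul_left_comm]⟩ w
      simp only [e2]
      exact sw2_counit_left (k := k) (f := fun p : H => g (h * p) * f 1)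
        ⟨fun x y => by beta_reduce; rw [mul_add, map_add, add_mul], fun c x => by
          beta_reduce; rw [mul_smul_comm, map_smul, smul_eq_mul, smul_eq_mul, mul_assoc]⟩ x
    simp only [s5]
    rw [← Finset.sum_mul, ← lam_eq]
  · intro F x
    unfold sw2
    beta_reduce
    exact Finset.sum_comm
  · intro F G x
    unfold sw2
    beta_reduce
    exact Finset.sum_add_distrib
  · intro c F x
    unfold sw2
    beta_reduce
    rw [Finset.mul_sum]

theorem lam_mul_comm (a b : H) : lam k H (a * b) = lam k H (b * a) := by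
  have h : ∀ x y : H, lam k H (x * y) =
      LinearMap.trace k H (Algebra.lmul k H x * Algebra.lmul k H y) := by
    intro x y
    rw [← map_mul]
    rfl
  rw [h, h, LinearMap.trace_mul_comm]

theorem lam_one : lam k H (1 : H) = (Module.finrank k H : k) := by
  have h : lam k H (1 : H) = LinearMap.trace k H (Algebra.lmul k H 1) := rfl
  rw [h, map_one, LinearMap.trace_one]

theorem finrank_pos_H : 0 < Module.finrank k H := by
  haveI : Nontrivial H := by
    refine ⟨⟨1, 0, fun h => ?_⟩⟩
    have h1 : Coalgebra.counit (R := k) (1 : H) = 1 := Bialgebra.counit_one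
    rw [h, map_zero] at h1
    exact zero_ne_one h1
  exact Module.finrank_pos

theorem lam_comul (hS : ∀ x : H, Sa k H (Sa k H x) = x) {f : H → Z} (hf : IsLinearMap k f)
    (h : H) : sw2 k (fun a b => lam k H a • f b) h = lam k H h • f 1 := by
  have h0 : ∑ j, lam k H (e k H j) • D k H j h = lam k H h • (1 : H) := by
    refine (Module.finBasis k H).ext_elem fun i => ?_
    have h1 := lam_dual hS (ec k H i) h
    unfold sw2 at h1
    beta_reduce at h1
    have h2 : ec k H i (∑ j, lam k H (e k H j) • D k H j h) = ec k H i (lam k H h • (1 : H)) := by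
      rw [map_sum, map_smul, smul_eq_mul, ← h1]
      refine Finset.sum_congr rfl fun j _ => ?_
      rw [map_smul, smul_eq_mul]
    exact h2
  rw [← hf.map_smul, ← h0]
  exact (lin_sum hf Finset.univ (fun j => lam k H (e k H j)) (fun j => D k H j h)).symm

theorem lam_comul' (hS : ∀ x : H, Sa k H (Sa k H x) = x) {f : H → Z} (hf : IsLinearMap k f)
    (h : H) : sw2 k (fun a b => lam k H b • f a) h = lam k H h • f 1 := by
  have h0 : ∑ j, lam k H (D k H j h) • e k H j = lam k H h • (1 : H) := by
    refine (Module.finBasis k H).ext_elem fun i => ?_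
    have h1 := lam_dual' hS (ec k H i) h
    unfold sw2 at h1
    beta_reduce at h1
    have h2 : ec k H i (∑ j, lam k H (D k H j h) • e k H j) = ec k H i (lam k H h • (1 : H)) := by
      rw [map_sum, map_smul, smul_eq_mul, ← h1]
      refine Finset.sum_congr rfl fun j _ => ?_
      rw [map_smul, smul_eq_mul]
    exact h2
  rw [← hf.map_smul, ← h0]
  exact (lin_sum hf Finset.univ (fun j => lam k H (D k H j h)) (fun j => e k H j)).symm

theorem lam_Sa [CharZero k] (hS : ∀ x : H, Sa k H (Sa k H x) = x) (h : H) :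
    lam k H (Sa k H h) = lam k H h := by
  have hl : IsLinearMap k (fun a : H => lam k H (Sa k H a)) :=
    ⟨fun x y => by beta_reduce; rw [map_add, map_add], fun c x => by
      beta_reduce; rw [map_smul, map_smul]⟩
  have h1 := lam_comul' hS hl (Sa k H h)
  have h2 := lam_comul' hS hl h
  rw [sw2_Sa ⟨fun b => ⟨fun x y => by beta_reduce; rw [map_add, map_add, smul_add],
      fun c x => by beta_reduce; rw [map_smul, map_smul, smul_comm]⟩,
    fun a => ⟨fun x y => by beta_reduce; rw [map_add, add_smul],
      fun c x => by beta_reduce; rw [map_smul, smul_assoc]⟩⟩ h] at h1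
  have h3 : sw2 k (fun a b => lam k H (Sa k H a) • lam k H (Sa k H (Sa k H b))) h =
      sw2 k (fun a b => lam k H b • lam k H (Sa k H a)) h := by
    refine congrArg (fun F => sw2 k F h) (funext fun u => funext fun v => ?_)
    rw [hS, smul_eq_mul, smul_eq_mul, mul_comm]
  beta_reduce at h1 h2
  rw [h3, h2] at h1
  rw [Sa_one, lam_one, smul_eq_mul, smul_eq_mul] at h1
  have hm : ((Module.finrank k H : ℕ) : k) ≠ 0 := by
    have := finrank_pos_H (k := k) (H := H)
    exact_mod_cast this.ne'
  exact (mul_right_cancel₀ hm h1).symm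

end Pool.Agent.KExp
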