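import Pool.Agent.Lib.KExp.Defs
import Pool.Agent.Lib.KExp.Sw
import Pool.Agent.Lib.KExp.CE
import Pool.Agent.Lib.KExp.LamInt

/-!
# KExp.LInt (MP_0d5e35_al, paper /team-store/MP_0d5e35_al_paper38.md)

(0.3), (0.4), (0.5): the integral `Λ` of `H`.
PROOFS. apply_Lam: `Lam = ∑ Tr(D i) eᵢ`, and `f.rTensor` = `∑ f(eᵢ) (ec i).rTensor` by sum_e.
Write `T_f(w) = f(w₁) w₂`, so `f(Λ) = Tr T_f`.
mul_Lam: enough `f(hΛ) = ε(h) f(Λ)` for all `f ∈ H*`. `f(hΛ) = Tr(w ↦ f(h w₁) w₂)` and this operator is
`∑ l_{S(h₂)} T_f l_{h₁}`: `l_{S(h₂)}(f(h₁w₁) h₂' w₂)` with `S(h₃) h₂ = ε` (sw2_S_mul'). Cyclicity of the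
trace: `∑ Tr(T_f l_{h₁} l_{S(h₂)}) = ε(h) Tr(T_f)`.
Lam_mul: right multiplications `r_a(w) = w a`: `w ↦ f(w₁ h) w₂` is `∑ r_{S(h₂)} T_f r_{h₁}`
(`h₂ S(h₃) = ε`), trace: `r_{h₁} r_{S(h₂)} = (w ↦ w S(h₂) h₁) = ε(h)` (sw2_S_mul').
ep_Lam: `T_ε = id`. lam_Lam: `Λ x = ε(x) Λ`, so `λ(Λ) = Tr(x ↦ ε(x) Λ) = ε(Λ) = m`.
Sa_Lam: `S(Λ)` satisfies `h S(Λ) = S(Λ S(h)) = ε(h) S(Λ)`; then `Λ S(Λ) = ε(Λ) S(Λ)` and
`Λ S(Λ) = ε(S(Λ)) Λ = m Λ` by Lam_mul; `m ≠ 0`.
Lam_shift: `∑ F(h Λ₁, S(Λ₂))`: by sw2 calculus
`= ∑ F(h₁Λ₁, S(Λ₂) S(h₂) h₃) = ∑ F((h₁Λ)₁, S((h₁Λ)₂) h₂)` (sw2_mul, Sa_mul) `= ∑ ε(h₁) F(Λ₁, S(Λ₂) h₂)`.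
-/

set_option autoImplicit false

open scoped TensorProduct

namespace Pool.Agent.KExp

variable {k : Type} [Field k] {H : Type} [Ring H] [HopfAlgebra k H] [FiniteDimensional k H]
variable {Z : Type} [AddCommGroup Z] [Module k Z]

/-- `T_f(w) = f(w₁) w₂` -/
private noncomputable def TT (f : H →ₗ[k] k) : H →ₗ[k] H :=
  (TensorProduct.lid k H).toLinearMap ∘ₗ f.rTensor H ∘ₗ Coalgebra.comul (R := k) (A := H)

private theorem TT_apply (f : H →ₗ[k] k) (w : H) :
    TT f w = sw2 k (fun a b => f a • b) w := by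
  have h := sw2_eq_lift (k := k) ((LinearMap.lsmul k H) ∘ₗ f) w
  have h1 : TensorProduct.lift ((LinearMap.lsmul k H) ∘ₗ f) =
      (TensorProduct.lid k H).toLinearMap ∘ₗ f.rTensor H := by
    apply TensorProduct.ext'
    intro x y
    simp
  rw [h1] at h
  exact h.symm

private theorem TT_sum (f : H →ₗ[k] k) : TT f = ∑ i, f (e k H i) • D k H i := by
  have h : ∀ g : H →ₗ[k] k, TT g = (TensorProduct.lid k H).toLinearMap ∘ₗ
      (LinearMap.rTensorHom H g) ∘ₗ Coalgebra.comul (R := k) (A := H) := fun g => rfl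
  have h1 : ∀ i, D k H i = TT (ec k H i) := fun i => rfl
  have h2 : f.rTensor H = ∑ i, f (e k H i) • (ec k H i).rTensor H := by
    have := congrArg (LinearMap.rTensorHom (R := k) H) (sum_e f).symm
    rw [map_sum] at this
    simpa using this
  ext w
  simp only [TT, D, h2, LinearMap.comp_apply, LinearMap.sum_apply, LinearMap.smul_apply, map_sum,
    map_smul]

private theorem lin_sw2 {G : H → H → H → Z} (hG : ∀ a b, IsLinearMap k (fun x => G x a b))
    (w : H) : IsLinearMap k (fun x => sw2 k (fun a b => G x a b) w) where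
  map_add x y := by
    simp only [sw2, (hG _ _).map_add, Finset.sum_add_distrib]
  map_smul c x := by
    simp only [sw2, (hG _ _).map_smul, Finset.smul_sum]

private theorem ext_of_dual {x y : H} (h : ∀ f : H →ₗ[k] k, f x = f y) : x = y := by
  rw [← sum_ec (k := k) x, ← sum_ec (k := k) y]
  exact Finset.sum_congr rfl fun i _ => by rw [h]

theorem apply_Lam (f : H →ₗ[k] k) : f (Lam k H) = LinearMap.trace k H
    ((TensorProduct.lid k H).toLinearMap ∘ₗ f.rTensor H ∘ₗ Coalgebra.comul (R := k) (A := H)) := by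
  change f (Lam k H) = LinearMap.trace k H (TT f)
  rw [TT_sum, Lam]
  simp only [map_sum, map_smul, smul_eq_mul]
  exact Finset.sum_congr rfl fun i _ => mul_comm _ _

private theorem TT_left (hS : ∀ x : H, Sa k H (Sa k H x) = x) (f : H →ₗ[k] k) (h : H) :
    TT (f ∘ₗ LinearMap.mulLeft k h) =
      sw2 k (fun a b => LinearMap.mulLeft k (Sa k H b) ∘ₗ TT f ∘ₗ LinearMap.mulLeft k a) h := by
  ext w
  have e1 : sw2 k (fun a b => LinearMap.mulLeft k (Sa k H b) ∘ₗ TT f ∘ₗ LinearMap.mulLeft k a) h w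
      = sw2 k (fun a b => Sa k H b * TT f (a * w)) h := by
    simp only [sw2, LinearMap.sum_apply, LinearMap.comp_apply, LinearMap.mulLeft_apply]
  have e2 : ∀ a b : H, Sa k H b * TT f (a * w) = sw2 k (fun p p' => sw2 k (fun q q' =>
      f (p * q) • (Sa k H b * (p' * q'))) w) a := by
    intro a b
    rw [TT_apply]
    have : Sa k H b * sw2 k (fun a b => f a • b) (a * w) =
        sw2 k (fun p q => f p • (Sa k H b * q)) (a * w) := by
      simp only [sw2, Finset.mul_sum, mul_smul_comm]
    rw [this, sw2_mul]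
    constructor
    · intro q
      exact ⟨fun x y => by beta_reduce; rw [map_add, add_smul], fun c x => by
          beta_reduce; rw [map_smul, smul_eq_mul, mul_smul]⟩
    · intro p
      exact ⟨fun x y => by beta_reduce; rw [mul_add, smul_add], fun c x => by
          beta_reduce; rw [mul_smul_comm, smul_comm]⟩
  rw [e1]
  simp only [e2]
  rw [sw2_assoc (F := fun p p' b => sw2 k (fun q q' =>
      f (p * q) • (Sa k H b * (p' * q'))) w), sw3_eq]
  · have e3 : ∀ p y : H, sw2 k (fun p' b => sw2 k (fun q q' =>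
        f (p * q) • (Sa k H b * (p' * q'))) w) y =
        ep k H y • sw2 k (fun q q' => f (p * q) • q') w := by
      intro p y
      have := sw2_S_mul' (k := k) hS (f := fun x => sw2 k (fun q q' => f (p * q) • (x * q')) w)
        (lin_sw2 (G := fun x q q' => f (p * q) • (x * q')) (fun q q' =>
          ⟨fun x y => by beta_reduce; rw [add_mul, smul_add], fun c x => by
          beta_reduce; rw [smul_mul_assoc, smul_comm]⟩) w) y
      simp only [one_mul] at this
      rw [← this]
      simp only [mul_assoc]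
    simp only [e3]
    rw [sw2_counit_right (f := fun p => sw2 k (fun q q' => f (p * q) • q') w)]
    · rw [TT_apply]
      rfl
    · exact lin_sw2 (G := fun p q q' => f (p * q) • q') (fun q q' =>
        ⟨fun x y => by beta_reduce; rw [add_mul, map_add, add_smul], fun c x => by
          beta_reduce; rw [smul_mul_assoc, map_smul, smul_eq_mul, mul_smul]⟩) w
  · refine ⟨fun p' b => lin_sw2 (fun q q' =>
      ⟨fun x y => by beta_reduce; rw [add_mul, map_add, add_smul], fun c x => by
          beta_reduce; rw [smul_mul_assoc, map_smul, smul_eq_mul, mul_smul]⟩) w, fun p b => lin_sw2 (fun q q' =>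
      ⟨fun x y => by beta_reduce; rw [add_mul, mul_add, smul_add], fun c x => by
          beta_reduce; rw [smul_mul_assoc, mul_smul_comm, smul_comm]⟩) w, fun p p' => lin_sw2 (fun q q' =>
      ⟨fun x y => by beta_reduce; rw [map_add, add_mul, smul_add], fun c x => by
          beta_reduce; rw [map_smul, smul_mul_assoc, smul_comm]⟩) w⟩

private theorem TT_right (f : H →ₗ[k] k) (h : H) :
    TT (f ∘ₗ LinearMap.mulRight k h) =
      sw2 k (fun a b => LinearMap.mulRight k (Sa k H b) ∘ₗ TT f ∘ₗ LinearMap.mulRight k a) h := by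
  ext w
  have e1 : sw2 k (fun a b => LinearMap.mulRight k (Sa k H b) ∘ₗ TT f ∘ₗ LinearMap.mulRight k a) h w
      = sw2 k (fun a b => TT f (w * a) * Sa k H b) h := by
    simp only [sw2, LinearMap.sum_apply, LinearMap.comp_apply, LinearMap.mulRight_apply]
  have e2 : ∀ a b : H, TT f (w * a) * Sa k H b = sw2 k (fun p p' => sw2 k (fun q q' =>
      f (q * p) • (q' * (p' * Sa k H b))) w) a := by
    intro a b
    rw [TT_apply]
    have : sw2 k (fun a b => f a • b) (w * a) * Sa k H b =
        sw2 k (fun p q => f p • (q * Sa k H b)) (w * a) := by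
      simp only [sw2, Finset.sum_mul, smul_mul_assoc]
    rw [this, sw2_mul]
    · simp only [sw2, mul_assoc]
      exact Finset.sum_comm
    constructor
    · intro q
      exact ⟨fun x y => by beta_reduce; rw [map_add, add_smul], fun c x => by
          beta_reduce; rw [map_smul, smul_eq_mul, mul_smul]⟩
    · intro p
      exact ⟨fun x y => by beta_reduce; rw [add_mul, smul_add], fun c x => by
          beta_reduce; rw [smul_mul_assoc, smul_comm]⟩
  rw [e1]
  simp only [e2]
  rw [sw2_assoc (F := fun p p' b => sw2 k (fun q q' =>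
      f (q * p) • (q' * (p' * Sa k H b))) w), sw3_eq]
  · have e3 : ∀ p y : H, sw2 k (fun p' b => sw2 k (fun q q' =>
        f (q * p) • (q' * (p' * Sa k H b))) w) y =
        ep k H y • sw2 k (fun q q' => f (q * p) • q') w := by
      intro p y
      have := sw2_mul_S (k := k) (f := fun x => sw2 k (fun q q' => f (q * p) • (q' * x)) w)
        (lin_sw2 (G := fun x q q' => f (q * p) • (q' * x)) (fun q q' =>
          ⟨fun x y => by beta_reduce; rw [mul_add, smul_add], fun c x => by
          beta_reduce; rw [mul_smul_comm, smul_comm]⟩) w) y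
      simp only [mul_one] at this
      exact this
    simp only [e3]
    rw [sw2_counit_right (f := fun p => sw2 k (fun q q' => f (q * p) • q') w)]
    · rw [TT_apply]
      rfl
    · exact lin_sw2 (G := fun p q q' => f (q * p) • q') (fun q q' =>
        ⟨fun x y => by beta_reduce; rw [mul_add, map_add, add_smul], fun c x => by
          beta_reduce; rw [mul_smul_comm, map_smul, smul_eq_mul, mul_smul]⟩) w
  · refine ⟨fun p' b => lin_sw2 (fun q q' =>
      ⟨fun x y => by beta_reduce; rw [mul_add, map_add, add_smul], fun c x => by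
          beta_reduce; rw [mul_smul_comm, map_smul, smul_eq_mul, mul_smul]⟩) w, fun p b => lin_sw2 (fun q q' =>
      ⟨fun x y => by beta_reduce; rw [add_mul, mul_add, smul_add], fun c x => by
          beta_reduce; rw [smul_mul_assoc, mul_smul_comm, smul_comm]⟩) w, fun p p' => lin_sw2 (fun q q' =>
      ⟨fun x y => by beta_reduce; rw [map_add, mul_add, mul_add, smul_add], fun c x => by
          beta_reduce; rw [map_smul, mul_smul_comm, mul_smul_comm, smul_comm]⟩) w⟩

theorem mul_Lam (hS : ∀ x : H, Sa k H (Sa k H x) = x) (h : H) :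
    h * Lam k H = ep k H h • Lam k H := by
  apply ext_of_dual (k := k)
  intro f
  have h1 : f (h * Lam k H) = LinearMap.trace k H (TT (f ∘ₗ LinearMap.mulLeft k h)) :=
    apply_Lam (f ∘ₗ LinearMap.mulLeft k h)
  have h2 : f (Lam k H) = LinearMap.trace k H (TT f) := apply_Lam f
  rw [h1, TT_left hS, map_smul, h2]
  have h3 : LinearMap.trace k H (sw2 k (fun a b => LinearMap.mulLeft k (Sa k H b) ∘ₗ TT f ∘ₗ
      LinearMap.mulLeft k a) h) = sw2 k (fun a b => LinearMap.trace k H
        (TT f ∘ₗ LinearMap.mulLeft k (a * Sa k H b))) h := by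
    simp only [sw2, map_sum]
    refine Finset.sum_congr rfl fun i _ => ?_
    rw [LinearMap.mulLeft_mul, ← LinearMap.comp_assoc]
    exact LinearMap.trace_mul_comm k (LinearMap.mulLeft k (Sa k H (D k H i h)))
      (TT f ∘ₗ LinearMap.mulLeft k (e k H i))
  rw [h3, sw2_mul_S (f := fun x => LinearMap.trace k H (TT f ∘ₗ LinearMap.mulLeft k x))]
  · congr 2
    ext w
    simp
  · constructor
    · intro x y
      rw [← map_add, ← LinearMap.comp_add]
      congr 2
      ext w
      simp [add_mul]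
    · intro c x
      rw [← map_smul, ← LinearMap.comp_smul]
      congr 2
      ext w
      simp

theorem Lam_mul (hS : ∀ x : H, Sa k H (Sa k H x) = x) (h : H) :
    Lam k H * h = ep k H h • Lam k H := by
  apply ext_of_dual (k := k)
  intro f
  have h1 : f (Lam k H * h) = LinearMap.trace k H (TT (f ∘ₗ LinearMap.mulRight k h)) :=
    apply_Lam (f ∘ₗ LinearMap.mulRight k h)
  have h2 : f (Lam k H) = LinearMap.trace k H (TT f) := apply_Lam f
  rw [h1, TT_right, map_smul, h2]
  have h3 : LinearMap.trace k H (sw2 k (fun a b => LinearMap.mulRight k (Sa k H b) ∘ₗ TT f ∘ₗ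
      LinearMap.mulRight k a) h) = sw2 k (fun a b => LinearMap.trace k H
        (TT f ∘ₗ LinearMap.mulRight k (Sa k H b * a))) h := by
    simp only [sw2, map_sum]
    refine Finset.sum_congr rfl fun i _ => ?_
    rw [LinearMap.mulRight_mul, ← LinearMap.comp_assoc]
    exact LinearMap.trace_mul_comm k (LinearMap.mulRight k (Sa k H (D k H i h)))
      (TT f ∘ₗ LinearMap.mulRight k (e k H i))
  rw [h3, sw2_S_mul' hS (f := fun x => LinearMap.trace k H (TT f ∘ₗ LinearMap.mulRight k x))]
  · congr 2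
    ext w
    simp
  · constructor
    · intro x y
      rw [← map_add, ← LinearMap.comp_add]
      congr 2
      ext w
      simp [mul_add]
    · intro c x
      rw [← map_smul, ← LinearMap.comp_smul]
      congr 2
      ext w
      simp

theorem ep_Lam : ep k H (Lam k H) = (Module.finrank k H : k) := by
  have h := apply_Lam (k := k) (H := H) (ep k H)
  rw [h, ← LinearMap.trace_id]
  congr 1
  ext w
  change TT (ep k H) w = w
  rw [TT_apply]
  exact sw2_counit_left (f := fun x : H => x) ⟨fun _ _ => rfl, fun _ _ => rfl⟩ w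

theorem lam_Lam (hS : ∀ x : H, Sa k H (Sa k H x) = x) :
    lam k H (Lam k H) = (Module.finrank k H : k) := by
  rw [← ep_Lam]
  have h : LinearMap.mul k H (Lam k H) = (ep k H).smulRight (Lam k H) := by
    ext x
    rw [LinearMap.mul_apply', Lam_mul hS]
    rfl
  rw [lam, LinearMap.comp_apply, h, LinearMap.trace_smulRight]

theorem Sa_Lam [CharZero k] (hS : ∀ x : H, Sa k H (Sa k H x) = x) :
    Sa k H (Lam k H) = Lam k H := by
  have h1 : ∀ h : H, h * Sa k H (Lam k H) = ep k H h • Sa k H (Lam k H) := by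
    intro h
    have h2 := congrArg (Sa k H) (Lam_mul hS (Sa k H h))
    rw [Sa_mul, hS, map_smul, ep_Sa] at h2
    exact h2
  have h2 := h1 (Lam k H)
  rw [Lam_mul hS, ep_Sa, ep_Lam] at h2
  have h3 : (Module.finrank k H : k) ≠ 0 := by
    exact_mod_cast (finrank_pos_H (k := k) (H := H)).ne'
  have h4 := congrArg (fun x => (Module.finrank k H : k)⁻¹ • x) h2
  simp only [smul_smul, inv_mul_cancel₀ h3, one_smul] at h4
  exact h4.symm

theorem Lam_shift (hS : ∀ x : H, Sa k H (Sa k H x) = x) {F : H → H → Z} (hF : Bil2 k F) (h : H) :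
    sw2 k (fun a b => F (h * a) (Sa k H b)) (Lam k H) =
      sw2 k (fun a b => F a (Sa k H b * h)) (Lam k H) := by
  have hF2 : ∀ c : H, Bil2 k (fun a b => F a (Sa k H b * c)) := by
    intro c
    constructor
    · intro b
      exact hF.1 _
    · intro a
      exact ⟨fun x y => by beta_reduce; rw [map_add, add_mul, (hF.2 a).map_add], fun r x => by
          beta_reduce; rw [map_smul, smul_mul_assoc, (hF.2 a).map_smul]⟩
  have e1 : ∀ h1 h2 : H, sw2 k (fun a b => F a (Sa k H b * h2)) (h1 * Lam k H) =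
      ep k H h1 • sw2 k (fun a b => F a (Sa k H b * h2)) (Lam k H) := by
    intro h1 h2
    rw [mul_Lam hS, (sw2_linear (hF2 h2)).map_smul]
  have e2 : sw2 k (fun h1 h2 => sw2 k (fun a b => F a (Sa k H b * h2)) (h1 * Lam k H)) h =
      sw2 k (fun a b => F a (Sa k H b * h)) (Lam k H) := by
    simp only [e1]
    rw [sw2_counit_left (f := fun h2 => sw2 k (fun a b => F a (Sa k H b * h2)) (Lam k H))]
    exact lin_sw2 (G := fun x a b => F a (Sa k H b * x)) (fun a b =>
      ⟨fun x y => by beta_reduce; rw [mul_add, (hF.2 a).map_add], fun r x => by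
          beta_reduce; rw [mul_smul_comm, (hF.2 a).map_smul]⟩) _
  have e3 : ∀ h1 h2 : H, sw2 k (fun a b => F a (Sa k H b * h2)) (h1 * Lam k H) =
      sw2 k (fun p p' => sw2 k (fun q q' => F (p * q) (Sa k H q' * (Sa k H p' * h2)))
        (Lam k H)) h1 := by
    intro h1 h2
    rw [sw2_mul (hF2 h2)]
    simp only [Sa_mul, mul_assoc]
  rw [← e2]
  simp only [e3]
  rw [sw2_assoc (F := fun p p' h2 => sw2 k (fun q q' => F (p * q) (Sa k H q' * (Sa k H p' * h2)))
        (Lam k H)), sw3_eq]
  · have e4 : ∀ p y : H, sw2 k (fun p' h2 => sw2 k (fun q q' =>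
        F (p * q) (Sa k H q' * (Sa k H p' * h2))) (Lam k H)) y =
        ep k H y • sw2 k (fun q q' => F (p * q) (Sa k H q')) (Lam k H) := by
      intro p y
      have := sw2_S_mul (k := k) (f := fun x => sw2 k (fun q q' => F (p * q) (Sa k H q' * x))
        (Lam k H)) (lin_sw2 (G := fun x q q' => F (p * q) (Sa k H q' * x)) (fun q q' =>
          ⟨fun x y => by beta_reduce; rw [mul_add, (hF.2 _).map_add], fun c x => by
          beta_reduce; rw [mul_smul_comm, (hF.2 _).map_smul]⟩) _) y
      simp only [mul_one] at this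
      exact this
    simp only [e4]
    rw [sw2_counit_right (f := fun p => sw2 k (fun q q' => F (p * q) (Sa k H q')) (Lam k H))]
    exact lin_sw2 (G := fun x a b => F (x * a) (Sa k H b)) (fun a b =>
      ⟨fun x y => by beta_reduce; rw [add_mul, (hF.1 _).map_add], fun r x => by
          beta_reduce; rw [smul_mul_assoc, (hF.1 _).map_smul]⟩) _
  · refine ⟨fun p' b => lin_sw2 (fun q q' =>
      ⟨fun x y => by beta_reduce; rw [add_mul, (hF.1 _).map_add], fun c x => by
          beta_reduce; rw [smul_mul_assoc, (hF.1 _).map_smul]⟩) _, fun p b => lin_sw2 (fun q q' =>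
      ⟨fun x y => by beta_reduce; rw [map_add, add_mul, mul_add, (hF.2 _).map_add], fun c x => by
          beta_reduce; rw [map_smul, smul_mul_assoc, mul_smul_comm, (hF.2 _).map_smul]⟩) _,
      fun p p' => lin_sw2 (fun q q' =>
      ⟨fun x y => by beta_reduce; rw [mul_add, mul_add, (hF.2 _).map_add], fun c x => by
          beta_reduce; rw [mul_smul_comm, mul_smul_comm, (hF.2 _).map_smul]⟩) _⟩

end Pool.Agent.KExp
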