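import Pool.Agent.Lib.KExp.Defs
import Pool.Agent.Lib.KExp.Sw
import Pool.Agent.Lib.KExp.CE
import Pool.Agent.Lib.KExp.LInt
import Pool.Agent.Lib.KExp.PYD

/-!
# KExp.PTr (MP_0d5e35_al, paper /team-store/MP_0d5e35_al_paper38.md)

(1.6), second part: `Tr_P(ρ(h) σ(f)) = λ(h) f(Λ)`. PROOF. `ρ(h)σ(f)` on `P = H ⊗ H` is
`x ⊗ w ↦ ∑ h x₂ ⊗ f(x₁ w₁ S(x₃)) w₂`, i.e. `∑_{j,l,q} map(A_{jlq}) (D q)` with `A(x) = f(eⱼ e_q S(x₃)) h e_l`
(definition of sP). Its trace is `∑ Tr(A_{jlq}) Tr(D q)`, and `∑_q Tr(D q) e_q = Λ` (definition of Lam), so it is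
`Tr(x ↦ f(x₁ Λ S(x₃)) h x₂) = Tr(x ↦ ε(x₁) ε(x₃) f(Λ) h x₂) = f(Λ) λ(h)` by mul_Lam, Lam_mul, ep_Sa.
-/

set_option autoImplicit false

open scoped TensorProduct

namespace Pool.Agent.KExp

variable {k : Type} [Field k] {H : Type} [Ring H] [HopfAlgebra k H] [FiniteDimensional k H]

private theorem tr_basis (A : H →ₗ[k] H) :
    LinearMap.trace k H A = ∑ i, ec k H i (A (e k H i)) := by
  classical
  rw [LinearMap.trace_eq_matrix_trace k (Module.finBasis k H), Matrix.trace]
  refine Finset.sum_congr rfl fun i _ => ?_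
  rw [Matrix.diag_apply, LinearMap.toMatrix_apply]
  rfl

private theorem tr_smulRight (φ : H →ₗ[k] k) (v : H) :
    LinearMap.trace k H (φ.smulRight v) = φ v := by
  rw [tr_basis]
  have h := congrArg φ (sum_ec (k := k) v)
  rw [map_sum] at h
  rw [← h]
  refine Finset.sum_congr rfl fun i _ => ?_
  rw [LinearMap.smulRight_apply, map_smul, map_smul, smul_eq_mul, smul_eq_mul, mul_comm]

private theorem ep_D (l : Fin (Module.finrank k H)) (y : H) :
    ep k H (D k H l y) = ec k H l y := by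
  have h := sw2_counit_right (k := k) (H := H) (Z := H) (f := fun x => x)
    ⟨fun _ _ => rfl, fun _ _ => rfl⟩ y
  have h2 := congrArg (ec k H l) h
  rw [← h2]
  simp only [sw2, map_sum, map_smul, ec_e, smul_eq_mul]
  rw [Finset.sum_eq_single l]
  · rw [if_pos rfl, mul_one]
  · intro b _ hb
    rw [if_neg (Ne.symm hb), mul_zero]
  · intro hb
    exact absurd (Finset.mem_univ l) hb

private theorem sum_ep_D (y : H) : ∑ j, ep k H (e k H j) • D k H j y = y :=
  sw2_counit_left (k := k) (H := H) (Z := H) (f := fun x => x)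
    ⟨fun _ _ => rfl, fun _ _ => rfl⟩ y

private theorem rP_mul_map (h : H) (A B : H →ₗ[k] H) :
    (rP (k := k) (H := H)) h * TensorProduct.map A B =
      TensorProduct.map (LinearMap.mulLeft k h ∘ₗ A) B := by
  apply TensorProduct.ext'
  intro x w
  rw [Module.End.mul_apply, TensorProduct.map_tmul, TensorProduct.map_tmul, rP_tmul]
  rfl

theorem trace_P (hS : ∀ x : H, Sa k H (Sa k H x) = x) (h : H) (f : H →ₗ[k] k) :
    LinearMap.trace k (H ⊗[k] H) ((rP (k := k) (H := H)) h * sP f) =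
      lam k H h * f (Lam k H) := by
  have e1 : (rP (k := k) (H := H)) h * sP f = ∑ j, ∑ l, ∑ q, TensorProduct.map
      ((f ∘ₗ LinearMap.mulLeft k (e k H j) ∘ₗ LinearMap.mulLeft k (e k H q) ∘ₗ Sa k H ∘ₗ
        D k H l ∘ₗ D k H j).smulRight (h * e k H l)) (D k H q) := by
    have e0 : sP f = ∑ j, ∑ l, ∑ q, TensorProduct.map
      ((f ∘ₗ LinearMap.mulLeft k (e k H j) ∘ₗ LinearMap.mulLeft k (e k H q) ∘ₗ Sa k H ∘ₗ
        D k H l ∘ₗ D k H j).smulRight (e k H l)) (D k H q) := rfl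
    rw [e0, Finset.mul_sum]
    refine Finset.sum_congr rfl fun j _ => ?_
    rw [Finset.mul_sum]
    refine Finset.sum_congr rfl fun l _ => ?_
    rw [Finset.mul_sum]
    refine Finset.sum_congr rfl fun q _ => ?_
    rw [rP_mul_map]
    refine congrArg (fun A => TensorProduct.map A (D k H q)) ?_
    ext x
    simp
  have e2 : ∀ j l : Fin (Module.finrank k H), ∑ q, LinearMap.trace k (H ⊗[k] H)
      (TensorProduct.map
      ((f ∘ₗ LinearMap.mulLeft k (e k H j) ∘ₗ LinearMap.mulLeft k (e k H q) ∘ₗ Sa k H ∘ₗ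
        D k H l ∘ₗ D k H j).smulRight (h * e k H l)) (D k H q)) =
      ep k H (e k H j) * (ep k H (D k H l (D k H j (h * e k H l))) * f (Lam k H)) := by
    intro j l
    set y := D k H l (D k H j (h * e k H l)) with hy
    have e3 : ∀ q, LinearMap.trace k (H ⊗[k] H)
      (TensorProduct.map
      ((f ∘ₗ LinearMap.mulLeft k (e k H j) ∘ₗ LinearMap.mulLeft k (e k H q) ∘ₗ Sa k H ∘ₗ
        D k H l ∘ₗ D k H j).smulRight (h * e k H l)) (D k H q)) =
        f (e k H j * ((LinearMap.trace k H (D k H q) • e k H q) * Sa k H y)) := by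
      intro q
      rw [LinearMap.trace_tensorProduct', tr_smulRight, smul_mul_assoc, mul_smul_comm, map_smul,
        smul_eq_mul, mul_comm]
      rfl
    rw [Finset.sum_congr rfl (fun q _ => e3 q), ← map_sum, ← Finset.mul_sum, ← Finset.sum_mul]
    have e4 : ∑ q, LinearMap.trace k H (D k H q) • e k H q = Lam k H := rfl
    rw [e4, Lam_mul hS, ep_Sa, mul_smul_comm, mul_Lam hS, map_smul, map_smul, smul_eq_mul,
      smul_eq_mul]
    ring
  rw [e1, map_sum]
  have e5 : ∀ j : Fin (Module.finrank k H), LinearMap.trace k (H ⊗[k] H) (∑ l, ∑ q,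
      TensorProduct.map
      ((f ∘ₗ LinearMap.mulLeft k (e k H j) ∘ₗ LinearMap.mulLeft k (e k H q) ∘ₗ Sa k H ∘ₗ
        D k H l ∘ₗ D k H j).smulRight (h * e k H l)) (D k H q)) =
      ∑ l, ep k H (e k H j) * (ep k H (D k H l (D k H j (h * e k H l))) * f (Lam k H)) := by
    intro j
    rw [map_sum]
    refine Finset.sum_congr rfl fun l _ => ?_
    rw [map_sum, e2]
  rw [Finset.sum_congr rfl (fun j _ => e5 j), Finset.sum_comm]
  have e6 : ∀ l : Fin (Module.finrank k H),
      ∑ j, ep k H (e k H j) * (ep k H (D k H l (D k H j (h * e k H l))) * f (Lam k H)) =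
      ec k H l (h * e k H l) * f (Lam k H) := by
    intro l
    have e7 := congrArg (fun y => ep k H (D k H l y)) (sum_ep_D (k := k) (h * e k H l))
    simp only [map_sum, map_smul, smul_eq_mul, ep_D] at e7
    rw [← e7, Finset.sum_mul]
    refine Finset.sum_congr rfl fun j _ => ?_
    rw [ep_D]
    ring
  rw [Finset.sum_congr rfl (fun l _ => e6 l), ← Finset.sum_mul]
  have e8 : lam k H h = ∑ l, ec k H l (h * e k H l) := by
    show LinearMap.trace k H (LinearMap.mul k H h) = _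
    rw [tr_basis]
    rfl
  rw [e8]

end Pool.Agent.KExp
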