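import Pool.Agent.Lib.KExp.Defs

/-!
# KExp.Ptr (MP_0d5e35_al, paper /team-store/MP_0d5e35_al_paper38.md)

The partial trace (linear algebra). `ptr T = ∑ᵢ (bᵢ* ⊗ id) T (bᵢ ⊗ ·)`. PROOFS: ptr_map: direct,
`∑ bᵢ*(a bᵢ) = Tr a`. ptr_linear: clear. ptr_mul_right/left from the definition; trace_ptr: for `map a b` it is
`LinearMap.trace_tensorProduct'`, and `End(X ⊗ Y)` is spanned by the `map a b`; ptr_comm: `ptr(T (a ⊗ 1))`:
expand `a bᵢ = ∑ⱼ bⱼ*(a bᵢ) bⱼ` on one side and `bᵢ* ∘ a = ∑ⱼ bᵢ*(a bⱼ) bⱼ*` on the other.
-/

set_option autoImplicit false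

open scoped TensorProduct

namespace Pool.Agent.KExp

variable {k : Type} [Field k] {X Y : Type} [AddCommGroup X] [Module k X]
  [FiniteDimensional k X] [AddCommGroup Y] [Module k Y]

private theorem ptr_apply (T : Module.End k (X ⊗[k] Y)) (y : Y) :
    ptr T y = ∑ i, TensorProduct.lid k Y
      (((Module.finBasis k X).coord i).rTensor Y (T (Module.finBasis k X i ⊗ₜ[k] y))) := by
  simp [ptr, LinearMap.sum_apply]

theorem ptr_map (a : Module.End k X) (b : Module.End k Y) :
    ptr (TensorProduct.map a b) = LinearMap.trace k X a • b := by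
  ext y
  rw [ptr_apply, LinearMap.smul_apply,
    LinearMap.trace_eq_matrix_trace k (Module.finBasis k X) a]
  simp only [TensorProduct.map_tmul, LinearMap.rTensor_tmul, TensorProduct.lid_tmul,
    Matrix.trace, Matrix.diag, LinearMap.toMatrix_apply, Finset.sum_smul]
  rfl

theorem ptr_linear : IsLinearMap k (fun T : Module.End k (X ⊗[k] Y) => ptr T) := by
  refine ⟨fun S T => ?_, fun c T => ?_⟩
  · ext y
    simp only [LinearMap.add_apply, ptr_apply, map_add, Finset.sum_add_distrib]
  · ext y
    simp only [LinearMap.smul_apply, ptr_apply, map_smul, Finset.smul_sum]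

theorem ptr_mul_right (T : Module.End k (X ⊗[k] Y)) (b : Module.End k Y) :
    ptr (T * TensorProduct.map 1 b) = ptr T * b := by
  ext y
  simp only [Module.End.mul_apply, ptr_apply, TensorProduct.map_tmul, Module.End.one_apply]

omit [FiniteDimensional k X] in
private theorem lid_rTensor_map (c : X →ₗ[k] k) (b : Module.End k Y) (z : X ⊗[k] Y) :
    TensorProduct.lid k Y (c.rTensor Y (TensorProduct.map 1 b z)) =
      b (TensorProduct.lid k Y (c.rTensor Y z)) := by
  induction z with
  | zero => simp
  | tmul x y => simp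
  | add x y hx hy => simp only [map_add, hx, hy]

theorem ptr_mul_left (T : Module.End k (X ⊗[k] Y)) (b : Module.End k Y) :
    ptr (TensorProduct.map 1 b * T) = b * ptr T := by
  ext y
  simp only [Module.End.mul_apply, ptr_apply, lid_rTensor_map, map_sum]

private theorem lid_rTensor_map' (a : Module.End k X) (i : Fin (Module.finrank k X))
    (z : X ⊗[k] Y) :
    TensorProduct.lid k Y (((Module.finBasis k X).coord i).rTensor Y
      (TensorProduct.map a 1 z)) =
      ∑ j, (Module.finBasis k X).coord i (a (Module.finBasis k X j)) •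
        TensorProduct.lid k Y (((Module.finBasis k X).coord j).rTensor Y z) := by
  induction z with
  | zero => simp
  | tmul x y =>
    simp only [TensorProduct.map_tmul, LinearMap.rTensor_tmul, TensorProduct.lid_tmul,
      Module.End.one_apply, smul_smul, ← Finset.sum_smul]
    congr 1
    conv_lhs => rw [← (Module.finBasis k X).sum_repr x]
    simp only [map_sum, map_smul, smul_eq_mul]
    refine Finset.sum_congr rfl fun j _ => ?_
    rw [mul_comm]
    rfl
  | add x y hx hy => simp only [map_add, hx, hy, smul_add, Finset.sum_add_distrib]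

theorem ptr_comm (T : Module.End k (X ⊗[k] Y)) (a : Module.End k X) :
    ptr (T * TensorProduct.map a 1) = ptr (TensorProduct.map a 1 * T) := by
  ext y
  simp only [Module.End.mul_apply, ptr_apply, lid_rTensor_map', TensorProduct.map_tmul,
    Module.End.one_apply]
  have h : ∀ i, TensorProduct.lid k Y (((Module.finBasis k X).coord i).rTensor Y
      (T (a (Module.finBasis k X i) ⊗ₜ[k] y))) =
      ∑ j, (Module.finBasis k X).coord j (a (Module.finBasis k X i)) •
        TensorProduct.lid k Y (((Module.finBasis k X).coord i).rTensor Y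
          (T (Module.finBasis k X j ⊗ₜ[k] y))) := by
    intro i
    conv_lhs => rw [← (Module.finBasis k X).sum_repr (a (Module.finBasis k X i))]
    simp only [TensorProduct.sum_tmul, map_sum, map_smul, ← TensorProduct.smul_tmul']
    rfl
  simp only [h]
  exact Finset.sum_comm

theorem trace_ptr [FiniteDimensional k Y] (T : Module.End k (X ⊗[k] Y)) :
    LinearMap.trace k Y (ptr T) = LinearMap.trace k (X ⊗[k] Y) T := by
  obtain ⟨t, rfl⟩ := (homTensorHomEquiv k X Y X Y).surjective T
  induction t with
  | zero =>
    rw [map_zero, ptr_linear.map_zero, map_zero, map_zero]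
  | tmul a b =>
    have e : (homTensorHomEquiv k X Y X Y) (a ⊗ₜ[k] b) = TensorProduct.map a b := by
      simp
    rw [e, ptr_map, map_smul, LinearMap.trace_tensorProduct', smul_eq_mul]
  | add x y hx hy =>
    rw [map_add, ptr_linear.map_add, map_add, map_add, hx, hy]

end Pool.Agent.KExp
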