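import Pool.Agent.Lib.KExp.Defs
import Pool.Agent.Lib.KExp.Sw
import Pool.Agent.Lib.KExp.CE
import Pool.Agent.Lib.KExp.TensApp
import Pool.Agent.Lib.KExp.Ptr

/-!
# KExp.PtrMul (MP_0d5e35_al, paper /team-store/MP_0d5e35_al_paper38.md)

(1.5) multiplicativity of the partial trace of the double braiding. PROOF. By tR_apply, tS_apply, ce_cv and
ce_mul, `M_{X⊗X',Y} = ∑_{i,j} tR(e_j) tS(e^i) ⊗ σ_Y(e^j) ρ_Y(e_i)
= ∑_{i,i',j,j'} (ρ(e_j)σ(e^i) ⊗ ρ'(e_j')σ'(e^i')) ⊗ σ_Y(e^j') σ_Y(e^j) ρ_Y(e_i) ρ_Y(e_i')`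
[`∑_j e_{j1} ⊗ e_{j2} ⊗ e^j = ∑ e_j ⊗ e_j' ⊗ (e^j * e^j')`, `σ_Y(cv e^j e^j') = σ_Y(e^j') σ_Y(e^j)`;
`∑_i tS(e^i) ⊗ e_i = ∑_{i,i'} σ(e^i) ⊗ σ'(e^i') ⊗ e_i e_i'`]. Multiply by `(a ⊗ a') ⊗ 1` and apply ptr (ptr_map,
`LinearMap.trace_tensorProduct'`): `∑ Tr(ρ(e_j)σ(e^i)a) Tr(ρ'(e_j')σ'(e^i')a') σ_Y(e^j') [σ_Y(e^j)ρ_Y(e_i)] ρ_Y(e_i')`.
The inner sum over `i, j` is `ptr(M_{X,Y}(a ⊗ 1)) = t`. What remains is `t ptr(M_{X',Y}(a' ⊗ 1))`.
-/

set_option autoImplicit false

open scoped TensorProduct

namespace Pool.Agent.KExp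

variable {k : Type} [Field k] {H : Type} [Ring H] [HopfAlgebra k H] [FiniteDimensional k H]

variable {X X' Y : Type} [AddCommGroup X] [Module k X] [AddCommGroup X'] [Module k X']
  [AddCommGroup Y] [Module k Y] [FiniteDimensional k X] [FiniteDimensional k X']
  {ρ : H →ₐ[k] Module.End k X} {σ : (H →ₗ[k] k) →ₗ[k] Module.End k X}
  {ρ' : H →ₐ[k] Module.End k X'} {σ' : (H →ₗ[k] k) →ₗ[k] Module.End k X'}
  {τ : H →ₐ[k] Module.End k Y} {κ : (H →ₗ[k] k) →ₗ[k] Module.End k Y}

private theorem tmul_mul (A A' : Module.End k X) (B B' : Module.End k Y) :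
    TensorProduct.map A B * TensorProduct.map A' B' = TensorProduct.map (A * A') (B * B') := by
  rw [Module.End.mul_eq_comp, Module.End.mul_eq_comp, Module.End.mul_eq_comp,
    TensorProduct.map_comp]

private theorem map_sum_l {A B ι : Type} [AddCommGroup A] [Module k A] [AddCommGroup B]
    [Module k B] (s : Finset ι) (f : ι → Module.End k A) (g : Module.End k B) :
    TensorProduct.map (∑ i ∈ s, f i) g = ∑ i ∈ s, TensorProduct.map (f i) g := by
  classical
  induction s using Finset.induction_on with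
  | empty => simp [TensorProduct.map_zero_left]
  | insert a s ha ih =>
    rw [Finset.sum_insert ha, Finset.sum_insert ha, TensorProduct.map_add_left, ih]

theorem ptr_Mop (a : Module.End k X) :
    ptr (Mop ρ σ τ κ * TensorProduct.map a 1) =
      ∑ i, ∑ j, LinearMap.trace k X (ρ (e k H j) * σ (ec k H i) * a) •
        (κ (ec k H j) * τ (e k H i)) := by
  have hlin : ∀ T : Module.End k (X ⊗[k] Y), ptr T = (ptr_linear (k := k) (X := X) (Y := Y)).mk' _ T :=
    fun T => rfl
  unfold Mop
  rw [Finset.sum_mul, hlin, map_sum]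
  refine Finset.sum_congr rfl fun i _ => ?_
  rw [Finset.sum_mul, map_sum]
  refine Finset.sum_congr rfl fun j _ => ?_
  rw [← hlin, tmul_mul, mul_one, ptr_map]

private theorem mop_tens1 (hY : IsYD τ κ) (S : Module.End k (X ⊗[k] X')) (T0 : Module.End k Y) :
    ∑ j, TensorProduct.map (tR ρ ρ' (e k H j) * S) (κ (ec k H j) * T0) =
      ∑ j, ∑ j', TensorProduct.map (TensorProduct.map (ρ (e k H j)) (ρ' (e k H j')) * S)
        (κ (ec k H j') * κ (ec k H j) * T0) := by
  have h := ce_cv (k := k) (H := H)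
    (G := fun x y f => TensorProduct.map (TensorProduct.map (ρ x) (ρ' y) * S) (κ f * T0))
    (fun b f => ⟨fun u v => by
        simp only [map_add, TensorProduct.map_add_left, add_mul],
      fun c u => by
        simp only [map_smul, TensorProduct.map_smul_left, smul_mul_assoc]⟩)
    (fun b f => ⟨fun u v => by
        simp only [map_add, TensorProduct.map_add_right, TensorProduct.map_add_left, add_mul],
      fun c u => by
        simp only [map_smul, TensorProduct.map_smul_right, TensorProduct.map_smul_left,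
          smul_mul_assoc]⟩)
    (fun b f => ⟨fun u v => by
        simp only [map_add, TensorProduct.map_add_right, add_mul],
      fun c u => by
        simp only [map_smul, TensorProduct.map_smul_right, smul_mul_assoc]⟩)
  have h2 : ∀ j j' : Fin (Module.finrank k H), κ (cv (ec k H j) (ec k H j')) =
      κ (ec k H j') * κ (ec k H j) := fun j j' => (hY.mul _ _).symm
  simp only [h2] at h
  rw [h]
  refine Finset.sum_congr rfl fun j _ => ?_
  rw [tR_apply]
  unfold sw2
  rw [Finset.sum_mul, map_sum_l]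

private theorem mop_tens2 (R : Module.End k (X ⊗[k] X')) (K0 : Module.End k Y) :
    ∑ i, TensorProduct.map (R * tS σ σ' (ec k H i)) (K0 * τ (e k H i)) =
      ∑ i, ∑ i', TensorProduct.map (R * TensorProduct.map (σ (ec k H i)) (σ' (ec k H i')))
        (K0 * (τ (e k H i) * τ (e k H i'))) := by
  have h := ce_mul (k := k) (H := H)
    (G := fun f g x => TensorProduct.map (R * TensorProduct.map (σ f) (σ' g)) (K0 * τ x))
    (fun b f => ⟨fun u v => by
        simp only [map_add, TensorProduct.map_add_left, mul_add],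
      fun c u => by
        simp only [map_smul, TensorProduct.map_smul_left, mul_smul_comm]⟩)
    (fun b f => ⟨fun u v => by
        simp only [map_add, TensorProduct.map_add_right, TensorProduct.map_add_left, mul_add],
      fun c u => by
        simp only [map_smul, TensorProduct.map_smul_right, TensorProduct.map_smul_left,
          mul_smul_comm]⟩)
    (fun b f => ⟨fun u v => by
        simp only [map_add, TensorProduct.map_add_right, mul_add],
      fun c u => by
        simp only [map_smul, TensorProduct.map_smul_right, mul_smul_comm]⟩)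
  simp only [map_mul] at h
  rw [← h]
  refine Finset.sum_congr rfl fun i _ => ?_
  rw [tS_apply, Finset.mul_sum, map_sum_l]
  refine Finset.sum_congr rfl fun p _ => ?_
  rw [Finset.mul_sum, map_sum_l]
  refine Finset.sum_congr rfl fun q _ => ?_
  rw [mul_smul_comm, TensorProduct.map_smul_left]

private theorem mop_tens (hY : IsYD τ κ) :
    Mop (tR ρ ρ') (tS σ σ') τ κ =
      ∑ j, ∑ j', ∑ i, ∑ i', TensorProduct.map
        (TensorProduct.map (ρ (e k H j) * σ (ec k H i)) (ρ' (e k H j') * σ' (ec k H i')))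
        (κ (ec k H j') * (κ (ec k H j) * τ (e k H i)) * τ (e k H i')) := by
  unfold Mop
  simp only [mop_tens1 hY]
  rw [Finset.sum_comm]
  refine Finset.sum_congr rfl fun j _ => ?_
  rw [Finset.sum_comm]
  refine Finset.sum_congr rfl fun j' _ => ?_
  rw [mop_tens2]
  refine Finset.sum_congr rfl fun i _ => Finset.sum_congr rfl fun i' _ => ?_
  rw [tmul_mul]
  simp only [mul_assoc]

theorem ptr_Mop_tens (hY : IsYD τ κ) (a : Module.End k X) (a' : Module.End k X') (t : k)
    (ht : ptr (Mop ρ σ τ κ * TensorProduct.map a 1) = t • 1) :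
    ptr (Mop (tR ρ ρ') (tS σ σ') τ κ * TensorProduct.map (TensorProduct.map a a') 1) =
      t • ptr (Mop ρ' σ' τ κ * TensorProduct.map a' 1) := by
  have hlin : ∀ T : Module.End k ((X ⊗[k] X') ⊗[k] Y), ptr T =
      (ptr_linear (k := k) (X := X ⊗[k] X') (Y := Y)).mk' _ T := fun T => rfl
  have h1 : ptr (Mop (tR ρ ρ') (tS σ σ') τ κ *
      TensorProduct.map (TensorProduct.map a a') 1) =
      ∑ j, ∑ j', ∑ i, ∑ i', (LinearMap.trace k X (ρ (e k H j) * σ (ec k H i) * a) *
        LinearMap.trace k X' (ρ' (e k H j') * σ' (ec k H i') * a')) •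
        (κ (ec k H j') * (κ (ec k H j) * τ (e k H i)) * τ (e k H i')) := by
    rw [mop_tens hY, Finset.sum_mul, hlin, map_sum]
    refine Finset.sum_congr rfl fun j _ => ?_
    rw [Finset.sum_mul, map_sum]
    refine Finset.sum_congr rfl fun j' _ => ?_
    rw [Finset.sum_mul, map_sum]
    refine Finset.sum_congr rfl fun i _ => ?_
    rw [Finset.sum_mul, map_sum]
    refine Finset.sum_congr rfl fun i' _ => ?_
    rw [← hlin, tmul_mul, mul_one, tmul_mul, ptr_map, LinearMap.trace_tensorProduct']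
  rw [ptr_Mop] at ht
  rw [h1, ptr_Mop, Finset.smul_sum, Finset.sum_comm]
  have h2 : ∀ i' j' : Fin (Module.finrank k H),
      t • (LinearMap.trace k X' (ρ' (e k H j') * σ' (ec k H i') * a') •
        (κ (ec k H j') * τ (e k H i'))) =
      ∑ i, ∑ j, (LinearMap.trace k X (ρ (e k H j) * σ (ec k H i) * a) *
        LinearMap.trace k X' (ρ' (e k H j') * σ' (ec k H i') * a')) •
        (κ (ec k H j') * (κ (ec k H j) * τ (e k H i)) * τ (e k H i')) := by
    intro i' j'
    have h3 : t • (κ (ec k H j') * τ (e k H i')) =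
        κ (ec k H j') * (t • (1 : Module.End k Y)) * τ (e k H i') := by
      rw [mul_smul_comm, mul_one, smul_mul_assoc]
    rw [smul_comm, h3, ← ht, Finset.mul_sum, Finset.sum_mul, Finset.smul_sum]
    refine Finset.sum_congr rfl fun i _ => ?_
    rw [Finset.mul_sum, Finset.sum_mul, Finset.smul_sum]
    refine Finset.sum_congr rfl fun j _ => ?_
    rw [mul_smul_comm, smul_mul_assoc, smul_smul]
    congr 1
    ring
  simp only [Finset.smul_sum, h2]
  conv_rhs => rw [Finset.sum_comm]
  refine Finset.sum_congr rfl fun j' _ => ?_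
  rw [Finset.sum_comm]
  conv_rhs => rw [Finset.sum_comm]
  refine Finset.sum_congr rfl fun i _ => ?_
  rw [Finset.sum_comm]

end Pool.Agent.KExp
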