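import Pool.Agent.Lib.KExp.Defs
import Pool.Agent.Lib.KExp.QPow
import Pool.Agent.Lib.KExp.TensApp
import Pool.Agent.Lib.KExp.TensYD
import Pool.Agent.Lib.KExp.MFin
import Pool.Agent.Lib.KExp.Ptr
import Pool.Agent.Lib.KExp.PtrMul

/-!
# KExp.PowTr (MP_0d5e35_al, paper /team-store/MP_0d5e35_al_paper38.md)

The power trick. PROOF. By induction on `j`: there are a finite dimensional `X_j` with YD data `ρ_j, σ_j` and an
idempotent `a_j` commuting with them with `ptr(M_{X_j,Y} (a_j ⊗ 1)) = t^(j+1) • 1`: `X_0 = X`, `X_{j+1} = X ⊗ X_j` with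
`tR`, `tS` (isYD_tens), `a_{j+1} = a ⊗ a_j` (commutes with tR, tS by tR_apply, tS_apply) and ptr_Mop_tens. Then
`B = M_{X_j,Y} (a_j ⊗ 1)` on `X_j ⊗ Y`: `M^N = 1` (Mop_pow), `M` commutes with the idempotent `a_j ⊗ 1` (Mop_end), so
`B^(N+1) = M^(N+1) (a_j ⊗ 1) = B`, and `Tr B = Tr(ptr B) = t^(j+1) dim Y` (trace_ptr).
-/

set_option autoImplicit false

open scoped TensorProduct

namespace Pool.Agent.KExp

variable {k : Type} [Field k] {H : Type} [Ring H] [HopfAlgebra k H] [FiniteDimensional k H]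

variable {X Y : Type} [AddCommGroup X] [Module k X] [FiniteDimensional k X]
  [AddCommGroup Y] [Module k Y] [FiniteDimensional k Y]
  {ρ : H →ₐ[k] Module.End k X} {σ : (H →ₗ[k] k) →ₗ[k] Module.End k X}
  {ρ' : H →ₐ[k] Module.End k Y} {σ' : (H →ₗ[k] k) →ₗ[k] Module.End k Y}

private theorem chain (hX : IsYD ρ σ) (hY : IsYD ρ' σ') (a : Module.End k X) (ha : a * a = a)
    (haR : ∀ h, a * ρ h = ρ h * a) (haS : ∀ f, a * σ f = σ f * a) (t : k)
    (ht : ptr (Mop ρ σ ρ' σ' * TensorProduct.map a 1) = t • 1) (j : ℕ) :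
    ∃ (X' : Type) (_ : AddCommGroup X') (_ : Module k X') (_ : FiniteDimensional k X')
      (ρ₁ : H →ₐ[k] Module.End k X') (σ₁ : (H →ₗ[k] k) →ₗ[k] Module.End k X')
      (a₁ : Module.End k X'), IsYD ρ₁ σ₁ ∧ a₁ * a₁ = a₁ ∧ (∀ h, a₁ * ρ₁ h = ρ₁ h * a₁) ∧
      (∀ f, a₁ * σ₁ f = σ₁ f * a₁) ∧
      ptr (Mop ρ₁ σ₁ ρ' σ' * TensorProduct.map a₁ 1) = t ^ (j + 1) • (1 : Module.End k Y) := by
  induction j with
  | zero => exact ⟨X, _, _, inferInstance, ρ, σ, a, hX, ha, haR, haS, by rw [ht, zero_add, pow_one]⟩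
  | succ j ih =>
    obtain ⟨X', i1, i2, i3, ρ₁, σ₁, a₁, h1, h2, h3, h4, h5⟩ := ih
    refine ⟨X ⊗[k] X', inferInstance, inferInstance, inferInstance, tR ρ ρ₁, tS σ σ₁,
      TensorProduct.map a a₁, isYD_tens hX h1, ?_, ?_, ?_, ?_⟩
    · rw [← TensorProduct.map_mul, ha, h2]
    · intro h
      simp only [tR_apply, sw2, Finset.mul_sum, Finset.sum_mul, ← TensorProduct.map_mul, haR, h3]
    · intro f
      simp only [tS_apply, Finset.mul_sum, Finset.sum_mul, mul_smul_comm, smul_mul_assoc,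
        ← TensorProduct.map_mul, haS, h4]
    · rw [ptr_Mop_tens hY a a₁ t ht, h5, smul_smul, ← pow_succ']

theorem pow_trick (hS : ∀ x : H, Sa k H (Sa k H x) = x) {N : ℕ} (hQ : Q k H N = Q k H 0)
    (hX : IsYD ρ σ) (hY : IsYD ρ' σ') (a : Module.End k X) (ha : a * a = a)
    (haR : ∀ h, a * ρ h = ρ h * a) (haS : ∀ f, a * σ f = σ f * a) (t : k)
    (ht : ptr (Mop ρ σ ρ' σ' * TensorProduct.map a 1) = t • 1) (j : ℕ) :
    ∃ (X' : Type) (_ : AddCommGroup X') (_ : Module k X') (_ : FiniteDimensional k X')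
      (B : Module.End k X'), B ^ (N + 1) = B ∧
      LinearMap.trace k X' B = t ^ (j + 1) * (Module.finrank k Y : k) := by
  obtain ⟨X', i1, i2, i3, ρ₁, σ₁, a₁, h1, h2, h3, h4, h5⟩ := chain hX hY a ha haR haS t ht j
  have hM := Mop_pow hS h1 hY hQ
  have hc : Commute (Mop ρ₁ σ₁ ρ' σ') (TensorProduct.map a₁ (1 : Module.End k Y)) :=
    Mop_end h3 h4
  have hid : TensorProduct.map a₁ (1 : Module.End k Y) * TensorProduct.map a₁ 1
      = TensorProduct.map a₁ 1 := by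
    rw [← TensorProduct.map_mul, h2, one_mul]
  refine ⟨X' ⊗[k] Y, inferInstance, inferInstance, inferInstance,
    Mop ρ₁ σ₁ ρ' σ' * TensorProduct.map a₁ 1, ?_, ?_⟩
  · rw [hc.mul_pow, pow_succ, hM, one_mul]
    congr 1
    exact (IsIdempotentElem.pow_succ_eq N hid)
  · rw [← trace_ptr, h5, map_smul, smul_eq_mul, LinearMap.trace_one]

end Pool.Agent.KExp
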