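import Pool.Agent.Lib.KExp.Defs
import Pool.Agent.Lib.KExp.Sw
import Pool.Agent.Lib.KExp.CE
import Pool.Agent.Lib.KExp.TensApp
import Pool.Agent.Lib.KExp.Ptr

/-!
# KExp.PtrYD (MP_0d5e35_al, paper /team-store/MP_0d5e35_al_paper38.md)

(1.4). `1 ⊗ ρ'(h) = ∑ tR(h₂) (ρ(S(h₁)) ⊗ 1)` because `∑ ρ(h₂ S(h₁)) ⊗ ρ'(h₃)` and `h₂ S(h₁) = ε`
(sw2_mul_S'), and `1 ⊗ ρ'(h) = ∑ (ρ(S(h₁)) ⊗ 1) tR(h₂)` (sw2_S_mul). So, with ptr_comm, ptr_mul_left/right,
`ptr(T) ρ'(h) = ptr(T (1 ⊗ ρ'(h))) = ∑ ptr(T tR(h₂) (ρ(S h₁) ⊗ 1)) = ∑ ptr((ρ(S h₁) ⊗ 1) T tR(h₂))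
= ∑ ptr((ρ(S h₁) ⊗ 1) tR(h₂) T) = ptr((1 ⊗ ρ'(h)) T) = ρ'(h) ptr(T)`.
The same for `σ'(f)`: write `f` split by the product: `f(xy) = ∑ᵢ e^i(x) f(eᵢ y)`. Then
`1 ⊗ σ'(f) = ∑ᵢ tS(f(eᵢ ·)) (σ(e^i ∘ S) ⊗ 1)`: indeed `tS(f(eᵢ·)) = ∑_{a,b} f(eᵢ e_a e_b) σ(e^a) ⊗ σ'(e^b)` and
`σ(e^a) σ(e^i∘S) = σ(cv (e^i∘S) e^a)`, `∑_{i,a} f(eᵢ e_a e_b) cv(e^i∘S, e^a) = (x ↦ f(S(x₁) x₂ e_b)) = f(e_b) ε`;
and `1 ⊗ σ'(f) = ∑ᵢ (σ(e^i ∘ S) ⊗ 1) tS(f(eᵢ ·))`: `σ(e^i∘S) σ(e^a) = σ(cv e^a (e^i∘S))`,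
`x ↦ f(S(x₂) x₁ e_b) = f(e_b) ε(x)` (sw2_S_mul').
-/

set_option autoImplicit false

open scoped TensorProduct

namespace Pool.Agent.KExp

variable {k : Type} [Field k] {H : Type} [Ring H] [HopfAlgebra k H] [FiniteDimensional k H]

variable {X Y : Type} [AddCommGroup X] [Module k X] [AddCommGroup Y] [Module k Y]
  {ρ : H →ₐ[k] Module.End k X} {σ : (H →ₗ[k] k) →ₗ[k] Module.End k X}
  {ρ' : H →ₐ[k] Module.End k Y} {σ' : (H →ₗ[k] k) →ₗ[k] Module.End k Y}

private theorem sw2_congr {Z : Type} [AddCommMonoid Z] {F G : H → H → Z}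
    (h : ∀ a b, F a b = G a b) (x : H) : sw2 k F x = sw2 k G x := by
  unfold sw2
  exact Finset.sum_congr rfl fun j _ => h _ _

private theorem map_sw2 {Z W : Type} [AddCommGroup Z] [Module k Z] [AddCommGroup W] [Module k W]
    (L : Z →ₗ[k] W) (F : H → H → Z) (x : H) : L (sw2 k F x) = sw2 k (fun a b => L (F a b)) x := by
  unfold sw2
  exact map_sum L _ _

private theorem sw2_mul_right' {A : Type} [Ring A] (F : H → H → A) (x : H) (c : A) :
    sw2 k F x * c = sw2 k (fun a b => F a b * c) x := by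
  unfold sw2
  exact Finset.sum_mul _ _ _

private theorem sw2_mul_left' {A : Type} [Ring A] (F : H → H → A) (x : H) (c : A) :
    c * sw2 k F x = sw2 k (fun a b => c * F a b) x := by
  unfold sw2
  exact Finset.mul_sum _ _ _

variable (k X Y) in
/-- the bilinear map `a, b ↦ a ⊗ b` -/
private noncomputable def mb :
    Module.End k X →ₗ[k] Module.End k Y →ₗ[k] Module.End k (X ⊗[k] Y) :=
  LinearMap.mk₂ k (fun a b => TensorProduct.map a b)
    (fun a a' b => TensorProduct.map_add_left a a' b)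
    (fun c a b => TensorProduct.map_smul_left c a b)
    (fun a b b' => TensorProduct.map_add_right a b b')
    (fun c a b => TensorProduct.map_smul_right c a b)

private theorem mb_apply (a : Module.End k X) (b : Module.End k Y) :
    mb k X Y a b = TensorProduct.map a b := rfl

private theorem mul_map (a a' : Module.End k X) (b b' : Module.End k Y) :
    TensorProduct.map a b * TensorProduct.map a' b' = TensorProduct.map (a * a') (b * b') :=
  (TensorProduct.map_mul a a' b b').symm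

private theorem sum_sw2 {Z ι : Type} [AddCommMonoid Z] [Fintype ι] (F : ι → H → H → Z) (x : H) :
    ∑ i, sw2 k (F i) x = sw2 k (fun a b => ∑ i, F i a b) x := by
  unfold sw2
  exact Finset.sum_comm

/-- trilinearity of `a, b, c ↦ ρ (B a b) ⊗ ρ' c` -/
private theorem tri_map (B : H →ₗ[k] H →ₗ[k] H) :
    Tri3 k (fun a b c : H => TensorProduct.map (ρ (B a b)) (ρ' c)) := by
  refine ⟨fun b c => ⟨fun x y => ?_, fun r x => ?_⟩, fun a c => ⟨fun x y => ?_, fun r x => ?_⟩,
    fun a b => ⟨fun x y => ?_, fun r x => ?_⟩⟩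
  · simp only [map_add, LinearMap.add_apply, TensorProduct.map_add_left]
  · simp only [map_smul, LinearMap.smul_apply, TensorProduct.map_smul_left]
  · simp only [map_add, TensorProduct.map_add_left]
  · simp only [map_smul, TensorProduct.map_smul_left]
  · simp only [map_add, TensorProduct.map_add_right]
  · simp only [map_smul, TensorProduct.map_smul_right]

private theorem lin_map_left (b : Module.End k Y) :
    IsLinearMap k (fun y : H => TensorProduct.map (ρ y) b) := by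
  refine ⟨fun x y => ?_, fun r x => ?_⟩
  · simp only [map_add, TensorProduct.map_add_left]
  · simp only [map_smul, TensorProduct.map_smul_left]

private theorem lin_map_right (a : Module.End k X) :
    IsLinearMap k (fun y : H => TensorProduct.map a (ρ' y)) := by
  refine ⟨fun x y => ?_, fun r x => ?_⟩
  · simp only [map_add, TensorProduct.map_add_right]
  · simp only [map_smul, TensorProduct.map_smul_right]

private theorem claimA (hS : ∀ x : H, Sa k H (Sa k H x) = x) (h : H) :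
    sw2 k (fun a b => tR ρ ρ' b * TensorProduct.map (ρ (Sa k H a)) 1) h =
      TensorProduct.map 1 (ρ' h) := by
  let B : H →ₗ[k] H →ₗ[k] H := LinearMap.mk₂ k (fun a b => b * Sa k H a)
    (fun a a' b => by rw [map_add, mul_add]) (fun c a b => by rw [map_smul, mul_smul_comm])
    (fun a b b' => by rw [add_mul]) (fun c a b => by rw [smul_mul_assoc])
  have h1 : sw2 k (fun a b => tR ρ ρ' b * TensorProduct.map (ρ (Sa k H a)) 1) h =
      sw3 k (fun a b c => TensorProduct.map (ρ (B a b)) (ρ' c)) h := by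
    rw [sw3_eq]
    refine sw2_congr (fun a y => ?_) h
    rw [tR_apply, sw2_mul_right']
    refine sw2_congr (fun b c => ?_) y
    rw [mul_map, mul_one, ← map_mul]
    rfl
  rw [h1, ← sw2_assoc (tri_map B)]
  have h2 : ∀ x c : H, sw2 k (fun a b => TensorProduct.map (ρ (B a b)) (ρ' c)) x =
      ep k H x • TensorProduct.map (ρ (1 : H)) (ρ' c) := by
    intro x c
    exact sw2_mul_S' hS (lin_map_left (ρ := ρ) (ρ' c)) x
  rw [sw2_congr h2, sw2_counit_left (lin_map_right (ρ' := ρ') (ρ (1 : H))), map_one]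

private theorem claimB (h : H) :
    sw2 k (fun a b => TensorProduct.map (ρ (Sa k H a)) 1 * tR ρ ρ' b) h =
      TensorProduct.map 1 (ρ' h) := by
  let B : H →ₗ[k] H →ₗ[k] H := LinearMap.mk₂ k (fun a b => Sa k H a * b)
    (fun a a' b => by rw [map_add, add_mul]) (fun c a b => by rw [map_smul, smul_mul_assoc])
    (fun a b b' => by rw [mul_add]) (fun c a b => by rw [mul_smul_comm])
  have h1 : sw2 k (fun a b => TensorProduct.map (ρ (Sa k H a)) 1 * tR ρ ρ' b) h =
      sw3 k (fun a b c => TensorProduct.map (ρ (B a b)) (ρ' c)) h := by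
    rw [sw3_eq]
    refine sw2_congr (fun a y => ?_) h
    rw [tR_apply, sw2_mul_left']
    refine sw2_congr (fun b c => ?_) y
    rw [mul_map, one_mul, ← map_mul]
    rfl
  rw [h1, ← sw2_assoc (tri_map B)]
  have h2 : ∀ x c : H, sw2 k (fun a b => TensorProduct.map (ρ (B a b)) (ρ' c)) x =
      ep k H x • TensorProduct.map (ρ (1 : H)) (ρ' c) := by
    intro x c
    exact sw2_S_mul (lin_map_left (ρ := ρ) (ρ' c)) x
  rw [sw2_congr h2, sw2_counit_left (lin_map_right (ρ' := ρ') (ρ (1 : H))), map_one]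

theorem ptr_rho [FiniteDimensional k X] (hS : ∀ x : H, Sa k H (Sa k H x) = x)
    (T : Module.End k (X ⊗[k] Y)) (hT : ∀ h, T * tR ρ ρ' h = tR ρ ρ' h * T) (h : H) :
    ptr T * ρ' h = ρ' h * ptr T := by
  let L : Module.End k (X ⊗[k] Y) →ₗ[k] Module.End k Y := IsLinearMap.mk' _ ptr_linear
  have hL : ∀ A : Module.End k (X ⊗[k] Y), ptr A = L A := fun _ => rfl
  rw [← ptr_mul_right, ← ptr_mul_left]
  conv_lhs => rw [← claimA (ρ := ρ) hS h]
  conv_rhs => rw [← claimB (ρ := ρ) h]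
  rw [sw2_mul_left', sw2_mul_right', hL, hL, map_sw2, map_sw2]
  refine sw2_congr (fun a b => ?_) h
  rw [← hL, ← hL, ← mul_assoc, ptr_comm, hT, mul_assoc]

private theorem expand2 (f : H →ₗ[k] k) (s v b : H) :
    ∑ i, ∑ a, f (e k H i * (e k H a * b)) * (ec k H i s * ec k H a v) = f (s * (v * b)) := by
  conv_rhs => rw [← sum_ec (k := k) s, ← sum_ec (k := k) v]
  rw [Finset.sum_mul, map_sum]
  refine Finset.sum_congr rfl fun i _ => ?_
  rw [Finset.sum_mul, Finset.mul_sum, map_sum]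
  refine Finset.sum_congr rfl fun a _ => ?_
  rw [smul_mul_assoc, smul_mul_assoc, mul_smul_comm, map_smul, map_smul, smul_eq_mul, smul_eq_mul]
  ring

private theorem lin_f (f : H →ₗ[k] k) (b : H) : IsLinearMap k (fun y : H => f (y * b)) := by
  refine ⟨fun x y => ?_, fun r x => ?_⟩
  · simp only [add_mul, map_add]
  · simp only [smul_mul_assoc, map_smul]

private theorem keyA (f : H →ₗ[k] k) (b : H) :
    ∑ i, ∑ a, f (e k H i * (e k H a * b)) • cv (ec k H i ∘ₗ Sa k H) (ec k H a) =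
      f b • ep k H := by
  apply LinearMap.ext
  intro x
  rw [LinearMap.sum_apply, LinearMap.smul_apply, smul_eq_mul]
  have h1 : ∀ i, (∑ a, f (e k H i * (e k H a * b)) • cv (ec k H i ∘ₗ Sa k H) (ec k H a)) x =
      sw2 k (fun u v => ∑ a, f (e k H i * (e k H a * b)) * (ec k H i (Sa k H u) * ec k H a v)) x := by
    intro i
    rw [LinearMap.sum_apply, ← sum_sw2]
    refine Finset.sum_congr rfl fun a _ => ?_
    rw [LinearMap.smul_apply, cv_apply, smul_eq_mul, sw2_mul_left']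
    rfl
  rw [Finset.sum_congr rfl fun i _ => h1 i, sum_sw2]
  have h3 : ∀ u v : H, ∑ i, ∑ a, f (e k H i * (e k H a * b)) *
      (ec k H i (Sa k H u) * ec k H a v) = f (Sa k H u * v * b) := by
    intro u v
    rw [expand2, mul_assoc]
  rw [sw2_congr h3, sw2_S_mul (lin_f f b), one_mul, smul_eq_mul, mul_comm]

private theorem keyB (hS : ∀ x : H, Sa k H (Sa k H x) = x) (f : H →ₗ[k] k) (b : H) :
    ∑ i, ∑ a, f (e k H i * (e k H a * b)) • cv (ec k H a) (ec k H i ∘ₗ Sa k H) =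
      f b • ep k H := by
  apply LinearMap.ext
  intro x
  rw [LinearMap.sum_apply, LinearMap.smul_apply, smul_eq_mul]
  have h1 : ∀ i, (∑ a, f (e k H i * (e k H a * b)) • cv (ec k H a) (ec k H i ∘ₗ Sa k H)) x =
      sw2 k (fun u v => ∑ a, f (e k H i * (e k H a * b)) * (ec k H i (Sa k H v) * ec k H a u)) x := by
    intro i
    rw [LinearMap.sum_apply, ← sum_sw2]
    refine Finset.sum_congr rfl fun a _ => ?_
    rw [LinearMap.smul_apply, cv_apply, smul_eq_mul, sw2_mul_left']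
    refine sw2_congr (fun u v => ?_) x
    rw [mul_comm (ec k H a u)]
    rfl
  rw [Finset.sum_congr rfl fun i _ => h1 i, sum_sw2]
  have h3 : ∀ u v : H, ∑ i, ∑ a, f (e k H i * (e k H a * b)) *
      (ec k H i (Sa k H v) * ec k H a u) = f (Sa k H v * u * b) := by
    intro u v
    rw [expand2, mul_assoc]
  rw [sw2_congr h3, sw2_S_mul' hS (lin_f f b), one_mul, smul_eq_mul, mul_comm]

/-- reassembling -/
private theorem assemble (G : Fin (Module.finrank k H) → Fin (Module.finrank k H) →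
    (H →ₗ[k] k)) (hX : IsYD ρ σ) (f : H →ₗ[k] k)
    (hG : ∀ b : H, ∑ i, ∑ a, f (e k H i * (e k H a * b)) • G i a = f b • ep k H) :
    ∑ i, ∑ a, ∑ b, f (e k H i * (e k H a * e k H b)) •
      TensorProduct.map (σ (G i a)) (σ' (ec k H b)) = TensorProduct.map 1 (σ' f) := by
  have h1 : ∑ i, ∑ a, ∑ b, f (e k H i * (e k H a * e k H b)) •
      TensorProduct.map (σ (G i a)) (σ' (ec k H b)) =
      ∑ b, mb k X Y (σ (∑ i, ∑ a, f (e k H i * (e k H a * e k H b)) • G i a))
        (σ' (ec k H b)) := by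
    have h2 : ∀ i, ∑ a, ∑ b, f (e k H i * (e k H a * e k H b)) •
        TensorProduct.map (σ (G i a)) (σ' (ec k H b)) =
        ∑ b, ∑ a, f (e k H i * (e k H a * e k H b)) •
        TensorProduct.map (σ (G i a)) (σ' (ec k H b)) := fun i => Finset.sum_comm
    rw [Finset.sum_congr rfl fun i _ => h2 i, Finset.sum_comm]
    refine Finset.sum_congr rfl fun b _ => ?_
    rw [map_sum, map_sum, LinearMap.sum_apply]
    refine Finset.sum_congr rfl fun i _ => ?_
    rw [map_sum, map_sum, LinearMap.sum_apply]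
    refine Finset.sum_congr rfl fun a _ => ?_
    rw [map_smul, map_smul, LinearMap.smul_apply]
    rfl
  rw [h1]
  have h3 : ∀ b, mb k X Y (σ (∑ i, ∑ a, f (e k H i * (e k H a * e k H b)) • G i a))
        (σ' (ec k H b)) = mb k X Y 1 (σ' (f (e k H b) • ec k H b)) := by
    intro b
    rw [hG, map_smul, hX.one, map_smul, LinearMap.smul_apply, map_smul, map_smul]
  rw [Finset.sum_congr rfl fun b _ => h3 b, ← map_sum, ← map_sum, sum_e]
  rfl

private theorem claimA' (hX : IsYD ρ σ) (f : H →ₗ[k] k) :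
    ∑ i, tS σ σ' (f ∘ₗ LinearMap.mulLeft k (e k H i)) *
      TensorProduct.map (σ (ec k H i ∘ₗ Sa k H)) 1 = TensorProduct.map 1 (σ' f) := by
  rw [← assemble (ρ := ρ) (fun i a => cv (ec k H i ∘ₗ Sa k H) (ec k H a)) hX f
    (fun b => keyA f b)]
  refine Finset.sum_congr rfl fun i _ => ?_
  rw [tS_apply, Finset.sum_mul]
  refine Finset.sum_congr rfl fun a _ => ?_
  rw [Finset.sum_mul]
  refine Finset.sum_congr rfl fun b _ => ?_
  rw [smul_mul_assoc, mul_map, mul_one, hX.mul]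
  rfl

private theorem claimB' (hS : ∀ x : H, Sa k H (Sa k H x) = x) (hX : IsYD ρ σ)
    (f : H →ₗ[k] k) :
    ∑ i, TensorProduct.map (σ (ec k H i ∘ₗ Sa k H)) 1 *
      tS σ σ' (f ∘ₗ LinearMap.mulLeft k (e k H i)) = TensorProduct.map 1 (σ' f) := by
  rw [← assemble (ρ := ρ) (fun i a => cv (ec k H a) (ec k H i ∘ₗ Sa k H)) hX f
    (fun b => keyB hS f b)]
  refine Finset.sum_congr rfl fun i _ => ?_
  rw [tS_apply, Finset.mul_sum]
  refine Finset.sum_congr rfl fun a _ => ?_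
  rw [Finset.mul_sum]
  refine Finset.sum_congr rfl fun b _ => ?_
  rw [mul_smul_comm, mul_map, one_mul, hX.mul]
  rfl

theorem ptr_sigma [FiniteDimensional k X] (hS : ∀ x : H, Sa k H (Sa k H x) = x)
    (hX : IsYD ρ σ) (T : Module.End k (X ⊗[k] Y))
    (hT : ∀ f, T * tS σ σ' f = tS σ σ' f * T) (f : H →ₗ[k] k) :
    ptr T * σ' f = σ' f * ptr T := by
  let L : Module.End k (X ⊗[k] Y) →ₗ[k] Module.End k Y := IsLinearMap.mk' _ ptr_linear
  have hL : ∀ A : Module.End k (X ⊗[k] Y), ptr A = L A := fun _ => rfl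
  rw [← ptr_mul_right, ← ptr_mul_left]
  conv_lhs => rw [← claimA' (σ' := σ') hX f]
  conv_rhs => rw [← claimB' (σ' := σ') hS hX f]
  rw [Finset.mul_sum, Finset.sum_mul, hL, hL, map_sum, map_sum]
  refine Finset.sum_congr rfl fun i _ => ?_
  rw [← hL, ← hL, ← mul_assoc, ptr_comm, hT, mul_assoc]

end Pool.Agent.KExp
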