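import Mathlib

/-!
# KExp.TrFin (MP_0d5e35_al, paper /team-store/MP_0d5e35_al_paper38.md)

(Mathlib only.) Traces of operators with `B^(N+1) = B` or of finite order.
trace_adjoin: every eigenvalue `x` of `B` (root of the characteristic polynomial, `k` algebraically closed)
satisfies `x^(N+1) = x`, so `x = 0` or `x = ζ^j`; the trace is the sum of the roots of the characteristic
polynomial (`LinearMap.trace_eq_sum_roots_charpoly` or Matrix version).
trace_mult: `E^(nN) = u^N = 1`, so all roots `x` of the characteristic polynomial are powers of `ζ` (primitive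
of order `nN`), and `x^n = u` (eigenvalue of `E^n = u`). Let `μ j` be the multiplicity of `ζ^j` in the multiset of
roots; the number of roots is the dimension.
-/

set_option autoImplicit false

open scoped TensorProduct

namespace Pool.Agent.KExp


private lemma trf_trace {k : Type} [Field k] [IsAlgClosed k] {V : Type} [AddCommGroup V]
    [Module k V] [FiniteDimensional k V] (B : Module.End k V) :
    LinearMap.trace k V B = (LinearMap.charpoly B).roots.sum :=
  Module.End.trace_eq_sum_roots_charpoly_of_splits (IsAlgClosed.splits _)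

private lemma trf_card {k : Type} [Field k] [IsAlgClosed k] {V : Type} [AddCommGroup V]
    [Module k V] [FiniteDimensional k V] (B : Module.End k V) :
    Multiset.card (LinearMap.charpoly B).roots = Module.finrank k V := by
  rw [← LinearMap.charpoly_natDegree B]
  exact (Polynomial.splits_iff_card_roots.1 (IsAlgClosed.splits _))

private lemma trf_eig {k : Type} [Field k] {V : Type} [AddCommGroup V]
    [Module k V] [FiniteDimensional k V] (B : Module.End k V) {x : k}
    (hx : x ∈ (LinearMap.charpoly B).roots) : ∃ v : V, v ≠ 0 ∧ ∀ n : ℕ, (B ^ n) v = x ^ n • v := by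
  have h1 : (LinearMap.charpoly B).IsRoot x :=
    (Polynomial.mem_roots (LinearMap.charpoly_monic B).ne_zero).1 hx
  have h2 := (Module.End.hasEigenvalue_iff_isRoot_charpoly B x).2 h1
  obtain ⟨v, hv⟩ := h2.exists_hasEigenvector
  exact ⟨v, hv.2, fun n => hv.pow_apply n⟩

theorem trace_adjoin {k : Type} [Field k] [CharZero k] [IsAlgClosed k] {V : Type} [AddCommGroup V]
    [Module k V] [FiniteDimensional k V] {N : ℕ} (hN : 0 < N) {ζ : k} (hζ : IsPrimitiveRoot ζ N)
    (B : Module.End k V) (hB : B ^ (N + 1) = B) :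
    LinearMap.trace k V B ∈ Algebra.adjoin ℤ ({ζ} : Set k) := by
  rw [trf_trace]
  apply Subalgebra.multiset_sum_mem
  intro x hx
  obtain ⟨v, hv, hpow⟩ := trf_eig B hx
  have h1 : x ^ (N + 1) • v = x • v := by
    rw [← hpow (N + 1), hB]
    have := hpow 1
    rwa [pow_one, pow_one] at this
  have h2 : x ^ (N + 1) = x := smul_left_injective k hv h1
  by_cases hx0 : x = 0
  · rw [hx0]
    exact Subalgebra.zero_mem _
  · have h3 : x ^ N = 1 := by
      rw [pow_succ] at h2
      exact mul_right_cancel₀ hx0 (by rw [h2, one_mul])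
    have : NeZero N := ⟨hN.ne'⟩
    obtain ⟨i, _, hi⟩ := hζ.eq_pow_of_pow_eq_one h3
    rw [← hi]
    exact Subalgebra.pow_mem _ (Algebra.subset_adjoin (Set.mem_singleton ζ)) i

theorem trace_mult {k : Type} [Field k] [CharZero k] [IsAlgClosed k] {V : Type} [AddCommGroup V]
    [Module k V] [FiniteDimensional k V] {n N : ℕ} (hn : 0 < n) (hN : 0 < N) {u : k}
    (hu : u ^ N = 1) (E : Module.End k V) (hE : E ^ n = u • 1) {ζ : k}
    (hζ : IsPrimitiveRoot ζ (n * N)) :
    ∃ μ : ℕ → ℕ, LinearMap.trace k V E = ∑ j ∈ Finset.range (n * N), (μ j : k) * ζ ^ j ∧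
      ∑ j ∈ Finset.range (n * N), μ j = Module.finrank k V ∧
      ∀ j ∈ Finset.range (n * N), μ j ≠ 0 → (ζ ^ j) ^ n = u := by
  classical
  set s := (LinearMap.charpoly E).roots with hs
  have : NeZero (n * N) := ⟨(Nat.mul_pos hn hN).ne'⟩
  have hroot : ∀ x ∈ s, x ^ n = u := by
    intro x hx
    obtain ⟨v, hv, hpow⟩ := trf_eig E hx
    have h1 : x ^ n • v = u • v := by
      rw [← hpow n, hE]
      simp
    exact smul_left_injective k hv h1
  have hsub : s.toFinset ⊆ (Finset.range (n * N)).image (fun j => ζ ^ j) := by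
    intro x hx
    rw [Multiset.mem_toFinset] at hx
    have h1 : x ^ (n * N) = 1 := by rw [pow_mul, hroot x hx, hu]
    obtain ⟨i, hi, hix⟩ := hζ.eq_pow_of_pow_eq_one h1
    exact Finset.mem_image.2 ⟨i, Finset.mem_range.2 hi, hix⟩
  have hinj : Set.InjOn (fun j => ζ ^ j) (Finset.range (n * N) : Set ℕ) := by
    intro i hi j hj hij
    exact hζ.pow_inj (Finset.mem_range.1 hi) (Finset.mem_range.1 hj) hij
  refine ⟨fun j => s.count (ζ ^ j), ?_, ?_, ?_⟩
  · rw [trf_trace, ← hs, Finset.sum_multiset_count]
    rw [Finset.sum_subset hsub, Finset.sum_image hinj]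
    · refine Finset.sum_congr rfl fun j _ => ?_
      rw [nsmul_eq_mul]
    · intro x _ hx
      rw [Multiset.mem_toFinset] at hx
      rw [Multiset.count_eq_zero_of_notMem hx, zero_smul]
  · rw [← trf_card E, ← hs, ← Multiset.toFinset_sum_count_eq s]
    rw [Finset.sum_subset hsub, Finset.sum_image hinj]
    intro x _ hx
    rw [Multiset.mem_toFinset] at hx
    exact Multiset.count_eq_zero_of_notMem hx
  · intro j _ hj
    exact hroot _ (Multiset.count_ne_zero.1 hj)

end Pool.Agent.KExp
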