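import Pool.Agent.Lib.KExp.Defs
import Pool.Agent.Lib.KExp.Sw
import Pool.Agent.Lib.KExp.CE
import Pool.Agent.Lib.KExp.QPow
import Pool.Agent.Lib.KExp.Theta
import Pool.Agent.Lib.KExp.ThetaPow
import Pool.Agent.Lib.KExp.TensApp
import Pool.Agent.Lib.KExp.TensYD
import Pool.Agent.Lib.KExp.MFin
import Pool.Agent.Lib.KExp.Ptr
import Pool.Agent.Lib.KExp.PtrYD
import Pool.Agent.Lib.KExp.PtrMul
import Pool.Agent.Lib.KExp.PYD
import Pool.Agent.Lib.KExp.PTr
import Pool.Agent.Lib.KExp.TnPtr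
import Pool.Agent.Lib.KExp.PowTr
import Pool.Agent.Lib.KExp.TrFin
import Pool.Agent.Lib.KExp.Almost

/-!
# KExp.Integ (MP_0d5e35_al, paper /team-store/MP_0d5e35_al_paper38.md)

(2.1). Let `c = (ζ^i)⁻¹`, `π = N⁻¹ ∑_{n<N} c^n θ_P^n`. It is idempotent (`θ^N = 1`, `c^N = 1`) and commutes with
`rP h`, `sP f`. By ptr_linear and ptr_Mop_P: `ptr(M_{P,Y}(π ⊗ 1)) = N⁻¹ ∑ c^n T_n(Y) = τ • 1`, `τ = N⁻¹ ∑ c^n t_n`.
pow_trick gives `B` with `B^(N+1) = B` and `Tr B = τ^(j+1) d`; trace_adjoin: `d τ^(j+1) ∈ ℤ[ζ]` for all `j`.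
`j = 0` is the second claim, integral_of_almost the first.
-/

set_option autoImplicit false

open scoped TensorProduct

namespace Pool.Agent.KExp

variable {k : Type} [Field k] {H : Type} [Ring H] [HopfAlgebra k H] [FiniteDimensional k H]

variable {Y : Type} [AddCommGroup Y] [Module k Y] [FiniteDimensional k Y]
  {ρ : H →ₐ[k] Module.End k Y} {σ : (H →ₗ[k] k) →ₗ[k] Module.End k Y}

theorem tau_integral [CharZero k] [IsAlgClosed k] (hS : ∀ x : H, Sa k H (Sa k H x) = x) {N : ℕ}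
    (hN : 0 < N) (hQ : Q k H N = Q k H 0) (hY : IsYD ρ σ) (hd : 0 < Module.finrank k Y)
    {ζ : k} (hζ : IsPrimitiveRoot ζ N) (t : ℕ → k) (ht : ∀ n, Tn n ρ σ = t n • 1) (i : ℕ) :
    IsIntegral ℤ ((N : k)⁻¹ * ∑ n ∈ Finset.range N, ((ζ ^ i)⁻¹) ^ n * t n) ∧
    (Module.finrank k Y : k) * ((N : k)⁻¹ * ∑ n ∈ Finset.range N, ((ζ ^ i)⁻¹) ^ n * t n) ∈
      Algebra.adjoin ℤ ({ζ} : Set k) := by
  have hP : IsYD (rP (k := k) (H := H)) sP := isYD_P hS
  set θ : Module.End k (H ⊗[k] H) := theta (rP (k := k) (H := H)) sP with hθ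
  set c : k := (ζ ^ i)⁻¹ with hc
  have hN0 : (N : k) ≠ 0 := Nat.cast_ne_zero.2 hN.ne'
  have hcN : c ^ N = 1 := by
    rw [hc, inv_pow, ← pow_mul, mul_comm, pow_mul, hζ.pow_eq_one, one_pow, inv_one]
  have hθN : θ ^ N = 1 := theta_pow_one hS hP hQ
  set u : Module.End k (H ⊗[k] H) := c • θ with hu
  have hun : ∀ n : ℕ, u ^ n = c ^ n • θ ^ n := fun n => by rw [hu, smul_pow]
  have huN : u ^ N = 1 := by rw [hun, hcN, hθN, one_smul]
  set G : Module.End k (H ⊗[k] H) := ∑ n ∈ Finset.range N, u ^ n with hG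
  have huG : u * G = G := by
    have h1 : u * G + 1 = G + u ^ N := by
      rw [hG, ← Finset.sum_range_succ, Finset.mul_sum, Finset.sum_range_succ']
      simp only [pow_succ', pow_zero]
    rw [huN] at h1
    exact add_right_cancel h1
  have hupG : ∀ n : ℕ, u ^ n * G = G := by
    intro n
    induction n with
    | zero => rw [pow_zero, one_mul]
    | succ n ih => rw [pow_succ, mul_assoc, huG, ih]
  have hGG : G * G = (N : k) • G := by
    conv_lhs => rw [hG, Finset.sum_mul]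
    rw [Finset.sum_congr rfl (fun n _ => hupG n), Finset.sum_const, Finset.card_range,
      Nat.cast_smul_eq_nsmul]
  set a : Module.End k (H ⊗[k] H) := (N : k)⁻¹ • G with haa
  have ha : a * a = a := by
    rw [haa, smul_mul_assoc, mul_smul_comm, hGG, smul_smul, smul_smul, mul_assoc,
      inv_mul_cancel₀ hN0, mul_one]
  have hcomm : ∀ x : Module.End k (H ⊗[k] H), θ * x = x * θ → a * x = x * a := by
    intro x hx
    have h0 : Commute θ x := hx
    have h1 : Commute u x := h0.smul_left c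
    have h2 : Commute G x := by
      rw [hG]
      exact Commute.sum_left _ _ _ (fun n _ => h1.pow_left n)
    exact h2.smul_left ((N : k)⁻¹)
  have haR : ∀ h, a * (rP (k := k) (H := H)) h = (rP (k := k) (H := H)) h * a := fun h =>
    hcomm _ (theta_rho hS hP h)
  have haS : ∀ f, a * (sP (k := k) (H := H)) f = (sP (k := k) (H := H)) f * a := fun f =>
    hcomm _ (theta_sigma hS hP f)
  set M : Module.End k ((H ⊗[k] H) ⊗[k] Y) := Mop (rP (k := k) (H := H)) sP ρ σ with hM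
  set L : Module.End k (H ⊗[k] H) →ₗ[k] Module.End k Y :=
    (IsLinearMap.mk' _ (ptr_linear (k := k) (X := H ⊗[k] H) (Y := Y))) ∘ₗ
      LinearMap.mulLeft k M ∘ₗ LinearMap.rTensorHom Y with hL
  have hLa : ∀ x, L x = ptr (M * TensorProduct.map x 1) := fun x => rfl
  have hLn : ∀ n : ℕ, L (θ ^ n) = t n • 1 := fun n => by
    rw [hLa, hM, hθ, ptr_Mop_P hS hY n, ht n]
  set τ : k := (N : k)⁻¹ * ∑ n ∈ Finset.range N, c ^ n * t n with hτ
  have hta : ptr (M * TensorProduct.map a 1) = τ • 1 := by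
    rw [← hLa, haa, hG, map_smul, map_sum]
    simp only [hun, map_smul, hLn, smul_smul]
    rw [← Finset.sum_smul, smul_smul]
  have hall : ∀ j : ℕ, (Module.finrank k Y : k) * τ ^ (j + 1) ∈
      Algebra.adjoin ℤ ({ζ} : Set k) := by
    intro j
    obtain ⟨X', i1, i2, i3, B, hB, hT⟩ := pow_trick hS hQ hP hY a ha haR haS τ hta j
    have h1 := trace_adjoin hN hζ B hB
    rw [hT, mul_comm] at h1
    exact h1
  have hd' : (Module.finrank k Y : k) ≠ 0 := Nat.cast_ne_zero.2 hd.ne'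
  have hζi : IsIntegral ℤ ζ := hζ.isIntegral hN
  refine ⟨integral_of_almost hζi hd' hall, ?_⟩
  have h1 := hall 0
  rwa [zero_add, pow_one] at h1

end Pool.Agent.KExp
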