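import Pool.Agent.Lib.KExp.Defs

/-!
# KExp.KInt (MP_0d5e35_al, paper /team-store/MP_0d5e35_al_paper38.md)

Section 5, first part. PROOF. CRT: choose `E_p ≡ 1 mod p^a, ≡ 0 mod N'` and `E' ≡ 0 mod p^a, ≡ 1 mod N'` (naturals).
`ζ_p = ζ^{E_p}` (order `p^a`), `ζ_{p'} = ζ^{E'}`, `ζ = ζ_p ζ_{p'}`. `v = ζ^l`, `v^(N/p) ≠ 1` iff `p ∤ l`; `v_p = v^{E_p}` is a
primitive `p^a`-th root, `v' = v^{E'}`, `v = v_p v'`. `η := v_p⁻¹`. For `x ∈ (ℤ/p^a)ˣ`, `n_x` a natural number with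
`n_x ≡ x mod p^a`, `n_x ≡ 1 mod N'` (`n_x = x E_p + E'` with `x` lifted); its inverse mod `N` is `n_{x⁻¹}`. h1:
`t(n_x) = m v^{-n_{x⁻¹}} = m η^{x⁻¹} v'⁻¹`. For `x` in `0..p^a-1` divisible by `p`: `t(n_x) = 0` (h0, `n_x > 0` may be
arranged, `p | n_x`). Sum over all `x mod p^a`: `∑_x η^{sx} t(n_x) = m v'⁻¹ ∑_{units} η^{sx + x⁻¹}` and, by ht,
`= ∑_i τ_i ∑_x η^{sx} ζ^{i n_x} = ∑_i τ_i ζ_{p'}^i ∑_x (η^s ζ_p^i)^x = p^a ∑_{i : η^s ζ_p^i = 1} τ_i ζ_{p'}^i`.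
So `(m/p^a) ∑_{units} η^{sx+x⁻¹} = v' ∑_{i : ...} τ_i ζ_{p'}^i` is integral; group the units by the value
`u = sx + x⁻¹`: `∑_{units} η^{(sx+x⁻¹).val} = ∑_{u < p^a} klc (p^a) s u η^u`.
-/

set_option autoImplicit false

open scoped TensorProduct

namespace Pool.Agent.KExp


private lemma sum_zmod {k : Type} [Field k] {q : ℕ} [NeZero q] (f : ℕ → k) :
    ∑ x : ZMod q, f x.val = ∑ j ∈ Finset.range q, f j :=
  Finset.sum_nbij' (fun x => x.val) (fun j => (j : ZMod q))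
    (fun x _ => Finset.mem_range.mpr (ZMod.val_lt x)) (fun _ _ => Finset.mem_univ _)
    (fun x _ => ZMod.natCast_zmod_val x)
    (fun _ hj => ZMod.val_natCast_of_lt (Finset.mem_range.mp hj)) (fun _ _ => rfl)

open Classical in
private lemma geom_root {k : Type} [Field k] {q : ℕ} {g : k} (hg : g ^ q = 1) :
    ∑ j ∈ Finset.range q, g ^ j = if g = 1 then (q : k) else 0 := by
  split_ifs with h
  · subst h; simp
  · have h1 : (∑ j ∈ Finset.range q, g ^ j) * (g - 1) = 0 := by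
      rw [geom_sum_mul, hg, sub_self]
    rcases mul_eq_zero.mp h1 with h2 | h2
    · exact h2
    · exact absurd (sub_eq_zero.mp h2) h

private lemma sum_units {k : Type} [Field k] {q : ℕ} [NeZero q] (s : ZMod q) {η : k} :
    ∑ x : (ZMod q)ˣ, η ^ (s * (x : ZMod q) + ((x⁻¹ : (ZMod q)ˣ) : ZMod q)).val =
      ∑ u ∈ Finset.range q, (klc q s (u : ZMod q) : k) * η ^ u := by
  classical
  rw [← sum_zmod (fun u => (klc q s (u : ZMod q) : k) * η ^ u)]
  rw [← Finset.sum_fiberwise (Finset.univ : Finset (ZMod q)ˣ)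
    (fun x : (ZMod q)ˣ => s * (x : ZMod q) + ((x⁻¹ : (ZMod q)ˣ) : ZMod q))]
  refine Finset.sum_congr rfl fun w _ => ?_
  rw [Finset.sum_congr rfl (g := fun _ => η ^ w.val) (fun x hx => by
    rw [(Finset.mem_filter.mp hx).2])]
  rw [Finset.sum_const, nsmul_eq_mul, ZMod.natCast_zmod_val]
  congr 1
  unfold klc
  rw [Nat.card_eq_fintype_card, Fintype.card_subtype]
  simp

private lemma prim_of_pow {k : Type} [Field k] {N N' p a : ℕ} (hp : p.Prime) (ha : 0 < a)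
    (hN : N = p ^ a * N') {v : k} (hv : v ^ N = 1) (hvp : v ^ (N / p) ≠ 1) {E : ℕ}
    (hE1 : E ≡ 1 [MOD p ^ a]) (hE0 : E ≡ 0 [MOD N']) : IsPrimitiveRoot (v ^ E) (p ^ a) := by
  haveI : Fact p.Prime := ⟨hp⟩
  obtain ⟨b, rfl⟩ : ∃ b, a = b + 1 := ⟨a - 1, by omega⟩
  obtain ⟨c, hc⟩ : N' ∣ E := (Nat.modEq_zero_iff_dvd).mp hE0
  have hNp : N / p = p ^ b * N' := by
    rw [hN, pow_succ, mul_assoc, mul_comm p N', ← mul_assoc, Nat.mul_div_cancel _ hp.pos]
  set z : k := v ^ (p ^ b * N') with hz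
  have hz1 : z ≠ 1 := by rw [hz, ← hNp]; exact hvp
  have hzp : z ^ p = 1 := by
    rw [hz, ← pow_mul, ← hv, hN]
    congr 1
    ring
  have hord : orderOf z = p := orderOf_eq_prime hzp hz1
  have hpc : ¬ p ∣ c := by
    intro h
    have h1 : E ≡ 1 [MOD p] := hE1.of_dvd (dvd_pow_self p (by omega))
    have h2 : E ≡ 0 [MOD p] := (Nat.modEq_zero_iff_dvd).mpr (by
      rw [hc]; exact Dvd.dvd.mul_left h N')
    have h3 : 1 ≡ 0 [MOD p] := h1.symm.trans h2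
    have h4 : p ∣ 1 := (Nat.modEq_zero_iff_dvd).mp h3
    exact hp.one_lt.ne' (Nat.dvd_one.mp h4)
  have hnot : ¬ (v ^ E) ^ p ^ b = 1 := by
    intro h
    apply hpc
    rw [← hord]
    apply orderOf_dvd_of_pow_eq_one
    rw [hz, ← pow_mul, ← h, hc, ← pow_mul]
    congr 1
    ring
  have hfin : (v ^ E) ^ p ^ (b + 1) = 1 := by
    rw [← pow_mul, hc]
    have h1 : N' * c * p ^ (b + 1) = N * c := by rw [hN]; ring
    rw [h1, pow_mul, hv, one_pow]
  have h5 := orderOf_eq_prime_pow hnot hfin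
  rw [← h5]
  exact IsPrimitiveRoot.orderOf _

theorem kint {k : Type} [Field k] [CharZero k] {N N' p a m : ℕ} (hp : p.Prime) (ha : 0 < a)
    (hN : N = p ^ a * N') (hN' : 0 < N') (hpN' : ¬ p ∣ N') {ζ : k} (hζ : IsPrimitiveRoot ζ N)
    (t τ : ℕ → k) (hτ : ∀ i, IsIntegral ℤ (τ i))
    (ht : ∀ n, t n = ∑ i ∈ Finset.range N, ζ ^ (i * n) * τ i) {v : k} (hv : v ^ N = 1)
    (hvp : v ^ (N / p) ≠ 1)
    (h1 : ∀ r r' : ℕ, r * r' ≡ 1 [MOD N] → t r * v ^ r' = (m : k))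
    (h0 : ∀ n, 0 < n → p ∣ n → t n = 0) :
    ∃ η : k, IsPrimitiveRoot η (p ^ a) ∧ ∀ s : ZMod (p ^ a),
      IsIntegral ℤ ((m : k) / (p : k) ^ a *
        ∑ u ∈ Finset.range (p ^ a), (klc (p ^ a) s (u : ZMod (p ^ a)) : k) * η ^ u) := by
  classical
  have hq0 : 0 < p ^ a := pow_pos hp.pos a
  haveI : NeZero (p ^ a) := ⟨hq0.ne'⟩
  have hNpos : 0 < N := by rw [hN]; exact Nat.mul_pos hq0 hN'
  have hco : Nat.Coprime (p ^ a) N' :=
    Nat.Coprime.pow_left a ((Nat.Prime.coprime_iff_not_dvd hp).mpr hpN')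
  obtain ⟨E, hE1, hE0⟩ := Nat.chineseRemainder hco 1 0
  obtain ⟨E₀, hE₀0, hE₀1⟩ := Nat.chineseRemainder hco 0 1
  set E' := E₀ + N with hE'
  have hE'0 : E' ≡ 0 [MOD p ^ a] := by
    have h1 : N ≡ 0 [MOD p ^ a] := (Nat.modEq_zero_iff_dvd).mpr ⟨N', hN⟩
    exact hE₀0.add h1
  have hE'1 : E' ≡ 1 [MOD N'] := by
    have h1 : N ≡ 0 [MOD N'] := (Nat.modEq_zero_iff_dvd).mpr ⟨p ^ a, by rw [hN]; ring⟩
    exact hE₀1.add h1
  have hE'pos : 0 < E' := by omega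
  have hprim := prim_of_pow hp ha hN hv hvp hE1 hE0
  have hprim' : IsPrimitiveRoot (v ^ E)⁻¹ (p ^ a) := hprim.inv
  refine ⟨(v ^ E)⁻¹, hprim', ?_⟩
  intro s
  set η : k := (v ^ E)⁻¹ with hη
  have hηq : η ^ (p ^ a) = 1 := hprim'.pow_eq_one
  have hv0 : v ≠ 0 := by
    rintro rfl
    rw [zero_pow hNpos.ne'] at hv
    exact zero_ne_one hv
  set n : ℕ → ℕ := fun x => x * E + E' with hn
  have hnq : ∀ x, n x ≡ x [MOD p ^ a] := by
    intro x
    have h1 := (hE1.mul_left x).add hE'0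
    simpa [hn] using h1
  have hnN' : ∀ x, n x ≡ 1 [MOD N'] := by
    intro x
    have h1 := (hE0.mul_left x).add hE'1
    simpa [hn] using h1
  -- the values of `t`
  have ht0 : ∀ x, p ∣ x → t (n x) = 0 := by
    intro x hx
    apply h0 _ (by simp only [hn]; omega)
    have h1 : p ∣ E' := (dvd_pow_self p ha.ne').trans ((Nat.modEq_zero_iff_dvd).mp hE'0)
    exact dvd_add (Dvd.dvd.mul_right hx E) h1
  have ht1 : ∀ x y : ℕ, x * y ≡ 1 [MOD p ^ a] → t (n x) = (m : k) * η ^ y * (v ^ E')⁻¹ := by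
    intro x y hxy
    have h2 : n x * n y ≡ 1 [MOD N] := by
      rw [hN]
      apply (Nat.modEq_and_modEq_iff_modEq_mul hco).mp
      refine ⟨((hnq x).mul (hnq y)).trans hxy, ?_⟩
      simpa using (hnN' x).mul (hnN' y)
    have h3 := h1 _ _ h2
    have h4 : v ^ n y = (v ^ E) ^ y * v ^ E' := by
      simp only [hn]
      rw [pow_add, mul_comm y E, pow_mul]
    rw [h4] at h3
    have h5 : (v ^ E) ^ y ≠ 0 := pow_ne_zero _ (pow_ne_zero _ hv0)
    have h6 : v ^ E' ≠ 0 := pow_ne_zero _ hv0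
    rw [← h3, hη, inv_pow]
    field_simp
  -- the sum computed in two ways
  have hS1 : ∑ x : ZMod (p ^ a), η ^ (s * x).val * t (n x.val) =
      (m : k) * (v ^ E')⁻¹ *
        ∑ u ∈ Finset.range (p ^ a), (klc (p ^ a) s (u : ZMod (p ^ a)) : k) * η ^ u := by
    rw [← sum_units, Finset.mul_sum]
    symm
    refine Fintype.sum_of_injective (fun u : (ZMod (p ^ a))ˣ => (u : ZMod (p ^ a)))
      Units.val_injective _ _ ?_ ?_
    · intro x hx
      have hpx : p ∣ x.val := by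
        by_contra hpx
        apply hx
        have h2 : Nat.Coprime x.val (p ^ a) :=
          (Nat.Coprime.pow_left a ((Nat.Prime.coprime_iff_not_dvd hp).mpr hpx)).symm
        refine ⟨ZMod.unitOfCoprime x.val h2, ?_⟩
        simp [ZMod.coe_unitOfCoprime]
      rw [ht0 _ hpx, mul_zero]
    · intro u
      have h2 : (u : ZMod (p ^ a)).val * ((u⁻¹ : (ZMod (p ^ a))ˣ) : ZMod (p ^ a)).val ≡ 1
          [MOD p ^ a] := by
        rw [← ZMod.natCast_eq_natCast_iff]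
        push_cast
        rw [ZMod.natCast_zmod_val, ZMod.natCast_zmod_val]
        exact u.mul_inv
      rw [ht1 _ _ h2]
      have h3 : η ^ (s * (u : ZMod (p ^ a)) + ((u⁻¹ : (ZMod (p ^ a))ˣ) : ZMod (p ^ a))).val =
          η ^ (s * (u : ZMod (p ^ a))).val *
            η ^ (((u⁻¹ : (ZMod (p ^ a))ˣ) : ZMod (p ^ a))).val := by
        rw [← pow_add, ZMod.val_add, ← pow_eq_pow_mod _ hηq]
      rw [h3]
      ring
  have hS2 : ∑ x : ZMod (p ^ a), η ^ (s * x).val * t (n x.val) =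
      (p : k) ^ a * ∑ i ∈ Finset.range N,
        τ i * (ζ ^ (i * E') * (if η ^ s.val * ζ ^ (i * E) = 1 then (1 : k) else 0)) := by
    have h2 : ∀ x : ZMod (p ^ a), η ^ (s * x).val * t (n x.val) =
        ∑ i ∈ Finset.range N, τ i * (ζ ^ (i * E') * (η ^ s.val * ζ ^ (i * E)) ^ x.val) := by
      intro x
      rw [ht, Finset.mul_sum]
      refine Finset.sum_congr rfl fun i _ => ?_
      have h3 : η ^ (s * x).val = η ^ (s.val * x.val) := by
        rw [ZMod.val_mul, ← pow_eq_pow_mod _ hηq]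
      rw [h3, mul_pow, ← pow_mul, ← pow_mul]
      simp only [hn]
      have h4 : i * (x.val * E + E') = i * E * x.val + i * E' := by ring
      rw [h4, pow_add]
      ring
    rw [Finset.sum_congr rfl fun x _ => h2 x, Finset.sum_comm, Finset.mul_sum]
    refine Finset.sum_congr rfl fun i _ => ?_
    rw [← Finset.mul_sum, ← Finset.mul_sum]
    have hg : (η ^ s.val * ζ ^ (i * E)) ^ (p ^ a) = 1 := by
      rw [mul_pow, ← pow_mul, mul_comm s.val, pow_mul, hηq, one_pow, one_mul, ← pow_mul]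
      obtain ⟨c, hc⟩ : N' ∣ E := (Nat.modEq_zero_iff_dvd).mp hE0
      have h5 : i * E * p ^ a = N * (i * c) := by rw [hN, hc]; ring
      rw [h5, pow_mul, hζ.pow_eq_one, one_pow]
    rw [sum_zmod (fun j => (η ^ s.val * ζ ^ (i * E)) ^ j), geom_root hg]
    split_ifs
    · push_cast; ring
    · ring
  rw [hS1] at hS2
  have hpa : (p : k) ^ a ≠ 0 := pow_ne_zero _ (Nat.cast_ne_zero.mpr hp.ne_zero)
  have hvE : v ^ E' ≠ 0 := pow_ne_zero _ hv0
  have hfin : (m : k) / (p : k) ^ a *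
      ∑ u ∈ Finset.range (p ^ a), (klc (p ^ a) s (u : ZMod (p ^ a)) : k) * η ^ u =
      v ^ E' * ∑ i ∈ Finset.range N,
        τ i * (ζ ^ (i * E') * (if η ^ s.val * ζ ^ (i * E) = 1 then (1 : k) else 0)) := by
    set K := ∑ u ∈ Finset.range (p ^ a), (klc (p ^ a) s (u : ZMod (p ^ a)) : k) * η ^ u
    set J := ∑ i ∈ Finset.range N,
        τ i * (ζ ^ (i * E') * (if η ^ s.val * ζ ^ (i * E) = 1 then (1 : k) else 0))
    field_simp
    have h6 : (m : k) * K = v ^ E' * ((m : k) * (v ^ E')⁻¹ * K) := by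
      field_simp
    rw [h6, hS2]
    ring
  rw [hfin]
  have hvint : IsIntegral ℤ v := by
    apply IsIntegral.of_pow hNpos
    rw [hv]
    exact isIntegral_one
  have hζint : IsIntegral ℤ ζ := hζ.isIntegral hNpos
  refine (hvint.pow _).mul (IsIntegral.sum _ fun i _ => (hτ i).mul ((hζint.pow _).mul ?_))
  split_ifs
  · exact isIntegral_one
  · exact isIntegral_zero

end Pool.Agent.KExp
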