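import Pool.Agent.Lib.KExp.Defs

/-!
# KExp.CntA (MP_0d5e35_al, paper /team-store/MP_0d5e35_al_paper38.md)

Counting, `a = 2c` and `a = 1`. klc_even_two: `x + x⁻¹ = 2` iff `(x-1)² = 0` in `ℤ/p^{2c}` iff `x ≡ 1 mod p^c`:
`p^c` solutions (all units, `c ≥ 1`). klc_even_off: `x + x⁻¹ = 2 + p^{2c-1}` iff `(x-1)² = x p^{2c-1}`, `x` a unit: the
valuation of the left side is even or `≥ 2c`, impossible (`x - 1 = p^j y`, `y` prime to `p`: `2j = 2c-1`).
klc_one: `a = 1, s = 0`: `x⁻¹ = 0` impossible, `x⁻¹ = 1` once.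
-/

set_option autoImplicit false

open scoped TensorProduct

namespace Pool.Agent.KExp

private theorem castHom_eq_zero_iff {p a b : ℕ} (h : p ^ b ∣ p ^ a) [NeZero (p ^ a)]
    (y : ZMod (p ^ a)) : ZMod.castHom h (ZMod (p ^ b)) y = 0 ↔ p ^ b ∣ y.val := by
  conv_lhs => rw [← ZMod.natCast_zmod_val y]
  rw [map_natCast, ZMod.natCast_eq_zero_iff]

private theorem sq_zero_iff {p c : ℕ} [NeZero (p ^ (2 * c))] (y : ZMod (p ^ (2 * c))) :
    y ^ 2 = 0 ↔ p ^ c ∣ y.val := by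
  conv_lhs => rw [← ZMod.natCast_zmod_val y]
  rw [← Nat.cast_pow, ZMod.natCast_eq_zero_iff]
  generalize y.val = n
  rw [mul_comm 2 c, pow_mul, Nat.pow_dvd_pow_iff (by norm_num)]

private theorem unit_eq_iff {M : ℕ} (x : (ZMod M)ˣ) (t : ZMod M) :
    1 * (x : ZMod M) + ((x⁻¹ : (ZMod M)ˣ) : ZMod M) = 2 + t ↔
      ((x : ZMod M) - 1) ^ 2 = (x : ZMod M) * t := by
  have hx : (x : ZMod M) * ((x⁻¹ : (ZMod M)ˣ) : ZMod M) = 1 := by
    rw [← Units.val_mul, mul_inv_cancel, Units.val_one]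
  constructor
  · intro h
    have h1 : (x : ZMod M) * (1 * (x : ZMod M) + ((x⁻¹ : (ZMod M)ˣ) : ZMod M)) =
        (x : ZMod M) * (2 + t) := by rw [h]
    rw [mul_add, hx] at h1
    linear_combination h1
  · intro h
    have h1 : (x : ZMod M) * (1 * (x : ZMod M) + ((x⁻¹ : (ZMod M)ˣ) : ZMod M)) =
        (x : ZMod M) * (2 + t) := by
      rw [mul_add, hx]
      linear_combination h
    exact (Units.isUnit x).mul_left_cancel h1

theorem klc_even_two {p c : ℕ} (hp : p.Prime) (hc : 0 < c) :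
    klc (p ^ (2 * c)) 1 2 = (p : ℤ) ^ c := by
  have hp0 : 0 < p := hp.pos
  have : NeZero (p ^ (2 * c)) := ⟨by positivity⟩
  have : NeZero (p ^ c) := ⟨by positivity⟩
  have hd : p ^ c ∣ p ^ (2 * c) := pow_dvd_pow p (by omega)
  set f : ZMod (p ^ (2 * c)) →+ ZMod (p ^ c) := (ZMod.castHom hd (ZMod (p ^ c))).toAddMonoidHom
    with hf
  have hsurj : Function.Surjective f := ZMod.castHom_surjective hd
  have hker : Nat.card f.ker = p ^ c := by
    have h1 := AddSubgroup.card_mul_index f.ker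
    rw [AddSubgroup.index_ker, Nat.card_zmod] at h1
    have h2 : Nat.card f.range = p ^ c := by
      rw [AddMonoidHom.range_eq_top.2 hsurj, AddSubgroup.card_top, Nat.card_zmod]
    rw [h2] at h1
    have h3 : Nat.card f.ker * p ^ c = p ^ c * p ^ c := by
      rw [h1, ← pow_add, two_mul]
    exact Nat.eq_of_mul_eq_mul_right (by positivity) h3
  have hmem : ∀ y : ZMod (p ^ (2 * c)), y ∈ f.ker ↔ y ^ 2 = 0 := by
    intro y
    rw [sq_zero_iff, AddMonoidHom.mem_ker, ← castHom_eq_zero_iff hd y]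
    rfl
  have hcond : ∀ x : (ZMod (p ^ (2 * c)))ˣ,
      1 * (x : ZMod (p ^ (2 * c))) + ((x⁻¹ : (ZMod (p ^ (2 * c)))ˣ) : ZMod (p ^ (2 * c))) = 2 ↔
        (x : ZMod (p ^ (2 * c))) - 1 ∈ f.ker := by
    intro x
    rw [hmem]
    have h := unit_eq_iff x 0
    rw [add_zero, mul_zero] at h
    exact h
  have hcard : Nat.card {x : (ZMod (p ^ (2 * c)))ˣ //
      1 * (x : ZMod (p ^ (2 * c))) + ((x⁻¹ : (ZMod (p ^ (2 * c)))ˣ) : ZMod (p ^ (2 * c))) = 2} =
        Nat.card f.ker := by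
    refine Nat.card_congr (Equiv.ofBijective
      (fun x => ⟨(x.1 : ZMod (p ^ (2 * c))) - 1, (hcond x.1).1 x.2⟩) ⟨?_, ?_⟩)
    · intro x y hxy
      have h1 : (x.1 : ZMod (p ^ (2 * c))) - 1 = (y.1 : ZMod (p ^ (2 * c))) - 1 :=
        congrArg Subtype.val hxy
      exact Subtype.ext (Units.ext (sub_left_injective h1))
    · rintro ⟨y, hy⟩
      have h2 : y ^ 2 = 0 := (hmem y).1 hy
      have h3 : (1 + y) * (1 - y) = 1 := by linear_combination -h2
      have h4 : (1 - y) * (1 + y) = 1 := by linear_combination -h2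
      let u : (ZMod (p ^ (2 * c)))ˣ := ⟨1 + y, 1 - y, h3, h4⟩
      have h5 : (u : ZMod (p ^ (2 * c))) - 1 = y := by
        show (1 + y) - 1 = y
        ring
      exact ⟨⟨u, (hcond u).2 (by rw [h5]; exact hy)⟩, Subtype.ext h5⟩
  unfold klc
  rw [hcard, hker]
  push_cast
  rfl

theorem klc_even_off {p c : ℕ} (hp : p.Prime) (hc : 0 < c) :
    klc (p ^ (2 * c)) 1 (2 + (p : ZMod (p ^ (2 * c))) ^ (2 * c - 1)) = 0 := by
  have hp0 : 0 < p := hp.pos
  have : NeZero (p ^ (2 * c)) := ⟨by positivity⟩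
  have : NeZero (p ^ (2 * c - 1)) := ⟨by positivity⟩
  have hemp : IsEmpty {x : (ZMod (p ^ (2 * c)))ˣ //
      1 * (x : ZMod (p ^ (2 * c))) + ((x⁻¹ : (ZMod (p ^ (2 * c)))ˣ) : ZMod (p ^ (2 * c))) =
        2 + (p : ZMod (p ^ (2 * c))) ^ (2 * c - 1)} := by
    refine ⟨fun ⟨x, hx⟩ => ?_⟩
    rw [unit_eq_iff] at hx
    set n := ((x : ZMod (p ^ (2 * c))) - 1).val with hn
    -- `p^(2c-1)` divides `n²`
    have hd : p ^ (2 * c - 1) ∣ p ^ (2 * c) := pow_dvd_pow p (by omega)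
    have h1 : p ^ (2 * c - 1) ∣ n ^ 2 := by
      have h2 := congrArg (ZMod.castHom hd (ZMod (p ^ (2 * c - 1)))) hx
      rw [map_mul, map_pow, map_pow, map_natCast, ← Nat.cast_pow (α := ZMod (p ^ (2 * c - 1))) p,
        ZMod.natCast_self, mul_zero] at h2
      have h3 : ((x : ZMod (p ^ (2 * c))) - 1) = ((n : ℕ) : ZMod (p ^ (2 * c))) :=
        (ZMod.natCast_zmod_val _).symm
      rw [h3, map_natCast, ← Nat.cast_pow, ZMod.natCast_eq_zero_iff] at h2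
      exact h2
    obtain ⟨d, rfl⟩ : ∃ d, c = d + 1 := ⟨c - 1, by omega⟩
    have h4 : 2 * (d + 1) - 1 = d * 2 + 1 := by omega
    rw [h4] at h1
    have h5 : (p ^ d) ^ 2 ∣ n ^ 2 := by
      rw [← pow_mul]
      exact (pow_dvd_pow p (by omega)).trans h1
    have h6 : p ^ d ∣ n := (Nat.pow_dvd_pow_iff (by norm_num)).1 h5
    obtain ⟨m, hm⟩ := h6
    have h7 : p ∣ m ^ 2 := by
      rw [hm, mul_pow, ← pow_mul, pow_succ] at h1
      exact Nat.dvd_of_mul_dvd_mul_left (by positivity) h1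
    have h8 : p ∣ m := hp.dvd_of_dvd_pow h7
    have h9 : p ^ (d + 1) ∣ n := by
      rw [hm, pow_succ]
      exact Nat.mul_dvd_mul_left _ h8
    have h10 : ((x : ZMod (p ^ (2 * (d + 1)))) - 1) ^ 2 = 0 := (sq_zero_iff _).2 h9
    rw [h10] at hx
    have h11 : (p : ZMod (p ^ (2 * (d + 1)))) ^ (2 * (d + 1) - 1) = 0 := by
      have h12 : ((x⁻¹ : (ZMod (p ^ (2 * (d + 1))))ˣ) : ZMod (p ^ (2 * (d + 1)))) *
          ((x : ZMod (p ^ (2 * (d + 1)))) * (p : ZMod (p ^ (2 * (d + 1)))) ^ (2 * (d + 1) - 1)) =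
            0 := by rw [← hx, mul_zero]
      rw [← mul_assoc, ← Units.val_mul, inv_mul_cancel, Units.val_one, one_mul] at h12
      exact h12
    rw [← Nat.cast_pow, ZMod.natCast_eq_zero_iff] at h11
    have h13 := (Nat.pow_dvd_pow_iff_le_right hp.one_lt).1 h11
    omega
  unfold klc
  rw [Nat.card_of_isEmpty]
  rfl

theorem klc_one {p : ℕ} (hp : p.Prime) : klc (p ^ 1) 0 0 = 0 ∧ klc (p ^ 1) 0 1 = 1 := by
  have : Fact (1 < p ^ 1) := ⟨by rw [pow_one]; exact hp.one_lt⟩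
  constructor
  · have hemp : IsEmpty {x : (ZMod (p ^ 1))ˣ //
        0 * (x : ZMod (p ^ 1)) + ((x⁻¹ : (ZMod (p ^ 1))ˣ) : ZMod (p ^ 1)) = 0} := by
      refine ⟨fun ⟨x, hx⟩ => ?_⟩
      rw [zero_mul, zero_add] at hx
      exact (x⁻¹).ne_zero hx
    unfold klc
    rw [Nat.card_of_isEmpty]
    rfl
  · have huniq : Nat.card {x : (ZMod (p ^ 1))ˣ //
        0 * (x : ZMod (p ^ 1)) + ((x⁻¹ : (ZMod (p ^ 1))ˣ) : ZMod (p ^ 1)) = 1} = 1 := by
      rw [Nat.card_eq_one_iff_unique]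
      refine ⟨⟨fun x y => ?_⟩, ⟨⟨1, by simp⟩⟩⟩
      obtain ⟨x, hx⟩ := x
      obtain ⟨y, hy⟩ := y
      rw [zero_mul, zero_add] at hx hy
      have h1 : x⁻¹ = y⁻¹ := Units.ext (hx.trans hy.symm)
      exact Subtype.ext (inv_injective h1)
    unfold klc
    rw [huniq]
    rfl

end Pool.Agent.KExp
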