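import Pool.Agent.Lib.KExp.Defs

/-!
# KExp.CntB (MP_0d5e35_al, paper /team-store/MP_0d5e35_al_paper38.md)

Counting, `p` odd, `a = 2c+1`, `c ≥ 1`. `x + x⁻¹ = 2` iff `(x-1)² = 0` iff `x ≡ 1 mod p^{c+1}`: `p^c` solutions.
`x + x⁻¹ = 2 + p^{2c}` iff `(x-1)² = x p^{2c}`: `x = 1 + p^c y`, `y² ≡ x ≡ 1 mod p`, `y ≡ ±1 mod p`; `y` mod `p^{c+1}`:
`2 p^c` solutions.
-/

set_option autoImplicit false

open scoped TensorProduct

namespace Pool.Agent.KExp


private theorem core_count {M : ℕ} [NeZero M] (u : ZMod M) (A : Finset ℕ)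
    (hA : ∀ k, k ∈ A ↔ k < M ∧ IsUnit (1 + (k : ZMod M)) ∧
      (k : ZMod M) ^ 2 = (1 + (k : ZMod M)) * u) :
    klc M 1 (2 + u) = (A.card : ℤ) := by
  unfold klc
  have hP : ∀ x : (ZMod M)ˣ, (1 * (x : ZMod M) + ((x⁻¹ : (ZMod M)ˣ) : ZMod M) = 2 + u ↔
      ((x : ZMod M) - 1) ^ 2 = (x : ZMod M) * u) := by
    intro x
    have hx : (x : ZMod M) * ((x⁻¹ : (ZMod M)ˣ) : ZMod M) = 1 := x.mul_inv
    constructor
    · intro h
      have h1 : (x : ZMod M) * (1 * (x : ZMod M) + ((x⁻¹ : (ZMod M)ˣ) : ZMod M)) =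
          (x : ZMod M) * (2 + u) := by rw [h]
      rw [one_mul, mul_add, hx] at h1
      linear_combination h1
    · intro h
      have h1 : (x : ZMod M) * (1 * (x : ZMod M) + ((x⁻¹ : (ZMod M)ˣ) : ZMod M) - (2 + u)) = 0 := by
        linear_combination h + hx
      have h2 : IsUnit (x : ZMod M) := x.isUnit
      exact sub_eq_zero.1 ((h2.mul_right_eq_zero).1 h1)
  have hcast : ∀ y : ZMod M, ((y.val : ℕ) : ZMod M) = y := fun y => ZMod.natCast_zmod_val y
  have hmem : ∀ x : {x : (ZMod M)ˣ // 1 * (x : ZMod M) + ((x⁻¹ : (ZMod M)ˣ) : ZMod M) = 2 + u},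
      ((x.1 : ZMod M) - 1).val ∈ A := by
    intro x
    rw [hA, hcast]
    refine ⟨ZMod.val_lt _, ?_, ?_⟩
    · rw [add_sub_cancel]
      exact x.1.isUnit
    · rw [add_sub_cancel]
      exact (hP x.1).1 x.2
  have hcard : Nat.card {x : (ZMod M)ˣ // 1 * (x : ZMod M) +
      ((x⁻¹ : (ZMod M)ˣ) : ZMod M) = 2 + u} = Nat.card A := by
    apply Nat.card_eq_of_bijective (fun x => (⟨((x.1 : ZMod M) - 1).val, hmem x⟩ : A))
    constructor
    · intro x y hxy
      have h1 : ((x.1 : ZMod M) - 1).val = ((y.1 : ZMod M) - 1).val := congrArg Subtype.val hxy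
      have h2 := ZMod.val_injective M h1
      have h3 : (x.1 : ZMod M) = (y.1 : ZMod M) := sub_left_inj.1 h2
      exact Subtype.ext (Units.ext h3)
    · rintro ⟨k, hk⟩
      obtain ⟨h1, h2, h3⟩ := (hA k).1 hk
      obtain ⟨x, hx⟩ := h2
      refine ⟨⟨x, (hP x).2 ?_⟩, ?_⟩
      · rw [hx, add_sub_cancel_left]
        exact h3
      · apply Subtype.ext
        change ((x : ZMod M) - 1).val = k
        rw [hx, add_sub_cancel_left, ZMod.val_natCast, Nat.mod_eq_of_lt h1]
  rw [hcard, Nat.card_eq_fintype_card, Fintype.card_coe]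

private theorem pc_dvd {p c k : ℕ} (h : (p : ℤ) ^ (2 * c) ∣ (k : ℤ) ^ 2) : p ^ c ∣ k := by
  have h1 : ((p : ℤ) ^ c) ^ 2 ∣ (k : ℤ) ^ 2 := by
    rw [← pow_mul, mul_comm c 2]
    exact h
  have h2 := (Int.pow_dvd_pow_iff (by norm_num)).1 h1
  exact_mod_cast h2

private theorem isUnit_of {p c : ℕ} (hc : 0 < c) (y : ℕ) :
    IsUnit (1 + ((p ^ c * y : ℕ) : ZMod (p ^ (2 * c + 1)))) := by
  apply IsNilpotent.isUnit_one_add
  refine ⟨3, ?_⟩
  rw [← Nat.cast_pow, ZMod.natCast_eq_zero_iff, mul_pow, ← pow_mul]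
  exact Dvd.dvd.mul_right (pow_dvd_pow p (by omega)) _

theorem klc_odd_two {p c : ℕ} (hp : p.Prime) (hc : 0 < c) :
    klc (p ^ (2 * c + 1)) 1 2 = (p : ℤ) ^ c := by
  have hp0 : 0 < p := hp.pos
  have : NeZero (p ^ (2 * c + 1)) := ⟨(pow_pos hp0 _).ne'⟩
  have hpp : Prime (p : ℤ) := Nat.prime_iff_prime_int.1 hp
  have hsplit : p ^ (2 * c + 1) = p ^ (c + 1) * p ^ c := by rw [← pow_add]; congr 1; omega
  have h := core_count (M := p ^ (2 * c + 1)) 0
    ((Finset.range (p ^ c)).image fun y => p ^ (c + 1) * y) (by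
      intro k
      rw [Finset.mem_image]
      constructor
      · rintro ⟨y, hy, rfl⟩
        rw [Finset.mem_range] at hy
        refine ⟨?_, ?_, ?_⟩
        · rw [hsplit]
          exact Nat.mul_lt_mul_of_pos_left hy (pow_pos hp0 _)
        · have e : p ^ (c + 1) * y = p ^ c * (p * y) := by rw [pow_succ, mul_assoc]
          rw [e]
          exact isUnit_of hc _
        · rw [mul_zero, ← Nat.cast_pow, ZMod.natCast_eq_zero_iff, mul_pow, ← pow_mul]
          exact Dvd.dvd.mul_right (pow_dvd_pow p (by omega)) _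
      · rintro ⟨h1, -, h3⟩
        rw [mul_zero, ← Nat.cast_pow, ZMod.natCast_eq_zero_iff] at h3
        have h4 : p ^ c ∣ k := by
          apply pc_dvd
          exact_mod_cast (pow_dvd_pow p (by omega : 2 * c ≤ 2 * c + 1)).trans h3
        obtain ⟨y, rfl⟩ := h4
        have h5 : p ∣ y := by
          have e : p ^ (2 * c + 1) = p ^ (2 * c) * p := pow_succ _ _
          rw [mul_pow, ← pow_mul, mul_comm c 2, e] at h3
          have h6 := Nat.dvd_of_mul_dvd_mul_left (pow_pos hp0 _) h3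
          exact hp.dvd_of_dvd_pow h6
        obtain ⟨w, rfl⟩ := h5
        refine ⟨w, ?_, by rw [pow_succ, mul_assoc]⟩
        rw [Finset.mem_range]
        rw [hsplit, ← mul_assoc, ← pow_succ] at h1
        exact lt_of_mul_lt_mul_left h1 (Nat.zero_le _))
  rw [add_zero] at h
  rw [h, Finset.card_image_of_injective, Finset.card_range]
  · push_cast
    rfl
  · intro a b hab
    exact Nat.eq_of_mul_eq_mul_left (pow_pos hp0 _) hab

theorem klc_odd_off {p c : ℕ} (hp : p.Prime) (hp2 : p ≠ 2) (hc : 0 < c) :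
    klc (p ^ (2 * c + 1)) 1 (2 + (p : ZMod (p ^ (2 * c + 1))) ^ (2 * c)) = 2 * (p : ℤ) ^ c := by
  have hp0 : 0 < p := hp.pos
  have hp3 : 3 ≤ p := by
    have := hp.two_le
    omega
  have : NeZero (p ^ (2 * c + 1)) := ⟨(pow_pos hp0 _).ne'⟩
  have hpp : Prime (p : ℤ) := Nat.prime_iff_prime_int.1 hp
  have hsplit : p ^ (2 * c + 1) = p ^ c * (p * p ^ c) := by
    rw [← pow_succ', ← pow_add]; congr 1; omega
  have hkey : ∀ y : ℕ, ((((p ^ c * y : ℕ) : ZMod (p ^ (2 * c + 1))) ^ 2 =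
      (1 + ((p ^ c * y : ℕ) : ZMod (p ^ (2 * c + 1)))) *
        (p : ZMod (p ^ (2 * c + 1))) ^ (2 * c)) ↔ (p : ℤ) ∣ (y : ℤ) ^ 2 - 1) := by
    intro y
    have e1 : ((((p ^ c * y : ℕ) : ZMod (p ^ (2 * c + 1))) ^ 2 =
      (1 + ((p ^ c * y : ℕ) : ZMod (p ^ (2 * c + 1)))) *
        (p : ZMod (p ^ (2 * c + 1))) ^ (2 * c)) ↔
        ((p ^ (2 * c + 1) : ℕ) : ℤ) ∣ (p : ℤ) ^ (2 * c) * ((y : ℤ) ^ 2 - 1 - (p : ℤ) ^ c * y)) := by
      rw [← sub_eq_zero, ← ZMod.intCast_zmod_eq_zero_iff_dvd]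
      push_cast
      constructor
      · intro h
        rw [← h]
        ring
      · intro h
        rw [← h]
        ring
    rw [e1]
    push_cast
    rw [pow_succ, mul_dvd_mul_iff_left (pow_ne_zero _ hpp.ne_zero)]
    have h1 : (p : ℤ) ∣ (p : ℤ) ^ c * y := Dvd.dvd.mul_right (dvd_pow_self _ hc.ne') _
    exact dvd_sub_left h1
  have hres : ∀ y : ℕ, ((p : ℤ) ∣ (y : ℤ) ^ 2 - 1 ↔ y % p = 1 ∨ y % p = p - 1) := by
    intro y
    have hy := Nat.div_add_mod y p
    have hlt : y % p < p := Nat.mod_lt _ hp0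
    have e : (y : ℤ) ^ 2 - 1 = ((y : ℤ) - 1) * ((y : ℤ) + 1) := by ring
    rw [e, hpp.dvd_mul]
    have hy' : (y : ℤ) = p * (y / p : ℕ) + (y % p : ℕ) := by exact_mod_cast hy.symm
    have hr0 : (0 : ℤ) ≤ ((y % p : ℕ) : ℤ) := Int.natCast_nonneg _
    have hr1 : ((y % p : ℕ) : ℤ) < p := by exact_mod_cast hlt
    have hp3' : (3 : ℤ) ≤ p := by exact_mod_cast hp3
    constructor
    · rintro (h | h)
      · left
        have h1 : (p : ℤ) ∣ ((y % p : ℕ) : ℤ) - 1 := by
          have : ((y % p : ℕ) : ℤ) - 1 = ((y : ℤ) - 1) - p * (y / p : ℕ) := by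
            rw [hy']; push_cast; ring
          rw [this]
          exact dvd_sub h (dvd_mul_right _ _)
        have h2 : ((y % p : ℕ) : ℤ) - 1 = 0 := by
          apply Int.eq_zero_of_abs_lt_dvd h1
          rw [abs_lt]
          constructor <;> linarith
        have h3 : ((y % p : ℕ) : ℤ) = 1 := by linarith
        exact_mod_cast h3
      · right
        have h1 : (p : ℤ) ∣ ((y % p : ℕ) : ℤ) + 1 - p := by
          have : ((y % p : ℕ) : ℤ) + 1 - p = ((y : ℤ) + 1) - p * ((y / p : ℕ) + 1) := by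
            rw [hy']; push_cast; ring
          rw [this]
          exact dvd_sub h (dvd_mul_right _ _)
        have h2 : ((y % p : ℕ) : ℤ) + 1 - p = 0 := by
          apply Int.eq_zero_of_abs_lt_dvd h1
          rw [abs_lt]
          constructor <;> linarith
        omega
    · rintro (h | h)
      · left
        rw [hy', h]
        exact ⟨(y / p : ℕ), by push_cast; ring⟩
      · right
        rw [hy', h, Nat.cast_sub (by omega)]
        exact ⟨(y / p : ℕ) + 1, by push_cast; ring⟩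
  have h := core_count (M := p ^ (2 * c + 1)) ((p : ZMod (p ^ (2 * c + 1))) ^ (2 * c))
    ((Finset.range (p ^ c) ×ˢ ({1, p - 1} : Finset ℕ)).image
      fun q => p ^ c * (p * q.1 + q.2)) (by
      intro k
      rw [Finset.mem_image]
      constructor
      · rintro ⟨⟨a, b⟩, hy, rfl⟩
        rw [Finset.mem_product, Finset.mem_range, Finset.mem_insert, Finset.mem_singleton] at hy
        obtain ⟨ha, hb⟩ := hy
        simp only at ha hb ⊢
        have hbp : b < p := by
          rcases hb with rfl | rfl <;> omega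
        refine ⟨?_, isUnit_of hc _, ?_⟩
        · rw [hsplit]
          apply Nat.mul_lt_mul_of_pos_left _ (pow_pos hp0 _)
          calc p * a + b < p * a + p := by omega
            _ = p * (a + 1) := by ring
            _ ≤ p * p ^ c := Nat.mul_le_mul_left _ ha
        · rw [hkey, hres]
          rw [Nat.mul_add_mod, Nat.mod_eq_of_lt hbp]
          exact hb
      · rintro ⟨h1, -, h3⟩
        have h4 : p ^ c ∣ k := by
          apply pc_dvd
          have h5 : ((p ^ (2 * c + 1) : ℕ) : ℤ) ∣ (k : ℤ) ^ 2 - (1 + k) * (p : ℤ) ^ (2 * c) := by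
            rw [← ZMod.intCast_zmod_eq_zero_iff_dvd]
            push_cast
            rw [h3, sub_self]
          have h6 : (p : ℤ) ^ (2 * c) ∣ (k : ℤ) ^ 2 - (1 + k) * (p : ℤ) ^ (2 * c) := by
            refine dvd_trans ?_ h5
            push_cast
            exact pow_dvd_pow _ (by omega)
          exact (dvd_sub_left (Dvd.intro_left _ rfl)).1 h6
        obtain ⟨y, rfl⟩ := h4
        rw [hkey, hres] at h3
        refine ⟨(y / p, y % p), ?_, ?_⟩
        · rw [Finset.mem_product, Finset.mem_range, Finset.mem_insert, Finset.mem_singleton]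
          refine ⟨?_, h3⟩
          simp only
          rw [hsplit] at h1
          have h5 : y < p * p ^ c := lt_of_mul_lt_mul_left h1 (Nat.zero_le _)
          exact Nat.div_lt_of_lt_mul h5
        · simp only
          rw [Nat.div_add_mod])
  rw [h, Finset.card_image_of_injOn, Finset.card_product, Finset.card_range,
    Finset.card_pair (by omega)]
  · push_cast
    ring
  · rintro ⟨a, b⟩ hab ⟨a', b'⟩ hab' hq
    rw [Finset.mem_coe, Finset.mem_product, Finset.mem_insert, Finset.mem_singleton] at hab hab'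
    obtain ⟨-, hb⟩ := hab
    obtain ⟨-, hb'⟩ := hab'
    simp only at hb hb' hq
    have hbp : b < p := by
      rcases hb with rfl | rfl <;> omega
    have hbp' : b' < p := by
      rcases hb' with rfl | rfl <;> omega
    have h1 : p * a + b = p * a' + b' := Nat.eq_of_mul_eq_mul_left (pow_pos hp0 _) hq
    have h2 : b = b' := by
      have := congrArg (· % p) h1
      simp only [Nat.mul_add_mod, Nat.mod_eq_of_lt hbp, Nat.mod_eq_of_lt hbp'] at this
      exact this
    subst h2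
    have h3 : a = a' := Nat.eq_of_mul_eq_mul_left hp0 (Nat.add_right_cancel h1)
    rw [h3]

end Pool.Agent.KExp
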