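import Pool.Agent.Lib.KExp.Defs

/-!
# KExp.CntC (MP_0d5e35_al, paper /team-store/MP_0d5e35_al_paper38.md)

Counting, `p = 2`, `a = 2c+1`. `c ≥ 2`: `s = 1 - 2^{2c-2}` (a unit). `s x + x⁻¹ = 2` iff `s x² - 2x + 1 = 0` iff
`(s x - 1)² = 1 - s = 2^{2c-2}` (multiply by `s`; if `s x - 1 = z` with `z` even then `x` is a unit). `z = 2^{c-1} w`,
`w² ≡ 1 mod 8` iff `w` odd; `z` mod `2^{2c+1}`, i.e. `w` mod `2^{c+2}` odd: `2^{c+1}` solutions (from `z² = 2^{2c-2}` in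
`ℤ/2^{2c+1}` the valuation of `z` is `c-1`). `s x + x⁻¹ = 2 + 2^{2c}` iff `(s x - 1)² = 2^{2c-2} + s x 2^{2c} =
2^{2c-2} + 2^{2c} = 5 · 2^{2c-2}`: `w² ≡ 5 mod 8` impossible. `c = 1`: decide in `ℤ/8`, `s = -1`:
`-x + x⁻¹ = 0` for all four units, `= 4` for none.
-/

set_option autoImplicit false

open scoped TensorProduct

namespace Pool.Agent.KExp

private theorem core_countC {M : ℕ} [NeZero M] (s u : ZMod M) (hs : IsUnit s) (A : Finset ℕ)
    (hA : ∀ k, k ∈ A ↔ k < M ∧ IsUnit (1 + (k : ZMod M)) ∧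
      (1 + (k : ZMod M)) ^ 2 + s = u * (1 + (k : ZMod M))) :
    klc M s u = (A.card : ℤ) := by
  unfold klc
  obtain ⟨σ, rfl⟩ := hs
  have hP : ∀ x : (ZMod M)ˣ, ((σ : ZMod M) * (x : ZMod M) + ((x⁻¹ : (ZMod M)ˣ) : ZMod M) = u ↔
      ((σ : ZMod M) * x) ^ 2 + σ = u * (σ * x)) := by
    intro x
    have hx : (x : ZMod M) * ((x⁻¹ : (ZMod M)ˣ) : ZMod M) = 1 := x.mul_inv
    constructor
    · intro h
      rw [← h]
      linear_combination (-(σ : ZMod M)) * hx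
    · intro h
      have h1 : ((σ : ZMod M) * x) *
          ((σ : ZMod M) * (x : ZMod M) + ((x⁻¹ : (ZMod M)ˣ) : ZMod M) - u) = 0 := by
        linear_combination h + (σ : ZMod M) * hx
      have h2 : IsUnit ((σ : ZMod M) * x) := (σ * x).isUnit
      exact sub_eq_zero.1 ((h2.mul_right_eq_zero).1 h1)
  have hcast : ∀ y : ZMod M, ((y.val : ℕ) : ZMod M) = y := fun y => ZMod.natCast_zmod_val y
  have hmem : ∀ x : {x : (ZMod M)ˣ // (σ : ZMod M) * (x : ZMod M) +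
      ((x⁻¹ : (ZMod M)ˣ) : ZMod M) = u}, ((σ : ZMod M) * (x.1 : ZMod M) - 1).val ∈ A := by
    intro x
    rw [hA, hcast]
    refine ⟨ZMod.val_lt _, ?_, ?_⟩
    · rw [add_sub_cancel]
      exact (σ * x.1).isUnit
    · rw [add_sub_cancel]
      exact (hP x.1).1 x.2
  have hcard : Nat.card {x : (ZMod M)ˣ // (σ : ZMod M) * (x : ZMod M) +
      ((x⁻¹ : (ZMod M)ˣ) : ZMod M) = u} = Nat.card A := by
    apply Nat.card_eq_of_bijective
      (fun x => (⟨((σ : ZMod M) * (x.1 : ZMod M) - 1).val, hmem x⟩ : A))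
    constructor
    · intro x y hxy
      have h1 : ((σ : ZMod M) * (x.1 : ZMod M) - 1).val =
        ((σ : ZMod M) * (y.1 : ZMod M) - 1).val := congrArg Subtype.val hxy
      have h2 := ZMod.val_injective M h1
      have h3 : (σ : ZMod M) * (x.1 : ZMod M) = (σ : ZMod M) * (y.1 : ZMod M) := sub_left_inj.1 h2
      have h4 : (x.1 : ZMod M) = (y.1 : ZMod M) := σ.isUnit.mul_left_cancel h3
      exact Subtype.ext (Units.ext h4)
    · rintro ⟨k, hk⟩
      obtain ⟨h1, h2, h3⟩ := (hA k).1 hk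
      obtain ⟨x, hx⟩ := h2
      have e : (σ : ZMod M) * ((σ⁻¹ * x : (ZMod M)ˣ) : ZMod M) = 1 + (k : ZMod M) := by
        rw [Units.val_mul, ← mul_assoc, σ.mul_inv, one_mul, hx]
      refine ⟨⟨σ⁻¹ * x, (hP _).2 ?_⟩, ?_⟩
      · rw [e]
        exact h3
      · apply Subtype.ext
        change ((σ : ZMod M) * ((σ⁻¹ * x : (ZMod M)ˣ) : ZMod M) - 1).val = k
        rw [e, add_sub_cancel_left, ZMod.val_natCast, Nat.mod_eq_of_lt h1]
  rw [hcard, Nat.card_eq_fintype_card, Fintype.card_coe]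

private theorem two_dvdC {c k : ℕ} (h : (2 : ℤ) ^ (2 * c) ∣ (k : ℤ) ^ 2) : 2 ^ c ∣ k := by
  have h1 : ((2 : ℤ) ^ c) ^ 2 ∣ (k : ℤ) ^ 2 := by
    rw [← pow_mul, mul_comm c 2]
    exact h
  have h2 := (Int.pow_dvd_pow_iff (by norm_num)).1 h1
  exact_mod_cast h2

private theorem unitC {c : ℕ} (y : ℤ) (hy : Even y) :
    IsUnit (1 + (y : ZMod (2 ^ (2 * c + 1)))) := by
  apply IsNilpotent.isUnit_one_add
  refine ⟨2 * c + 1, ?_⟩
  obtain ⟨w, rfl⟩ := hy
  rw [← two_mul]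
  push_cast
  rw [mul_pow]
  have : (2 : ZMod (2 ^ (2 * c + 1))) ^ (2 * c + 1) = 0 := by
    have h := ZMod.natCast_self (2 ^ (2 * c + 1))
    push_cast at h
    exact h
  rw [this, zero_mul]

/-- the value of `(1+k)² + s - u (1+k)` for `s = 1 - 2^{2c-2}` -/
private theorem eqnC {d k : ℕ} (t : ℤ) :
    ((1 + (k : ZMod (2 ^ (2 * (d + 1) + 1)))) ^ 2 + (1 - 2 ^ (2 * d)) =
      (2 + (t : ZMod (2 ^ (2 * (d + 1) + 1)))) * (1 + (k : ZMod (2 ^ (2 * (d + 1) + 1))))) ↔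
    (2 : ℤ) ^ (2 * d) * 8 ∣ (k : ℤ) ^ 2 - 2 ^ (2 * d) - t * (1 + k) := by
  have h1 : ((1 + (k : ZMod (2 ^ (2 * (d + 1) + 1)))) ^ 2 + (1 - 2 ^ (2 * d)) =
      (2 + (t : ZMod (2 ^ (2 * (d + 1) + 1)))) * (1 + (k : ZMod (2 ^ (2 * (d + 1) + 1))))) ↔
      (((k : ℤ) ^ 2 - 2 ^ (2 * d) - t * (1 + k) : ℤ) : ZMod (2 ^ (2 * (d + 1) + 1))) = 0 := by
    push_cast
    constructor
    · intro h
      linear_combination h
    · intro h
      linear_combination h
  rw [h1, ZMod.intCast_zmod_eq_zero_iff_dvd]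
  have h2 : ((2 ^ (2 * (d + 1) + 1) : ℕ) : ℤ) = 2 ^ (2 * d) * 8 := by
    push_cast
    ring
  rw [h2]

theorem klc_two_on {c : ℕ} (hc : 2 ≤ c) :
    klc (2 ^ (2 * c + 1)) (1 - 2 ^ (2 * c - 2)) 2 = (2 : ℤ) ^ (c + 1) := by
  obtain ⟨d, rfl⟩ : ∃ d, c = d + 1 := ⟨c - 1, by omega⟩
  have hd : 1 ≤ d := by omega
  have e0 : 2 * (d + 1) - 2 = 2 * d := by omega
  rw [e0]
  have : NeZero (2 ^ (2 * (d + 1) + 1)) := ⟨(pow_pos (by norm_num) _).ne'⟩
  have hs : IsUnit (1 - 2 ^ (2 * d) : ZMod (2 ^ (2 * (d + 1) + 1))) := by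
    have h := unitC (c := d + 1) (-(2 ^ (2 * d))) (by
      rw [even_neg]
      exact (even_two).pow_of_ne_zero (by omega))
    push_cast at h
    rwa [← sub_eq_add_neg] at h
  have h := core_countC (M := 2 ^ (2 * (d + 1) + 1)) (1 - 2 ^ (2 * d)) 2 hs
    ((Finset.range (2 ^ (d + 2))).image fun j => 2 ^ d * (2 * j + 1)) (by
      intro k
      have hE := eqnC (d := d) (k := k) 0
      rw [Int.cast_zero, add_zero, zero_mul, sub_zero] at hE
      rw [hE, Finset.mem_image]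
      have hM : 2 ^ (2 * (d + 1) + 1) = 2 ^ d * (2 * 2 ^ (d + 2)) := by ring
      constructor
      · rintro ⟨j, hj, rfl⟩
        rw [Finset.mem_range] at hj
        refine ⟨?_, ?_, ?_⟩
        · rw [hM]
          exact Nat.mul_lt_mul_of_pos_left (by omega) (pow_pos (by norm_num) _)
        · have h := unitC (c := d + 1) ((2 ^ d * (2 * j + 1) : ℕ) : ℤ) (by
            push_cast
            exact ((even_two).pow_of_ne_zero (by omega)).mul_right _)
          rw [Int.cast_natCast] at h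
          exact h
        · have h2 : (2 : ℤ) ∣ j * (j + 1) := (Int.even_mul_succ_self j).two_dvd
          obtain ⟨w, hw⟩ := h2
          refine ⟨w, ?_⟩
          push_cast
          have e : ((2 : ℤ) ^ d * (2 * j + 1)) ^ 2 - 2 ^ (2 * d) =
              2 ^ (2 * d) * (4 * (j * (j + 1))) := by ring
          rw [e, hw]
          ring
      · rintro ⟨h1, -, h3⟩
        have h4 : (2 : ℤ) ^ (2 * d) ∣ (k : ℤ) ^ 2 := by
          have h5 : (2 : ℤ) ^ (2 * d) ∣ (k : ℤ) ^ 2 - 2 ^ (2 * d) := (Dvd.intro _ rfl).trans h3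
          exact (dvd_sub_self_right).1 h5
        obtain ⟨w, rfl⟩ := two_dvdC h4
        have h6 : (8 : ℤ) ∣ (w : ℤ) ^ 2 - 1 := by
          have e : (((2 ^ d * w : ℕ) : ℤ)) ^ 2 - 2 ^ (2 * d) = 2 ^ (2 * d) * ((w : ℤ) ^ 2 - 1) := by
            push_cast
            ring
          rw [e] at h3
          exact Int.dvd_of_mul_dvd_mul_left (by positivity) h3
        have h7 : w % 2 = 1 := by
          rcases Nat.mod_two_eq_zero_or_one w with h | h
          · exfalso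
            obtain ⟨v, hv⟩ : ∃ v, w = 2 * v := ⟨w / 2, by omega⟩
            subst hv
            obtain ⟨q, hq⟩ := h6
            push_cast at hq
            have : (2 : ℤ) ∣ 1 := ⟨2 * v ^ 2 - 4 * q, by linear_combination -hq⟩
            norm_num at this
          · exact h
        refine ⟨w / 2, ?_, ?_⟩
        · rw [Finset.mem_range]
          rw [hM] at h1
          have h8 := lt_of_mul_lt_mul_left h1 (Nat.zero_le _)
          omega
        · have : 2 * (w / 2) + 1 = w := by omega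
          simp only [this])
  rw [h, Finset.card_image_of_injective, Finset.card_range]
  · push_cast
    ring
  · intro a b hab
    have := Nat.eq_of_mul_eq_mul_left (pow_pos (by norm_num) _) hab
    omega

theorem klc_two_off {c : ℕ} (hc : 2 ≤ c) :
    klc (2 ^ (2 * c + 1)) (1 - 2 ^ (2 * c - 2)) (2 + 2 ^ (2 * c)) = 0 := by
  obtain ⟨d, rfl⟩ : ∃ d, c = d + 1 := ⟨c - 1, by omega⟩
  have hd : 1 ≤ d := by omega
  have e0 : 2 * (d + 1) - 2 = 2 * d := by omega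
  rw [e0]
  have : NeZero (2 ^ (2 * (d + 1) + 1)) := ⟨(pow_pos (by norm_num) _).ne'⟩
  have hs : IsUnit (1 - 2 ^ (2 * d) : ZMod (2 ^ (2 * (d + 1) + 1))) := by
    have h := unitC (c := d + 1) (-(2 ^ (2 * d))) (by
      rw [even_neg]
      exact (even_two).pow_of_ne_zero (by omega))
    push_cast at h
    rwa [← sub_eq_add_neg] at h
  have h := core_countC (M := 2 ^ (2 * (d + 1) + 1)) (1 - 2 ^ (2 * d)) (2 + 2 ^ (2 * (d + 1))) hs
    ∅ (by
      intro k
      have hE := eqnC (d := d) (k := k) (2 ^ (2 * (d + 1)))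
      push_cast at hE
      rw [hE]
      constructor
      · intro h
        simp at h
      · rintro ⟨h1, -, h3⟩
        exfalso
        have h4 : (2 : ℤ) ^ (2 * d) ∣ (k : ℤ) ^ 2 := by
          have h5 := (Dvd.intro _ rfl : (2 : ℤ) ^ (2 * d) ∣ 2 ^ (2 * d) * 8).trans h3
          have e : (k : ℤ) ^ 2 = ((k : ℤ) ^ 2 - 2 ^ (2 * d) - 2 ^ (2 * (d + 1)) * (1 + k)) +
              2 ^ (2 * d) * (1 + 4 * (1 + k)) := by ring
          rw [e]
          exact dvd_add h5 (Dvd.intro _ rfl)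
        obtain ⟨w, rfl⟩ := two_dvdC h4
        have h6 : (8 : ℤ) ∣ (w : ℤ) ^ 2 - 1 - 4 * (1 + 2 ^ d * w) := by
          have e : (((2 ^ d * w : ℕ) : ℤ)) ^ 2 - 2 ^ (2 * d) -
              2 ^ (2 * (d + 1)) * (1 + ((2 ^ d * w : ℕ) : ℤ)) =
              2 ^ (2 * d) * ((w : ℤ) ^ 2 - 1 - 4 * (1 + 2 ^ d * w)) := by
            push_cast
            ring
          rw [e] at h3
          exact Int.dvd_of_mul_dvd_mul_left (by positivity) h3
        obtain ⟨f, rfl⟩ : ∃ f, d = f + 1 := ⟨d - 1, by omega⟩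
        have h8 : (8 : ℤ) ∣ (w : ℤ) ^ 2 - 5 := by
          have e : (w : ℤ) ^ 2 - 5 = ((w : ℤ) ^ 2 - 1 - 4 * (1 + 2 ^ (f + 1) * w)) +
              8 * (2 ^ f * w) := by ring
          rw [e]
          exact dvd_add h6 (Dvd.intro _ rfl)
        have h9 : (w : ℤ) % 8 = 0 ∨ (w : ℤ) % 8 = 1 ∨ (w : ℤ) % 8 = 2 ∨ (w : ℤ) % 8 = 3 ∨
          (w : ℤ) % 8 = 4 ∨ (w : ℤ) % 8 = 5 ∨ (w : ℤ) % 8 = 6 ∨ (w : ℤ) % 8 = 7 := by omega
        have h10 := Int.emod_emod_of_dvd ((w : ℤ) ^ 2 - 5) (dvd_refl 8)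
        have h11 : ((w : ℤ) ^ 2 - 5) % 8 = 0 := Int.emod_eq_zero_of_dvd h8
        rw [Int.sub_emod, pow_two, Int.mul_emod] at h11
        rcases h9 with h | h | h | h | h | h | h | h <;> rw [h] at h11 <;> norm_num at h11)
  rw [h]
  simp

theorem klc_eight : klc (2 ^ 3) (-1) 0 = 4 ∧ klc (2 ^ 3) (-1) 4 = 0 := by
  show klc 8 (-1) 0 = 4 ∧ klc 8 (-1) 4 = 0
  unfold klc
  rw [Nat.card_eq_fintype_card, Nat.card_eq_fintype_card]
  decide

end Pool.Agent.KExp
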