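import Pool.Agent.Lib.KExp.Defs
import Pool.Agent.Lib.KExp.CntA
import Pool.Agent.Lib.KExp.CntB
import Pool.Agent.Lib.KExp.CntC

/-!
# KExp.Kl (MP_0d5e35_al, paper /team-store/MP_0d5e35_al_paper38.md)

The bounds. `a = 2c`: `s = 1, u = 2, w = 1`: `p^{2c} | m p^c`, so `p^c | m`, `a = 2c ≤ 2 v_p(m)`.
`a = 2c+1`, `c ≥ 1`, `p` odd: `p^{2c+1} | m (p^c - 2p^c)`, so `p^{c+1} | m`, `a ≤ 2 v_p(m)`. `a = 1`: `s = 0, u = 0, w = 1`:
`p | m`. `p = 2`, `a = 2c+1`, `c ≥ 2`: `2^{2c+1} | m 2^{c+1}`, `2^c | m`; `a = 3`: `8 | 4m` (`s = -1, u = 0, w = 1`).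
-/

set_option autoImplicit false

open scoped TensorProduct

namespace Pool.Agent.KExp


private theorem le_val {p m i j : ℕ} (hp : p.Prime) (hm : 0 < m)
    (h : ((p : ℤ) ^ (i + j)) ∣ (m : ℤ) * (p : ℤ) ^ j) : i ≤ padicValNat p m := by
  have h1 : p ^ (i + j) ∣ m * p ^ j := by exact_mod_cast h
  rw [pow_add] at h1
  have h2 : p ^ i ∣ m := Nat.dvd_of_mul_dvd_mul_right (pow_pos hp.pos j) h1
  haveI := Fact.mk hp
  exact (padicValNat_dvd_iff_le hm.ne').mp h2

private theorem kl_all {p a m : ℕ} (hp : p.Prime) (ha : 0 < a) (hm : 0 < m)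
    (h : ∀ s u w : ZMod (p ^ a), ((p : ℤ) ^ a) ∣ (m : ℤ) *
      (klc (p ^ a) s u - klc (p ^ a) s (u + w * (p : ZMod (p ^ a)) ^ (a - 1)))) :
    (p ≠ 2 → a ≤ 2 * padicValNat p m) ∧ a ≤ 2 * padicValNat p m + 1 ∧
      1 ≤ padicValNat p m := by
  rcases Nat.even_or_odd' a with ⟨c, rfl | rfl⟩
  · have hc : 0 < c := by omega
    have h1 := h 1 2 1
    rw [klc_even_two hp hc, one_mul, klc_even_off hp hc, sub_zero] at h1
    have h2 : c ≤ padicValNat p m :=
      le_val hp hm (i := c) (j := c) (by rw [← two_mul]; exact h1)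
    exact ⟨fun _ => by omega, by omega, by omega⟩
  · rcases Nat.eq_zero_or_pos c with rfl | hc
    · simp only [Nat.mul_zero, Nat.zero_add] at h
      have h1 := h 0 0 1
      have e1 : (0 + 1 * (p : ZMod (p ^ 1)) ^ (1 - 1)) = 1 := by simp
      rw [e1, (klc_one hp).1, (klc_one hp).2] at h1
      have h2 : 1 ≤ padicValNat p m := by
        refine le_val hp hm (i := 1) (j := 0) ?_
        rw [pow_zero, mul_one]
        have h3 : (m : ℤ) * (0 - 1) = -(m : ℤ) := by ring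
        rw [h3, dvd_neg] at h1
        exact h1
      exact ⟨fun _ => by omega, by omega, by omega⟩
    · by_cases hp2 : p = 2
      · subst hp2
        refine ⟨fun hne => absurd rfl hne, ?_⟩
        rcases Nat.lt_or_ge c 2 with hc2 | hc2
        · have hc1 : c = 1 := by omega
          subst hc1
          have h1 := h (-1) 0 1
          have e1 : (0 + 1 * ((2 : ℕ) : ZMod (2 ^ (2 * 1 + 1))) ^ (2 * 1 + 1 - 1)) = 4 := by
            norm_num
          rw [e1] at h1
          have e2 : klc (2 ^ (2 * 1 + 1)) (-1) 0 = 4 := klc_eight.1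
          have e3 : klc (2 ^ (2 * 1 + 1)) (-1) 4 = 0 := klc_eight.2
          rw [e2, e3] at h1
          have h2 : 1 ≤ padicValNat 2 m := by
            refine le_val hp hm (i := 1) (j := 2) ?_
            have h3 : (m : ℤ) * (4 - 0) = (m : ℤ) * ((2 : ℕ) : ℤ) ^ 2 := by norm_num
            rw [h3] at h1
            exact h1
          omega
        · have h1 := h (1 - 2 ^ (2 * c - 2)) 2 1
          have e1 : (2 + 1 * ((2 : ℕ) : ZMod (2 ^ (2 * c + 1))) ^ (2 * c + 1 - 1)) =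
              2 + 2 ^ (2 * c) := by
            rw [one_mul, Nat.add_sub_cancel, Nat.cast_ofNat]
          rw [e1, klc_two_on hc2, klc_two_off hc2, sub_zero] at h1
          have h2 : c ≤ padicValNat 2 m := by
            refine le_val hp hm (i := c) (j := c + 1) ?_
            have e2 : c + (c + 1) = 2 * c + 1 := by ring
            rw [e2]
            exact_mod_cast h1
          omega
      · have h1 := h 1 2 1
        have e1 : (2 + 1 * (p : ZMod (p ^ (2 * c + 1))) ^ (2 * c + 1 - 1)) =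
            2 + (p : ZMod (p ^ (2 * c + 1))) ^ (2 * c) := by
          rw [one_mul, Nat.add_sub_cancel]
        rw [e1, klc_odd_two hp hc, klc_odd_off hp hp2 hc] at h1
        have h2 : c + 1 ≤ padicValNat p m := by
          refine le_val hp hm (i := c + 1) (j := c) ?_
          have e2 : c + 1 + c = 2 * c + 1 := by ring
          rw [e2]
          have h3 : (m : ℤ) * ((p : ℤ) ^ c - 2 * (p : ℤ) ^ c) = -((m : ℤ) * (p : ℤ) ^ c) := by ring
          rw [h3, dvd_neg] at h1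
          exact h1
        exact ⟨fun _ => by omega, by omega, by omega⟩

theorem kl_bound {p a m : ℕ} (hp : p.Prime) (ha : 0 < a) (hm : 0 < m)
    (h : ∀ s u w : ZMod (p ^ a), ((p : ℤ) ^ a) ∣ (m : ℤ) *
      (klc (p ^ a) s u - klc (p ^ a) s (u + w * (p : ZMod (p ^ a)) ^ (a - 1)))) :
    (p ≠ 2 → a ≤ 2 * padicValNat p m) ∧ a ≤ 2 * padicValNat p m + 1 :=
  ⟨(kl_all hp ha hm h).1, (kl_all hp ha hm h).2.1⟩

/-- Under the hypotheses of `kl_bound` the prime `p` divides `m`. -/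
theorem kl_pos {p a m : ℕ} (hp : p.Prime) (ha : 0 < a) (hm : 0 < m)
    (h : ∀ s u w : ZMod (p ^ a), ((p : ℤ) ^ a) ∣ (m : ℤ) *
      (klc (p ^ a) s u - klc (p ^ a) s (u + w * (p : ZMod (p ^ a)) ^ (a - 1)))) :
    1 ≤ padicValNat p m :=
  (kl_all hp ha hm h).2.2

/-- `kl_pos` as a divisibility. -/
theorem kl_dvd {p a m : ℕ} (hp : p.Prime) (ha : 0 < a) (hm : 0 < m)
    (h : ∀ s u w : ZMod (p ^ a), ((p : ℤ) ^ a) ∣ (m : ℤ) *
      (klc (p ^ a) s u - klc (p ^ a) s (u + w * (p : ZMod (p ^ a)) ^ (a - 1)))) :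
    p ∣ m :=
  dvd_of_one_le_padicValNat (kl_pos hp ha hm h)

end Pool.Agent.KExp
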