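import Pool.Agent.Lib.KExp.Defs

/-!
# KExp.CycEx (MP_0d5e35_al, paper /team-store/MP_0d5e35_al_paper38.md)

Existence of the model `W = H^{⊗ n}` of Cyc. Suggested model: `W = (Fin n → ι) → k`, `ι = Fin m` the index set of a
basis of `H`; `L j a` acts by the matrix of `x ↦ a x` on the `j`-th index; `s` is precomposition with the cyclic
shift, so that `e_{i₀} ⊗ ⋯ ⊗ e_{i_{n-1}} ↦ e_{i₁} ⊗ ⋯ ⊗ e_{i_{n-1}} ⊗ e_{i₀}` (`L j` for `j ≥ n` is junk, e.g. `L 0`).
Or `PiTensorProduct k (fun _ : Fin n => H)` with reindex. tr1: `s (A₀ ⊗ ⋯ ⊗ A_{n-1})` has trace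
`∑ (A₁)_{i₀i₁}(A₂)_{i₁i₂} ⋯ (A_{n-1})_{i_{n-2}i_{n-1}} (A₀)_{i_{n-1}i₀} = Tr(A₁ ⋯ A_{n-1} A₀) = Tr(A₀ ⋯ A_{n-1})`
(induction on the number of factors: summation over one index is a matrix product), and
`Tr(l_{a₀} ⋯ l_{a_{n-1}}) = λ(a₀ ⋯ a_{n-1})`. tr2: `Tr(A₀ ⊗ ⋯ ⊗ A_{n-1}) = ∏ Tr Aⱼ`.
Alternative model by recursion: `W₁ = H`, `W_{n+1} = H ⊗ W_n`, `s_{n+1}(h ⊗ (g ⊗ w)) = g ⊗ s_n(h ⊗ w)`;
`Tr_{H⊗H⊗W}((1 ⊗ J) (swap ⊗ 1) (a ⊗ b ⊗ K)) = Tr_{H⊗W}(J (ab ⊗ K))` gives tr1 by induction, and `s^n = 1` because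
`s^n` commutes with all `L j a` and fixes `1 ⊗ ⋯ ⊗ 1`, which generates `W`.
-/

set_option autoImplicit false

open scoped TensorProduct

namespace Pool.Agent.KExp

set_option linter.unusedSectionVars false

section

variable {k : Type} [Field k] {ι : Type} [Fintype ι] [DecidableEq ι] {m : ℕ}

/-- tensor product of matrices -/
private def TT (A : Fin (m + 1) → Matrix ι ι k) :
    Matrix (Fin (m + 1) → ι) (Fin (m + 1) → ι) k :=
  fun x y => ∏ j, A j (x j) (y j)

private lemma TT_mul (A B : Fin (m + 1) → Matrix ι ι k) : TT (A * B) = TT A * TT B := by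
  ext x z
  simp only [TT, Pi.mul_apply, Matrix.mul_apply]
  rw [Finset.prod_univ_sum, Fintype.piFinset_univ]
  refine Finset.sum_congr rfl fun y _ => ?_
  rw [Finset.prod_mul_distrib]

private lemma TT_one : TT (1 : Fin (m + 1) → Matrix ι ι k) = 1 := by
  ext x y
  simp only [TT, Pi.one_apply]
  by_cases h : x = y
  · subst h; simp
  · rw [Matrix.one_apply_ne h]
    obtain ⟨j, hj⟩ := Function.ne_iff.mp h
    exact Finset.prod_eq_zero (Finset.mem_univ j) (Matrix.one_apply_ne hj)

private def TTh : (Fin (m + 1) → Matrix ι ι k) →*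
    Matrix (Fin (m + 1) → ι) (Fin (m + 1) → ι) k where
  toFun := TT
  map_one' := TT_one
  map_mul' := TT_mul

private lemma TT_single (j : Fin (m + 1)) (A : Matrix ι ι k) (x y : Fin (m + 1) → ι) :
    TT (Pi.mulSingle j A) x y =
      A (x j) (y j) * ∏ i ∈ Finset.univ.erase j, (1 : Matrix ι ι k) (x i) (y i) := by
  simp only [TT]
  rw [← Finset.mul_prod_erase _ _ (Finset.mem_univ j), Pi.mulSingle_eq_same]
  congr 1
  refine Finset.prod_congr rfl fun i hi => ?_
  rw [Pi.mulSingle_eq_of_ne (Finset.ne_of_mem_erase hi)]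

/-- the matrix algebra acting on the factor `j` -/
private def EE (j : Fin (m + 1)) :
    Matrix ι ι k →ₐ[k] Matrix (Fin (m + 1) → ι) (Fin (m + 1) → ι) k :=
  AlgHom.ofLinearMap
    { toFun := fun A => TT (Pi.mulSingle j A)
      map_add' := fun A B => by
        ext x y
        simp only [TT_single, Matrix.add_apply, add_mul]
      map_smul' := fun c A => by
        ext x y
        simp only [TT_single, Matrix.smul_apply, smul_mul_assoc, RingHom.id_apply] }
    (by
      change TT (Pi.mulSingle j 1) = 1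
      rw [Pi.mulSingle_one, TT_one])
    (by
      intro A B
      change TT (Pi.mulSingle j (A * B)) = TT (Pi.mulSingle j A) * TT (Pi.mulSingle j B)
      rw [Pi.mulSingle_mul, TT_mul])

private lemma EE_apply (j : Fin (m + 1)) (A : Matrix ι ι k) :
    EE j A = TT (Pi.mulSingle j A) := rfl

/-- the shift of indices -/
private def sh (x : Fin (m + 1) → ι) : Fin (m + 1) → ι := fun j => x (j - 1)

private def SS : Module.End k ((Fin (m + 1) → ι) → k) := LinearMap.funLeft k k sh

private lemma SS_apply (w : (Fin (m + 1) → ι) → k) (x : Fin (m + 1) → ι) :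
    (SS : Module.End k ((Fin (m + 1) → ι) → k)) w x = w (sh x) := rfl

private lemma SS_pow (t : ℕ) : ∀ (w : (Fin (m + 1) → ι) → k) (x : Fin (m + 1) → ι),
    ((SS : Module.End k ((Fin (m + 1) → ι) → k)) ^ t) w x =
      w (fun j => x (j - t • (1 : Fin (m + 1)))) := by
  induction t with
  | zero => intro w x; simp
  | succ t ih =>
    intro w x
    rw [pow_succ', Module.End.mul_apply, SS_apply, ih]
    congr 1
    funext j
    simp only [sh]
    congr 1
    rw [succ_nsmul, sub_sub]

private lemma SS_pow_self : (SS : Module.End k ((Fin (m + 1) → ι) → k)) ^ (m + 1) = 1 := by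
  refine LinearMap.ext fun w => funext fun x => ?_
  rw [SS_pow, Module.End.one_apply]
  congr 1
  funext j
  have h : (m + 1) • (1 : Fin (m + 1)) = 0 := by
    have := card_nsmul_eq_zero' (x := (1 : Fin (m + 1)))
    rwa [Nat.card_fin] at this
  rw [h, sub_zero]

/-- sums over paths -/
private lemma path_sum (A : ℕ → Matrix ι ι k) (t : ℕ) : ∀ (g : ι → k) (i : ι),
    ∑ x : Fin (t + 1) → ι, (A 0 i (x 0) * ∏ j : Fin t, A (j + 1) (x j.castSucc) (x j.succ)) *
      g (x (Fin.last t)) = (((List.range (t + 1)).map A).prod).mulVec g i := by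
  induction t with
  | zero =>
    intro g i
    rw [← (Equiv.funUnique (Fin 1) ι).symm.sum_comp]
    simp [Matrix.mulVec, dotProduct]
  | succ t ih =>
    intro g i
    rw [← (Fin.snocEquiv (fun _ => ι)).sum_comp, Fintype.sum_prod_type, Finset.sum_comm]
    rw [List.range_succ, List.map_append, List.prod_append, List.map_singleton,
      List.prod_singleton, ← Matrix.mulVec_mulVec, ← ih]
    refine Finset.sum_congr rfl fun x _ => ?_
    rw [Matrix.mulVec, dotProduct, Finset.mul_sum]
    refine Finset.sum_congr rfl fun l _ => ?_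
    rw [Fin.prod_univ_castSucc]
    simp [Fin.snocEquiv]
    simp only [Fin.succ_castSucc, Fin.snoc_castSucc]
    ring

private lemma cyc_prod (A : ℕ → Matrix ι ι k) (x : Fin (m + 1) → ι) :
    TT (fun j : Fin (m + 1) => A j) (sh x) x =
      A 0 (x (Fin.last m)) (x 0) * ∏ j : Fin m, A (j + 1) (x j.castSucc) (x j.succ) := by
  rw [TT, Fin.prod_univ_succ]
  congr 1
  · simp only [sh]
    rw [show (0 : Fin (m + 1)) - 1 = Fin.last m from sub_eq_iff_eq_add.mpr (Fin.last_add_one m).symm]
    rfl
  · refine Finset.prod_congr rfl fun j _ => ?_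
    simp only [sh]
    rw [show (j.succ - 1 : Fin (m + 1)) = j.castSucc from
      sub_eq_iff_eq_add.mpr (Fin.coeSucc_eq_succ).symm]
    rfl

private lemma trace_cyc (A : ℕ → Matrix ι ι k) :
    ∑ x : Fin (m + 1) → ι, TT (fun j : Fin (m + 1) => A j) (sh x) x =
      Matrix.trace (((List.range (m + 1)).map A).prod) := by
  have h : ∀ x : Fin (m + 1) → ι, TT (fun j : Fin (m + 1) => A j) (sh x) x =
      ∑ i : ι, (A 0 i (x 0) * ∏ j : Fin m, A (j + 1) (x j.castSucc) (x j.succ)) *
        (Pi.single i (1 : k) : ι → k) (x (Fin.last m)) := by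
    intro x
    rw [cyc_prod, Finset.sum_eq_single (x (Fin.last m))]
    · simp
    · intro i _ hi
      rw [Pi.single_eq_of_ne (Ne.symm hi), mul_zero]
    · intro h; exact absurd (Finset.mem_univ _) h
  simp only [h]
  rw [Finset.sum_comm]
  refine Finset.sum_congr rfl fun i _ => ?_
  rw [path_sum, Matrix.mulVec_single_one]
  rfl

private lemma trace_tensor (A : ℕ → Matrix ι ι k) :
    Matrix.trace (TT (fun j : Fin (m + 1) => A j)) =
      ((List.range (m + 1)).map (fun j => Matrix.trace (A j))).prod := by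
  have h := Finset.prod_univ_sum (fun _ : Fin (m + 1) => (Finset.univ : Finset ι))
    (fun j i => A j i i)
  rw [Fintype.piFinset_univ] at h
  have h2 : ((List.range (m + 1)).map (fun j => Matrix.trace (A j))).prod =
      ∏ j : Fin (m + 1), Matrix.trace (A j) := by
    rw [← List.prod_ofFn, List.ofFn_eq_map, ← List.map_coe_finRange_eq_range, List.map_map]
    rfl
  rw [h2]
  exact h.symm

/-- the product of the commuting actions -/
private lemma prod_EE (A : ℕ → Matrix ι ι k) (t : ℕ) (ht : t ≤ m + 1) :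
    ((List.range t).map (fun j => EE (Fin.ofNat (m + 1) j) (A j))).prod =
      TT (fun j : Fin (m + 1) => if (j : ℕ) < t then A j else 1) := by
  induction t with
  | zero =>
    simp
    exact TT_one.symm
  | succ t ih =>
    rw [List.range_succ, List.map_append, List.prod_append, List.map_singleton,
      List.prod_singleton, ih (by omega), EE_apply, ← TT_mul]
    congr 1
    funext j
    rw [Pi.mul_apply]
    by_cases h : (j : ℕ) = t
    · have hj : Fin.ofNat (m + 1) t = j := by
        ext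
        simp only [Fin.ofNat]
        rw [← h]
        exact Nat.mod_eq_of_lt j.2
      rw [hj, Pi.mulSingle_eq_same, if_neg (by omega), if_pos (by omega), one_mul, h]
    · have hj : j ≠ Fin.ofNat (m + 1) t := by
        intro h'
        apply h
        rw [h']
        simp only [Fin.ofNat]
        exact Nat.mod_eq_of_lt (by omega)
      rw [Pi.mulSingle_eq_of_ne hj, mul_one]
      by_cases h2 : (j : ℕ) < t
      · rw [if_pos h2, if_pos (by omega)]
      · rw [if_neg h2, if_neg (by omega)]

private def she : (Fin (m + 1) → ι) ≃ (Fin (m + 1) → ι) where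
  toFun := sh
  invFun := fun x j => x (j + 1)
  left_inv := fun x => by funext j; simp [sh]
  right_inv := fun x => by funext j; simp [sh]

private lemma TT_sh (B : Fin (m + 1) → Matrix ι ι k) (x y : Fin (m + 1) → ι) :
    TT B (sh x) (sh y) = TT (fun j => B (j + 1)) x y := by
  simp only [TT, sh]
  rw [← Equiv.prod_comp (Equiv.addRight (1 : Fin (m + 1)))]
  simp

private lemma SS_EE (j : Fin (m + 1)) (A : Matrix ι ι k) :
    (SS : Module.End k ((Fin (m + 1) → ι) → k)) * Matrix.toLin' (EE (j + 1) A) =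
      Matrix.toLin' (EE j A) * SS := by
  refine LinearMap.ext fun w => funext fun x => ?_
  rw [Module.End.mul_apply, Module.End.mul_apply, SS_apply, Matrix.toLin'_apply,
    Matrix.toLin'_apply]
  simp only [Matrix.mulVec, dotProduct]
  rw [← she.sum_comp]
  refine Finset.sum_congr rfl fun y _ => ?_
  have h1 : she y = sh y := rfl
  rw [h1, EE_apply, EE_apply, TT_sh]
  congr 2
  funext i
  by_cases h : i = j
  · subst h
    rw [Pi.mulSingle_eq_same, Pi.mulSingle_eq_same]
  · rw [Pi.mulSingle_eq_of_ne h, Pi.mulSingle_eq_of_ne (fun h' => h (add_right_cancel h'))]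

private lemma trace_SS (M : Matrix (Fin (m + 1) → ι) (Fin (m + 1) → ι) k) :
    LinearMap.trace k _ ((SS : Module.End k ((Fin (m + 1) → ι) → k)) * Matrix.toLin' M) =
      ∑ x, M (sh x) x := by
  rw [LinearMap.trace_eq_matrix_trace k (Pi.basisFun k (Fin (m + 1) → ι))]
  refine Finset.sum_congr rfl fun x _ => ?_
  rw [Matrix.diag_apply, LinearMap.toMatrix_apply, Module.End.mul_apply, Pi.basisFun_apply,
    Pi.basisFun_repr, SS_apply, Matrix.toLin'_apply, Matrix.mulVec_single_one]
  rfl

private lemma trace_M (M : Matrix (Fin (m + 1) → ι) (Fin (m + 1) → ι) k) :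
    LinearMap.trace k _ (Matrix.toLin' M) = Matrix.trace M := by
  rw [LinearMap.trace_eq_matrix_trace k (Pi.basisFun k (Fin (m + 1) → ι))]
  congr 1
  rw [LinearMap.toMatrix_eq_toMatrix', LinearMap.toMatrix'_toLin']

end

theorem exists_cyc (k : Type) [Field k] (H : Type) [Ring H] [HopfAlgebra k H]
    [FiniteDimensional k H] (n : ℕ) (hn : 0 < n) :
    ∃ (W : Type) (_ : AddCommGroup W) (_ : Module k W) (_ : FiniteDimensional k W),
      Nonempty (Cyc k H W n) := by
  obtain ⟨m, rfl⟩ : ∃ m, n = m + 1 := ⟨n - 1, by omega⟩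
  let b := Module.finBasis k H
  let lm : H →ₐ[k] Matrix (Fin (Module.finrank k H)) (Fin (Module.finrank k H)) k :=
    Algebra.leftMulMatrix b
  let L : ℕ → (H →ₐ[k] Module.End k ((Fin (m + 1) → Fin (Module.finrank k H)) → k)) := fun j =>
    (Matrix.toLinAlgEquiv' (R := k) (n := Fin (m + 1) → Fin (Module.finrank k H))).toAlgHom.comp
      ((EE (Fin.ofNat (m + 1) j)).comp lm)
  have hL : ∀ j a, L j a = Matrix.toLin' (EE (Fin.ofNat (m + 1) j) (lm a)) := fun _ _ => rfl
  have hmul : ∀ M N : Matrix (Fin (m + 1) → Fin (Module.finrank k H))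
      (Fin (m + 1) → Fin (Module.finrank k H)) k,
      Matrix.toLin' M * Matrix.toLin' N = Matrix.toLin' (M * N) := fun M N =>
    (Matrix.toLin'_mul M N).symm
  have hlam : ∀ a, lam k H a = Matrix.trace (lm a) := by
    intro a
    rw [lam, LinearMap.comp_apply, LinearMap.trace_eq_matrix_trace k b]
    rfl
  have hprod : ∀ a : ℕ → H, ((List.range (m + 1)).map (fun j => L j (a j))).prod =
      Matrix.toLin' (TT (fun j : Fin (m + 1) => lm (a j))) := by
    intro a
    have h1 := prod_EE (fun j => lm (a j)) (m + 1) le_rfl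
    have h2 : (fun j : Fin (m + 1) => if (j : ℕ) < m + 1 then lm (a j) else 1) =
        fun j : Fin (m + 1) => lm (a j) := by
      funext j
      rw [if_pos j.2]
    rw [h2] at h1
    rw [← h1]
    have h3 := map_list_prod (Matrix.toLinAlgEquiv' (R := k)
      (n := Fin (m + 1) → Fin (Module.finrank k H)))
      ((List.range (m + 1)).map (fun j => EE (Fin.ofNat (m + 1) j) (lm (a j))))
    rw [List.map_map] at h3
    exact h3.symm
  refine ⟨(Fin (m + 1) → Fin (Module.finrank k H)) → k, inferInstance, inferInstance,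
    inferInstance, ⟨⟨SS, L, ?_, ?_, ?_, SS_pow_self, ?_, ?_⟩⟩⟩
  · intro i j hi hj hij a c
    rw [hL, hL, hmul, hmul, EE_apply, EE_apply, ← TT_mul, ← TT_mul]
    have hne : Fin.ofNat (m + 1) i ≠ Fin.ofNat (m + 1) j := by
      intro h
      apply hij
      have := congrArg Fin.val h
      simp only [Fin.ofNat] at this
      rwa [Nat.mod_eq_of_lt hi, Nat.mod_eq_of_lt hj] at this
    exact congrArg (fun X => Matrix.toLin' (TT X)) (Pi.mulSingle_commute
      (f := fun _ : Fin (m + 1) =>
        Matrix (Fin (Module.finrank k H)) (Fin (Module.finrank k H)) k) hne (lm a) (lm c)).eq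
  · intro j hj a
    rw [hL, hL]
    have h : Fin.ofNat (m + 1) (j + 1) = Fin.ofNat (m + 1) j + 1 := by
      ext
      simp [Fin.ofNat, Fin.val_add]
    rw [h, SS_EE]
  · intro a
    rw [hL, hL]
    have h : Fin.ofNat (m + 1) 0 = Fin.ofNat (m + 1) (m + 1 - 1) + 1 := by
      ext
      simp [Fin.ofNat, Fin.val_add]
    rw [h, SS_EE]
  · intro a
    rw [hprod, trace_SS, trace_cyc (fun j => lm (a j)), hlam, map_list_prod, List.map_map]
    rfl
  · intro a
    rw [hprod, trace_M, trace_tensor (fun j => lm (a j))]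
    simp only [hlam]

end Pool.Agent.KExp
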