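import Pool.Agent.Lib.KExp.Defs

/-!
# KExp.LinTr (MP_0d5e35_al, paper /team-store/MP_0d5e35_al_paper38.md)

Linear algebra. trace_sand: `Tr(f ↦ B f C) = Tr(B) Tr(C)` on `Hom(Y, W)` (`dualTensorHom`: `Hom(Y,W) = Y* ⊗ W`, the
map is `Cᵗ ⊗ B`, `LinearMap.trace_tensorProduct'`, `LinearMap.trace_transpose'`; or matrices).
trace_restrict_of_proj: `π : U → U` with image in `V` and `π = id` on `V`, `E V ⊆ V`:
`Tr(E|V) = Tr(E π)` (`E π` has image in `V`: `LinearMap.trace_restrict_eq_of_forall_mem`), `dim V = Tr π`
(`LinearMap.IsProj.trace`).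
-/

set_option autoImplicit false

open scoped TensorProduct

namespace Pool.Agent.KExp


theorem trace_sand {k : Type} [Field k] {Y W : Type} [AddCommGroup Y] [Module k Y]
    [FiniteDimensional k Y] [AddCommGroup W] [Module k W] [FiniteDimensional k W]
    (B : Module.End k W) (C : Module.End k Y) :
    LinearMap.trace k (Y →ₗ[k] W) (sand B C) = LinearMap.trace k W B * LinearMap.trace k Y C := by
  classical
  have key : sand B C = (dualTensorHomEquiv k Y W).conj
      (TensorProduct.map (Module.Dual.transpose (R := k) C) B) := by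
    have h1 : (sand B C) ∘ₗ (dualTensorHomEquiv k Y W).toLinearMap =
        (dualTensorHomEquiv k Y W).toLinearMap ∘ₗ
          (TensorProduct.map (Module.Dual.transpose (R := k) C) B) := by
      apply TensorProduct.ext'
      intro φ w
      ext y
      simp [sand, dualTensorHomEquiv, dualTensorHom_apply, Module.Dual.transpose]
    ext f y
    have h2 := congrArg (fun T => T ((dualTensorHomEquiv k Y W).symm f)) h1
    simp only [LinearMap.comp_apply, LinearEquiv.coe_coe, LinearEquiv.apply_symm_apply] at h2
    rw [LinearEquiv.conj_apply, h2]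
    rfl
  rw [key]
  refine (LinearMap.trace_conj' (R := k) (M := TensorProduct k (Module.Dual k Y) W)
    (N := Y →ₗ[k] W) (TensorProduct.map (Module.Dual.transpose (R := k) C) B) (dualTensorHomEquiv k Y W)).trans ?_
  refine (LinearMap.trace_tensorProduct' (R := k) _ _).trans ?_
  rw [LinearMap.trace_transpose', mul_comm]

theorem trace_restrict_of_proj {k : Type} [Field k] {U : Type} [AddCommGroup U] [Module k U]
    [FiniteDimensional k U] (V : Submodule k U) (π E : Module.End k U) (h1 : ∀ u, π u ∈ V)
    (h2 : ∀ u ∈ V, π u = u) (hE : ∀ u ∈ V, E u ∈ V) :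
    LinearMap.trace k V (E.restrict hE) = LinearMap.trace k U (E * π) ∧
      (Module.finrank k V : k) = LinearMap.trace k U π := by
  constructor
  · have h3 : ∀ u, (E * π) u ∈ V := fun u => hE _ (h1 u)
    rw [← LinearMap.trace_restrict_eq_of_forall_mem V (E * π) h3]
    congr 1
    ext u
    change E u.1 = E (π u.1)
    rw [h2 u.1 u.2]
  · exact (LinearMap.IsProj.trace (p := V) (f := π) ⟨h1, h2⟩).symm

end Pool.Agent.KExp
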