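import Pool.Agent.Lib.KExp.Defs
import Pool.Agent.Lib.KExp.Sw

/-!
# KExp.RAlg (MP_0d5e35_al, paper /team-store/MP_0d5e35_al_paper38.md)

The diagonal action `LL L n` of `H` on `H^{⊗ n}`. LL_bil: by induction `LL L j` is linear (sw2_linear).
LL_comm: `LL L j h` (`j ≤ i < n`) commutes with `L i a` (induction, `C.comm`).
exists_R: `LL L j (g h) = LL L j g * LL L j h` for `j ≤ n` by induction: sw2_mul,
`∑ LL_j(g₁h₁) L_j(g₂h₂) = ∑ LL_j(g₁) LL_j(h₁) L_j(g₂) L_j(h₂)` and `L_j(g₂)` commutes with `LL_j(h₁)`;
`LL L j 1 = 1` (sw2_one); hence `LL L n` is an algebra homomorphism (`AlgHom.ofLinearMap`).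
-/

set_option autoImplicit false

open scoped TensorProduct

namespace Pool.Agent.KExp

variable {k : Type} [Field k] {H : Type} [Ring H] [HopfAlgebra k H] [FiniteDimensional k H]

variable {W : Type} [AddCommGroup W] [Module k W]

private theorem bil_aux (L : ℕ → (H →ₐ[k] Module.End k W)) (j : ℕ)
    (ih : IsLinearMap k (fun h => LL L j h)) : Bil2 k (fun a b => LL L j a * L j b) := by
  refine ⟨fun b => ⟨fun x y => ?_, fun c x => ?_⟩, fun a => ⟨fun x y => ?_, fun c x => ?_⟩⟩
  · show LL L j (x + y) * L j b = LL L j x * L j b + LL L j y * L j b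
    rw [ih.map_add, add_mul]
  · show LL L j (c • x) * L j b = c • (LL L j x * L j b)
    rw [ih.map_smul, smul_mul_assoc]
  · show LL L j a * L j (x + y) = LL L j a * L j x + LL L j a * L j y
    rw [map_add, mul_add]
  · show LL L j a * L j (c • x) = c • (LL L j a * L j x)
    rw [map_smul, mul_smul_comm]

theorem LL_linear (L : ℕ → (H →ₐ[k] Module.End k W)) (j : ℕ) :
    IsLinearMap k (fun h => LL L j h) := by
  induction j with
  | zero =>
    refine ⟨fun x y => ?_, fun c x => ?_⟩
    · simp only [LL, map_add, add_smul]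
    · simp only [LL, map_smul, smul_eq_mul, mul_smul]
  | succ j ih => exact sw2_linear (bil_aux L j ih)

theorem LL_comm {n : ℕ} (C : Cyc k H W n) {i j : ℕ} (hji : j ≤ i) (hi : i < n) (g a : H) :
    LL C.L j g * C.L i a = C.L i a * LL C.L j g := by
  induction j generalizing g with
  | zero => simp only [LL, smul_mul_assoc, mul_smul_comm, one_mul, mul_one]
  | succ j ih =>
    simp only [LL, sw2]
    rw [Finset.sum_mul, Finset.mul_sum]
    refine Finset.sum_congr rfl fun l _ => ?_
    rw [mul_assoc, C.comm j i (by omega) hi (by omega), ← mul_assoc, ih (by omega), mul_assoc]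

private theorem LL_one (L : ℕ → (H →ₐ[k] Module.End k W)) (j : ℕ) : LL L j (1 : H) = 1 := by
  induction j with
  | zero => simp only [LL, ep_one, one_smul]
  | succ j ih =>
    show sw2 k (fun a b => LL L j a * L j b) 1 = 1
    rw [sw2_one (bil_aux L j (LL_linear L j)), ih, map_one, one_mul]

private theorem LL_mul {n : ℕ} (C : Cyc k H W n) {j : ℕ} (hj : j ≤ n) (g h : H) :
    LL C.L j (g * h) = LL C.L j g * LL C.L j h := by
  induction j generalizing g h with
  | zero => simp only [LL, ep_mul, mul_smul, smul_mul_assoc, one_mul]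
  | succ j ih =>
    show sw2 k (fun a b => LL C.L j a * C.L j b) (g * h) = sw2 k (fun a b => LL C.L j a * C.L j b) g
      * sw2 k (fun a b => LL C.L j a * C.L j b) h
    rw [sw2_mul (bil_aux C.L j (LL_linear C.L j))]
    simp only [sw2]
    rw [Finset.sum_mul]
    refine Finset.sum_congr rfl fun l _ => ?_
    rw [Finset.mul_sum]
    refine Finset.sum_congr rfl fun m _ => ?_
    rw [ih (by omega), map_mul]
    have hc := LL_comm C (le_refl j) (by omega : j < n) (e k H m) (D k H l g)
    calc LL C.L j (e k H l) * LL C.L j (e k H m) * (C.L j (D k H l g) * C.L j (D k H m h))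
        = LL C.L j (e k H l) * (LL C.L j (e k H m) * C.L j (D k H l g)) * C.L j (D k H m h) := by
          simp only [mul_assoc]
      _ = LL C.L j (e k H l) * (C.L j (D k H l g) * LL C.L j (e k H m)) * C.L j (D k H m h) := by
          rw [hc]
      _ = _ := by simp only [mul_assoc]

theorem exists_R {n : ℕ} (C : Cyc k H W n) :
    ∃ R : H →ₐ[k] Module.End k W, ∀ h, R h = LL C.L n h :=
  ⟨AlgHom.ofLinearMap (IsLinearMap.mk' _ (LL_linear C.L n)) (LL_one C.L n)
    (LL_mul C (le_refl n)), fun _ => rfl⟩

end Pool.Agent.KExp
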