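import Pool.Agent.Lib.KExp.Defs
import Pool.Agent.Lib.KExp.Sw
import Pool.Agent.Lib.KExp.CE
import Pool.Agent.Lib.KExp.RAlg

/-!
# KExp.RPow (MP_0d5e35_al, paper /team-store/MP_0d5e35_al_paper38.md)

(3.2), operator form. AA_eq: `AA L n h = LL L n (S h)` for commuting `L i`, because
`Δ^{(n)}(S h) = S(hₙ) ⊗ ⋯ ⊗ S(h₁)`: induction: `LL_{j+1}(S h) = ∑ LL_j(S(h₂)) L_j(S(h₁)) = ∑ L_j(S(h₁)) AA_j(h₂)`
(sw2_Sa, LL_comm). Erot_pow: induction on `j ≤ n`:
`E(E^j f) = ∑_r s L₀(S(e_r)) [∑_q s^j AA_j(e_q) f σ(e^q)] σ(e^r) = ∑_{q,r} s^{j+1} L_j(S(e_r)) AA_j(e_q) f σ(e^r * e^q)`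
(`s L₀(a) s^j = s^{j+1} L_j(a)` for `j < n` from C.shift; `σ(e^q) σ(e^r) = σ(cv e^r e^q)` from hσ) and ce_cv:
`∑_q s^{j+1} [∑ L_j(S(g₁)) AA_j(g₂)]_{g = e_q} f σ(e^q)`. `j = 0`: `∑ ε(e_q) f σ(e^q) = f σ(ε) = f`.
-/

set_option autoImplicit false

open scoped TensorProduct

namespace Pool.Agent.KExp

variable {k : Type} [Field k] {H : Type} [Ring H] [HopfAlgebra k H] [FiniteDimensional k H]

variable {W : Type} [AddCommGroup W] [Module k W]

private theorem rPow_bil (L : ℕ → (H →ₐ[k] Module.End k W)) (j : ℕ) :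
    Bil2 k (fun a b => LL L j a * L j b) := by
  refine ⟨fun b => ⟨fun x y => ?_, fun c x => ?_⟩, fun a => ⟨fun x y => ?_, fun c x => ?_⟩⟩
  · show LL L j (x + y) * L j b = LL L j x * L j b + LL L j y * L j b
    rw [(LL_linear L j).map_add, add_mul]
  · show LL L j (c • x) * L j b = c • (LL L j x * L j b)
    rw [(LL_linear L j).map_smul, smul_mul_assoc]
  · show LL L j a * L j (x + y) = LL L j a * L j x + LL L j a * L j y
    rw [map_add, mul_add]
  · show LL L j a * L j (c • x) = c • (LL L j a * L j x)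
    rw [map_smul, mul_smul_comm]

private theorem rPow_AA {n : ℕ} (C : Cyc k H W n) (j : ℕ) (hj : j ≤ n) (h : H) :
    AA C.L j h = LL C.L j (Sa k H h) := by
  induction j generalizing h with
  | zero =>
    show ep k H h • (1 : Module.End k W) = ep k H (Sa k H h) • (1 : Module.End k W)
    rw [ep_Sa]
  | succ j ih =>
    show sw2 k (fun a b => C.L j (Sa k H a) * AA C.L j b) h =
      sw2 k (fun a b => LL C.L j a * C.L j b) (Sa k H h)
    rw [sw2_Sa (rPow_bil C.L j)]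
    unfold sw2
    refine Finset.sum_congr rfl fun i _ => ?_
    show C.L j (Sa k H (e k H i)) * AA C.L j (D k H i h) =
      LL C.L j (Sa k H (D k H i h)) * C.L j (Sa k H (e k H i))
    rw [ih (by omega), LL_comm C le_rfl (by omega)]

omit [FiniteDimensional k H] in
private theorem rPow_shift {n : ℕ} (C : Cyc k H W n) (j : ℕ) (hj : j < n) (a : H) :
    C.L 0 a * C.s ^ j = C.s ^ j * C.L j a := by
  induction j with
  | zero => rw [pow_zero, mul_one, one_mul]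
  | succ j ih =>
    rw [pow_succ, ← mul_assoc, ih (by omega), mul_assoc, ← C.shift j hj a, ← mul_assoc]

theorem AA_eq {n : ℕ} (C : Cyc k H W n) (h : H) : AA C.L n h = LL C.L n (Sa k H h) :=
  rPow_AA C n le_rfl h

theorem Erot_pow {Y : Type} [AddCommGroup Y] [Module k Y] {n : ℕ} (C : Cyc k H W n)
    {σ : (H →ₗ[k] k) →ₗ[k] Module.End k Y} (h1 : σ (Coalgebra.counit (R := k) (A := H)) = 1)
    (h2 : ∀ f g : H →ₗ[k] k, σ f * σ g = σ (cv g f)) (j : ℕ) (hj : j ≤ n) (f : Y →ₗ[k] W) :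
    (Erot C σ ^ j) f = ∑ q, (C.s ^ j * AA C.L j (e k H q)) ∘ₗ f ∘ₗ σ (ec k H q) := by
  induction j with
  | zero =>
    rw [pow_zero]
    have hs : ∑ q, ep k H (e k H q) • ec k H q = ep k H := sum_e _
    have h3 : ∑ q, ep k H (e k H q) • σ (ec k H q) = 1 := by
      have h0 : σ (∑ q, ep k H (e k H q) • ec k H q) = 1 := by rw [hs]; exact h1
      rw [map_sum] at h0
      rw [← h0]
      exact Finset.sum_congr rfl fun q _ => (map_smul _ _ _).symm
    ext y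
    have h4 : (∑ q, ep k H (e k H q) • σ (ec k H q)) y = y := by rw [h3]; rfl
    rw [LinearMap.sum_apply]
    show f y = ∑ q, (C.s ^ 0 * (ep k H (e k H q) • (1 : Module.End k W))) (f (σ (ec k H q) y))
    conv_lhs => rw [← h4]
    rw [LinearMap.sum_apply, map_sum]
    refine Finset.sum_congr rfl fun q _ => ?_
    rw [LinearMap.smul_apply, map_smul, pow_zero, one_mul, LinearMap.smul_apply]
    rfl
  | succ j ih =>
    have hjn : j < n := hj
    have hAA : ∀ b, AA C.L j b = LL C.L j (Sa k H b) := fun b => rPow_AA C j hjn.le b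
    have hE : ∀ g : Y →ₗ[k] W, Erot C σ g =
        ∑ r, (C.s * C.L 0 (Sa k H (e k H r))) ∘ₗ g ∘ₗ σ (ec k H r) := by
      intro g
      unfold Erot
      rw [LinearMap.sum_apply]
      rfl
    rw [pow_succ', Module.End.mul_apply, ih hjn.le, hE]
    have hG := ce_cv (k := k) (H := H) (Z := Y →ₗ[k] W)
      (G := fun a b f' => (C.s ^ (j + 1) * (C.L j (Sa k H a) * AA C.L j b)) ∘ₗ f ∘ₗ σ f')
      (by
        intro b f'
        refine ⟨fun x y => ?_, fun c x => ?_⟩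
        · show (C.s ^ (j + 1) * (C.L j (Sa k H (x + y)) * AA C.L j b)) ∘ₗ f ∘ₗ σ f' =
            (C.s ^ (j + 1) * (C.L j (Sa k H x) * AA C.L j b)) ∘ₗ f ∘ₗ σ f' +
            (C.s ^ (j + 1) * (C.L j (Sa k H y) * AA C.L j b)) ∘ₗ f ∘ₗ σ f'
          rw [map_add, map_add, add_mul, mul_add, LinearMap.add_comp]
        · show (C.s ^ (j + 1) * (C.L j (Sa k H (c • x)) * AA C.L j b)) ∘ₗ f ∘ₗ σ f' =
            c • ((C.s ^ (j + 1) * (C.L j (Sa k H x) * AA C.L j b)) ∘ₗ f ∘ₗ σ f')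
          rw [map_smul, map_smul, smul_mul_assoc, mul_smul_comm, LinearMap.smul_comp])
      (by
        intro a f'
        refine ⟨fun x y => ?_, fun c x => ?_⟩
        · show (C.s ^ (j + 1) * (C.L j (Sa k H a) * AA C.L j (x + y))) ∘ₗ f ∘ₗ σ f' =
            (C.s ^ (j + 1) * (C.L j (Sa k H a) * AA C.L j x)) ∘ₗ f ∘ₗ σ f' +
            (C.s ^ (j + 1) * (C.L j (Sa k H a) * AA C.L j y)) ∘ₗ f ∘ₗ σ f'
          rw [hAA, hAA, hAA, map_add, (LL_linear C.L j).map_add, mul_add, mul_add,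
            LinearMap.add_comp]
        · show (C.s ^ (j + 1) * (C.L j (Sa k H a) * AA C.L j (c • x))) ∘ₗ f ∘ₗ σ f' =
            c • ((C.s ^ (j + 1) * (C.L j (Sa k H a) * AA C.L j x)) ∘ₗ f ∘ₗ σ f')
          rw [hAA, hAA, map_smul, (LL_linear C.L j).map_smul, mul_smul_comm, mul_smul_comm,
            LinearMap.smul_comp])
      (by
        intro a b
        refine ⟨fun x y => ?_, fun c x => ?_⟩
        · show (C.s ^ (j + 1) * (C.L j (Sa k H a) * AA C.L j b)) ∘ₗ f ∘ₗ σ (x + y) =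
            (C.s ^ (j + 1) * (C.L j (Sa k H a) * AA C.L j b)) ∘ₗ f ∘ₗ σ x +
            (C.s ^ (j + 1) * (C.L j (Sa k H a) * AA C.L j b)) ∘ₗ f ∘ₗ σ y
          rw [map_add, LinearMap.comp_add, LinearMap.comp_add]
        · show (C.s ^ (j + 1) * (C.L j (Sa k H a) * AA C.L j b)) ∘ₗ f ∘ₗ σ (c • x) =
            c • ((C.s ^ (j + 1) * (C.L j (Sa k H a) * AA C.L j b)) ∘ₗ f ∘ₗ σ x)
          rw [map_smul, LinearMap.comp_smul, LinearMap.comp_smul])
    have hR : ∀ i, sw2 k (fun a b =>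
        (C.s ^ (j + 1) * (C.L j (Sa k H a) * AA C.L j b)) ∘ₗ f ∘ₗ σ (ec k H i)) (e k H i) =
        (C.s ^ (j + 1) * AA C.L (j + 1) (e k H i)) ∘ₗ f ∘ₗ σ (ec k H i) := by
      intro i
      show ∑ l, (C.s ^ (j + 1) * (C.L j (Sa k H (e k H l)) * AA C.L j (D k H l (e k H i)))) ∘ₗ f ∘ₗ
          σ (ec k H i) = (C.s ^ (j + 1) * (∑ l, C.L j (Sa k H (e k H l)) *
            AA C.L j (D k H l (e k H i)))) ∘ₗ f ∘ₗ σ (ec k H i)
      rw [Finset.mul_sum]
      ext y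
      simp only [LinearMap.sum_apply, LinearMap.comp_apply]
    rw [← Finset.sum_congr rfl (fun i _ => hR i), ← hG]
    refine Finset.sum_congr rfl fun r _ => ?_
    have h6 : ∀ (B : Module.End k W) (F : Fin (Module.finrank k H) → (Y →ₗ[k] W))
        (A : Module.End k Y), B ∘ₗ (∑ q, F q) ∘ₗ A = ∑ q, B ∘ₗ F q ∘ₗ A := by
      intro B F A
      ext y
      simp only [LinearMap.sum_apply, LinearMap.comp_apply, map_sum]
    rw [h6]
    refine Finset.sum_congr rfl fun q _ => ?_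
    show (C.s * C.L 0 (Sa k H (e k H r))) ∘ₗ ((C.s ^ j * AA C.L j (e k H q)) ∘ₗ f ∘ₗ
      σ (ec k H q)) ∘ₗ σ (ec k H r) =
      (C.s ^ (j + 1) * (C.L j (Sa k H (e k H r)) * AA C.L j (e k H q))) ∘ₗ f ∘ₗ
        σ (cv (ec k H r) (ec k H q))
    rw [← h2]
    have h5 : C.s ^ (j + 1) * (C.L j (Sa k H (e k H r)) * AA C.L j (e k H q)) =
        (C.s * C.L 0 (Sa k H (e k H r))) * (C.s ^ j * AA C.L j (e k H q)) := by
      rw [pow_succ', mul_assoc, mul_assoc, ← mul_assoc (C.s ^ j) (C.L j _), ← rPow_shift C j hjn,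
        mul_assoc]
    rw [h5]
    rfl

end Pool.Agent.KExp
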