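import Pool.Agent.Lib.KExp.Defs
import Pool.Agent.Lib.KExp.Sw
import Pool.Agent.Lib.KExp.RAlg

/-!
# KExp.RShift (MP_0d5e35_al, paper /team-store/MP_0d5e35_al_paper38.md)

(3.1), operator form. Put `L' j = L (j+1)`. LL_split: `LL L (j+1) h = ∑ L 0 (h₁) * LL L' j h₂` by induction on `j`
(coassociativity). s_LL: `s * LL L' j h = LL L j h * s` for `j + 1 ≤ n` (C.shift, induction). Then, with `n = r + 1`:
`∑ s L₀(h₃ x S(h₁)) R(h₂) = ∑ s L₀(h₄ x S(h₁) h₂) LL L' r h₃ = ∑ s L₀(h₂ x) LL L' r h₁` (sw2_S_mul)
`= ∑ s LL L' r h₁ L₀(h₂) L₀(x)` (LL L' commutes with L₀) `= ∑ LL L r h₁ s L₀(h₂) L₀(x)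
= ∑ LL L r h₁ L_r(h₂) s L₀(x)` (C.last) `= LL L n h s L₀(x)`.
-/

set_option autoImplicit false

open scoped TensorProduct

namespace Pool.Agent.KExp

variable {k : Type} [Field k] {H : Type} [Ring H] [HopfAlgebra k H] [FiniteDimensional k H]

variable {W : Type} [AddCommGroup W] [Module k W]

private theorem sw2_congr {Z : Type} [AddCommMonoid Z] {F G : H → H → Z} (h : ∀ a b, F a b = G a b)
    (x : H) : sw2 k F x = sw2 k G x := by
  have : F = G := by funext a b; exact h a b
  rw [this]

private theorem sw2_mul_left (T : Module.End k W) (F : H → H → Module.End k W) (x : H) :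
    T * sw2 k F x = sw2 k (fun a b => T * F a b) x := by
  simp only [sw2, Finset.mul_sum]

private theorem sw2_mul_right (T : Module.End k W) (F : H → H → Module.End k W) (x : H) :
    sw2 k F x * T = sw2 k (fun a b => F a b * T) x := by
  simp only [sw2, Finset.sum_mul]

omit [FiniteDimensional k H] in
private theorem alg_linear (L : H →ₐ[k] Module.End k W) : IsLinearMap k (fun a => L a) :=
  ⟨fun x y => map_add L x y, fun c x => map_smul L c x⟩

theorem LL_split (L : ℕ → (H →ₐ[k] Module.End k W)) (j : ℕ) (h : H) :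
    LL L (j + 1) h = sw2 k (fun a b => L 0 a * LL (fun i => L (i + 1)) j b) h := by
  induction j generalizing h with
  | zero =>
    have h1 : LL L (0 + 1) h = L 0 h := by
      show sw2 k (fun a b => (ep k H a • (1 : Module.End k W)) * L 0 b) h = L 0 h
      rw [← sw2_counit_left (f := fun b => L 0 b) (alg_linear (L 0)) h]
      exact sw2_congr (fun a b => by rw [smul_mul_assoc, one_mul]) h
    have h2 : sw2 k (fun a b => L 0 a * LL (fun i => L (i + 1)) 0 b) h = L 0 h := by
      rw [← sw2_counit_right (f := fun b => L 0 b) (alg_linear (L 0)) h]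
      refine sw2_congr (fun a b => ?_) h
      show L 0 a * (ep k H b • (1 : Module.End k W)) = _
      rw [mul_smul_comm, mul_one]
    rw [h1, h2]
  | succ j ih =>
    have tri : Tri3 k (fun a b c => L 0 a * (LL (fun i => L (i + 1)) j b * L (j + 1) c)) := by
      have hl := LL_linear (fun i => L (i + 1)) j
      refine ⟨fun b c => ⟨fun x y => ?_, fun r x => ?_⟩, fun a c => ⟨fun x y => ?_, fun r x => ?_⟩,
        fun a b => ⟨fun x y => ?_, fun r x => ?_⟩⟩
      all_goals beta_reduce
      · rw [map_add, add_mul]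
      · rw [map_smul, smul_mul_assoc]
      · rw [hl.map_add, add_mul, mul_add]
      · rw [hl.map_smul, smul_mul_assoc, mul_smul_comm]
      · rw [map_add, mul_add, mul_add]
      · rw [map_smul, mul_smul_comm, mul_smul_comm]
    show sw2 k (fun x c => LL L (j + 1) x * L (j + 1) c) h = _
    have e1 : sw2 k (fun x c => LL L (j + 1) x * L (j + 1) c) h =
        sw2 k (fun x c => sw2 k (fun a b =>
          L 0 a * (LL (fun i => L (i + 1)) j b * L (j + 1) c)) x) h := by
      refine sw2_congr (fun x c => ?_) h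
      rw [ih, sw2_mul_right]
      exact sw2_congr (fun a b => by rw [mul_assoc]) x
    rw [e1, sw2_assoc tri, sw3_eq]
    refine sw2_congr (fun a y => ?_) h
    rw [← sw2_mul_left]
    rfl

/-- `s` conjugates the shifted product -/
private theorem s_LL {n : ℕ} (C : Cyc k H W n) (j : ℕ) (hj : j + 1 ≤ n) (h : H) :
    C.s * LL (fun i => C.L (i + 1)) j h = LL C.L j h * C.s := by
  induction j generalizing h with
  | zero =>
    show C.s * (ep k H h • (1 : Module.End k W)) = (ep k H h • (1 : Module.End k W)) * C.s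
    rw [mul_smul_comm, smul_mul_assoc, one_mul, mul_one]
  | succ j ih =>
    show C.s * sw2 k (fun a b => LL (fun i => C.L (i + 1)) j a * C.L (j + 1) b) h =
      sw2 k (fun a b => LL C.L j a * C.L j b) h * C.s
    rw [sw2_mul_left, sw2_mul_right]
    refine sw2_congr (fun a b => ?_) h
    rw [← mul_assoc, ih (by omega), mul_assoc, C.shift j (by omega), mul_assoc]

/-- the shifted product commutes with the factor `0` -/
private theorem LL_comm0 {n : ℕ} (C : Cyc k H W n) (j : ℕ) (hj : j + 1 ≤ n) (h a : H) :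
    LL (fun i => C.L (i + 1)) j h * C.L 0 a = C.L 0 a * LL (fun i => C.L (i + 1)) j h := by
  induction j generalizing h with
  | zero =>
    show (ep k H h • (1 : Module.End k W)) * C.L 0 a = C.L 0 a * (ep k H h • (1 : Module.End k W))
    rw [mul_smul_comm, smul_mul_assoc, one_mul, mul_one]
  | succ j ih =>
    show sw2 k (fun a b => LL (fun i => C.L (i + 1)) j a * C.L (j + 1) b) h * C.L 0 a =
      C.L 0 a * sw2 k (fun a b => LL (fun i => C.L (i + 1)) j a * C.L (j + 1) b) h
    rw [sw2_mul_left, sw2_mul_right]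
    refine sw2_congr (fun x b => ?_) h
    rw [mul_assoc, C.comm (j + 1) 0 (by omega) (by omega) (by omega), ← mul_assoc, ih (by omega),
      mul_assoc]

theorem shift_LL {n : ℕ} (hn : 0 < n) (C : Cyc k H W n) (x h : H) :
    sw3 k (fun a b c => C.s * C.L 0 (c * x * Sa k H a) * LL C.L n b) h =
      LL C.L n h * (C.s * C.L 0 x) := by
  obtain ⟨r, rfl⟩ : ∃ r, n = r + 1 := ⟨n - 1, by omega⟩
  have hl := LL_linear (fun i => C.L (i + 1)) r
  -- the linear function of the middle variable
  let f : H → H → Module.End k W := fun z v =>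
    sw2 k (fun q c => C.s * C.L 0 (c * x * v) * LL (fun i => C.L (i + 1)) r q) z
  have qc : ∀ v, Bil2 k (fun q c => C.s * C.L 0 (c * x * v) * LL (fun i => C.L (i + 1)) r q) := by
    intro v
    refine ⟨fun b => ⟨fun y y' => ?_, fun s y => ?_⟩, fun a => ⟨fun y y' => ?_, fun s y => ?_⟩⟩
    all_goals beta_reduce
    · rw [hl.map_add, mul_add]
    · rw [hl.map_smul, mul_smul_comm]
    · rw [add_mul, add_mul, map_add, mul_add, add_mul]
    · rw [smul_mul_assoc, smul_mul_assoc, map_smul, mul_smul_comm, smul_mul_assoc]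
  have hfv : ∀ z, IsLinearMap k (fun v => f z v) := by
    intro z
    refine ⟨fun v v' => ?_, fun s v => ?_⟩
    · show sw2 k _ z = sw2 k _ z + sw2 k _ z
      simp only [sw2]
      rw [← Finset.sum_add_distrib]
      refine Finset.sum_congr rfl fun l _ => ?_
      rw [mul_add, map_add, mul_add, add_mul]
    · show sw2 k _ z = s • sw2 k _ z
      simp only [sw2]
      rw [Finset.smul_sum]
      refine Finset.sum_congr rfl fun l _ => ?_
      rw [mul_smul_comm, map_smul, mul_smul_comm, smul_mul_assoc]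
  have hfz : ∀ v, IsLinearMap k (fun z => f z v) := fun v => sw2_linear (qc v)
  -- expand the product
  have e1 : ∀ a y : H, sw2 k (fun b c => C.s * C.L 0 (c * x * Sa k H a) * LL C.L (r + 1) b) y =
      sw2 k (fun p z => f z (Sa k H a * p)) y := by
    intro a y
    have tri : Tri3 k (fun p q c => C.s * C.L 0 (c * x * (Sa k H a * p)) *
        LL (fun i => C.L (i + 1)) r q) := by
      refine ⟨fun q c => ⟨fun u u' => ?_, fun s u => ?_⟩, fun p c => ?_, fun p q => ?_⟩
      · show C.s * C.L 0 (c * x * (Sa k H a * (u + u'))) * _ = _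
        rw [mul_add, mul_add, map_add, mul_add, add_mul]
      · show C.s * C.L 0 (c * x * (Sa k H a * (s • u))) * _ = _
        rw [mul_smul_comm, mul_smul_comm, map_smul, mul_smul_comm, smul_mul_assoc]
      · exact (qc (Sa k H a * p)).1 c
      · exact (qc (Sa k H a * p)).2 q
    have e2 := sw2_assoc tri y
    rw [sw3_eq] at e2
    have e3 : sw2 k (fun b c => C.s * C.L 0 (c * x * Sa k H a) * LL C.L (r + 1) b) y =
        sw2 k (fun b c => sw2 k (fun p q => C.s * C.L 0 (c * x * (Sa k H a * p)) *
          LL (fun i => C.L (i + 1)) r q) b) y := by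
      refine sw2_congr (fun b c => ?_) y
      rw [LL_split, sw2_mul_left]
      refine sw2_congr (fun p q => ?_) b
      rw [← mul_assoc, mul_assoc C.s, ← map_mul, mul_assoc (c * x)]
    rw [e3, e2]
  have e4 : sw3 k (fun a b c => C.s * C.L 0 (c * x * Sa k H a) * LL C.L (r + 1) b) h =
      sw3 k (fun a p z => f z (Sa k H a * p)) h := by
    rw [sw3_eq, sw3_eq]
    exact sw2_congr (fun a y => e1 a y) h
  have tri2 : Tri3 k (fun a p z => f z (Sa k H a * p)) := by
    refine ⟨fun p z => ⟨fun u u' => ?_, fun s u => ?_⟩, fun a z => ⟨fun u u' => ?_, fun s u => ?_⟩,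
      fun a p => hfz _⟩
    all_goals beta_reduce
    · rw [map_add, add_mul, (hfv z).map_add]
    · rw [map_smul, smul_mul_assoc, (hfv z).map_smul]
    · rw [mul_add, (hfv z).map_add]
    · rw [mul_smul_comm, (hfv z).map_smul]
  rw [e4, ← sw2_assoc tri2]
  have e5 : sw2 k (fun u z => sw2 k (fun a p => f z (Sa k H a * p)) u) h = f h 1 := by
    rw [← sw2_counit_left (f := fun z => f z 1) (hfz 1) h]
    exact sw2_congr (fun u z => sw2_S_mul (hfv z) u) h
  rw [e5]
  show sw2 k (fun q c => C.s * C.L 0 (c * x * 1) * LL (fun i => C.L (i + 1)) r q) h =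
    sw2 k (fun a b => LL C.L r a * C.L r b) h * (C.s * C.L 0 x)
  rw [sw2_mul_right]
  refine sw2_congr (fun q c => ?_) h
  have hlast := C.last c
  rw [Nat.add_sub_cancel] at hlast
  calc C.s * C.L 0 (c * x * 1) * LL (fun i => C.L (i + 1)) r q
      = C.s * (C.L 0 (c * x) * LL (fun i => C.L (i + 1)) r q) := by rw [mul_one, mul_assoc]
    _ = C.s * (LL (fun i => C.L (i + 1)) r q * C.L 0 (c * x)) := by
        rw [LL_comm0 C r le_rfl]
    _ = (C.s * LL (fun i => C.L (i + 1)) r q) * (C.L 0 c * C.L 0 x) := by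
        rw [map_mul, mul_assoc]
    _ = LL C.L r q * (C.s * C.L 0 c) * C.L 0 x := by
        rw [s_LL C r le_rfl]; simp only [mul_assoc]
    _ = LL C.L r q * C.L r c * (C.s * C.L 0 x) := by
        rw [hlast]; simp only [mul_assoc]

end Pool.Agent.KExp
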