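import Pool.Agent.Lib.KExp.Defs
import Pool.Agent.Lib.KExp.Sw
import Pool.Agent.Lib.KExp.QPow
import Pool.Agent.Lib.KExp.LamInt
import Pool.Agent.Lib.KExp.RAlg
import Pool.Agent.Lib.KExp.RShift

/-!
# KExp.RTr (MP_0d5e35_al, paper /team-store/MP_0d5e35_al_paper38.md)

(3.4), first part: traces on `H^{⊗ n}`. trace_LL: generally, for linear `G : H^{⊗ n}`-valued expressions: prove by
induction on `j ≤ n` that for all sequences `a` (for positions `≥ j`) ... Simplest: `Δ^{(n)}(g)` is a finite sum of pure
tensors, i.e. lemma: for `g : H`, `n ≥ 1` there are finitely many sequences `a_t : ℕ → H` with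
`LL L n g = ∑_t ∏_{j<n} L_j(a_t j)` for EVERY family `L` of algebra maps to any algebra / module, and simultaneously
`Q n g = ∑_t a_t 0 ⋯ a_t (n-1)`, `sw`-iterate of `λ`: `∑_t ∏ λ(a_t j) = λ^{(n)}(g)` (induction on `n` with
`Δ(g) = ∑ eⱼ ⊗ D j g`: append the last factor: `LL (n+1) g = ∑ LL n (eⱼ) L_n(D j g)`, Q_succ').
Then tr1 with `a_t 0` replaced by `a * a_t 0`: `Tr(s L₀(a) LL n g) = λ(a Q_n(g))`; tr2:
`Tr(LL n g) = λ^{(n)}(g)`, `λ^{(n+1)}(g) = ∑ λ^{(n)}(g₁) λ(g₂) = λ(g) λ^{(n)}(1)` (lam_comul'), so `= m^{n-1} λ(g)`.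
-/

set_option autoImplicit false

open scoped TensorProduct

namespace Pool.Agent.KExp

variable {k : Type} [Field k] {H : Type} [Ring H] [HopfAlgebra k H] [FiniteDimensional k H]

variable {W : Type} [AddCommGroup W] [Module k W]

/-- the product `L_j(b_j) ⋯ L_{n-1}(b_{n-1})` -/
private noncomputable def tl (L : ℕ → (H →ₐ[k] Module.End k W)) (b : ℕ → H) (j r : ℕ) :
    Module.End k W := ((List.range' j r).map (fun i => L i (b i))).prod

private noncomputable def tlH (b : ℕ → H) (j r : ℕ) : H := ((List.range' j r).map b).prod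

private noncomputable def tll (b : ℕ → H) (j r : ℕ) : k :=
  ((List.range' j r).map (fun i => lam k H (b i))).prod

private theorem tl_succ (L : ℕ → (H →ₐ[k] Module.End k W)) (b : ℕ → H) (j r : ℕ) (x : H) :
    tl L (Function.update b j x) j (r + 1) = L j x * tl L b (j + 1) r := by
  unfold tl
  rw [List.range'_succ, List.map_cons, List.prod_cons, Function.update_self]
  congr 2
  refine List.map_congr_left fun i hi => ?_
  rw [List.mem_range'_1] at hi
  rw [Function.update_of_ne (by omega)]

private theorem tlH_succ (b : ℕ → H) (j r : ℕ) (x : H) :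
    tlH (Function.update b j x) j (r + 1) = x * tlH b (j + 1) r := by
  unfold tlH
  rw [List.range'_succ, List.map_cons, List.prod_cons, Function.update_self]
  congr 2
  refine List.map_congr_left fun i hi => ?_
  rw [List.mem_range'_1] at hi
  rw [Function.update_of_ne (by omega)]

private theorem tll_succ (b : ℕ → H) (j r : ℕ) (x : H) :
    tll (k := k) (Function.update b j x) j (r + 1) = lam k H x * tll (k := k) b (j + 1) r := by
  unfold tll
  rw [List.range'_succ, List.map_cons, List.prod_cons, Function.update_self]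
  congr 2
  refine List.map_congr_left fun i hi => ?_
  rw [List.mem_range'_1] at hi
  rw [Function.update_of_ne (by omega)]

private theorem key1 [FiniteDimensional k W] {n : ℕ} (hn : 0 < n) (C : Cyc k H W n) (a : H)
    (j : ℕ) : ∀ (r : ℕ), j + r = n → ∀ (b : ℕ → H) (g : H),
    LinearMap.trace k W (C.s * C.L 0 a * (LL C.L j g * tl C.L b j r)) =
      lam k H (a * (Q k H j g * tlH b j r)) := by
  induction j with
  | zero =>
    intro r hr b g
    obtain ⟨r, rfl⟩ : ∃ t, r = t + 1 := ⟨r - 1, by omega⟩
    have h1 := C.tr1 (Function.update b 0 (a * b 0))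
    have h2 : n = r + 1 := by omega
    subst h2
    rw [List.range_eq_range'] at h1
    change LinearMap.trace k W (C.s * tl C.L (Function.update b 0 (a * b 0)) 0 (r + 1)) =
      lam k H (tlH (Function.update b 0 (a * b 0)) 0 (r + 1)) at h1
    rw [tl_succ, tlH_succ] at h1
    have h3 : tl C.L b 0 (r + 1) = C.L 0 (b 0) * tl C.L b 1 r := by
      have := tl_succ C.L b 0 r (b 0)
      rwa [Function.update_eq_self] at this
    have h4 : tlH b 0 (r + 1) = b 0 * tlH b 1 r := by
      have := tlH_succ b 0 r (b 0)
      rwa [Function.update_eq_self] at this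
    rw [h3, h4, Q_zero]
    simp only [LL]
    rw [smul_mul_assoc, one_mul, smul_mul_assoc, one_mul, mul_smul_comm, mul_smul_comm, map_smul,
      map_smul]
    congr 1
    have h5 : C.L 0 (a * b 0) = C.L 0 a * C.L 0 (b 0) := map_mul _ _ _
    rw [h5] at h1
    simp only [mul_assoc] at h1 ⊢
    exact h1
  | succ j ih =>
    intro r hr b g
    have h5 : LL C.L (j + 1) g = ∑ l, LL C.L j (e k H l) * C.L j (D k H l g) := rfl
    rw [h5, Q_succ', sw2, Finset.sum_mul, Finset.sum_mul, Finset.mul_sum, Finset.mul_sum, map_sum,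
      map_sum]
    refine Finset.sum_congr rfl fun l _ => ?_
    have h6 := ih (r + 1) (by omega) (Function.update b j (D k H l g)) (e k H l)
    rw [tl_succ, tlH_succ] at h6
    rw [mul_assoc (LL C.L j (e k H l)), h6]
    simp only [mul_assoc]

theorem trace_s_LL [FiniteDimensional k W] {n : ℕ} (hn : 0 < n) (C : Cyc k H W n) (a g : H) :
    LinearMap.trace k W (C.s * C.L 0 a * LL C.L n g) = lam k H (a * Q k H n g) := by
  have h := key1 hn C a n 0 (by omega) (fun _ => 1) g
  simpa [tl, tlH] using h

private noncomputable def lk (j : ℕ) (g : H) : k :=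
  match j with
  | 0 => ep k H g
  | j + 1 => (Module.finrank k H : k) ^ j * lam k H g

private theorem key2 [FiniteDimensional k W] (hS : ∀ x : H, Sa k H (Sa k H x) = x) {n : ℕ}
    (C : Cyc k H W n) (j : ℕ) : ∀ (r : ℕ), j + r = n → ∀ (b : ℕ → H) (g : H),
    LinearMap.trace k W (LL C.L j g * tl C.L b j r) = lk (k := k) j g * tll (k := k) b j r := by
  induction j with
  | zero =>
    intro r hr b g
    have h1 := C.tr2 b
    have h2 : n = r := by omega
    subst h2
    rw [List.range_eq_range'] at h1
    simp only [LL, lk]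
    rw [smul_mul_assoc, one_mul, map_smul, smul_eq_mul]
    congr 1
  | succ j ih =>
    intro r hr b g
    have h5 : LL C.L (j + 1) g = ∑ l, LL C.L j (e k H l) * C.L j (D k H l g) := rfl
    rw [h5, Finset.sum_mul, map_sum]
    have h7 : lk (k := k) (j + 1) g = ∑ l, lk (k := k) j (e k H l) * lam k H (D k H l g) := by
      cases j with
      | zero =>
        have h8 := sw2_counit_left (k := k) (H := H) (f := fun x => lam k H x)
          ⟨fun x y => map_add _ x y, fun c x => map_smul _ c x⟩ g
        simp only [sw2, smul_eq_mul] at h8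
        simp only [lk, pow_zero, one_mul]
        exact h8.symm
      | succ j =>
        have h8 := lam_comul (k := k) (H := H) hS (f := fun x => lam k H x)
          ⟨fun x y => map_add _ x y, fun c x => map_smul _ c x⟩ g
        simp only [sw2, smul_eq_mul] at h8
        simp only [lk]
        simp only [mul_assoc]
        rw [← Finset.mul_sum, h8, lam_one]
        ring
    rw [h7, Finset.sum_mul]
    refine Finset.sum_congr rfl fun l _ => ?_
    have h6 := ih (r + 1) (by omega) (Function.update b j (D k H l g)) (e k H l)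
    rw [tl_succ, tll_succ] at h6
    rw [mul_assoc (LL C.L j (e k H l)), h6]
    ring

theorem trace_LL [FiniteDimensional k W] (hS : ∀ x : H, Sa k H (Sa k H x) = x) {n : ℕ}
    (hn : 0 < n) (C : Cyc k H W n) (g : H) :
    LinearMap.trace k W (LL C.L n g) = (Module.finrank k H : k) ^ (n - 1) * lam k H g := by
  have h := key2 hS C n 0 (by omega) (fun _ => 1) g
  obtain ⟨m, rfl⟩ : ∃ t, n = t + 1 := ⟨n - 1, by omega⟩
  simpa [tl, tll, lk] using h

end Pool.Agent.KExp
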