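import Pool.Agent.Lib.KExp.Defs
import Pool.Agent.Lib.KExp.Sw
import Pool.Agent.Lib.KExp.CE
import Pool.Agent.Lib.KExp.QPow
import Pool.Agent.Lib.KExp.Theta
import Pool.Agent.Lib.KExp.ThetaPow
import Pool.Agent.Lib.KExp.RAlg
import Pool.Agent.Lib.KExp.RPow

/-!
# KExp.VPow (MP_0d5e35_al, paper /team-store/MP_0d5e35_al_paper38.md)

(3.2): on `V`: `E^n f = ∑_q s^n AA_n(e_q) f σ(e^q) = ∑_q R(S(e_q)) f σ(e^q)` (Erot_pow, C.spow, AA_eq)
`= ∑_q f ρ(S(e_q)) σ(e^q) = f ∘ (∑ ρ(S(e_q)) σ(e^q)) = v⁻¹ f` (inv_theta, `θ = v`).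
-/

set_option autoImplicit false

open scoped TensorProduct

namespace Pool.Agent.KExp

variable {k : Type} [Field k] {H : Type} [Ring H] [HopfAlgebra k H] [FiniteDimensional k H]

variable {W Y : Type} [AddCommGroup W] [Module k W] [FiniteDimensional k W]
  [AddCommGroup Y] [Module k Y] [FiniteDimensional k Y]
  {ρ : H →ₐ[k] Module.End k Y} {σ : (H →ₗ[k] k) →ₗ[k] Module.End k Y}

theorem Erot_pow_n (hS : ∀ x : H, Sa k H (Sa k H x) = x) (hY : IsYD ρ σ) {n : ℕ}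
    (C : Cyc k H W n) (R : H →ₐ[k] Module.End k W) (hR : ∀ h, R h = LL C.L n h) {v : k}
    (hv : v ≠ 0) (hθ : theta ρ σ = v • 1) {f : Y →ₗ[k] W} (hf : f ∈ HV ρ R) :
    (Erot C σ ^ n) f = v⁻¹ • f := by
  rw [Erot_pow C hY.one hY.mul n le_rfl f]
  have hinv := inv_theta hS hY
  rw [hθ] at hinv
  have hsum : (∑ i, ρ (Sa k H (e k H i)) * σ (ec k H i)) = v⁻¹ • (1 : Module.End k Y) := by
    have h1 := congrArg (fun T => v⁻¹ • T) hinv
    simp only [mul_smul_comm, mul_one, smul_smul, inv_mul_cancel₀ hv, one_smul] at h1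
    exact h1
  have hterm : ∀ q, (C.s ^ n * AA C.L n (e k H q)) ∘ₗ f ∘ₗ σ (ec k H q) =
      f ∘ₗ (ρ (Sa k H (e k H q)) * σ (ec k H q)) := by
    intro q
    have h2 : f ∘ₗ ρ (Sa k H (e k H q)) = R (Sa k H (e k H q)) ∘ₗ f := hf (Sa k H (e k H q))
    rw [C.spow, one_mul, AA_eq, ← hR, ← LinearMap.comp_assoc, ← h2, LinearMap.comp_assoc]
    rfl
  rw [Finset.sum_congr rfl fun q _ => hterm q]
  have h3 : ∑ q, f ∘ₗ (ρ (Sa k H (e k H q)) * σ (ec k H q)) =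
      f ∘ₗ (∑ q, ρ (Sa k H (e k H q)) * σ (ec k H q)) := by
    ext y
    simp [LinearMap.sum_apply]
  rw [h3, hsum]
  ext y
  simp

end Pool.Agent.KExp
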