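import Pool.Agent.Lib.KExp.Defs
import Pool.Agent.Lib.KExp.Sw
import Pool.Agent.Lib.KExp.CE
import Pool.Agent.Lib.KExp.RAlg
import Pool.Agent.Lib.KExp.RShift

/-!
# KExp.VStab (MP_0d5e35_al, paper /team-store/MP_0d5e35_al_paper38.md)

(3.1): `E` maps `V = HV ρ R` into itself. `E(f) ρ(h) = ∑_q s L₀(S(e_q)) f σ(e^q) ρ(h)
= ∑_q ∑ s L₀(S(e_q)) f ρ(h₂) σ(e^q(h₁·S(h₃)))` (yd) `= ∑_q ∑ s L₀(S(e_q)) R(h₂) f σ(e^q(h₁·S(h₃)))`
`= ∑_q ∑ s L₀(S(h₁ e_q S(h₃))) R(h₂) f σ(e^q)` (ce_lin) `= ∑_q ∑ s L₀(h₃ S(e_q) S(h₁)) R(h₂) f σ(e^q)` (Sa_mul, hS)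
`= R(h) E(f)` (shift_LL with `x = S(e_q)`).
-/

set_option autoImplicit false

open scoped TensorProduct

namespace Pool.Agent.KExp

variable {k : Type} [Field k] {H : Type} [Ring H] [HopfAlgebra k H] [FiniteDimensional k H]

variable {W Y : Type} [AddCommGroup W] [Module k W] [FiniteDimensional k W]
  [AddCommGroup Y] [Module k Y] [FiniteDimensional k Y]
  {ρ : H →ₐ[k] Module.End k Y} {σ : (H →ₗ[k] k) →ₗ[k] Module.End k Y}

private lemma sum_comp' {ι A B D : Type} [AddCommGroup A] [Module k A] [AddCommGroup B] [Module k B]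
    [AddCommGroup D] [Module k D] (T : Finset ι) (g : ι → (B →ₗ[k] D)) (f : A →ₗ[k] B) :
    (∑ i ∈ T, g i) ∘ₗ f = ∑ i ∈ T, g i ∘ₗ f := by
  ext x
  simp [LinearMap.sum_apply]

private lemma comp_sum' {ι A B D : Type} [AddCommGroup A] [Module k A] [AddCommGroup B] [Module k B]
    [AddCommGroup D] [Module k D] (T : Finset ι) (g : B →ₗ[k] D) (f : ι → (A →ₗ[k] B)) :
    g ∘ₗ (∑ i ∈ T, f i) = ∑ i ∈ T, g ∘ₗ f i := by
  ext x
  simp [LinearMap.sum_apply]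

theorem Erot_mem (hS : ∀ x : H, Sa k H (Sa k H x) = x) (hY : IsYD ρ σ) {n : ℕ} (hn : 0 < n)
    (C : Cyc k H W n) (R : H →ₐ[k] Module.End k W) (hR : ∀ h, R h = LL C.L n h)
    {f : Y →ₗ[k] W} (hf : f ∈ HV ρ R) : Erot C σ f ∈ HV ρ R := by
  have hf' : ∀ h, f ∘ₗ ρ h = R h ∘ₗ f := hf
  change ∀ h, Erot C σ f ∘ₗ ρ h = R h ∘ₗ Erot C σ f
  intro h
  have hE : Erot C σ f =
      ∑ q, (C.s * C.L 0 (Sa k H (e k H q))) ∘ₗ f ∘ₗ σ (ec k H q) := by
    unfold Erot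
    rw [LinearMap.sum_apply]
    rfl
  rw [hE, sum_comp', comp_sum']
  -- the two sides as triple sums
  have hL : ∀ q, ((C.s * C.L 0 (Sa k H (e k H q))) ∘ₗ f ∘ₗ σ (ec k H q)) ∘ₗ ρ h =
      ∑ j, ∑ l, (C.s * C.L 0 (Sa k H (e k H q))) ∘ₗ R (e k H l) ∘ₗ f ∘ₗ
        σ (ec k H q ∘ₗ (LinearMap.mulLeft k (e k H j) ∘ₗ
          LinearMap.mulRight k (Sa k H (D k H l (D k H j h))))) := by
    intro q
    have h1 : σ (ec k H q) ∘ₗ ρ h = ∑ j, ∑ l, ρ (e k H l) ∘ₗ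
        σ (tw (ec k H q) (e k H j) (Sa k H (D k H l (D k H j h)))) := hY.yd (ec k H q) h
    rw [LinearMap.comp_assoc, LinearMap.comp_assoc, h1, comp_sum', comp_sum']
    refine Finset.sum_congr rfl fun j _ => ?_
    rw [comp_sum', comp_sum']
    refine Finset.sum_congr rfl fun l _ => ?_
    have h5 : ∀ τ : Module.End k Y, f ∘ₗ ρ (e k H l) ∘ₗ τ = R (e k H l) ∘ₗ f ∘ₗ τ := by
      intro τ
      rw [← LinearMap.comp_assoc, hf', LinearMap.comp_assoc]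
    rw [h5]
    rfl
  have hRR : ∀ q, R h ∘ₗ ((C.s * C.L 0 (Sa k H (e k H q))) ∘ₗ f ∘ₗ σ (ec k H q)) =
      ∑ j, ∑ l, (C.s * C.L 0 (D k H l (D k H j h) * Sa k H (e k H q) * Sa k H (e k H j))) ∘ₗ
        R (e k H l) ∘ₗ f ∘ₗ σ (ec k H q) := by
    intro q
    have h1 := shift_LL hn C (Sa k H (e k H q)) h
    have h2 : R h ∘ₗ (C.s * C.L 0 (Sa k H (e k H q))) = ∑ j, ∑ l,
        (C.s * C.L 0 (D k H l (D k H j h) * Sa k H (e k H q) * Sa k H (e k H j))) ∘ₗ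
          R (e k H l) := by
      rw [hR h]
      refine h1.symm.trans ?_
      unfold sw3
      refine Finset.sum_congr rfl fun j _ => Finset.sum_congr rfl fun l _ => ?_
      rw [hR (e k H l)]
      rfl
    rw [← LinearMap.comp_assoc, h2, sum_comp']
    refine Finset.sum_congr rfl fun j _ => ?_
    rw [sum_comp']
    refine Finset.sum_congr rfl fun l _ => ?_
    rfl
  rw [Finset.sum_congr rfl fun q _ => hL q, Finset.sum_congr rfl fun q _ => hRR q,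
    Finset.sum_comm, Finset.sum_comm (s := Finset.univ) (t := Finset.univ) (f := fun q j => ∑ l,
      (C.s * C.L 0 (D k H l (D k H j h) * Sa k H (e k H q) * Sa k H (e k H j))) ∘ₗ
        R (e k H l) ∘ₗ f ∘ₗ σ (ec k H q))]
  refine Finset.sum_congr rfl fun j _ => ?_
  rw [Finset.sum_comm, Finset.sum_comm (s := Finset.univ) (t := Finset.univ) (f := fun q l =>
      (C.s * C.L 0 (D k H l (D k H j h) * Sa k H (e k H q) * Sa k H (e k H j))) ∘ₗ
        R (e k H l) ∘ₗ f ∘ₗ σ (ec k H q))]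
  refine Finset.sum_congr rfl fun l _ => ?_
  have h3 := ce_lin (k := k) (LinearMap.mulLeft k (e k H j) ∘ₗ
      LinearMap.mulRight k (Sa k H (D k H l (D k H j h))))
    (G := fun x φ => (C.s * C.L 0 (Sa k H x)) ∘ₗ R (e k H l) ∘ₗ f ∘ₗ σ φ)
    (fun φ => ⟨fun x y => by
      rw [map_add, map_add, mul_add, LinearMap.add_comp], fun c x => by
      rw [map_smul, map_smul, mul_smul_comm, LinearMap.smul_comp]⟩)
    (fun x => ⟨fun φ ψ => by
      rw [map_add, LinearMap.comp_add, LinearMap.comp_add, LinearMap.comp_add], fun c φ => by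
      rw [map_smul, LinearMap.comp_smul, LinearMap.comp_smul, LinearMap.comp_smul]⟩)
  refine h3.trans ?_
  refine Finset.sum_congr rfl fun q _ => ?_
  have h4 : Sa k H ((LinearMap.mulLeft k (e k H j) ∘ₗ
      LinearMap.mulRight k (Sa k H (D k H l (D k H j h)))) (e k H q)) =
      D k H l (D k H j h) * Sa k H (e k H q) * Sa k H (e k H j) := by
    rw [LinearMap.comp_apply, LinearMap.mulRight_apply, LinearMap.mulLeft_apply, Sa_mul, Sa_mul,
      hS]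
  rw [h4]

end Pool.Agent.KExp
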