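import Pool.Agent.Lib.KExp.Defs
import Pool.Agent.Lib.KExp.Sw
import Pool.Agent.Lib.KExp.CE
import Pool.Agent.Lib.KExp.QPow
import Pool.Agent.Lib.KExp.LamInt
import Pool.Agent.Lib.KExp.LInt
import Pool.Agent.Lib.KExp.CycEx
import Pool.Agent.Lib.KExp.RAlg
import Pool.Agent.Lib.KExp.RShift
import Pool.Agent.Lib.KExp.RTr
import Pool.Agent.Lib.KExp.RPow
import Pool.Agent.Lib.KExp.VStab
import Pool.Agent.Lib.KExp.VPow
import Pool.Agent.Lib.KExp.LinTr

/-!
# KExp.Rot (MP_0d5e35_al, paper /team-store/MP_0d5e35_al_paper38.md)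

(3.3), (3.4), assembly of section 3. `C` from exists_cyc, `R` from exists_R, `V = HV ρ R`,
`π = m⁻¹ • sw2 k (fun a b => sand (R a) (ρ (Sa b))) Λ`. `π f ∈ V`: `R(h) π(f) = m⁻¹ ∑ R(hΛ₁) f ρ(S(Λ₂))
= m⁻¹ ∑ R(Λ₁) f ρ(S(Λ₂)h)` (Lam_shift). For `f ∈ V`: `π f = m⁻¹ ∑ f ρ(Λ₁ S(Λ₂)) = m⁻¹ ε(Λ) f = f` (sw2_mul_S, ep_Lam).
Tr π `= m⁻¹ ∑ Tr(R(Λ₁)) Tr(ρ(S(Λ₂))) = m⁻¹ m^{n-1} ∑ λ(Λ₁) Tr ρ(S(Λ₂)) = m⁻¹ m^{n-1} λ(Λ) d = d m^{n-1}`
(trace_sand, trace_LL, lam_comul, lam_Lam, Sa_one).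
Tr(E π) `= m⁻¹ ∑_q ∑ Tr(s L₀(S(e_q)) R(Λ₁)) Tr(ρ(S(Λ₂)) σ(e^q))` (composition order: `E(π f) = ∑ s L₀(S e_q) R(Λ₁) f
ρ(S(Λ₂)) σ(e^q)`) `= m⁻¹ ∑_q ∑ λ(S(e_q) Q_n(Λ₁)) Tr(ρ(S(Λ₂)) σ(e^q))` (trace_s_LL). Replace `Λ` by `S(Λ)` (Sa_Lam, sw2_Sa:
`Λ₁ ⊗ Λ₂ = S(Λ₂) ⊗ S(Λ₁)`): `m⁻¹ ∑_q ∑ λ(S(e_q) Q_n(S(Λ₂))) Tr(ρ(Λ₁) σ(e^q))`, and
`λ(S(e_q) S(Q_n(Λ₂))) = λ(S(Q_n(Λ₂) e_q)) = λ(e_q Q_n(Λ₂))` (Q_Sa, Sa_mul, lam_Sa, lam_mul_comm); so it is
`m⁻¹ Tr(∑_q ∑ λ(e_q Q_n(Λ₂)) ρ(Λ₁) σ(e^q)) = m⁻¹ Tr(Tn n ρ σ)` (trace_mul_comm in the definition of Tn).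
-/

set_option autoImplicit false

open scoped TensorProduct

namespace Pool.Agent.KExp

variable {k : Type} [Field k] {H : Type} [Ring H] [HopfAlgebra k H] [FiniteDimensional k H]

variable {Y : Type} [AddCommGroup Y] [Module k Y] [FiniteDimensional k Y]
  {ρ : H →ₐ[k] Module.End k Y} {σ : (H →ₗ[k] k) →ₗ[k] Module.End k Y}

private theorem sand_mul {W : Type} [AddCommGroup W] [Module k W] (B B' : Module.End k W)
    (C C' : Module.End k Y) :
    (sand B C * sand B' C' : Module.End k (Y →ₗ[k] W)) = sand (B * B') (C' * C) := by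
  ext f y
  rfl

private theorem sand_bil {W : Type} [AddCommGroup W] [Module k W] (R : H →ₐ[k] Module.End k W)
    (ρ : H →ₐ[k] Module.End k Y) (f : Y →ₗ[k] W) :
    Bil2 k (fun a b => sand (R a) (ρ b) f) := by
  refine ⟨fun b => ⟨fun x y => ?_, fun c x => ?_⟩, fun a => ⟨fun x y => ?_, fun c x => ?_⟩⟩
  all_goals
    ext w
    simp [sand]

private theorem restrict_pow' {U : Type} [AddCommGroup U] [Module k U] (V : Submodule k U)
    (E : Module.End k U) (hE : ∀ u ∈ V, E u ∈ V) (n : ℕ) (u : V) :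
    (((E.restrict hE) ^ n) u : U) = (E ^ n) (u : U) := by
  induction n with
  | zero => simp
  | succ n ih =>
    rw [pow_succ', Module.End.mul_apply, LinearMap.restrict_apply, pow_succ', Module.End.mul_apply]
    rw [← ih]

/-- the projection onto the `H`-linear maps, up to the factor `m` -/
private noncomputable def pP {W : Type} [AddCommGroup W] [Module k W] (R : H →ₐ[k] Module.End k W)
    (ρ : H →ₐ[k] Module.End k Y) : Module.End k (Y →ₗ[k] W) :=
  sw2 k (fun a b => sand (R a) (ρ (Sa k H b))) (Lam k H)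

private theorem pP_apply {W : Type} [AddCommGroup W] [Module k W] (R : H →ₐ[k] Module.End k W)
    (ρ : H →ₐ[k] Module.End k Y) (f : Y →ₗ[k] W) :
    pP R ρ f = sw2 k (fun a b => sand (R a) (ρ (Sa k H b)) f) (Lam k H) := by
  unfold pP sw2
  rw [LinearMap.sum_apply]

private theorem pP_mem (hS : ∀ x : H, Sa k H (Sa k H x) = x) {W : Type} [AddCommGroup W]
    [Module k W] (R : H →ₐ[k] Module.End k W)
    (ρ : H →ₐ[k] Module.End k Y) (f : Y →ₗ[k] W) : pP R ρ f ∈ HV ρ R := by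
  change ∀ h, pP R ρ f ∘ₗ ρ h = R h ∘ₗ pP R ρ f
  intro h
  rw [pP_apply]
  have h1 := Lam_shift hS (sand_bil R ρ f) h
  have h2 : sw2 k (fun a b => sand (R (h * a)) (ρ (Sa k H b)) f) (Lam k H) =
      R h ∘ₗ sw2 k (fun a b => sand (R a) (ρ (Sa k H b)) f) (Lam k H) := by
    unfold sw2
    ext y
    simp only [LinearMap.sum_apply, LinearMap.comp_apply, map_sum, map_mul]
    rfl
  have h3 : sw2 k (fun a b => sand (R a) (ρ (Sa k H b * h)) f) (Lam k H) =
      sw2 k (fun a b => sand (R a) (ρ (Sa k H b)) f) (Lam k H) ∘ₗ ρ h := by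
    unfold sw2
    ext y
    simp only [LinearMap.sum_apply, LinearMap.comp_apply, map_mul]
    rfl
  rw [← h2, ← h3]
  exact h1.symm

private theorem pP_id {W : Type} [AddCommGroup W]
    [Module k W] (R : H →ₐ[k] Module.End k W)
    (ρ : H →ₐ[k] Module.End k Y) (f : Y →ₗ[k] W) (hf : f ∈ HV ρ R) :
    pP R ρ f = (Module.finrank k H : k) • f := by
  have hf' : ∀ h, f ∘ₗ ρ h = R h ∘ₗ f := hf
  rw [pP_apply]
  have h1 : (fun a b => sand (R a) (ρ (Sa k H b)) f) =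
      fun a b => (fun x : H => f ∘ₗ ρ x) (a * Sa k H b) := by
    funext a b
    beta_reduce
    rw [map_mul]
    change R a ∘ₗ f ∘ₗ ρ (Sa k H b) = f ∘ₗ (ρ a * ρ (Sa k H b))
    rw [← LinearMap.comp_assoc, ← hf' a]
    rfl
  have hlin : IsLinearMap k (fun x : H => f ∘ₗ ρ x) := by
    constructor
    · intro x y
      rw [map_add, LinearMap.comp_add]
    · intro c x
      rw [map_smul, LinearMap.comp_smul]
  rw [h1, sw2_mul_S hlin, ep_Lam, map_one]
  rfl

private theorem pP_trace (hS : ∀ x : H, Sa k H (Sa k H x) = x) {W : Type} [AddCommGroup W]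
    [Module k W] [FiniteDimensional k W] {n : ℕ} (hn : 0 < n) (C : Cyc k H W n)
    (R : H →ₐ[k] Module.End k W) (hR : ∀ h, R h = LL C.L n h)
    (ρ : H →ₐ[k] Module.End k Y) :
    LinearMap.trace k (Y →ₗ[k] W) (pP R ρ) =
      (Module.finrank k H : k) ^ (n - 1) * ((Module.finrank k H : k) * (Module.finrank k Y : k)) := by
  have h1 : LinearMap.trace k (Y →ₗ[k] W) (pP R ρ) = (Module.finrank k H : k) ^ (n - 1) *
      sw2 k (fun a b => lam k H a • (fun x : H => LinearMap.trace k Y (ρ (Sa k H x))) b)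
        (Lam k H) := by
    unfold pP sw2
    rw [map_sum, Finset.mul_sum]
    refine Finset.sum_congr rfl fun j _ => ?_
    rw [trace_sand, hR, trace_LL hS hn C, mul_assoc]
    rfl
  have hlin : IsLinearMap k (fun x : H => LinearMap.trace k Y (ρ (Sa k H x))) := by
    constructor
    · intro x y
      rw [map_add, map_add, map_add]
    · intro c x
      rw [map_smul, map_smul, map_smul]
  rw [h1, lam_comul hS hlin, lam_Lam hS]
  beta_reduce
  rw [Sa_one, map_one, LinearMap.trace_one, smul_eq_mul]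

private theorem EpP_trace [CharZero k] (hS : ∀ x : H, Sa k H (Sa k H x) = x) {W : Type}
    [AddCommGroup W]
    [Module k W] [FiniteDimensional k W] {n : ℕ} (hn : 0 < n) (C : Cyc k H W n)
    (R : H →ₐ[k] Module.End k W) (hR : ∀ h, R h = LL C.L n h)
    (ρ : H →ₐ[k] Module.End k Y) (σ : (H →ₗ[k] k) →ₗ[k] Module.End k Y) :
    LinearMap.trace k (Y →ₗ[k] W) (Erot C σ * pP R ρ) = LinearMap.trace k Y (Tn n ρ σ) := by
  have h1 : LinearMap.trace k (Y →ₗ[k] W) (Erot C σ * pP R ρ) =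
      sw2 k (fun a b => ∑ q, lam k H (Sa k H (e k H q) * Q k H n a) *
        LinearMap.trace k Y (ρ (Sa k H b) * σ (ec k H q))) (Lam k H) := by
    unfold pP sw2 Erot
    rw [Finset.mul_sum, map_sum]
    refine Finset.sum_congr rfl fun j _ => ?_
    rw [Finset.sum_mul, map_sum]
    refine Finset.sum_congr rfl fun q _ => ?_
    rw [sand_mul, trace_sand, hR, trace_s_LL hn C]
  have hB : Bil2 k (fun a b => ∑ q, lam k H (Sa k H (e k H q) * Q k H n a) *
        LinearMap.trace k Y (ρ (Sa k H b) * σ (ec k H q))) := by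
    refine ⟨fun b => ⟨fun x y => ?_, fun c x => ?_⟩, fun a => ⟨fun x y => ?_, fun c x => ?_⟩⟩
    · rw [← Finset.sum_add_distrib]
      refine Finset.sum_congr rfl fun q _ => ?_
      rw [map_add, mul_add, map_add, add_mul]
    · rw [Finset.smul_sum]
      refine Finset.sum_congr rfl fun q _ => ?_
      rw [map_smul, mul_smul_comm, map_smul, smul_mul_assoc]
    · rw [← Finset.sum_add_distrib]
      refine Finset.sum_congr rfl fun q _ => ?_
      rw [map_add, map_add, add_mul, map_add, mul_add]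
    · rw [Finset.smul_sum]
      refine Finset.sum_congr rfl fun q _ => ?_
      rw [map_smul, map_smul, smul_mul_assoc, map_smul, mul_smul_comm]
  have h2 := sw2_Sa hB (Lam k H)
  rw [Sa_Lam hS] at h2
  rw [h1, h2]
  unfold Tn sw2
  rw [map_sum]
  refine Finset.sum_congr rfl fun j _ => ?_
  rw [map_sum]
  refine Finset.sum_congr rfl fun q _ => ?_
  rw [map_smul, smul_eq_mul, Q_Sa, ← Sa_mul, lam_Sa hS, hS, lam_mul_comm,
    LinearMap.trace_mul_comm]

theorem rotation [CharZero k] (hS : ∀ x : H, Sa k H (Sa k H x) = x) (hY : IsYD ρ σ) {v : k}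
    (hv : v ≠ 0) (hθ : theta ρ σ = v • 1) {n : ℕ} (hn : 0 < n) :
    ∃ (V : Type) (_ : AddCommGroup V) (_ : Module k V) (_ : FiniteDimensional k V)
      (E : Module.End k V), E ^ n = v⁻¹ • 1 ∧
      Module.finrank k V = Module.finrank k Y * Module.finrank k H ^ (n - 1) ∧
      (Module.finrank k H : k) * LinearMap.trace k V E = LinearMap.trace k Y (Tn n ρ σ) := by
  obtain ⟨W, i1, i2, i3, ⟨C⟩⟩ := exists_cyc k H n hn
  obtain ⟨R, hR⟩ := exists_R C
  have hE : ∀ u ∈ HV ρ R, Erot C σ u ∈ HV ρ R := fun u hu => Erot_mem hS hY hn C R hR hu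
  have hm : (Module.finrank k H : k) ≠ 0 := by
    have h := finrank_pos_H (k := k) (H := H)
    exact_mod_cast h.ne'
  obtain ⟨hp1, hp2⟩ := trace_restrict_of_proj (HV ρ R)
    ((Module.finrank k H : k)⁻¹ • pP R ρ) (Erot C σ)
    (fun u => Submodule.smul_mem _ _ (pP_mem hS R ρ u))
    (fun u hu => by
      rw [LinearMap.smul_apply, pP_id R ρ u hu, smul_smul, inv_mul_cancel₀ hm, one_smul]) hE
  refine ⟨HV ρ R, inferInstance, inferInstance, inferInstance, (Erot C σ).restrict hE,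
    ?_, ?_, ?_⟩
  · ext u : 1
    apply Subtype.ext
    rw [restrict_pow', Erot_pow_n hS hY C R hR hv hθ u.2]
    rfl
  · rw [map_smul, pP_trace hS hn C R hR ρ, smul_eq_mul] at hp2
    have h3 : (Module.finrank k H : k)⁻¹ * ((Module.finrank k H : k) ^ (n - 1) *
        ((Module.finrank k H : k) * (Module.finrank k Y : k))) =
        ((Module.finrank k Y * Module.finrank k H ^ (n - 1) : ℕ) : k) := by
      push_cast
      field_simp
    rw [h3] at hp2
    exact_mod_cast hp2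
  · rw [hp1, mul_smul_comm, map_smul, EpP_trace hS hn C R hR ρ σ, smul_eq_mul,
      mul_inv_cancel_left₀ hm]

end Pool.Agent.KExp
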