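import Mathlib
import Pool.Agent.Lib.KExp.TrFin
import Pool.Agent.Lib.KExp.Gal

/-!
# KExp.T0 (MP_0d5e35_al, paper /team-store/MP_0d5e35_al_paper38.md)

(T_0). PROOF. `u = v⁻¹`, `u^(N/p) ≠ 1`, `n ≥ 1`, `p | n`, `c = v_p(n) ≥ 1`, `n = p^c n'`. `M = nN`, `ζ'` a primitive
`M`-th root with `ζ'^n = ζ` (as in Tk; or replace `ζ` by `ζ'^n`: `ℤ[ζ] = ℤ[ζ'^n]`). trace_mult: `Tr E = ∑ μ_j ζ'^j`,
`ζ'^{jn} = u` if `μ_j ≠ 0`. For `i < p` let `r_i = 1 + i N n' p^(c-1)`; it is prime to `M = nN` (mod a prime `q | N`: `r_i ≡ 1`;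
`q | n`, `q ≠ p`: `q | n'`, `r_i ≡ 1`; `p | N`) and `≡ 1 mod N`, so `(ζ'^n)^{r_i} = ζ'^n`. gal_transfer:
`m Tr E = m ∑ μ_j ζ'^{j r_i}`. Sum over `i`: `p m Tr E = m ∑_j μ_j ζ'^j ∑_i (ζ'^{j N n' p^(c-1)})^i`. For `μ_j ≠ 0`,
`x = ζ'^j` has `x^n = u`; `y = x^{N n' p^(c-1)}` satisfies `y^p = x^{nN} = 1` and `y ≠ 1`: if `y = 1` then, as
`N n' p^(c-1) = (N/p) n`, `1 = x^{n (N/p)} = u^(N/p)`, contradiction. So the inner sum is 0 and `d t_n = m Tr E = 0`.
-/

set_option autoImplicit false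

open scoped TensorProduct

namespace Pool.Agent.KExp


theorem T0_value {k : Type} [Field k] [CharZero k] [IsAlgClosed k] {N d m p : ℕ} (hN : 0 < N)
    (hd : 0 < d) (hm : 0 < m) (hp : p.Prime) (hpN : p ∣ N) {ζ : k} (hζ : IsPrimitiveRoot ζ N)
    (t : ℕ → k) (hti : ∀ n, (d : k) * t n ∈ Algebra.adjoin ℤ ({ζ} : Set k)) {v : k}
    (hv : v ^ N = 1) (hvp : v ^ (N / p) ≠ 1)
    (hE : ∀ n, 0 < n → ∃ (V : Type) (_ : AddCommGroup V) (_ : Module k V)
      (_ : FiniteDimensional k V) (E : Module.End k V), E ^ n = v⁻¹ • 1 ∧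
      Module.finrank k V = d * m ^ (n - 1) ∧ (m : k) * LinearMap.trace k V E = (d : k) * t n)
    {n : ℕ} (hn : 0 < n) (hpn : p ∣ n) : t n = 0 := by
  have hv0 : v ≠ 0 := by
    intro h
    rw [h, zero_pow hN.ne'] at hv
    exact zero_ne_one hv
  have hM : 0 < n * N := Nat.mul_pos hn hN
  have hNZ : NeZero ((n * N : ℕ) : k) := ⟨by exact_mod_cast hM.ne'⟩
  obtain ⟨ξ, hξ⟩ : ∃ ξ : k, IsPrimitiveRoot ξ (n * N) := by
    obtain ⟨x, hx⟩ := IsAlgClosed.exists_root (Polynomial.cyclotomic (n * N) k) (by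
      rw [Polynomial.degree_cyclotomic]
      have := Nat.totient_pos.2 hM
      exact_mod_cast this.ne')
    exact ⟨x, Polynomial.isRoot_cyclotomic_iff.1 hx⟩
  have hξn : IsPrimitiveRoot (ξ ^ n) N := hξ.pow hM rfl
  have hle : Algebra.adjoin ℤ ({ζ} : Set k) ≤ Algebra.adjoin ℤ ({ξ ^ n} : Set k) := by
    apply Algebra.adjoin_le
    intro x hx
    rw [Set.mem_singleton_iff] at hx
    have : NeZero N := ⟨hN.ne'⟩
    obtain ⟨i, -, hi⟩ := hξn.eq_pow_of_pow_eq_one hζ.pow_eq_one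
    rw [hx, ← hi]
    exact Subalgebra.pow_mem _ (Algebra.subset_adjoin (Set.mem_singleton _)) i
  obtain ⟨V, _, _, _, E, hE1, -, hE3⟩ := hE n hn
  have hu : (v⁻¹) ^ N = 1 := by rw [inv_pow, hv, inv_one]
  obtain ⟨μ, hμ1, -, hμ3⟩ := trace_mult hn hN hu E hE1 hξ
  rw [hμ1] at hE3
  obtain ⟨a, ha⟩ := hpN
  obtain ⟨b, hb⟩ := hpn
  have hp0 : 0 < p := hp.pos
  have haN : N / p = a := by rw [ha]; exact Nat.mul_div_cancel_left a hp0
  rw [haN] at hvp
  have hm' : (m : k) ≠ 0 := by exact_mod_cast hm.ne'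
  have hd' : (d : k) ≠ 0 := by exact_mod_cast hd.ne'
  have hp' : (p : k) ≠ 0 := by exact_mod_cast hp0.ne'
  have hK : a * n = b * N := by rw [hb, ha]; ring
  have hstep : ∀ i : ℕ, (m : k) * ∑ j ∈ Finset.range (n * N), (μ j : k) * ξ ^ (j * (1 + i * (a * n))) =
      (d : k) * t n := by
    intro i
    refine gal_transfer (M := n * N) (r := 1 + i * (a * n)) (n := n) hM hξ ?_ ?_ μ ((d : k) * t n)
      (m : k) ((m : ℚ)⁻¹) ?_ (hle (hti n)) hE3
    · apply Nat.Coprime.mul_right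
      · have : 1 + i * (a * n) = 1 + (i * a) * n := by ring
        rw [this]
        simp
      · have : 1 + i * (a * n) = 1 + (i * b) * N := by rw [hK]; ring
        rw [this]
        simp
    · have : 1 + i * (a * n) = 1 + N * (i * b) := by rw [hK]; ring
      rw [this, pow_add, pow_one, pow_mul (ξ ^ n) N, hξn.pow_eq_one, one_pow, mul_one]
    · push_cast
      exact mul_inv_cancel₀ hm'
  have hsum : ∑ i ∈ Finset.range p, ((m : k) *
      ∑ j ∈ Finset.range (n * N), (μ j : k) * ξ ^ (j * (1 + i * (a * n)))) = 0 := by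
    rw [← Finset.mul_sum, Finset.sum_comm]
    have : ∑ j ∈ Finset.range (n * N), ∑ i ∈ Finset.range p,
        (μ j : k) * ξ ^ (j * (1 + i * (a * n))) = 0 := by
      refine Finset.sum_eq_zero fun j hj => ?_
      by_cases h0 : μ j = 0
      · simp [h0]
      · have h1 := hμ3 j hj h0
        have h2 : ∀ i ∈ Finset.range p, (μ j : k) * ξ ^ (j * (1 + i * (a * n))) =
            ((μ j : k) * ξ ^ j) * (((ξ ^ j) ^ n) ^ a) ^ i := by
          intro i _
          have e1 : j * (1 + i * (a * n)) = j + ((j * n) * a) * i := by ring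
          rw [e1, pow_add, pow_mul ξ ((j * n) * a) i, pow_mul ξ (j * n) a, pow_mul ξ j n, mul_assoc]
        rw [Finset.sum_congr rfl h2, ← Finset.mul_sum, h1]
        have hy1 : ((v⁻¹) ^ a) ≠ 1 := by
          intro h
          rw [inv_pow, inv_eq_one] at h
          exact hvp h
        have hy2 : ((v⁻¹) ^ a) ^ p = 1 := by
          rw [← pow_mul, mul_comm a p, ← ha, hu]
        have hg := mul_geom_sum ((v⁻¹) ^ a) p
        rw [hy2, sub_self] at hg
        have := (mul_eq_zero.1 hg).resolve_left (sub_ne_zero.2 hy1)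
        rw [this, mul_zero]
    rw [this, mul_zero]
  rw [Finset.sum_congr rfl (fun i _ => hstep i), Finset.sum_const, Finset.card_range,
    nsmul_eq_mul] at hsum
  have := (mul_eq_zero.1 hsum).resolve_left hp'
  exact (mul_eq_zero.1 this).resolve_left hd'

end Pool.Agent.KExp
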