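import Mathlib
import Pool.Agent.Lib.KExp.TrFin
import Pool.Agent.Lib.KExp.Gal

/-!
# KExp.Tk (MP_0d5e35_al, paper /team-store/MP_0d5e35_al_paper38.md)

(T_k). PROOF. Let `u = v⁻¹`. Let `ℓ` be a prime, `ℓ ≡ r mod N`, `ℓ > N m d + N` (Dirichlet:
`Nat.forall_exists_prime_gt_and_eq_mod` / `Nat.setOf_prime_and_eq_mod_infinite`; `r` is a unit mod `N`). `V, E` for
`n = ℓ`. By periodicity `t ℓ = t r`. `ζ' ` a primitive `ℓN`-th root of 1 in `k` with `ζ'^ℓ = ζ` (exists: take any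
primitive `ℓN`-th root `ξ`; `ξ^ℓ` is a primitive `N`-th root, so `ζ = (ξ^ℓ)^c` with `c` prime to `N`; choose `c' ≡ c mod N`
prime to `ℓ`: `ζ' = ξ^c'`). trace_mult with `N, n = ℓ`: `Tr E = ∑ μ_j ζ'^j`, `ζ'^{jℓ} = u` whenever `μ_j ≠ 0`.
Multiply by `w⁻¹ = v^{r'}` where `w = u^{r'}`, `w^ℓ = u^{rr'} = u`: `x = ζ'^j v^{r'}` satisfies `x^ℓ = 1`. So
`c₀ := v^{r'} Tr E = ∑_{i<ℓ} ν_i z^i`, `z = ζ'^N` of order `ℓ`, `ν_i ∈ ℕ`, `∑ ν_i = dim V = d m^{ℓ-1}`. Also
`m c₀ = v^{r'} d t_r` and `m c₀ ∈ ℤ[ζ]` (hti, `v ∈ ℤ[ζ]`). Galois (Gal, automorphisms fixing `ζ`, `z ↦ z^i`,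
`i = 1..ℓ-1`): `c₀ = ∑ ν_j z^{ij}` for all such `i`; sum over `i`: `(ℓ-1) c₀ = (ℓ-1) ν_0 - ∑_{j≠0} ν_j = ℓ ν_0 - dim V`.
`c₀` is integral (sum of roots of unity) and rational, so `c₀ ∈ ℤ`, and `c₀ ≡ dim V = d m^{ℓ-1} ≡ d mod ℓ` (Fermat,
`ℓ ∤ m`). The number `m c₀ = v^{r'} d t_r` does not depend on `ℓ`; so `ℓ | m c₀ - m d` for infinitely many primes `ℓ`
(as integers), hence `m c₀ = m d` and `t_r v^{r'} = m`.
-/

set_option autoImplicit false

open scoped TensorProduct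

namespace Pool.Agent.KExp


open Classical in
private lemma tk_geom {k : Type} [Field k] {l : ℕ} (hl : 0 < l) {y : k} (hy : y ^ l = 1) :
    ∑ i ∈ Finset.Ico 1 l, y ^ i = if y = 1 then (l : k) - 1 else -1 := by
  have h1 : ∑ i ∈ Finset.range l, y ^ i = ∑ i ∈ Finset.Ico 1 l, y ^ i + 1 := by
    rw [Finset.range_eq_Ico, Finset.sum_eq_sum_Ico_succ_bot hl]
    rw [pow_zero, add_comm]
  split_ifs with h
  · subst h
    simp only [one_pow, Finset.sum_const, Nat.card_Ico, nsmul_eq_mul, mul_one]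
    rw [Nat.cast_sub hl]
    simp
  · have h2 : (∑ i ∈ Finset.range l, y ^ i) * (y - 1) = y ^ l - 1 := geom_sum_mul y l
    rw [hy, sub_self] at h2
    have h3 : y - 1 ≠ 0 := sub_ne_zero.2 h
    have h4 : ∑ i ∈ Finset.range l, y ^ i = 0 := by
      rcases mul_eq_zero.1 h2 with h5 | h5
      · exact h5
      · exact absurd h5 h3
    rw [h1] at h4
    exact eq_neg_of_add_eq_zero_left h4

private lemma tk_pow_mod {k : Type} [Field k] {N a b : ℕ} {v : k} (hv : v ^ N = 1)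
    (h : a ≡ b [MOD N]) : v ^ a = v ^ b := by
  have h1 : ∀ c : ℕ, v ^ c = v ^ (c % N) := by
    intro c
    conv_lhs => rw [← Nat.div_add_mod c N, pow_add, pow_mul, hv, one_pow, one_mul]
  rw [h1 a, h1 b, h]

private lemma tk_key {k : Type} [Field k] [CharZero k] [IsAlgClosed k] {N d m : ℕ} (hN : 0 < N)
    (hd : 0 < d) (hm : 0 < m) {ζ : k} (hζ : IsPrimitiveRoot ζ N) (t : ℕ → k)
    (ht : ∀ n, t (n + N) = t n) (hti : ∀ n, (d : k) * t n ∈ Algebra.adjoin ℤ ({ζ} : Set k)) {v : k}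
    (hv : v ^ N = 1)
    (hE : ∀ n, 0 < n → ∃ (V : Type) (_ : AddCommGroup V) (_ : Module k V)
      (_ : FiniteDimensional k V) (E : Module.End k V), E ^ n = v⁻¹ • 1 ∧
      Module.finrank k V = d * m ^ (n - 1) ∧ (m : k) * LinearMap.trace k V E = (d : k) * t n)
    {r r' : ℕ} (h : r * r' ≡ 1 [MOD N]) {l : ℕ} (hl : l.Prime) (hlr : l ≡ r [MOD N])
    (hlN : N < l) (hlm : m < l) :
    ∃ c : ℤ, v ^ r' * ((d : k) * t r) = (m : k) * (c : k) ∧ (l : ℤ) ∣ c - d := by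
  classical
  have hmk : (m : k) ≠ 0 := by exact_mod_cast hm.ne'
  have hv0 : v ≠ 0 := fun h0 => by
    rw [h0, zero_pow hN.ne'] at hv
    exact zero_ne_one hv
  have hper : ∀ n, t (n % N) = t n := fun n =>
    Function.Periodic.map_mod_nat (f := t) (a := N) ht n
  have htl : t l = t r := by
    rw [← hper l, ← hper r, hlr]
  obtain ⟨V, i1, i2, i3, E, hEn, hdim, htr⟩ := hE l hl.pos
  rw [htl] at htr
  have hcop : Nat.Coprime l N := (Nat.Prime.coprime_iff_not_dvd hl).2 fun hdv =>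
    absurd (Nat.le_of_dvd hN hdv) (by omega)
  have : NeZero (l * N) := ⟨(Nat.mul_pos hl.pos hN).ne'⟩
  have : NeZero ((l * N : ℕ) : k) := ⟨by exact_mod_cast (Nat.mul_pos hl.pos hN).ne'⟩
  obtain ⟨z, hz⟩ := HasEnoughRootsOfUnity.exists_primitiveRoot k (l * N)
  have hu : (v⁻¹) ^ N = 1 := by rw [inv_pow, hv, inv_one]
  obtain ⟨μ, h1, h2, h3⟩ := trace_mult hl.pos hN hu E hEn hz
  have hzl : IsPrimitiveRoot (z ^ l) N := hz.pow (Nat.mul_pos hl.pos hN) rfl
  have hb : (d : k) * t r ∈ Algebra.adjoin ℤ ({z ^ l} : Set k) := by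
    have h4 : ζ ∈ Algebra.adjoin ℤ ({z ^ l} : Set k) := by
      have : NeZero N := ⟨hN.ne'⟩
      obtain ⟨i, _, hi⟩ := hzl.eq_pow_of_pow_eq_one hζ.pow_eq_one
      rw [← hi]
      exact Subalgebra.pow_mem _ (Algebra.subset_adjoin (Set.mem_singleton _)) i
    have h5 : Algebra.adjoin ℤ ({ζ} : Set k) ≤ Algebra.adjoin ℤ ({z ^ l} : Set k) := by
      apply Algebra.adjoin_le
      intro x hx
      rw [Set.mem_singleton_iff.1 hx]
      exact h4
    exact h5 (hti r)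
  have hmq : (m : k) * (((m : ℚ)⁻¹ : ℚ) : k) = 1 := by
    rw [Rat.cast_inv, Rat.cast_natCast]
    exact mul_inv_cancel₀ hmk
  have hmain : (m : k) * ∑ j ∈ Finset.range (l * N), (μ j : k) * z ^ j = (d : k) * t r := by
    rw [← h1, htr]
  set y : ℕ → k := fun j => z ^ j * v ^ r' with hy
  have hrl : l * r' ≡ 1 [MOD N] := (Nat.ModEq.mul_right r' hlr).trans h
  have hyl : ∀ j ∈ Finset.range (l * N), μ j ≠ 0 → (y j) ^ l = 1 := by
    intro j hj hμ
    have h4 := h3 j hj hμ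
    show (z ^ j * v ^ r') ^ l = 1
    rw [mul_pow, h4, ← pow_mul, tk_pow_mod hv (show r' * l ≡ 1 [MOD N] by rwa [mul_comm]),
      pow_one, inv_mul_cancel₀ hv0]
  have hgal : ∀ i ∈ Finset.Ico 1 l,
      v ^ r' * ((d : k) * t r) =
        (m : k) * ∑ j ∈ Finset.range (l * N), (μ j : k) * (y j) ^ i := by
    intro i hi
    rw [Finset.mem_Ico] at hi
    obtain ⟨q, hq1, hq2⟩ := Nat.chineseRemainder hcop i 1
    have hqN : Nat.Coprime q N := by
      have := hq2.gcd_eq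
      rw [Nat.gcd_one_left] at this
      exact this
    have hql : Nat.Coprime q l := by
      rw [Nat.coprime_comm]
      refine (Nat.Prime.coprime_iff_not_dvd hl).2 fun hdv => ?_
      have h4 : l ∣ i := (Nat.ModEq.dvd_iff hq1 dvd_rfl).1 hdv
      exact absurd (Nat.le_of_dvd (by omega) h4) (by omega)
    have hqq : Nat.Coprime q (l * N) := Nat.Coprime.mul_right hql hqN
    have h5 : (z ^ l) ^ q = z ^ l := by
      have := tk_pow_mod (a := q) (b := 1) hzl.pow_eq_one hq2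
      rwa [pow_one] at this
    have h6 := gal_transfer (Nat.mul_pos hl.pos hN) hz hqq h5 μ ((d : k) * t r) (m : k)
      ((m : ℚ)⁻¹) hmq hb hmain
    rw [← h6, mul_left_comm]
    congr 1
    rw [Finset.mul_sum]
    refine Finset.sum_congr rfl fun j hj => ?_
    by_cases hμ : μ j = 0
    · rw [hμ]
      simp
    · have h7 := hyl j hj hμ
      have h8 : (y j) ^ i = (y j) ^ q := tk_pow_mod h7 hq1.symm
      have h9 : v ^ (r' * q) = v ^ r' := by
        apply tk_pow_mod hv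
        have := Nat.ModEq.mul_left r' hq2
        rwa [mul_one] at this
      rw [h8]
      show v ^ r' * ((μ j : k) * z ^ (j * q)) = (μ j : k) * (z ^ j * v ^ r') ^ q
      rw [mul_pow, ← pow_mul, ← pow_mul, h9]
      ring
  set n1 : ℕ := ∑ j ∈ (Finset.range (l * N)).filter (fun j => y j = 1), μ j with hn1
  have hsum : ((l : k) - 1) * (v ^ r' * ((d : k) * t r)) =
      (m : k) * ((l : k) * (n1 : k) - (d : k) * (m : k) ^ (l - 1)) := by
    have h4 : ∑ i ∈ Finset.Ico 1 l, (v ^ r' * ((d : k) * t r)) =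
        ((l : k) - 1) * (v ^ r' * ((d : k) * t r)) := by
      rw [Finset.sum_const, Nat.card_Ico, nsmul_eq_mul, Nat.cast_sub hl.one_le, Nat.cast_one]
    rw [← h4, Finset.sum_congr rfl hgal, ← Finset.mul_sum, Finset.sum_comm]
    congr 1
    have h5 : ∀ j ∈ Finset.range (l * N), ∑ i ∈ Finset.Ico 1 l, (μ j : k) * (y j) ^ i =
        (l : k) * (if y j = 1 then (μ j : k) else 0) - (μ j : k) := by
      intro j hj
      by_cases hμ : μ j = 0
      · rw [hμ]
        simp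
      · rw [← Finset.mul_sum, tk_geom hl.pos (hyl j hj hμ)]
        split_ifs
        · ring
        · ring
    rw [Finset.sum_congr rfl h5, Finset.sum_sub_distrib, ← Finset.mul_sum, ← Finset.sum_filter]
    have h6 : ∑ j ∈ Finset.range (l * N), (μ j : k) = (d : k) * (m : k) ^ (l - 1) := by
      rw [← Nat.cast_sum, h2, hdim]
      push_cast
      ring
    rw [h6, hn1, Nat.cast_sum]
  set c0 : k := v ^ r' * LinearMap.trace k V E with hc0
  have hmc0 : v ^ r' * ((d : k) * t r) = (m : k) * c0 := by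
    rw [← htr, hc0]
    ring
  have hc0sum : c0 = ∑ j ∈ Finset.range (l * N), (μ j : k) * y j := by
    rw [hc0, h1, Finset.mul_sum]
    refine Finset.sum_congr rfl fun j _ => ?_
    show v ^ r' * ((μ j : k) * z ^ j) = (μ j : k) * (z ^ j * v ^ r')
    ring
  have hint : IsIntegral ℤ c0 := by
    rw [hc0sum]
    apply IsIntegral.sum
    intro j hj
    by_cases hμ : μ j = 0
    · rw [hμ]
      simp only [Nat.cast_zero, zero_mul]
      exact isIntegral_zero
    · apply IsIntegral.mul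
      · exact isIntegral_natCast _
      · apply IsIntegral.of_pow hl.pos
        rw [hyl j hj hμ]
        exact isIntegral_one
  have hlin : ((l : k) - 1) * c0 = (l : k) * (n1 : k) - (d : k) * (m : k) ^ (l - 1) := by
    rw [hmc0] at hsum
    apply mul_left_cancel₀ hmk
    rw [← hsum]
    ring
  have hl1 : ((l : k) - 1) ≠ 0 := by
    have h4 : ((l - 1 : ℕ) : k) ≠ 0 := by
      have := hl.two_le
      exact_mod_cast (show l - 1 ≠ 0 by omega)
    rwa [Nat.cast_sub hl.one_le, Nat.cast_one] at h4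
  have hrat : c0 = algebraMap ℚ k (((l : ℚ) * n1 - d * (m : ℚ) ^ (l - 1)) / ((l : ℚ) - 1)) := by
    have h4 : algebraMap ℚ k (((l : ℚ) * n1 - d * (m : ℚ) ^ (l - 1)) / ((l : ℚ) - 1)) =
        ((l : k) * (n1 : k) - (d : k) * (m : k) ^ (l - 1)) / ((l : k) - 1) := by
      simp [map_div₀]
    rw [h4, eq_div_iff hl1, ← hlin]
    ring
  rw [hrat] at hint
  have hint2 : IsIntegral ℤ (((l : ℚ) * n1 - d * (m : ℚ) ^ (l - 1)) / ((l : ℚ) - 1)) :=
    (isIntegral_algebraMap_iff (algebraMap ℚ k).injective).1 hint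
  obtain ⟨c, hc⟩ := IsIntegrallyClosed.isIntegral_iff.1 hint2
  have hcc : c0 = (c : k) := by
    rw [hrat, ← hc]
    simp
  refine ⟨c, by rw [hmc0, hcc], ?_⟩
  rw [hcc] at hlin
  have hz1 : ((l : ℤ) - 1) * c = (l : ℤ) * n1 - d * (m : ℤ) ^ (l - 1) := by
    have h4 : ((((l : ℤ) - 1) * c : ℤ) : k) = (((l : ℤ) * n1 - d * (m : ℤ) ^ (l - 1) : ℤ) : k) := by
      push_cast
      exact hlin
    exact_mod_cast h4
  have hfer : (l : ℤ) ∣ (m : ℤ) ^ (l - 1) - 1 := by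
    have h4 : IsCoprime (m : ℤ) (l : ℤ) := by
      rw [Nat.isCoprime_iff_coprime, Nat.coprime_comm]
      refine (Nat.Prime.coprime_iff_not_dvd hl).2 fun hdv => ?_
      exact absurd (Nat.le_of_dvd hm hdv) (by omega)
    exact (Int.ModEq.pow_card_sub_one_eq_one hl h4).symm.dvd
  obtain ⟨w, hw⟩ := hfer
  refine ⟨c - n1 + d * w, ?_⟩
  have h5 : (m : ℤ) ^ (l - 1) = l * w + 1 := by linarith
  rw [h5] at hz1
  linarith

theorem Tk_value {k : Type} [Field k] [CharZero k] [IsAlgClosed k] {N d m : ℕ} (hN : 0 < N)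
    (hd : 0 < d) (hm : 0 < m) {ζ : k} (hζ : IsPrimitiveRoot ζ N) (t : ℕ → k)
    (ht : ∀ n, t (n + N) = t n) (hti : ∀ n, (d : k) * t n ∈ Algebra.adjoin ℤ ({ζ} : Set k)) {v : k}
    (hv : v ^ N = 1)
    (hE : ∀ n, 0 < n → ∃ (V : Type) (_ : AddCommGroup V) (_ : Module k V)
      (_ : FiniteDimensional k V) (E : Module.End k V), E ^ n = v⁻¹ • 1 ∧
      Module.finrank k V = d * m ^ (n - 1) ∧ (m : k) * LinearMap.trace k V E = (d : k) * t n)
    {r r' : ℕ} (h : r * r' ≡ 1 [MOD N]) : t r * v ^ r' = (m : k) := by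
  have : NeZero N := ⟨hN.ne'⟩
  have hunit : IsUnit (r : ZMod N) := by
    have h1 : ((r * r' : ℕ) : ZMod N) = ((1 : ℕ) : ZMod N) :=
      (ZMod.natCast_eq_natCast_iff _ _ _).2 h
    rw [Nat.cast_mul, Nat.cast_one] at h1
    exact IsUnit.of_mul_eq_one _ h1
  have hex : ∀ B : ℕ, ∃ l, l.Prime ∧ l ≡ r [MOD N] ∧ B < l := by
    intro B
    obtain ⟨p, hp1, hp2, hp3⟩ := Nat.forall_exists_prime_gt_and_eq_mod hunit B
    exact ⟨p, hp2, (ZMod.natCast_eq_natCast_iff _ _ _).1 hp3, hp1⟩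
  obtain ⟨l, hl1, hl2, hl3⟩ := hex (N + m)
  obtain ⟨c, hc1, _⟩ := tk_key hN hd hm hζ t ht hti hv hE h hl1 hl2 (by omega) (by omega)
  obtain ⟨l', hl1', hl2', hl3'⟩ := hex (N + m + (c - d).natAbs)
  obtain ⟨c', hc1', hc2'⟩ := tk_key hN hd hm hζ t ht hti hv hE h hl1' hl2' (by omega) (by omega)
  have hmk : (m : k) ≠ 0 := by exact_mod_cast hm.ne'
  have hdk : (d : k) ≠ 0 := by exact_mod_cast hd.ne'
  have hcc : c' = c := by
    have h1 : (m : k) * (c' : k) = (m : k) * (c : k) := by rw [← hc1', ← hc1]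
    exact_mod_cast mul_left_cancel₀ hmk h1
  rw [hcc] at hc2'
  have hcd : c - d = 0 := by
    apply Int.eq_zero_of_abs_lt_dvd hc2'
    rw [Int.abs_eq_natAbs]
    exact_mod_cast (show (c - d).natAbs < l' by omega)
  have hcd' : c = (d : ℤ) := by linarith
  rw [hcd'] at hc1
  push_cast at hc1
  apply mul_left_cancel₀ hdk
  calc (d : k) * (t r * v ^ r') = v ^ r' * ((d : k) * t r) := by ring
    _ = (m : k) * (d : k) := hc1
    _ = (d : k) * (m : k) := by ring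

end Pool.Agent.KExp
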