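import Pool.Agent.Lib.KExp.Defs
import Pool.Agent.Lib.KExp.Sw
import Pool.Agent.Lib.KExp.CE
import Pool.Agent.Lib.KExp.QPow
import Pool.Agent.Lib.KExp.Theta
import Pool.Agent.Lib.KExp.ThetaPow
import Pool.Agent.Lib.KExp.TensApp
import Pool.Agent.Lib.KExp.TensYD
import Pool.Agent.Lib.KExp.MFin
import Pool.Agent.Lib.KExp.Ptr
import Pool.Agent.Lib.KExp.PtrYD
import Pool.Agent.Lib.KExp.PtrMul
import Pool.Agent.Lib.KExp.PYD
import Pool.Agent.Lib.KExp.PTr

/-!
# KExp.TnPtr (MP_0d5e35_al, paper /team-store/MP_0d5e35_al_paper38.md)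

(1.7). `ptr_P(M_{P,Y} (θ_P^n ⊗ 1)) = T_n(Y)`. PROOF. ptr_Mop with `a = θ^n`:
`∑_{i,j} Tr_P(ρ(e_j) σ(e^i) θ^n) σ_Y(e^j) ρ_Y(e_i)`; `σ(e^i) θ^n = θ^n σ(e^i)` (theta_sigma) and theta_pow:
`ρ(e_j) θ^n σ(e^i) = ∑_l ρ(e_j Q_n(e_l)) σ(e^l) σ(e^i) = ∑_l ρ(e_j Q_n(e_l)) σ(e^i * e^l)`, trace (trace_P):
`∑_l λ(e_j Q_n(e_l)) (e^i * e^l)(Λ) = λ(e_j Q_n(D i Λ))` (cv_ec, sum_ec). Sum over `i` of `... ρ_Y(e_i)` is
exactly the definition of `Tn` (`Δ(Λ) = ∑ e_i ⊗ D i Λ`).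
Tn_rho, Tn_sigma: MFin (`M (θ^n ⊗ 1)` commutes with `tR`, `tS`: `θ^n ⊗ 1` commutes with `tR`, `tS` by theta_rho,
theta_sigma) and PtrYD.
-/

set_option autoImplicit false

open scoped TensorProduct

namespace Pool.Agent.KExp

variable {k : Type} [Field k] {H : Type} [Ring H] [HopfAlgebra k H] [FiniteDimensional k H]

variable {Y : Type} [AddCommGroup Y] [Module k Y]
  {ρ : H →ₐ[k] Module.End k Y} {σ : (H →ₗ[k] k) →ₗ[k] Module.End k Y}

private theorem pow_rho (hS : ∀ x : H, Sa k H (Sa k H x) = x) (n : ℕ) (h : H) :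
    theta (rP (k := k) (H := H)) sP ^ n * (rP (k := k) (H := H)) h =
      (rP (k := k) (H := H)) h * theta (rP (k := k) (H := H)) sP ^ n :=
  Commute.pow_left (theta_rho hS (isYD_P hS) h) n

private theorem pow_sigma (hS : ∀ x : H, Sa k H (Sa k H x) = x) (n : ℕ) (f : H →ₗ[k] k) :
    theta (rP (k := k) (H := H)) sP ^ n * sP f =
      sP f * theta (rP (k := k) (H := H)) sP ^ n :=
  Commute.pow_left (theta_sigma hS (isYD_P hS) f) n

private theorem tr_key (hS : ∀ x : H, Sa k H (Sa k H x) = x) (n : ℕ)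
    (i j : Fin (Module.finrank k H)) :
    LinearMap.trace k (H ⊗[k] H) ((rP (k := k) (H := H)) (e k H j) * sP (ec k H i) *
      theta (rP (k := k) (H := H)) sP ^ n) = lam k H (e k H j * Q k H n (D k H i (Lam k H))) := by
  rw [mul_assoc, ← pow_sigma hS n (ec k H i), theta_pow hS (isYD_P hS) n, Finset.sum_mul,
    Finset.mul_sum, map_sum]
  have h1 : ∀ l : Fin (Module.finrank k H), LinearMap.trace k (H ⊗[k] H)
      ((rP (k := k) (H := H)) (e k H j) * ((rP (k := k) (H := H)) (Q k H n (e k H l)) *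
        sP (ec k H l) * sP (ec k H i))) =
      ec k H l (D k H i (Lam k H)) • lam k H (e k H j * Q k H n (e k H l)) := by
    intro l
    rw [mul_assoc, (isYD_P hS).mul, ← mul_assoc, ← map_mul, trace_P hS, cv_ec, smul_eq_mul,
      mul_comm]
  rw [Finset.sum_congr rfl (fun l _ => h1 l)]
  have h2 := congrArg (fun y => lam k H (e k H j * Q k H n y))
    (sum_ec (k := k) (D k H i (Lam k H)))
  simp only [map_sum, map_smul, Finset.mul_sum, mul_smul_comm] at h2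
  exact h2

theorem ptr_Mop_P (hS : ∀ x : H, Sa k H (Sa k H x) = x) (hY : IsYD ρ σ) (n : ℕ) :
    ptr (Mop (rP (k := k) (H := H)) sP ρ σ *
      TensorProduct.map (theta (rP (k := k) (H := H)) sP ^ n) 1) = Tn n ρ σ := by
  rw [ptr_Mop]
  unfold Tn sw2
  refine Finset.sum_congr rfl fun i _ => Finset.sum_congr rfl fun j _ => ?_
  rw [tr_key hS]

private theorem comm_tR (hS : ∀ x : H, Sa k H (Sa k H x) = x) (hY : IsYD ρ σ) (n : ℕ) (h : H) :
    (Mop (rP (k := k) (H := H)) sP ρ σ *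
      TensorProduct.map (theta (rP (k := k) (H := H)) sP ^ n) 1) * tR rP ρ h =
    tR rP ρ h * (Mop (rP (k := k) (H := H)) sP ρ σ *
      TensorProduct.map (theta (rP (k := k) (H := H)) sP ^ n) 1) := by
  have h1 : TensorProduct.map (theta (rP (k := k) (H := H)) sP ^ n) (1 : Module.End k Y) *
      tR rP ρ h = tR rP ρ h * TensorProduct.map (theta (rP (k := k) (H := H)) sP ^ n) 1 := by
    rw [tR_apply]
    unfold sw2
    rw [Finset.mul_sum, Finset.sum_mul]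
    refine Finset.sum_congr rfl fun i _ => ?_
    rw [← TensorProduct.map_mul, ← TensorProduct.map_mul, pow_rho hS, one_mul, mul_one]
  rw [mul_assoc, h1, ← mul_assoc, Mop_tR hS (isYD_P hS) hY, mul_assoc]

private theorem comm_tS (hS : ∀ x : H, Sa k H (Sa k H x) = x) (hY : IsYD ρ σ) (n : ℕ)
    (f : H →ₗ[k] k) :
    (Mop (rP (k := k) (H := H)) sP ρ σ *
      TensorProduct.map (theta (rP (k := k) (H := H)) sP ^ n) 1) * tS sP σ f =
    tS sP σ f * (Mop (rP (k := k) (H := H)) sP ρ σ *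
      TensorProduct.map (theta (rP (k := k) (H := H)) sP ^ n) 1) := by
  have h1 : TensorProduct.map (theta (rP (k := k) (H := H)) sP ^ n) (1 : Module.End k Y) *
      tS sP σ f = tS sP σ f * TensorProduct.map (theta (rP (k := k) (H := H)) sP ^ n) 1 := by
    rw [tS_apply]
    rw [Finset.mul_sum, Finset.sum_mul]
    refine Finset.sum_congr rfl fun i _ => ?_
    rw [Finset.mul_sum, Finset.sum_mul]
    refine Finset.sum_congr rfl fun j _ => ?_
    rw [mul_smul_comm, smul_mul_assoc, ← TensorProduct.map_mul, ← TensorProduct.map_mul,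
      pow_sigma hS, one_mul, mul_one]
  rw [mul_assoc, h1, ← mul_assoc, Mop_tS hS (isYD_P hS) hY, mul_assoc]

theorem Tn_rho (hS : ∀ x : H, Sa k H (Sa k H x) = x) (hY : IsYD ρ σ) (n : ℕ) (h : H) :
    Tn n ρ σ * ρ h = ρ h * Tn n ρ σ := by
  rw [← ptr_Mop_P hS hY n]
  exact ptr_rho hS _ (comm_tR hS hY n) h

theorem Tn_sigma (hS : ∀ x : H, Sa k H (Sa k H x) = x) (hY : IsYD ρ σ) (n : ℕ) (f : H →ₗ[k] k) :
    Tn n ρ σ * σ f = σ f * Tn n ρ σ := by
  rw [← ptr_Mop_P hS hY n]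
  exact ptr_sigma hS (isYD_P hS) _ (comm_tS hS hY n) f

end Pool.Agent.KExp
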