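import Pool.Agent.Lib.KExp.Defs
import Pool.Agent.Lib.KExp.QPow

/-!
# KExp.BaseCh (MP_0d5e35_al, paper /team-store/MP_0d5e35_al_paper38.md)

Base change `K = AlgebraicClosure k`, `H' = K ⊗[k] H` (Mathlib: instances Algebra, Bialgebra, HopfAlgebra `K (K ⊗[k] H)`,
`TensorProduct.antipode_def`). `S'(c ⊗ h) = c ⊗ S(h)`, so `S' S' = id`; `finrank K H' = finrank k H`
(`Module.finrank_baseChange`); `Q K H' n (1 ⊗ h) = 1 ⊗ Q k H n h` by induction (comul of the base change), and
`1 ⊗ ·` is injective, so `Q K H' n = Q K H' 0` iff `Q k H n = Q k H 0` (K-linear extension).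
-/

set_option autoImplicit false

open scoped TensorProduct

namespace Pool.Agent.KExp

private theorem bc_S (k : Type) [Field k] (H : Type) [Ring H] [HopfAlgebra k H]
    [FiniteDimensional k H] (K : Type) [Field K] [Algebra k K]
    (hS : ∀ x : H, Sa k H (Sa k H x) = x) (x : K ⊗[k] H) :
    Sa K (K ⊗[k] H) (Sa K (K ⊗[k] H) x) = x := by
  have h1 : ∀ (c : K) (h : H), Sa K (K ⊗[k] H) (c ⊗ₜ[k] h) = c ⊗ₜ[k] Sa k H h := by
    intro c h
    have : Sa K (K ⊗[k] H) = TensorProduct.AlgebraTensorModule.map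
      (HopfAlgebra.antipode K (A := K)) (HopfAlgebra.antipode k (A := H)) :=
      TensorProduct.antipode_def
    rw [this, TensorProduct.AlgebraTensorModule.map_tmul]
    simp
  induction x with
  | zero => simp
  | tmul c h => rw [h1, h1, hS]
  | add a b ha hb => rw [map_add, map_add, ha, hb]

private theorem bc_comul (k : Type) [Field k] (H : Type) [Ring H] [HopfAlgebra k H]
    [FiniteDimensional k H] (K : Type) [Field K] [Algebra k K]
    (φ : K ⊗[k] H →ₗ[K] K ⊗[k] H) (ψ : H →ₗ[k] H)
    (hφ : ∀ h : H, φ (1 ⊗ₜ[k] h) = 1 ⊗ₜ[k] ψ h) (h : H) :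
    LinearMap.mul' K (K ⊗[k] H) (TensorProduct.map LinearMap.id φ
      (Coalgebra.comul (R := K) (A := K ⊗[k] H) (1 ⊗ₜ[k] h))) =
    1 ⊗ₜ[k] (LinearMap.mul' k H (TensorProduct.map LinearMap.id ψ
      (Coalgebra.comul (R := k) (A := H) h))) := by
  rw [TensorProduct.comul_tmul]
  have h1 : Coalgebra.comul (R := K) (A := K) 1 = (1 : K) ⊗ₜ[K] (1 : K) := by simp
  rw [h1]
  generalize Coalgebra.comul (R := k) (A := H) h = t
  induction t with
  | zero => simp
  | tmul a b => simp [hφ]
  | add a b ha hb =>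
    rw [TensorProduct.tmul_add, map_add, map_add, map_add, ha, hb, map_add, map_add,
      TensorProduct.tmul_add]

private theorem bc_Q (k : Type) [Field k] (H : Type) [Ring H] [HopfAlgebra k H]
    [FiniteDimensional k H] (K : Type) [Field K] [Algebra k K] (n : ℕ) (h : H) :
    Q K (K ⊗[k] H) n (1 ⊗ₜ[k] h) = 1 ⊗ₜ[k] Q k H n h := by
  induction n generalizing h with
  | zero =>
    have h1 : Q K (K ⊗[k] H) 0 (1 ⊗ₜ[k] h) =
        Coalgebra.counit (R := K) (A := K ⊗[k] H) (1 ⊗ₜ[k] h) • (1 : K ⊗[k] H) := Q_zero _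
    rw [h1, Q_zero, TensorProduct.counit_tmul, Algebra.TensorProduct.one_def]
    simp
  | succ n ih =>
    have := bc_comul k H K (Q K (K ⊗[k] H) n) (Q k H n) ih h
    exact this

theorem baseChange_facts (k : Type) [Field k] (H : Type) [Ring H] [HopfAlgebra k H]
    [FiniteDimensional k H] (hS : ∀ x : H, Sa k H (Sa k H x) = x) :
    ∃ (K : Type) (_ : Field K) (_ : Algebra k K) (_ : IsAlgClosed K) (H' : Type) (_ : Ring H')
      (_ : HopfAlgebra K H') (_ : FiniteDimensional K H'),
      (∀ x : H', Sa K H' (Sa K H' x) = x) ∧ Module.finrank K H' = Module.finrank k H ∧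
      ∀ n, Q K H' n = Q K H' 0 ↔ Q k H n = Q k H 0 := by
  refine ⟨AlgebraicClosure k, inferInstance, inferInstance, inferInstance,
    AlgebraicClosure k ⊗[k] H, inferInstance, inferInstance, inferInstance, ?_, ?_, ?_⟩
  · exact bc_S k H (AlgebraicClosure k) hS
  · exact Module.finrank_baseChange
  · intro n
    constructor
    · intro hn
      ext h
      have h1 := congrArg (fun f => f (1 ⊗ₜ[k] h)) hn
      simp only [bc_Q] at h1
      have hinj := Algebra.TensorProduct.includeRight_injective (R := k)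
        (A := AlgebraicClosure k) (B := H) (algebraMap k (AlgebraicClosure k)).injective
      exact hinj h1
    · intro hn
      apply TensorProduct.AlgebraTensorModule.curry_injective
      ext h
      simp [bc_Q, hn]

end Pool.Agent.KExp
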