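import Mathlib

/-!
# KExp.CoefDiv (MP_0d5e35_al, paper /team-store/MP_0d5e35_al_paper38.md)

(Mathlib only.) Section 5, second part. PROOF. `x = (m/p^a) ∑ c_u η^u ∈ ℚ(η)` is integral, so `x ∈ ℤ[η]`
(`IsCyclotomicExtension.Rat.isIntegralClosure_adjoin_singleton_of_prime_pow`, for the subfield `ℚ(η)` of `k`), i.e.
`x = f(η)` with `f ∈ ℤ[X]`. The integer polynomial `g = p^a f - m ∑ c_u X^u` vanishes at `η`, so `Φ_{p^a} | g` in `ℤ[X]`
(monic, `cyclotomic_eq_minpoly`), and `(X^{p^(a-1)} - 1) Φ_{p^a} = X^{p^a} - 1`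
(`Polynomial.cyclotomic_prime_pow_mul_X_pow_sub_one`). Hence `X^{p^a} - 1` divides
`(X^{p^(a-1)} - 1)(p^a f - m C)`, `C = ∑ c_u X^u`: the cyclic coefficients (mod `p^a` in the exponent) of
`(X^{p^(a-1)} - 1) m C` are divisible by `p^a`: `p^a | m (c_{u - p^(a-1)} - c_u)` for all `u`. (To extract the cyclic
coefficient of exponent `u`: the linear functional on `ℤ[X]` which sums the coefficients of all exponents
`≡ u mod p^a` kills multiples of `X^{p^a} - 1`.) Iterate `w` times.
-/

set_option autoImplicit false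

open scoped TensorProduct

namespace Pool.Agent.KExp



open Polynomial in
/-- The shift on functions on `ZMod N`. -/
private def sh (N : ℕ) : Module.End ℤ (ZMod N → ℤ) where
  toFun F := fun v => F (v - 1)
  map_add' := by intros; rfl
  map_smul' := by intros; rfl

private theorem sh_pow (N j : ℕ) (F : ZMod N → ℤ) (v : ZMod N) :
    ((sh N) ^ j) F v = F (v - (j : ZMod N)) := by
  induction j generalizing v with
  | zero => simp
  | succ j ih =>
    rw [pow_succ', Module.End.mul_apply]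
    change ((sh N) ^ j) F (v - 1) = _
    rw [ih]
    congr 1
    push_cast
    ring

private theorem sh_pow_N (N : ℕ) : (sh N) ^ N = 1 := by
  apply LinearMap.ext
  intro F
  funext v
  rw [sh_pow]
  simp

open Polynomial in
/-- Integral elements of `ℚ(η)` are polynomials in `η`. -/
private theorem integral_poly {k : Type} [Field k] [CharZero k] {p a : ℕ} (hp : p.Prime) {η : k}
    (hη : IsPrimitiveRoot η (p ^ a)) (z : k) (hz : IsIntegral ℤ z)
    (hzK : z ∈ IntermediateField.adjoin ℚ ({η} : Set k)) : ∃ f : ℤ[X], aeval η f = z := by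
  have : Fact p.Prime := ⟨hp⟩
  have : NeZero (p ^ a) := ⟨pow_ne_zero _ hp.ne_zero⟩
  have hint : IsIntegral ℚ η := (hη.isIntegral (pow_pos hp.pos _)).tower_top
  let K := IntermediateField.adjoin ℚ ({η} : Set k)
  have hcyc : IsCyclotomicExtension {p ^ a} ℚ K := by
    change IsCyclotomicExtension {p ^ a} ℚ (IntermediateField.adjoin ℚ ({η} : Set k)).toSubalgebra
    rw [IntermediateField.adjoin_simple_toSubalgebra_of_isAlgebraic hint.isAlgebraic]
    exact hη.adjoin_isCyclotomicExtension ℚ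
  let ζ : K := ⟨η, IntermediateField.mem_adjoin_simple_self ℚ η⟩
  have hζ : IsPrimitiveRoot ζ (p ^ a) :=
    IsPrimitiveRoot.of_map_of_injective (f := K.val) hη (RingHom.injective _)
  let z' : K := ⟨z, hzK⟩
  have hz' : IsIntegral ℤ z' := by
    have h1 : IsIntegral ℤ (algebraMap K k z') := hz
    exact (isIntegral_algebraMap_iff (algebraMap K k).injective).1 h1
  have h2 := (IsCyclotomicExtension.Rat.isIntegralClosure_adjoin_singleton_of_prime_pow
    (p := p) (k := a) hζ).isIntegral_iff.1 hz'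
  obtain ⟨y, hy⟩ := h2
  have hy2 : (y : K) ∈ (aeval (R := ℤ) ζ).range := by
    rw [← Algebra.adjoin_singleton_eq_range_aeval]
    exact y.2
  obtain ⟨f, hf⟩ := hy2
  refine ⟨f, ?_⟩
  have h3 : aeval ζ f = z' := hf.trans hy
  have h4 : K.val z' = z := rfl
  have h5 : K.val ζ = η := rfl
  rw [← h4, ← h3, ← h5]
  have h6 := Polynomial.aeval_algHom_apply (K.val.restrictScalars ℤ) ζ f
  exact h6


private theorem core {k : Type} [Field k] [CharZero k] {p b m N : ℕ} (hN : N = p ^ (b + 1))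
    (hp : p.Prime) {η : k}
    (hη : IsPrimitiveRoot η N) (c : ZMod N → ℤ)
    (h : IsIntegral ℤ ((m : k) / (p : k) ^ (b + 1) *
      ∑ u ∈ Finset.range N, (c (u : ZMod N) : k) * η ^ u))
    (u w : ZMod N) :
    ((p : ℤ) ^ (b + 1)) ∣ (m : ℤ) * (c u - c (u + w * (p : ZMod N) ^ b)) := by
  classical
  have : Fact p.Prime := ⟨hp⟩
  have hNpos : 0 < N := by rw [hN]; exact pow_pos hp.pos _
  have : NeZero N := ⟨hNpos.ne'⟩
  have hpk : (p : k) ^ (b + 1) ≠ 0 := pow_ne_zero _ (Nat.cast_ne_zero.2 hp.ne_zero)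
  -- polynomial
  obtain ⟨f, hf⟩ := integral_poly (a := b + 1) hp (hN ▸ hη) _ h (by
    have hηK : η ∈ IntermediateField.adjoin ℚ ({η} : Set k) :=
      IntermediateField.mem_adjoin_simple_self ℚ η
    refine mul_mem (div_mem (natCast_mem _ _) (pow_mem (natCast_mem _ _) _))
      (sum_mem fun u _ => mul_mem (intCast_mem _ _) (pow_mem hηK _)))
  let Cp : Polynomial ℤ := ∑ u ∈ Finset.range N, Polynomial.C (c (u : ZMod N)) * Polynomial.X ^ u
  let g : Polynomial ℤ := Polynomial.C ((p : ℤ) ^ (b + 1)) * f - Polynomial.C (m : ℤ) * Cp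
  have hg : Polynomial.aeval η g = 0 := by
    simp only [g, Cp, map_sub, map_mul, map_sum, map_pow, Polynomial.aeval_C, Polynomial.aeval_X,
      hf]
    simp only [map_natCast, algebraMap_int_eq, eq_intCast]
    have h1 : (p : k) ^ (b + 1) * ((m : k) / (p : k) ^ (b + 1)) = m := by field_simp
    rw [← mul_assoc]
    rw [h1, sub_self]
  have hint : IsIntegral ℤ η := hη.isIntegral hNpos
  have hdvd : Polynomial.cyclotomic N ℤ ∣ g := by
    rw [Polynomial.cyclotomic_eq_minpoly hη hNpos]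
    exact minpoly.isIntegrallyClosed_dvd hint hg
  have hdvd2 : (Polynomial.X ^ N - 1 : Polynomial ℤ) ∣ g * (Polynomial.X ^ p ^ b - 1) := by
    have h1 : Polynomial.cyclotomic N ℤ * (Polynomial.X ^ p ^ b - 1) = Polynomial.X ^ N - 1 := by
      rw [hN]
      exact Polynomial.cyclotomic_prime_pow_mul_X_pow_sub_one ℤ p b
    rw [← h1]
    exact mul_dvd_mul_right hdvd _
  obtain ⟨q, hq⟩ := hdvd2
  have e0 : Polynomial.aeval (sh N) (Polynomial.X ^ N - 1 : Polynomial ℤ) = 0 := by
    rw [map_sub, map_pow, Polynomial.aeval_X, map_one, sh_pow_N, sub_self]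
  have e1 : Polynomial.aeval (sh N) (g * (Polynomial.X ^ p ^ b - 1)) = 0 := by
    rw [hq, map_mul, e0, zero_mul]
  let δ : ZMod N → ℤ := fun v => if v = 0 then 1 else 0
  set G : ZMod N → ℤ := Polynomial.aeval (sh N) g δ with hG
  set F : ZMod N → ℤ := Polynomial.aeval (sh N) f δ with hF
  have e2 : ∀ v, G (v - ((p ^ b : ℕ) : ZMod N)) = G v := by
    intro v
    have h1 : Polynomial.aeval (sh N) ((Polynomial.X ^ p ^ b - 1) * g) δ v = 0 := by
      rw [mul_comm, e1]; rfl
    rw [map_mul, Module.End.mul_apply, ← hG, map_sub, map_pow, Polynomial.aeval_X, map_one] at h1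
    have h2 : (((sh N) ^ (p ^ b) - 1) G) v = ((sh N) ^ (p ^ b)) G v - G v := rfl
    rw [h2, sh_pow] at h1
    linarith
  have e3 : ∀ v, G v = (p : ℤ) ^ (b + 1) * F v - m * c v := by
    intro v
    have h1 : Polynomial.aeval (sh N) Cp δ = c := by
      funext w
      simp only [Cp, map_sum, map_mul, map_pow, Polynomial.aeval_X]
      rw [LinearMap.sum_apply, Finset.sum_apply]
      have h2 : ∀ u ∈ Finset.range N,
          ((Polynomial.aeval (sh N)) (Polynomial.C (c (u : ZMod N))) * (sh N) ^ u) δ w =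
          if u = w.val then c (u : ZMod N) else 0 := by
        intro u hu
        rw [Polynomial.aeval_C, Module.End.mul_apply, Module.algebraMap_end_apply, Pi.smul_apply,
          sh_pow, smul_eq_mul]
        by_cases h3 : u = w.val
        · rw [if_pos h3]
          have h4 : w - ((u : ℕ) : ZMod N) = 0 := by
            rw [h3, ZMod.natCast_zmod_val, sub_self]
          simp only [δ, h4, if_true, mul_one]
        · rw [if_neg h3]
          have h4 : w - ((u : ℕ) : ZMod N) ≠ 0 := by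
            intro h5
            apply h3
            rw [sub_eq_zero] at h5
            rw [h5, ZMod.val_natCast_of_lt (Finset.mem_range.1 hu)]
          simp only [δ, if_neg h4, mul_zero]
      rw [Finset.sum_congr rfl h2, Finset.sum_ite_eq' (Finset.range N) w.val, if_pos
        (Finset.mem_range.2 (ZMod.val_lt w)), ZMod.natCast_zmod_val]
    have h3 : G = (p : ℤ) ^ (b + 1) • F - (m : ℤ) • c := by
      rw [hG]
      simp only [g, map_sub, map_mul]
      rw [LinearMap.sub_apply, Module.End.mul_apply, Module.End.mul_apply, h1,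
        Polynomial.aeval_C, Polynomial.aeval_C, Module.algebraMap_end_apply,
        Module.algebraMap_end_apply]
    rw [h3]
    simp only [Pi.sub_apply, Pi.smul_apply, smul_eq_mul]
  have e4 : ∀ v, (p : ℤ) ^ (b + 1) ∣ (m : ℤ) * (c v - c (v + ((p ^ b : ℕ) : ZMod N))) := by
    intro v
    have h1 := e2 (v + ((p ^ b : ℕ) : ZMod N))
    rw [add_sub_cancel_right, e3, e3] at h1
    refine ⟨F v - F (v + ((p ^ b : ℕ) : ZMod N)), ?_⟩
    linarith
  have e5 : ∀ (n : ℕ) (v : ZMod N),
      (p : ℤ) ^ (b + 1) ∣ (m : ℤ) * (c v - c (v + (n : ZMod N) * ((p ^ b : ℕ) : ZMod N))) := by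
    intro n
    induction n with
    | zero => intro v; simp
    | succ n ih =>
      intro v
      have h1 := dvd_add (ih v) (e4 (v + (n : ZMod N) * ((p ^ b : ℕ) : ZMod N)))
      have h2 : v + (n : ZMod N) * ((p ^ b : ℕ) : ZMod N) + ((p ^ b : ℕ) : ZMod N) =
          v + ((n + 1 : ℕ) : ZMod N) * ((p ^ b : ℕ) : ZMod N) := by
        push_cast
        ring
      rw [h2] at h1
      have h3 : (m : ℤ) * (c v - c (v + ((n + 1 : ℕ) : ZMod N) * ((p ^ b : ℕ) : ZMod N))) =
          m * (c v - c (v + (n : ZMod N) * ((p ^ b : ℕ) : ZMod N))) +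
          m * (c (v + (n : ZMod N) * ((p ^ b : ℕ) : ZMod N)) -
            c (v + ((n + 1 : ℕ) : ZMod N) * ((p ^ b : ℕ) : ZMod N))) := by ring
      rw [h3]
      exact h1
  have e6 := e5 w.val u
  rw [ZMod.natCast_zmod_val] at e6
  have e8 : ((p ^ b : ℕ) : ZMod N) = (p : ZMod N) ^ b := by push_cast; rfl
  rw [e8] at e6
  exact e6

theorem coef_div {k : Type} [Field k] [CharZero k] {p a m : ℕ} (hp : p.Prime) (ha : 0 < a) {η : k}
    (hη : IsPrimitiveRoot η (p ^ a)) (c : ZMod (p ^ a) → ℤ)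
    (h : IsIntegral ℤ ((m : k) / (p : k) ^ a *
      ∑ u ∈ Finset.range (p ^ a), (c (u : ZMod (p ^ a)) : k) * η ^ u))
    (u w : ZMod (p ^ a)) :
    ((p : ℤ) ^ a) ∣ (m : ℤ) * (c u - c (u + w * (p : ZMod (p ^ a)) ^ (a - 1))) := by
  obtain ⟨b, rfl⟩ : ∃ b, a = b + 1 := ⟨a - 1, by omega⟩
  exact core rfl hp hη c h u w

end Pool.Agent.KExp
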