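import Mathlib

/-!
# MP_0d5e35_al: exp(H) divides 2 dim(H)^2, definitions (paper /team-store/MP_0d5e35_al_paper38.md)
-/

set_option autoImplicit false

open scoped TensorProduct

namespace Pool.Agent.KExp

section hopf

variable (k : Type) [Field k] (H : Type) [Ring H] [HopfAlgebra k H] [FiniteDimensional k H]

/-- the vectors of a fixed basis of `H` -/
noncomputable def e (i : Fin (Module.finrank k H)) : H := Module.finBasis k H i

/-- the dual basis -/
noncomputable def ec (i : Fin (Module.finrank k H)) : H →ₗ[k] k := (Module.finBasis k H).coord i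

/-- the antipode -/
noncomputable abbrev Sa : H →ₗ[k] H := HopfAlgebra.antipode k (A := H)

/-- the counit -/
noncomputable abbrev ep : H →ₗ[k] k := Coalgebra.counit (R := k) (A := H)

/-- `h ↦ e^j(h₁) h₂`, so that `Δ(h) = ∑ⱼ eⱼ ⊗ D j h` -/
noncomputable def D (j : Fin (Module.finrank k H)) : H →ₗ[k] H :=
  (TensorProduct.lid k H).toLinearMap ∘ₗ (ec k H j).rTensor H ∘ₗ
    Coalgebra.comul (R := k) (A := H)

/-- the regular character `λ(h) = Tr(x ↦ h x)` -/
noncomputable def lam : H →ₗ[k] k := LinearMap.trace k H ∘ₗ LinearMap.mul k H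

/-- the integral `Λ`: `f(Λ) = Tr(w ↦ f(w₁) w₂)` -/
noncomputable def Lam : H := ∑ i, LinearMap.trace k H (D k H i) • e k H i

/-- the Sweedler powers `Q n h = h₁ h₂ ⋯ hₙ` -/
noncomputable def Q : ℕ → (H →ₗ[k] H)
  | 0 => Algebra.linearMap k H ∘ₗ Coalgebra.counit (R := k) (A := H)
  | n + 1 => LinearMap.mul' k H ∘ₗ TensorProduct.map LinearMap.id (Q n) ∘ₗ
      Coalgebra.comul (R := k) (A := H)

variable {H}

/-- Sweedler sums: `sw2 k F h = ∑ F h₁ h₂` -/
noncomputable def sw2 {Z : Type} [AddCommMonoid Z] (F : H → H → Z) (h : H) : Z :=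
  ∑ j, F (e k H j) (D k H j h)

/-- `sw3 k F h = ∑ F h₁ h₂ h₃` -/
noncomputable def sw3 {Z : Type} [AddCommMonoid Z] (F : H → H → H → Z) (h : H) : Z :=
  ∑ j, ∑ l, F (e k H j) (e k H l) (D k H l (D k H j h))

/-- bilinear functions `H × H → Z` -/
def Bil2 {Z : Type} [AddCommGroup Z] [Module k Z] (F : H → H → Z) : Prop :=
  (∀ b, IsLinearMap k (fun a => F a b)) ∧ (∀ a, IsLinearMap k (fun b => F a b))

/-- trilinear functions `H × H × H → Z` -/
def Tri3 {Z : Type} [AddCommGroup Z] [Module k Z] (F : H → H → H → Z) : Prop :=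
  (∀ b c, IsLinearMap k (fun a => F a b c)) ∧ (∀ a c, IsLinearMap k (fun b => F a b c)) ∧
    (∀ a b, IsLinearMap k (fun c => F a b c))

variable {k}

/-- the product of the dual: `(cv f g)(h) = f(h₁) g(h₂)` -/
noncomputable def cv (f g : H →ₗ[k] k) : H →ₗ[k] k :=
  LinearMap.mul' k k ∘ₗ TensorProduct.map f g ∘ₗ Coalgebra.comul (R := k) (A := H)

/-- `tw f a c = (x ↦ f(a x c))` -/
noncomputable def tw (f : H →ₗ[k] k) (a c : H) : H →ₗ[k] k :=
  f ∘ₗ LinearMap.mulLeft k a ∘ₗ LinearMap.mulRight k c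

section yd

variable {X Y W : Type} [AddCommGroup X] [Module k X] [AddCommGroup Y] [Module k Y]
  [AddCommGroup W] [Module k W]

/-- Yetter-Drinfeld data: `ρ` the action, `σ f x = f(x₍₋₁₎) x₍₀₎` -/
structure IsYD (ρ : H →ₐ[k] Module.End k X) (σ : (H →ₗ[k] k) →ₗ[k] Module.End k X) : Prop where
  one : σ (Coalgebra.counit (R := k) (A := H)) = 1
  mul : ∀ f g : H →ₗ[k] k, σ f * σ g = σ (cv g f)
  yd : ∀ (f : H →ₗ[k] k) (h : H),
    σ f * ρ h = sw3 k (fun a b c => ρ b * σ (tw f a (Sa k H c))) h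

/-- the twist `x ↦ x₍₋₁₎ x₍₀₎` -/
noncomputable def theta (ρ : H →ₐ[k] Module.End k X) (σ : (H →ₗ[k] k) →ₗ[k] Module.End k X) :
    Module.End k X := ∑ i, ρ (e k H i) * σ (ec k H i)

/-- the action on a tensor product -/
noncomputable def tR (ρ : H →ₐ[k] Module.End k X) (ρ' : H →ₐ[k] Module.End k Y) :
    H →ₐ[k] Module.End k (X ⊗[k] Y) :=
  (Module.endTensorEndAlgHom (R := k) (S := k) (A := k) (M := X) (N := Y)).comp
    ((Algebra.TensorProduct.map ρ ρ').comp (Bialgebra.comulAlgHom k H))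

/-- the coaction on a tensor product -/
noncomputable def tS (σ : (H →ₗ[k] k) →ₗ[k] Module.End k X)
    (σ' : (H →ₗ[k] k) →ₗ[k] Module.End k Y) :
    (H →ₗ[k] k) →ₗ[k] Module.End k (X ⊗[k] Y) :=
  ∑ i, ∑ j, (LinearMap.applyₗ (R := k) (e k H i * e k H j)).smulRight
    (TensorProduct.map (σ (ec k H i)) (σ' (ec k H j)))

/-- the double braiding -/
noncomputable def Mop (ρ : H →ₐ[k] Module.End k X) (σ : (H →ₗ[k] k) →ₗ[k] Module.End k X)
    (ρ' : H →ₐ[k] Module.End k Y) (σ' : (H →ₗ[k] k) →ₗ[k] Module.End k Y) :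
    Module.End k (X ⊗[k] Y) :=
  ∑ i, ∑ j, TensorProduct.map (ρ (e k H j) * σ (ec k H i)) (σ' (ec k H j) * ρ' (e k H i))

/-- the operators `T_n(Y) = ∑ λ(eⱼ Q_n(Λ₂)) σ(e^j) ρ(Λ₁)` -/
noncomputable def Tn (n : ℕ) (ρ : H →ₐ[k] Module.End k Y)
    (σ : (H →ₗ[k] k) →ₗ[k] Module.End k Y) : Module.End k Y :=
  sw2 k (fun a b => ∑ j, lam k H (e k H j * Q k H n b) • (σ (ec k H j) * ρ a)) (Lam k H)

/-- partial trace over the first factor -/
noncomputable def ptr [FiniteDimensional k X] (T : Module.End k (X ⊗[k] Y)) : Module.End k Y :=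
  ∑ i, (TensorProduct.lid k Y).toLinearMap ∘ₗ ((Module.finBasis k X).coord i).rTensor Y ∘ₗ T ∘ₗ
    TensorProduct.mk k X Y (Module.finBasis k X i)

/-- `f ↦ B f C` on `Hom(Y, W)` -/
noncomputable def sand (B : Module.End k W) (C : Module.End k Y) :
    (Y →ₗ[k] W) →ₗ[k] (Y →ₗ[k] W) where
  toFun f := B ∘ₗ f ∘ₗ C
  map_add' f g := by ext y; simp
  map_smul' c f := by ext y; simp

/-- the `H`-linear maps `Y → W` -/
noncomputable def HV (ρ : H →ₐ[k] Module.End k Y) (R : H →ₐ[k] Module.End k W) :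
    Submodule k (Y →ₗ[k] W) where
  carrier := {f | ∀ h, f ∘ₗ ρ h = R h ∘ₗ f}
  zero_mem' := by intro h; simp
  add_mem' := by
    intro f g hf hg h
    rw [LinearMap.add_comp, LinearMap.comp_add, hf h, hg h]
  smul_mem' := by
    intro c f hf h
    rw [LinearMap.smul_comp, LinearMap.comp_smul, hf h]

end yd

section regular

/-- the action on the regular Yetter-Drinfeld module `H ⊗ H`: `h (x ⊗ w) = h x ⊗ w` -/
noncomputable def rP : H →ₐ[k] Module.End k (H ⊗[k] H) :=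
  (Module.endTensorEndAlgHom (R := k) (S := k) (A := k) (M := H) (N := H)).comp
    (Algebra.TensorProduct.includeLeft.comp (Algebra.lmul k H))

/-- the coaction on `H ⊗ H`: `σ f (x ⊗ w) = f(x₁ w₁ S(x₃)) x₂ ⊗ w₂` -/
noncomputable def sP : (H →ₗ[k] k) →ₗ[k] Module.End k (H ⊗[k] H) where
  toFun f := ∑ j, ∑ l, ∑ q, TensorProduct.map
    ((f ∘ₗ LinearMap.mulLeft k (e k H j) ∘ₗ LinearMap.mulLeft k (e k H q) ∘ₗ Sa k H ∘ₗ
      D k H l ∘ₗ D k H j).smulRight (e k H l)) (D k H q)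
  map_add' f g := by
    simp only [← Finset.sum_add_distrib]
    refine Finset.sum_congr rfl fun j _ => Finset.sum_congr rfl fun l _ =>
      Finset.sum_congr rfl fun q _ => ?_
    rw [← TensorProduct.map_add_left]
    congr 1
    ext x
    simp [add_smul]
  map_smul' c f := by
    simp only [Finset.smul_sum, RingHom.id_apply]
    refine Finset.sum_congr rfl fun j _ => Finset.sum_congr rfl fun l _ =>
      Finset.sum_congr rfl fun q _ => ?_
    rw [← TensorProduct.map_smul_left]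
    congr 1
    ext x
    simp [mul_smul]

end regular

section cyc

variable {W : Type} [AddCommGroup W] [Module k W]

/-- `LL L n h = ∑ L₀(h₁) L₁(h₂) ⋯ Lₙ₋₁(hₙ)` -/
noncomputable def LL (L : ℕ → (H →ₐ[k] Module.End k W)) : ℕ → H → Module.End k W
  | 0 => fun h => ep k H h • 1
  | n + 1 => sw2 k (fun a b => LL L n a * L n b)

/-- `AA L n h = ∑ Lₙ₋₁(S(h₁)) ⋯ L₀(S(hₙ))` -/
noncomputable def AA (L : ℕ → (H →ₐ[k] Module.End k W)) : ℕ → H → Module.End k W
  | 0 => fun h => ep k H h • 1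
  | n + 1 => sw2 k (fun a b => L n (Sa k H a) * AA L n b)

variable (k H W) in
/-- a model of `H^{⊗ n}`: `L j a` = left multiplication by `a` on the factor `j < n`, `s` the
cyclic shift `h₀ ⊗ ⋯ ⊗ hₙ₋₁ ↦ h₁ ⊗ ⋯ ⊗ hₙ₋₁ ⊗ h₀` -/
structure Cyc (n : ℕ) where
  s : Module.End k W
  L : ℕ → (H →ₐ[k] Module.End k W)
  comm : ∀ i j, i < n → j < n → i ≠ j → ∀ a b : H, L i a * L j b = L j b * L i a
  shift : ∀ j, j + 1 < n → ∀ a : H, s * L (j + 1) a = L j a * s
  last : ∀ a : H, s * L 0 a = L (n - 1) a * s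
  spow : s ^ n = 1
  tr1 : ∀ a : ℕ → H, LinearMap.trace k W (s * ((List.range n).map (fun j => L j (a j))).prod) =
    lam k H (((List.range n).map a).prod)
  tr2 : ∀ a : ℕ → H, LinearMap.trace k W (((List.range n).map (fun j => L j (a j))).prod) =
    ((List.range n).map (fun j => lam k H (a j))).prod

/-- the rotation on `Hom(Y, W)`: `E f = ∑_q s L₀(S(e_q)) f σ(e^q)` -/
noncomputable def Erot {Y : Type} [AddCommGroup Y] [Module k Y] {n : ℕ} (C : Cyc k H W n)
    (σ : (H →ₗ[k] k) →ₗ[k] Module.End k Y) : (Y →ₗ[k] W) →ₗ[k] (Y →ₗ[k] W) :=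
  ∑ q, sand (C.s * C.L 0 (Sa k H (e k H q))) (σ (ec k H q))

end cyc

end hopf

/-- the number of units `x` mod `p^a` with `s x + x⁻¹ = u` -/
noncomputable def klc (M : ℕ) (s u : ZMod M) : ℤ :=
  (Nat.card {x : (ZMod M)ˣ // s * (x : ZMod M) + ((x⁻¹ : (ZMod M)ˣ) : ZMod M) = u} : ℤ)

end Pool.Agent.KExp
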