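import Pool.Agent.Lib.KExp.Defs
import Pool.Agent.Lib.KExp.Sw
import Pool.Agent.Lib.KExp.TensApp
import Pool.Agent.Lib.KExp.CE

/-!
# KExp.Triv (MP_0d5e35_al, finiteness of the exponent)

Trivial data on a vector space `X`: `h` acts by `ε(h)`, `f` by `f(1)`. PROOFS: `tR ρ trR h = ρ(h) ⊗ 1` (tR_apply,
sw2_counit_right), `tS σ trS f = ∑ f(eᵢ eⱼ) e^j(1) σ(e^i) ⊗ 1 = σ(f) ⊗ 1` (`∑ e^j(1) eⱼ = 1`, sum_ec of CE may be imported).
-/

set_option autoImplicit false

open scoped TensorProduct

namespace Pool.Agent.KExp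

variable {k : Type} [Field k] {H : Type} [Ring H] [HopfAlgebra k H] [FiniteDimensional k H]

section defs

variable (k : Type) [Field k] (H : Type) [Ring H] [HopfAlgebra k H] [FiniteDimensional k H]
  (X : Type) [AddCommGroup X] [Module k X]

/-- `h` acts by `ε(h)` -/
noncomputable def trR : H →ₐ[k] Module.End k X :=
  (Algebra.ofId k (Module.End k X)).comp (Bialgebra.counitAlgHom k H)

/-- `f` acts by `f(1)` -/
noncomputable def trS : (H →ₗ[k] k) →ₗ[k] Module.End k X :=
  (LinearMap.applyₗ (R := k) (1 : H)).smulRight (1 : Module.End k X)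

end defs

variable {X Y : Type} [AddCommGroup X] [Module k X] [AddCommGroup Y] [Module k Y]

private theorem map_smul_one (T : Module.End k Y) (c : k) :
    (TensorProduct.map T (c • (1 : Module.End k X)) : Module.End k (Y ⊗[k] X)) =
      c • TensorProduct.map T (1 : Module.End k X) := by
  rw [TensorProduct.map_smul_right]

private theorem map_lin (ρ : H →ₗ[k] Module.End k Y) :
    IsLinearMap k (fun a => (TensorProduct.map (ρ a) (1 : Module.End k X) :
      Module.End k (Y ⊗[k] X))) := by
  refine ⟨fun x y => ?_, fun c x => ?_⟩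
  · rw [map_add, TensorProduct.map_add_left]
  · rw [map_smul, TensorProduct.map_smul_left]

theorem tR_triv (ρ : H →ₐ[k] Module.End k Y) (h : H) :
    tR ρ (trR k H X) h = TensorProduct.map (ρ h) 1 := by
  rw [tR_apply]
  have h1 : ∀ b : H, trR k H X b = ep k H b • (1 : Module.End k X) := by
    intro b
    simp only [trR, AlgHom.comp_apply, Algebra.ofId_apply, Bialgebra.counitAlgHom_apply]
    exact Algebra.algebraMap_eq_smul_one _
  simp only [h1, map_smul_one]
  exact sw2_counit_right (map_lin ρ.toLinearMap) h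

theorem tS_triv (σ : (H →ₗ[k] k) →ₗ[k] Module.End k Y) (f : H →ₗ[k] k) :
    tS σ (trS k H X) f = TensorProduct.map (σ f) 1 := by
  rw [tS_apply]
  have h1 : ∀ g : H →ₗ[k] k, trS k H X g = g 1 • (1 : Module.End k X) := fun g => rfl
  have h2 : ∀ i, ∑ j, f (e k H i * e k H j) •
      (TensorProduct.map (σ (ec k H i)) (trS k H X (ec k H j)) : Module.End k (Y ⊗[k] X)) =
      f (e k H i) • TensorProduct.map (σ (ec k H i)) (1 : Module.End k X) := by
    intro i
    simp only [h1, map_smul_one, smul_smul]
    rw [← Finset.sum_smul]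
    congr 1
    calc ∑ j, f (e k H i * e k H j) * ec k H j 1
        = f (e k H i * ∑ j, ec k H j 1 • e k H j) := by
          rw [Finset.mul_sum, map_sum]
          refine Finset.sum_congr rfl fun j _ => ?_
          rw [mul_smul_comm, map_smul, smul_eq_mul, mul_comm]
      _ = f (e k H i) := by rw [sum_ec, mul_one]
  simp only [h2]
  conv_rhs => rw [← sum_e (k := k) f]
  rw [map_sum]
  have h3 : ∀ g : (H →ₗ[k] k), ∀ c : k, c • (TensorProduct.map (σ g) (1 : Module.End k X) :
      Module.End k (Y ⊗[k] X)) = TensorProduct.map (σ (c • g)) 1 := by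
    intro g c
    rw [map_smul, TensorProduct.map_smul_left]
  simp only [h3]
  exact (map_sum ((TensorProduct.mapBilinear (RingHom.id k) Y X Y X).flip 1) _ _).symm

end Pool.Agent.KExp
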