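import Pool.Agent.Lib.KExp.Defs
import Pool.Agent.Lib.KExp.Sw
import Pool.Agent.Lib.KExp.CE
import Pool.Agent.Lib.KExp.TensApp
import Pool.Agent.Lib.KExp.PYD
import Pool.Agent.Lib.KExp.Triv
import Pool.Agent.Lib.KExp.TensYD

/-!
# KExp.PIso (MP_0d5e35_al, finiteness of the exponent)

`P ⊗ X ≅ P ⊗ X_triv` for the regular data `P = H ⊗ H`. PROOF. `P ⊗ X` has elements `x ⊗ w ⊗ y`,
`h` acts by `h₁x ⊗ w ⊗ h₂y`, `f` by `f(x₁w₁S(x₃)y₋₁) x₂ ⊗ w₂ ⊗ y₀`.
Step 1. `Φ₁(x ⊗ w ⊗ y) = x₁ ⊗ w ⊗ S(x₂) y`, inverse `x₁ ⊗ w ⊗ x₂ y`. It transports the action to `h x ⊗ w ⊗ y`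
(`S(h₂x₂)h₃y = S(x₂)S(h₂)h₃y`) and the coaction to `f(x₁ w₁ y₋₁ S(x₃)) x₂ ⊗ w₂ ⊗ y₀`: on `x₁ ⊗ w ⊗ x₂ y` it is
`f(x₁ w₁ S(x₃) (x₄y)₋₁) x₂ ⊗ w₂ ⊗ (x₄y)₀ = f(x₁ w₁ S(x₃) x₄ y₋₁ S(x₆)) x₂ ⊗ w₂ ⊗ x₅y₀ = f(x₁ w₁ y₋₁ S(x₄)) x₂ ⊗ w₂ ⊗ x₃y₀`
(relation yd), then apply `Φ₁`.
Step 2. `Φ₂(x ⊗ w ⊗ y) = x ⊗ w y₋₁ ⊗ y₀`, inverse `x ⊗ w S(y₋₁) ⊗ y₀`; it commutes with the action on `x` and maps
the coaction `f(x₁ w₁ y₋₁ S(x₃)) x₂ ⊗ w₂ ⊗ y₀` to `f(x₁ w₁ S(x₃)) x₂ ⊗ w₂ ⊗ y` (`Δ(w y₋₁) = w₁y₋₂ ⊗ w₂y₋₁`).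
Here `y₋₁ ⊗ y₀ = ∑ eᵢ ⊗ σ(e^i) y`. `Φ = Φ₂ Φ₁`. Two explicit inverse linear maps give the equivalence (or:
injective and finite dimensional).
-/

set_option autoImplicit false
set_option linter.unusedSectionVars false
set_option linter.unusedVariables false

open scoped TensorProduct

namespace Pool.Agent.KExp

variable {k : Type} [Field k] {H : Type} [Ring H] [HopfAlgebra k H] [FiniteDimensional k H]

variable {X : Type} [AddCommGroup X] [Module k X] [FiniteDimensional k X]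
  {ρ : H →ₐ[k] Module.End k X} {σ : (H →ₗ[k] k) →ₗ[k] Module.End k X}

section tools

variable {Z Z' : Type} [AddCommGroup Z] [Module k Z] [AddCommGroup Z'] [Module k Z']

private theorem map_sw2 (L : Z →ₗ[k] Z') (F : H → H → Z) (h : H) :
    L (sw2 k F h) = sw2 k (fun a b => L (F a b)) h := by
  unfold sw2
  exact map_sum L _ _

private theorem map_sw3 (L : Z →ₗ[k] Z') (F : H → H → H → Z) (h : H) :
    L (sw3 k F h) = sw3 k (fun a b c => L (F a b c)) h := by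
  unfold sw3
  rw [map_sum]
  exact Finset.sum_congr rfl fun j _ => map_sum L _ _

private theorem sw2_comm (F : H → H → H → H → Z) (x w : H) :
    sw2 k (fun a b => sw2 k (fun u v => F a b u v) w) x =
      sw2 k (fun u v => sw2 k (fun a b => F a b u v) x) w := by
  unfold sw2
  exact Finset.sum_comm

private theorem sw2_par {F : Z' → H → H → Z} (hF : ∀ a b, IsLinearMap k (fun t => F t a b))
    (h : H) : IsLinearMap k (fun t => sw2 k (F t) h) := by
  refine ⟨fun s t => ?_, fun c s => ?_⟩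
  · unfold sw2
    rw [← Finset.sum_add_distrib]
    exact Finset.sum_congr rfl fun j _ => (hF _ _).map_add s t
  · unfold sw2
    rw [Finset.smul_sum]
    exact Finset.sum_congr rfl fun j _ => (hF _ _).map_smul c s

private theorem lin_of (L : Z →ₗ[k] Z') : IsLinearMap k (fun t => L t) :=
  ⟨L.map_add, L.map_smul⟩

end tools

/-- evaluation at a vector of a Sweedler sum of endomorphisms -/
private theorem sw2_apply {M : Type} [AddCommGroup M] [Module k M] (F : H → H → Module.End k M)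
    (h : H) (m : M) : (sw2 k F h) m = sw2 k (fun a b => F a b m) h := by
  unfold sw2
  rw [LinearMap.sum_apply]

private theorem sw3_apply {M : Type} [AddCommGroup M] [Module k M]
    (F : H → H → H → Module.End k M) (h : H) (m : M) :
    (sw3 k F h) m = sw3 k (fun a b c => F a b c m) h := by
  unfold sw3
  rw [LinearMap.sum_apply]
  exact Finset.sum_congr rfl fun j _ => by rw [LinearMap.sum_apply]

variable (ρ) in
/-- `(x ⊗ w) ⊗ y ↦ x₁ ⊗ w ⊗ x₂ y` -/
private noncomputable def Psi : ((H ⊗[k] H) ⊗[k] X) →ₗ[k] ((H ⊗[k] H) ⊗[k] X) :=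
  TensorProduct.lift (TensorProduct.lift (LinearMap.mk₂ k
    (fun x w : H => (tR (rP (k := k) (H := H)) ρ x) ∘ₗ
      (TensorProduct.mk k (H ⊗[k] H) X ((1 : H) ⊗ₜ[k] w)))
    (fun x x' w => by rw [map_add, LinearMap.add_comp])
    (fun c x w => by rw [map_smul, LinearMap.smul_comp])
    (fun x w w' => by rw [TensorProduct.tmul_add, map_add, LinearMap.comp_add])
    (fun c x w => by rw [TensorProduct.tmul_smul, map_smul, LinearMap.comp_smul])))

private theorem Psi_tmul (x w : H) (y : X) : Psi ρ ((x ⊗ₜ[k] w) ⊗ₜ[k] y) =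
    tR (rP (k := k) (H := H)) ρ x (((1 : H) ⊗ₜ[k] w) ⊗ₜ[k] y) := by
  unfold Psi
  simp

private theorem Psi_eval (x w : H) (y : X) : Psi ρ ((x ⊗ₜ[k] w) ⊗ₜ[k] y) =
    sw2 k (fun a b => (a ⊗ₜ[k] w) ⊗ₜ[k] ρ b y) x := by
  rw [Psi_tmul, tR_apply, sw2_apply]
  congr 1
  funext a b
  rw [TensorProduct.map_tmul, rP_tmul, mul_one]

private theorem Psi_one (w : H) (y : X) : Psi ρ (((1 : H) ⊗ₜ[k] w) ⊗ₜ[k] y) =
    ((1 : H) ⊗ₜ[k] w) ⊗ₜ[k] y := by
  rw [Psi_tmul, map_one]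
  rfl

private theorem range_top {T : ((H ⊗[k] H) ⊗[k] X) →ₗ[k] ((H ⊗[k] H) ⊗[k] X)}
    (h : ∀ (x w : H) (y : X), ∃ t, T t = (x ⊗ₜ[k] w) ⊗ₜ[k] y) : Function.Surjective T := by
  intro t
  induction t with
  | zero => exact ⟨0, map_zero T⟩
  | tmul q y =>
    induction q with
    | zero => exact ⟨0, by rw [TensorProduct.zero_tmul, map_zero]⟩
    | tmul x w => exact h x w y
    | add a b ha hb =>
      obtain ⟨s, hs⟩ := ha
      obtain ⟨s', hs'⟩ := hb
      exact ⟨s + s', by rw [map_add, hs, hs', TensorProduct.add_tmul]⟩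
  | add a b ha hb =>
    obtain ⟨s, hs⟩ := ha
    obtain ⟨s', hs'⟩ := hb
    exact ⟨s + s', by rw [map_add, hs, hs']⟩

/-- `m ↦ (c ⊗ w) ⊗ ρ m y` etc. are linear -/
private theorem lin1 (w : H) (z : X) :
    IsLinearMap k (fun c : H => ((c ⊗ₜ[k] w) ⊗ₜ[k] z : (H ⊗[k] H) ⊗[k] X)) :=
  ⟨fun a b => by rw [TensorProduct.add_tmul, TensorProduct.add_tmul],
    fun c a => by rw [TensorProduct.smul_tmul', TensorProduct.smul_tmul']⟩

private theorem lin2 (x : H) (z : X) :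
    IsLinearMap k (fun c : H => ((x ⊗ₜ[k] c) ⊗ₜ[k] z : (H ⊗[k] H) ⊗[k] X)) :=
  ⟨fun a b => by rw [TensorProduct.tmul_add, TensorProduct.add_tmul],
    fun c a => by rw [TensorProduct.tmul_smul]; exact (TensorProduct.smul_tmul' _ _ _).symm⟩

private theorem lin3 (x w : H) :
    IsLinearMap k (fun z : X => ((x ⊗ₜ[k] w) ⊗ₜ[k] z : (H ⊗[k] H) ⊗[k] X)) :=
  ⟨fun a b => by rw [TensorProduct.tmul_add], fun c a => by rw [TensorProduct.tmul_smul]⟩

private theorem lin_comp {A B C : Type} [AddCommGroup A] [Module k A] [AddCommGroup B]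
    [Module k B] [AddCommGroup C] [Module k C] {g : B → C} {f : A → B} (hg : IsLinearMap k g)
    (hf : IsLinearMap k f) : IsLinearMap k (fun t => g (f t)) :=
  ⟨fun a b => by rw [hf.map_add, hg.map_add], fun c a => by rw [hf.map_smul, hg.map_smul]⟩

private theorem lin2c {A : Type} [AddCommGroup A] [Module k A] (x : H) (z : X) {f : A → H}
    (hf : IsLinearMap k f) :
    IsLinearMap k (fun t => ((x ⊗ₜ[k] f t) ⊗ₜ[k] z : (H ⊗[k] H) ⊗[k] X)) :=
  lin_comp (g := fun c : H => ((x ⊗ₜ[k] c) ⊗ₜ[k] z : (H ⊗[k] H) ⊗[k] X)) (lin2 x z) hf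

private theorem lin3c {A : Type} [AddCommGroup A] [Module k A] (x w : H) {f : A → X}
    (hf : IsLinearMap k f) :
    IsLinearMap k (fun t => ((x ⊗ₜ[k] w) ⊗ₜ[k] f t : (H ⊗[k] H) ⊗[k] X)) :=
  lin_comp (g := fun z : X => ((x ⊗ₜ[k] w) ⊗ₜ[k] z : (H ⊗[k] H) ⊗[k] X)) (lin3 x w) hf

private theorem linS {A : Type} [AddCommGroup A] [Module k A] {f : A → H}
    (hf : IsLinearMap k f) : IsLinearMap k (fun t => Sa k H (f t)) :=
  lin_comp (g := fun c : H => Sa k H c) ⟨fun x y => map_add _ _ _, fun c x => map_smul _ _ _⟩ hf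

private theorem linL {A : Type} [AddCommGroup A] [Module k A] (a : H) {f : A → H}
    (hf : IsLinearMap k f) : IsLinearMap k (fun t => a * f t) :=
  lin_comp (g := fun c : H => a * c) ⟨fun x y => mul_add _ _ _, fun c x => mul_smul_comm _ _ _⟩ hf

private theorem linR {A : Type} [AddCommGroup A] [Module k A] (a : H) {f : A → H}
    (hf : IsLinearMap k f) : IsLinearMap k (fun t => f t * a) :=
  lin_comp (g := fun c : H => c * a) ⟨fun x y => add_mul _ _ _, fun c x => smul_mul_assoc _ _ _⟩ hf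

private theorem linI {A : Type} [AddCommGroup A] [Module k A] : IsLinearMap k (fun t : A => t) :=
  ⟨fun _ _ => rfl, fun _ _ => rfl⟩

private theorem lin_rho (ρ : H →ₐ[k] Module.End k X) (y : X) : IsLinearMap k (fun m : H => ρ m y) :=
  ⟨fun a b => by rw [map_add, LinearMap.add_apply], fun c a => by
    rw [map_smul, LinearMap.smul_apply]⟩

private theorem lin_sigma (σ : (H →ₗ[k] k) →ₗ[k] Module.End k X) (y : X) :
    IsLinearMap k (fun m : H →ₗ[k] k => σ m y) :=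
  ⟨fun a b => by rw [map_add, LinearMap.add_apply], fun c a => by
    rw [map_smul, LinearMap.smul_apply]⟩

private theorem lin_mulL (a : H) : IsLinearMap k (fun m : H => a * m) :=
  ⟨fun x y => mul_add _ _ _, fun c x => mul_smul_comm _ _ _⟩

private theorem lin_mulR (a : H) : IsLinearMap k (fun m : H => m * a) :=
  ⟨fun x y => add_mul _ _ _, fun c x => smul_mul_assoc _ _ _⟩

private theorem lin_S : IsLinearMap k (fun m : H => Sa k H m) :=
  ⟨fun x y => map_add _ _ _, fun c x => map_smul _ _ _⟩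

private theorem lin_smul {A Z : Type} [AddCommGroup A] [Module k A] [AddCommGroup Z] [Module k Z]
    {g : A → k} (hg : IsLinearMap k g) (z : Z) : IsLinearMap k (fun t => g t • z) :=
  ⟨fun a b => by rw [hg.map_add, add_smul], fun c a => by
    rw [hg.map_smul, smul_eq_mul, mul_smul]⟩

private theorem lin_smul' {A Z : Type} [AddCommGroup A] [Module k A] [AddCommGroup Z] [Module k Z]
    {g : A → Z} (hg : IsLinearMap k g) (c : k) : IsLinearMap k (fun t => c • g t) :=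
  ⟨fun a b => by rw [hg.map_add, smul_add], fun d a => by
    rw [hg.map_smul, smul_comm]⟩

private theorem Psi_surj : Function.Surjective (Psi (k := k) (H := H) ρ) := by
  apply range_top
  intro x w y
  refine ⟨sw2 k (fun a b => (a ⊗ₜ[k] w) ⊗ₜ[k] ρ (Sa k H b) y) x, ?_⟩
  rw [map_sw2]
  simp only [Psi_eval]
  have h1 : ∀ c d b : H, ((c ⊗ₜ[k] w) ⊗ₜ[k] ρ d (ρ (Sa k H b) y) : (H ⊗[k] H) ⊗[k] X) =
      (c ⊗ₜ[k] w) ⊗ₜ[k] ρ (d * Sa k H b) y := by
    intro c d b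
    rw [map_mul]
    rfl
  simp only [h1]
  have hF : Tri3 k (fun c d b : H =>
      ((c ⊗ₜ[k] w) ⊗ₜ[k] ρ (d * Sa k H b) y : (H ⊗[k] H) ⊗[k] X)) := by
    refine ⟨fun b c => lin1 w _, fun a c => ?_, fun a b => ?_⟩
    · exact lin_comp (lin3 a w) (lin_comp (lin_rho ρ y) (lin_mulR _))
    · exact lin_comp (lin3 a w) (lin_comp (lin_rho ρ y) (lin_comp (lin_mulL b) lin_S))
  rw [sw2_assoc hF, sw3_eq]
  have h2 : ∀ c z : H, sw2 k (fun d b =>
      ((c ⊗ₜ[k] w) ⊗ₜ[k] ρ (d * Sa k H b) y : (H ⊗[k] H) ⊗[k] X)) z =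
      ep k H z • ((c ⊗ₜ[k] w) ⊗ₜ[k] y) := by
    intro c z
    rw [sw2_mul_S (f := fun m : H => ((c ⊗ₜ[k] w) ⊗ₜ[k] ρ m y : (H ⊗[k] H) ⊗[k] X))
      (lin_comp (lin3 c w) (lin_rho ρ y)), map_one]
    rfl
  simp only [h2]
  exact sw2_counit_right (lin1 w y) x

variable (σ) in
/-- `(x ⊗ w) ⊗ y ↦ x ⊗ w y₋₁ ⊗ y₀` -/
private noncomputable def Phi : ((H ⊗[k] H) ⊗[k] X) →ₗ[k] ((H ⊗[k] H) ⊗[k] X) :=
  ∑ i, TensorProduct.map (TensorProduct.map LinearMap.id (LinearMap.mulRight k (e k H i)))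
    (σ (ec k H i))

private theorem Phi_tmul (x w : H) (y : X) : Phi σ ((x ⊗ₜ[k] w) ⊗ₜ[k] y) =
    ∑ i, (x ⊗ₜ[k] (w * e k H i)) ⊗ₜ[k] σ (ec k H i) y := by
  unfold Phi
  rw [LinearMap.sum_apply]
  refine Finset.sum_congr rfl fun i _ => ?_
  rw [TensorProduct.map_tmul, TensorProduct.map_tmul]
  rfl

private theorem sig_sig (hX : IsYD ρ σ) (i l : Fin (Module.finrank k H)) (y : X) :
    σ (ec k H i) (σ (ec k H l) y) = σ (cv (ec k H l) (ec k H i)) y := by
  rw [← hX.mul]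
  rfl

private theorem Phi_surj (hX : IsYD ρ σ) : Function.Surjective (Phi (k := k) (H := H) σ) := by
  apply range_top
  intro x w y
  refine ⟨∑ l, (x ⊗ₜ[k] (w * Sa k H (e k H l))) ⊗ₜ[k] σ (ec k H l) y, ?_⟩
  rw [map_sum]
  simp only [Phi_tmul, sig_sig hX]
  rw [ce_cv (G := fun a b g => ((x ⊗ₜ[k] (w * Sa k H a * b)) ⊗ₜ[k] σ g y : (H ⊗[k] H) ⊗[k] X))
    (fun b g => lin2c x _ (linR b (linL w (linS linI))))
    (fun a g => lin2c x _ (linL _ linI))
    (fun a b => lin3c x _ (lin_sigma σ y))]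
  have h2 : ∀ i, sw2 k (fun a b =>
      ((x ⊗ₜ[k] (w * Sa k H a * b)) ⊗ₜ[k] σ (ec k H i) y : (H ⊗[k] H) ⊗[k] X)) (e k H i) =
      (x ⊗ₜ[k] w) ⊗ₜ[k] σ (ep k H (e k H i) • ec k H i) y := by
    intro i
    simp only [mul_assoc]
    rw [sw2_S_mul (f := fun m : H =>
      ((x ⊗ₜ[k] (w * m)) ⊗ₜ[k] σ (ec k H i) y : (H ⊗[k] H) ⊗[k] X))
      (lin2c x _ (linL w linI)), mul_one, map_smul, LinearMap.smul_apply,
      TensorProduct.tmul_smul]
  simp only [h2]
  rw [← TensorProduct.tmul_sum, ← LinearMap.sum_apply, ← map_sum, sum_e (k := k) (ep k H), hX.one]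
  rfl

/-- `σ` of the regular data on `1 ⊗ w` -/
private theorem sP_one (f : H →ₗ[k] k) (w : H) : (sP (k := k) (H := H)) f ((1 : H) ⊗ₜ[k] w) =
    sw2 k (fun p q => f p • ((1 : H) ⊗ₜ[k] q)) w := by
  rw [sP_tmul, sw3_eq]
  have hc : ∀ a b, IsLinearMap k (fun c : H =>
      sw2 k (fun p q => f (a * (p * Sa k H c)) • (b ⊗ₜ[k] q : H ⊗[k] H)) w) := by
    intro a b
    refine sw2_par (fun p q => ?_) w
    exact lin_smul (lin_comp (lin_of f) (lin_comp (lin_mulL a) (lin_comp (lin_mulL p) lin_S))) _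
  have hb : ∀ a c, IsLinearMap k (fun b : H =>
      sw2 k (fun p q => f (a * (p * Sa k H c)) • (b ⊗ₜ[k] q : H ⊗[k] H)) w) := by
    intro a c
    refine sw2_par (fun p q => ?_) w
    exact lin_smul' ⟨fun _ _ => TensorProduct.add_tmul _ _ _,
      fun _ _ => (TensorProduct.smul_tmul' _ _ _).symm⟩ _
  have ha : ∀ b c, IsLinearMap k (fun a : H =>
      sw2 k (fun p q => f (a * (p * Sa k H c)) • (b ⊗ₜ[k] q : H ⊗[k] H)) w) := by
    intro b c
    refine sw2_par (fun p q => ?_) w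
    exact lin_smul (lin_comp (lin_of f) (lin_mulR _)) _
  have hin : ∀ a, Bil2 k (fun b c : H =>
      sw2 k (fun p q => f (a * (p * Sa k H c)) • (b ⊗ₜ[k] q : H ⊗[k] H)) w) :=
    fun a => ⟨fun c => hb a c, fun b => hc a b⟩
  rw [sw2_one (F := fun a y => sw2 k (fun b c =>
    sw2 k (fun p q => f (a * (p * Sa k H c)) • (b ⊗ₜ[k] q : H ⊗[k] H)) w) y)
    ⟨fun y => sw2_par (fun b c => ha b c) y, fun a => sw2_linear (hin a)⟩, sw2_one (hin 1)]
  simp only [Sa_one, mul_one, one_mul]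

private theorem tS_one (g : H →ₗ[k] k) (w : H) (y : X) :
    tS (sP (k := k) (H := H)) σ g (((1 : H) ⊗ₜ[k] w) ⊗ₜ[k] y) =
      ∑ j, sw2 k (fun u v => g (u * e k H j) • (((1 : H) ⊗ₜ[k] v) ⊗ₜ[k] σ (ec k H j) y)) w := by
  rw [tS_apply, LinearMap.sum_apply]
  simp only [LinearMap.sum_apply, LinearMap.smul_apply, TensorProduct.map_tmul, sP_one]
  rw [Finset.sum_comm]
  refine Finset.sum_congr rfl fun j _ => ?_
  have h1 : ∀ i, g (e k H i * e k H j) •
      ((sw2 k (fun p q => ec k H i p • ((1 : H) ⊗ₜ[k] q)) w) ⊗ₜ[k] σ (ec k H j) y :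
        (H ⊗[k] H) ⊗[k] X) =
      sw2 k (fun p q => (ec k H i p * g (e k H i * e k H j)) •
        (((1 : H) ⊗ₜ[k] q) ⊗ₜ[k] σ (ec k H j) y)) w := by
    intro i
    unfold sw2
    rw [TensorProduct.sum_tmul, Finset.smul_sum]
    refine Finset.sum_congr rfl fun l _ => ?_
    rw [← TensorProduct.smul_tmul', smul_smul, mul_comm]
  simp only [h1]
  unfold sw2
  rw [Finset.sum_comm]
  refine Finset.sum_congr rfl fun l _ => ?_
  rw [← Finset.sum_smul]
  congr 1
  have h2 := congrArg (fun z => g (z * e k H j)) (sum_ec (k := k) (e k H l))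
  simp only [Finset.sum_mul, map_sum, smul_mul_assoc, map_smul, smul_eq_mul] at h2
  exact h2

/-- the inner identity -/
private theorem Phi_tS (hX : IsYD ρ σ) (g : H →ₗ[k] k) (w : H) (y : X) :
    Phi σ (tS (sP (k := k) (H := H)) σ g (((1 : H) ⊗ₜ[k] w) ⊗ₜ[k] y)) =
      TensorProduct.map ((sP (k := k) (H := H)) g) (1 : Module.End k X)
        (Phi σ (((1 : H) ⊗ₜ[k] w) ⊗ₜ[k] y)) := by
  rw [tS_one, map_sum, Phi_tmul, map_sum]
  have h1 : ∀ j, Phi σ (sw2 k (fun u v => g (u * e k H j) •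
      (((1 : H) ⊗ₜ[k] v) ⊗ₜ[k] σ (ec k H j) y)) w) =
      ∑ i, sw2 k (fun u v => g (u * e k H j) •
        (((1 : H) ⊗ₜ[k] (v * e k H i)) ⊗ₜ[k] σ (cv (ec k H j) (ec k H i)) y)) w := by
    intro j
    rw [map_sw2]
    simp only [map_smul, Phi_tmul, sig_sig hX]
    unfold sw2
    rw [Finset.sum_comm]
    refine Finset.sum_congr rfl fun l _ => ?_
    exact Finset.smul_sum
  simp only [h1]
  rw [ce_cv (G := fun a b g' => sw2 k (fun u v => g (u * a) •
      ((((1 : H) ⊗ₜ[k] (v * b)) ⊗ₜ[k] σ g' y : (H ⊗[k] H) ⊗[k] X))) w)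
    (fun b g' => sw2_par (fun u v => lin_smul (lin_comp (lin_of g) (lin_mulL u)) _) w)
    (fun a g' => sw2_par (fun u v => lin_smul' (lin2c 1 _ (linL v linI)) _) w)
    (fun a b => sw2_par (fun u v => lin_smul' (lin3c 1 _ (lin_sigma σ y)) _) w)]
  refine Finset.sum_congr rfl fun l _ => ?_
  rw [TensorProduct.map_tmul, sP_one, sw2_comm]
  have hF : Bil2 k (fun u v : H => g u •
      ((((1 : H) ⊗ₜ[k] v) ⊗ₜ[k] σ (ec k H l) y : (H ⊗[k] H) ⊗[k] X))) :=
    ⟨fun b => lin_smul (lin_of g) _, fun a => lin_smul' (lin2 1 _) _⟩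
  rw [← sw2_mul hF]
  unfold sw2
  rw [TensorProduct.sum_tmul]
  refine Finset.sum_congr rfl fun i _ => ?_
  rw [← TensorProduct.smul_tmul']
  rfl

theorem exists_iso_P (hS : ∀ x : H, Sa k H (Sa k H x) = x) (hX : IsYD ρ σ) :
    ∃ Φ : ((H ⊗[k] H) ⊗[k] X) ≃ₗ[k] ((H ⊗[k] H) ⊗[k] X),
      (∀ h : H, Φ.toLinearMap ∘ₗ (tR (rP (k := k) (H := H)) ρ h) =
        (tR (rP (k := k) (H := H)) (trR k H X) h) ∘ₗ Φ.toLinearMap) ∧
      (∀ f : H →ₗ[k] k, Φ.toLinearMap ∘ₗ (tS (sP (k := k) (H := H)) σ f) =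
        (tS (sP (k := k) (H := H)) (trS k H X) f) ∘ₗ Φ.toLinearMap) := by
  have hP := isYD_P (k := k) (H := H) hS
  have hPX := isYD_tens hP hX
  have hPsi : Function.Bijective (Psi (k := k) (H := H) ρ) :=
    ⟨LinearMap.injective_iff_surjective.mpr Psi_surj, Psi_surj⟩
  have hPhi : Function.Bijective (Phi (k := k) (H := H) σ) :=
    ⟨LinearMap.injective_iff_surjective.mpr (Phi_surj hX), Phi_surj hX⟩
  set E1 := LinearEquiv.ofBijective (Psi (k := k) (H := H) ρ) hPsi with hE1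
  set E2 := LinearEquiv.ofBijective (Phi (k := k) (H := H) σ) hPhi with hE2
  have hE1a : ∀ t, E1 t = Psi ρ t := fun t => rfl
  have hE2a : ∀ t, E2 t = Phi σ t := fun t => rfl
  -- the action
  have hA1 : ∀ (h : H) (t : (H ⊗[k] H) ⊗[k] X), tR (rP (k := k) (H := H)) ρ h (Psi ρ t) =
      Psi ρ (TensorProduct.map (rP (k := k) (H := H) h) (1 : Module.End k X) t) := by
    intro h t
    have h1 : (tR (rP (k := k) (H := H)) ρ h) ∘ₗ Psi ρ =
        Psi ρ ∘ₗ TensorProduct.map (rP (k := k) (H := H) h) (1 : Module.End k X) := by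
      apply TensorProduct.ext_threefold
      intro x w y
      rw [LinearMap.comp_apply, LinearMap.comp_apply, TensorProduct.map_tmul, rP_tmul]
      rw [show (1 : Module.End k X) y = y from rfl, Psi_tmul, Psi_tmul, map_mul]
      rfl
    exact congrArg (fun L => L t) h1
  have hA2 : ∀ (h : H) (t : (H ⊗[k] H) ⊗[k] X),
      Phi σ (TensorProduct.map (rP (k := k) (H := H) h) (1 : Module.End k X) t) =
      TensorProduct.map (rP (k := k) (H := H) h) (1 : Module.End k X) (Phi σ t) := by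
    intro h t
    have h1 : Phi σ ∘ₗ TensorProduct.map (rP (k := k) (H := H) h) (1 : Module.End k X) =
        TensorProduct.map (rP (k := k) (H := H) h) (1 : Module.End k X) ∘ₗ Phi σ := by
      apply TensorProduct.ext_threefold
      intro x w y
      rw [LinearMap.comp_apply, LinearMap.comp_apply, TensorProduct.map_tmul, rP_tmul]
      rw [show (1 : Module.End k X) y = y from rfl, Phi_tmul, Phi_tmul, map_sum]
      refine Finset.sum_congr rfl fun i _ => ?_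
      rw [TensorProduct.map_tmul, rP_tmul]
      rfl
    exact congrArg (fun L => L t) h1
  -- the coaction
  have hfix : ∀ (g : H →ₗ[k] k) (w : H) (y : X),
      Psi ρ (tS (sP (k := k) (H := H)) σ g (((1 : H) ⊗ₜ[k] w) ⊗ₜ[k] y)) =
        tS (sP (k := k) (H := H)) σ g (((1 : H) ⊗ₜ[k] w) ⊗ₜ[k] y) := by
    intro g w y
    rw [tS_one, map_sum]
    refine Finset.sum_congr rfl fun j _ => ?_
    rw [map_sw2]
    simp only [map_smul, Psi_one]
  have hC : ∀ (f : H →ₗ[k] k) (t : (H ⊗[k] H) ⊗[k] X),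
      E2 (E1.symm (tS (sP (k := k) (H := H)) σ f (Psi ρ t))) =
      TensorProduct.map ((sP (k := k) (H := H)) f) (1 : Module.End k X) (Phi σ t) := by
    intro f t
    have h1 : E2.toLinearMap ∘ₗ E1.symm.toLinearMap ∘ₗ (tS (sP (k := k) (H := H)) σ f) ∘ₗ Psi ρ =
        TensorProduct.map ((sP (k := k) (H := H)) f) (1 : Module.End k X) ∘ₗ Phi σ := by
      apply TensorProduct.ext_threefold
      intro x w y
      simp only [LinearMap.comp_apply, LinearEquiv.coe_coe]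
      have h2 : tS (sP (k := k) (H := H)) σ f (Psi ρ ((x ⊗ₜ[k] w) ⊗ₜ[k] y)) =
          E1 (sw3 k (fun a b c => TensorProduct.map (rP (k := k) (H := H) b)
            (1 : Module.End k X) (tS (sP (k := k) (H := H)) σ (tw f a (Sa k H c))
              (((1 : H) ⊗ₜ[k] w) ⊗ₜ[k] y))) x) := by
        rw [hE1a, map_sw3, Psi_tmul]
        have h3 := congrArg (fun L => L (((1 : H) ⊗ₜ[k] w) ⊗ₜ[k] y)) (hPX.yd f x)
        rw [sw3_apply] at h3
        refine h3.trans ?_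
        congr 1
        funext a b c
        rw [← hA1, hfix]
        rfl
      rw [h2, LinearEquiv.symm_apply_apply, hE2a, map_sw3]
      simp only [hA2, Phi_tS hX]
      have h4 : ((x ⊗ₜ[k] w) ⊗ₜ[k] y : (H ⊗[k] H) ⊗[k] X) =
          TensorProduct.map (rP (k := k) (H := H) x) (1 : Module.End k X)
            (((1 : H) ⊗ₜ[k] w) ⊗ₜ[k] y) := by
        rw [TensorProduct.map_tmul, rP_tmul, mul_one]
        rfl
      rw [h4, hA2]
      set m := Phi σ (((1 : H) ⊗ₜ[k] w) ⊗ₜ[k] y) with hm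
      have h5 : ∀ A B : Module.End k (H ⊗[k] H), TensorProduct.map A (1 : Module.End k X)
          (TensorProduct.map B (1 : Module.End k X) m) =
          TensorProduct.map (A * B) (1 : Module.End k X) m := by
        intro A B
        have h6 : TensorProduct.map (A * B) (1 : Module.End k X) =
            TensorProduct.map A (1 : Module.End k X) ∘ₗ
              TensorProduct.map B (1 : Module.End k X) := by
          rw [← TensorProduct.map_comp]
          rfl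
        rw [h6]
        rfl
      simp only [h5]
      rw [hP.yd f x]
      have h7 := map_sw3 (Z := Module.End k (H ⊗[k] H)) (Z' := (H ⊗[k] H) ⊗[k] X)
        ((LinearMap.applyₗ m) ∘ₗ
          ((TensorProduct.mapBilinear (RingHom.id k) (H ⊗[k] H) X (H ⊗[k] H) X).flip
            (1 : Module.End k X)))
        (fun a b c => rP (k := k) (H := H) b * sP (k := k) (H := H) (tw f a (Sa k H c))) x
      exact h7.symm
    exact congrArg (fun L => L t) h1
  refine ⟨E1.symm.trans E2, fun h => ?_, fun f => ?_⟩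
  · rw [tR_triv]
    refine LinearMap.ext fun m => ?_
    obtain ⟨t, rfl⟩ := E1.surjective m
    change E2 (E1.symm (tR (rP (k := k) (H := H)) ρ h (E1 t))) =
      TensorProduct.map (rP (k := k) (H := H) h) (1 : Module.End k X) (E2 (E1.symm (E1 t)))
    rw [LinearEquiv.symm_apply_apply, hE1a, hA1, ← hE1a, LinearEquiv.symm_apply_apply, hE2a,
      hE2a, hA2]
  · rw [tS_triv]
    refine LinearMap.ext fun m => ?_
    obtain ⟨t, rfl⟩ := E1.surjective m
    change E2 (E1.symm (tS (sP (k := k) (H := H)) σ f (E1 t))) =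
      TensorProduct.map (sP (k := k) (H := H) f) (1 : Module.End k X) (E2 (E1.symm (E1 t)))
    rw [LinearEquiv.symm_apply_apply, hE1a, hC, hE2a]

end Pool.Agent.KExp
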