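import Pool.Agent.Lib.KExp.Defs
import Pool.Agent.Lib.KExp.Sw
import Pool.Agent.Lib.KExp.CE
import Pool.Agent.Lib.KExp.TensApp
import Pool.Agent.Lib.KExp.PYD
import Pool.Agent.Lib.KExp.Triv
import Pool.Agent.Lib.KExp.PIso

/-!
# KExp.DetA (MP_0d5e35_al, finiteness of the exponent)

Determinants, first part. det_map: `det (a ⊗ b) = det(a)^(dim Y) det(b)^(dim X)` (`LinearMap.det` of a tensor product:
`Matrix.det_kronecker` with bases; or `a ⊗ b = (a ⊗ 1)(1 ⊗ b)`).
det_theta_P: with `Φ` of exists_iso_P: `Φ θ_{P⊗X} Φ⁻¹ = θ` of `(tR rP trR, tS sP trS) = ∑ ρ(eᵢ)σ(e^i) ⊗ 1 = θ_P ⊗ 1`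
(tR_triv, tS_triv), `LinearMap.det_conj`; det_map with `b = 1`.
det_Mop_P: `Mop` of `P ⊗ X` and `Y` is conjugate by `Φ ⊗ 1` to `∑ (ρ(eⱼ)σ(e^i) ⊗ 1_X) ⊗ σ'(e^j)ρ'(eᵢ)` on
`(P ⊗ X) ⊗ Y`, which is conjugate (permuting the factors `X` and `Y`: `TensorProduct.rightComm`, or
`(P ⊗ X) ⊗ Y ≃ (P ⊗ Y) ⊗ X`) to `M_{P,Y} ⊗ 1_X`.
-/

set_option autoImplicit false

open scoped TensorProduct

namespace Pool.Agent.KExp

variable {k : Type} [Field k] {H : Type} [Ring H] [HopfAlgebra k H] [FiniteDimensional k H]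

theorem det_map {X Y : Type} [AddCommGroup X] [Module k X] [FiniteDimensional k X]
    [AddCommGroup Y] [Module k Y] [FiniteDimensional k Y] (a : Module.End k X)
    (b : Module.End k Y) : LinearMap.det (TensorProduct.map a b) =
      LinearMap.det a ^ Module.finrank k Y * LinearMap.det b ^ Module.finrank k X := by
  classical
  let bX := Module.finBasis k X
  let bY := Module.finBasis k Y
  rw [← LinearMap.det_toMatrix (bX.tensorProduct bY), TensorProduct.toMatrix_map,
    Matrix.det_kronecker, LinearMap.det_toMatrix, LinearMap.det_toMatrix, Fintype.card_fin,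
    Fintype.card_fin]

private theorem det_of_conj {V W : Type} [AddCommGroup V] [Module k V] [AddCommGroup W] [Module k W]
    (Φ : V ≃ₗ[k] W) (A : Module.End k V) (B : Module.End k W)
    (h : ∀ v, Φ (A v) = B (Φ v)) : LinearMap.det A = LinearMap.det B := by
  have h2 : B = Φ.toLinearMap ∘ₗ A ∘ₗ Φ.symm.toLinearMap := by
    refine LinearMap.ext fun w => ?_
    simp only [LinearMap.comp_apply, LinearEquiv.coe_coe]
    rw [h, LinearEquiv.apply_symm_apply]
  rw [h2]
  exact (LinearMap.det_conj A Φ).symm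

private theorem map_sum_left {V W : Type} [AddCommGroup V] [Module k V] [AddCommGroup W] [Module k W]
    {ι : Type} (s : Finset ι) (f : ι → Module.End k V) (g : Module.End k W) :
    TensorProduct.map (∑ i ∈ s, f i) g = ∑ i ∈ s, TensorProduct.map (f i) g := by
  classical
  induction s using Finset.induction_on with
  | empty => simp
  | insert a s ha ih =>
    rw [Finset.sum_insert ha, Finset.sum_insert ha, TensorProduct.map_add_left, ih]

variable {X Y : Type} [AddCommGroup X] [Module k X] [FiniteDimensional k X]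
  [AddCommGroup Y] [Module k Y] [FiniteDimensional k Y]
  {ρ : H →ₐ[k] Module.End k X} {σ : (H →ₗ[k] k) →ₗ[k] Module.End k X}
  {ρ' : H →ₐ[k] Module.End k Y} {σ' : (H →ₗ[k] k) →ₗ[k] Module.End k Y}

theorem det_theta_P (hS : ∀ x : H, Sa k H (Sa k H x) = x) (hX : IsYD ρ σ) :
    LinearMap.det (theta (tR (rP (k := k) (H := H)) ρ) (tS sP σ)) =
      LinearMap.det (theta (rP (k := k) (H := H)) sP) ^ Module.finrank k X := by
  obtain ⟨Φ, hR, hSg⟩ := exists_iso_P hS hX
  have hR' : ∀ h v, Φ (tR (rP (k := k) (H := H)) ρ h v) =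
      TensorProduct.map ((rP (k := k) (H := H)) h) (1 : Module.End k X) (Φ v) := by
    intro h v
    have := LinearMap.congr_fun (hR h) v
    rw [tR_triv] at this
    exact this
  have hS' : ∀ f v, Φ (tS (sP (k := k) (H := H)) σ f v) =
      TensorProduct.map ((sP (k := k) (H := H)) f) (1 : Module.End k X) (Φ v) := by
    intro f v
    have := LinearMap.congr_fun (hSg f) v
    rw [tS_triv] at this
    exact this
  have h1 : LinearMap.det (theta (tR (rP (k := k) (H := H)) ρ) (tS sP σ)) =
      LinearMap.det (TensorProduct.map (theta (rP (k := k) (H := H)) sP) (1 : Module.End k X) :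
        Module.End k ((H ⊗[k] H) ⊗[k] X)) := by
    refine det_of_conj Φ _ _ fun v => ?_
    simp only [theta]
    rw [map_sum_left, LinearMap.sum_apply, LinearMap.sum_apply, map_sum]
    refine Finset.sum_congr rfl fun i _ => ?_
    rw [Module.End.mul_apply, hR', hS', ← LinearMap.comp_apply, ← TensorProduct.map_comp]
    rfl
  rw [h1, det_map]
  simp

theorem det_Mop_P (hS : ∀ x : H, Sa k H (Sa k H x) = x) (hX : IsYD ρ σ) :
    LinearMap.det (Mop (tR (rP (k := k) (H := H)) ρ) (tS sP σ) ρ' σ') =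
      LinearMap.det (Mop (rP (k := k) (H := H)) sP ρ' σ') ^ Module.finrank k X := by
  obtain ⟨Φ, hR, hSg⟩ := exists_iso_P hS hX
  have hR' : ∀ h v, Φ (tR (rP (k := k) (H := H)) ρ h v) =
      TensorProduct.map ((rP (k := k) (H := H)) h) (1 : Module.End k X) (Φ v) := by
    intro h v
    have := LinearMap.congr_fun (hR h) v
    rw [tR_triv] at this
    exact this
  have hS' : ∀ f v, Φ (tS (sP (k := k) (H := H)) σ f v) =
      TensorProduct.map ((sP (k := k) (H := H)) f) (1 : Module.End k X) (Φ v) := by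
    intro f v
    have := LinearMap.congr_fun (hSg f) v
    rw [tS_triv] at this
    exact this
  let Ψ : ((H ⊗[k] H) ⊗[k] X) ⊗[k] Y ≃ₗ[k] ((H ⊗[k] H) ⊗[k] Y) ⊗[k] X :=
    (TensorProduct.congr Φ (LinearEquiv.refl k Y)).trans (TensorProduct.rightComm k (H ⊗[k] H) X Y)
  have hcomm : ∀ (A : Module.End k (H ⊗[k] H)) (B : Module.End k Y)
      (z : ((H ⊗[k] H) ⊗[k] X)) (y : Y),
      TensorProduct.rightComm k (H ⊗[k] H) X Y
        ((TensorProduct.map A (1 : Module.End k X) z) ⊗ₜ[k] (B y)) =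
      TensorProduct.map (TensorProduct.map A B) (1 : Module.End k X)
        (TensorProduct.rightComm k (H ⊗[k] H) X Y (z ⊗ₜ[k] y)) := by
    intro A B z y
    induction z with
    | zero => simp
    | tmul p x => simp
    | add a b ha hb =>
      rw [map_add, TensorProduct.add_tmul, map_add, ha, hb, TensorProduct.add_tmul, map_add,
        map_add]
  have h1 : LinearMap.det (Mop (tR (rP (k := k) (H := H)) ρ) (tS sP σ) ρ' σ') =
      LinearMap.det (M := ((H ⊗[k] H) ⊗[k] Y) ⊗[k] X)
        (TensorProduct.map (Mop (rP (k := k) (H := H)) sP ρ' σ') (1 : Module.End k X)) := by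
    refine det_of_conj Ψ _ _ fun v => ?_
    induction v with
    | zero => simp
    | add a b ha hb => rw [map_add, map_add, ha, hb, map_add, map_add]
    | tmul z y =>
      simp only [Mop]
      rw [map_sum_left, LinearMap.sum_apply, LinearMap.sum_apply, map_sum]
      refine Finset.sum_congr rfl fun i _ => ?_
      rw [map_sum_left, LinearMap.sum_apply, LinearMap.sum_apply, map_sum]
      refine Finset.sum_congr rfl fun j _ => ?_
      rw [TensorProduct.map_tmul, Module.End.mul_apply]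
      have e1 : Ψ (z ⊗ₜ[k] y) = TensorProduct.rightComm k (H ⊗[k] H) X Y ((Φ z) ⊗ₜ[k] y) := rfl
      have e2 : ∀ (z' : (H ⊗[k] H) ⊗[k] X) (y' : Y), Ψ (z' ⊗ₜ[k] y') =
        TensorProduct.rightComm k (H ⊗[k] H) X Y ((Φ z') ⊗ₜ[k] y') := fun _ _ => rfl
      rw [e1, e2, ← hcomm, hR', hS', ← LinearMap.comp_apply, ← TensorProduct.map_comp]
      rfl
  rw [h1, det_map]
  simp

end Pool.Agent.KExp
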