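import Pool.Agent.Lib.KExp.Defs
import Pool.Agent.Lib.KExp.Sw
import Pool.Agent.Lib.KExp.CE
import Pool.Agent.Lib.KExp.TensApp
import Pool.Agent.Lib.KExp.Triv
import Pool.Agent.Lib.KExp.DetA

/-!
# KExp.DetB (MP_0d5e35_al, finiteness of the exponent)

Determinants, second part: `det M_{X⊗X',Y} = det(M_{X,Y})^(dim X') det(M_{X',Y})^(dim X)`. PROOF. On `(X ⊗ X') ⊗ Y` put
`C = ∑ (σ(e^i) ⊗ 1) ⊗ ρ_Y(eᵢ)`, `C' = ∑ (ρ(eⱼ) ⊗ 1) ⊗ σ_Y(e^j)`, `G = ∑ (1 ⊗ σ'(e^i)) ⊗ ρ_Y(eᵢ)`,
`G' = ∑ (1 ⊗ ρ'(eⱼ)) ⊗ σ_Y(e^j)`. By tR_apply, tS_apply, ce_cv, ce_mul (as in PtrMul):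
`M_{X⊗X',Y} = ∑ (ρ(e_j)σ(e^i) ⊗ ρ'(e_j')σ'(e^i')) ⊗ σ_Y(e^j')σ_Y(e^j)ρ_Y(e_i)ρ_Y(e_i') = G' C' C G`. So
`det = det(C' C) det(G' G)`; `C' C` is `M_{X,Y}` on the factors 1, 3 tensor `1_{X'}` (conjugate by a permutation of the
factors to `M_{X,Y} ⊗ 1_{X'}`), `G' G` is `1_X ⊗ M_{X',Y}` (associativity); det_map.
-/

set_option autoImplicit false

open scoped TensorProduct

namespace Pool.Agent.KExp

variable {k : Type} [Field k] {H : Type} [Ring H] [HopfAlgebra k H] [FiniteDimensional k H]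

variable {X X' Y : Type} [AddCommGroup X] [Module k X] [AddCommGroup X'] [Module k X']
  [AddCommGroup Y] [Module k Y] [FiniteDimensional k X] [FiniteDimensional k X']
  [FiniteDimensional k Y]
  {ρ : H →ₐ[k] Module.End k X} {σ : (H →ₗ[k] k) →ₗ[k] Module.End k X}
  {ρ' : H →ₐ[k] Module.End k X'} {σ' : (H →ₗ[k] k) →ₗ[k] Module.End k X'}
  {τ : H →ₐ[k] Module.End k Y} {κ : (H →ₗ[k] k) →ₗ[k] Module.End k Y}

omit [FiniteDimensional k X] [FiniteDimensional k Y] in
private theorem db_sum_left {ι : Type} (s : Finset ι) (f : ι → Module.End k X)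
    (g : Module.End k Y) :
    TensorProduct.map (∑ i ∈ s, f i) g = ∑ i ∈ s, TensorProduct.map (f i) g := by
  classical
  induction s using Finset.induction_on with
  | empty => simp
  | insert a s ha ih => rw [Finset.sum_insert ha, Finset.sum_insert ha,
      TensorProduct.map_add_left, ih]

omit [FiniteDimensional k X] [FiniteDimensional k Y] in
private theorem db_sum_right {ι : Type} (s : Finset ι) (f : Module.End k X)
    (g : ι → Module.End k Y) :
    TensorProduct.map f (∑ i ∈ s, g i) = ∑ i ∈ s, TensorProduct.map f (g i) := by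
  classical
  induction s using Finset.induction_on with
  | empty => simp
  | insert a s ha ih => rw [Finset.sum_insert ha, Finset.sum_insert ha,
      TensorProduct.map_add_right, ih]

/-- `∑ (ρ(eⱼ) ⊗ 1) ⊗ κ(e^j)` -/
private noncomputable def dC1 (ρ : H →ₐ[k] Module.End k X) (κ : (H →ₗ[k] k) →ₗ[k] Module.End k Y)
    (X' : Type) [AddCommGroup X'] [Module k X'] : Module.End k ((X ⊗[k] X') ⊗[k] Y) :=
  ∑ j, TensorProduct.map (TensorProduct.map (ρ (e k H j)) 1) (κ (ec k H j))

/-- `∑ (σ(e^i) ⊗ 1) ⊗ τ(eᵢ)` -/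
private noncomputable def dC2 (σ : (H →ₗ[k] k) →ₗ[k] Module.End k X) (τ : H →ₐ[k] Module.End k Y)
    (X' : Type) [AddCommGroup X'] [Module k X'] : Module.End k ((X ⊗[k] X') ⊗[k] Y) :=
  ∑ i, TensorProduct.map (TensorProduct.map (σ (ec k H i)) 1) (τ (e k H i))

/-- `∑ (1 ⊗ ρ'(eⱼ)) ⊗ κ(e^j)` -/
private noncomputable def dG1 (ρ' : H →ₐ[k] Module.End k X')
    (κ : (H →ₗ[k] k) →ₗ[k] Module.End k Y)
    (X : Type) [AddCommGroup X] [Module k X] : Module.End k ((X ⊗[k] X') ⊗[k] Y) :=
  ∑ j, TensorProduct.map (TensorProduct.map 1 (ρ' (e k H j))) (κ (ec k H j))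

/-- `∑ (1 ⊗ σ'(e^i)) ⊗ τ(eᵢ)` -/
private noncomputable def dG2 (σ' : (H →ₗ[k] k) →ₗ[k] Module.End k X')
    (τ : H →ₐ[k] Module.End k Y)
    (X : Type) [AddCommGroup X] [Module k X] : Module.End k ((X ⊗[k] X') ⊗[k] Y) :=
  ∑ i, TensorProduct.map (TensorProduct.map 1 (σ' (ec k H i))) (τ (e k H i))

omit [FiniteDimensional k X] [FiniteDimensional k X'] [FiniteDimensional k Y] in
private theorem db_A (hY : IsYD τ κ) :
    ∑ j, TensorProduct.map (tR ρ ρ' (e k H j)) (κ (ec k H j)) = dG1 ρ' κ X * dC1 ρ κ X' := by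
  have h1 := ce_cv (k := k) (H := H)
    (G := fun a b f => TensorProduct.map (TensorProduct.map (ρ a) (ρ' b)) (κ f))
    (fun b f => ⟨fun a a' => by
        simp only [map_add, TensorProduct.map_add_left], fun c a => by
        simp only [map_smul, TensorProduct.map_smul_left]⟩)
    (fun a f => ⟨fun b b' => by
        simp only [map_add, TensorProduct.map_add_left, TensorProduct.map_add_right],
        fun c b => by
        simp only [map_smul, TensorProduct.map_smul_left, TensorProduct.map_smul_right]⟩)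
    (fun a b => ⟨fun f f' => by
        simp only [map_add, TensorProduct.map_add_right], fun c f => by
        simp only [map_smul, TensorProduct.map_smul_right]⟩)
  have h2 : ∀ j, TensorProduct.map (tR ρ ρ' (e k H j)) (κ (ec k H j)) =
      sw2 k (fun a b => TensorProduct.map (TensorProduct.map (ρ a) (ρ' b)) (κ (ec k H j)))
        (e k H j) := by
    intro j
    rw [tR_apply]
    unfold sw2
    rw [db_sum_left]
  rw [Finset.sum_congr rfl (fun j _ => h2 j), ← h1, dG1, dC1, Finset.sum_mul_sum,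
    Finset.sum_comm]
  refine Finset.sum_congr rfl fun j' _ => Finset.sum_congr rfl fun j _ => ?_
  rw [← TensorProduct.map_mul, ← TensorProduct.map_mul, one_mul, mul_one, hY.mul]

omit [FiniteDimensional k X] [FiniteDimensional k X'] [FiniteDimensional k Y] in
private theorem db_B :
    ∑ i, TensorProduct.map (tS σ σ' (ec k H i)) (τ (e k H i)) = dC2 σ τ X' * dG2 σ' τ X := by
  have h1 := ce_mul (k := k) (H := H)
    (G := fun f g a => TensorProduct.map (TensorProduct.map (σ f) (σ' g)) (τ a))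
    (fun b f => ⟨fun a a' => by
        simp only [map_add, TensorProduct.map_add_left], fun c a => by
        simp only [map_smul, TensorProduct.map_smul_left]⟩)
    (fun a f => ⟨fun b b' => by
        simp only [map_add, TensorProduct.map_add_left, TensorProduct.map_add_right],
        fun c b => by
        simp only [map_smul, TensorProduct.map_smul_left, TensorProduct.map_smul_right]⟩)
    (fun a b => ⟨fun f f' => by
        simp only [map_add, TensorProduct.map_add_right], fun c f => by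
        simp only [map_smul, TensorProduct.map_smul_right]⟩)
  have h2 : ∀ l, TensorProduct.map (tS σ σ' (ec k H l)) (τ (e k H l)) =
      ∑ i, ∑ j, ec k H l (e k H i * e k H j) •
        TensorProduct.map (TensorProduct.map (σ (ec k H i)) (σ' (ec k H j))) (τ (e k H l)) := by
    intro l
    rw [tS_apply, db_sum_left]
    refine Finset.sum_congr rfl fun i _ => ?_
    rw [db_sum_left]
    refine Finset.sum_congr rfl fun j _ => ?_
    rw [TensorProduct.map_smul_left]
  rw [Finset.sum_congr rfl (fun j _ => h2 j), h1, dC2, dG2, Finset.sum_mul_sum]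
  refine Finset.sum_congr rfl fun j' _ => Finset.sum_congr rfl fun j _ => ?_
  rw [← TensorProduct.map_mul, ← TensorProduct.map_mul, one_mul, mul_one, map_mul]

omit [FiniteDimensional k X] [FiniteDimensional k X'] [FiniteDimensional k Y] in
private theorem db_Mop (hY : IsYD τ κ) :
    Mop (tR ρ ρ') (tS σ σ') τ κ =
      (dG1 ρ' κ X * dC1 ρ κ X') * (dC2 σ τ X' * dG2 σ' τ X) := by
  rw [← db_A hY, ← db_B, Finset.sum_mul_sum, Finset.sum_comm]
  unfold Mop
  refine Finset.sum_congr rfl fun i _ => Finset.sum_congr rfl fun j _ => ?_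
  rw [TensorProduct.map_mul]

omit [FiniteDimensional k X] [FiniteDimensional k X'] [FiniteDimensional k Y] in
private theorem db_C : dC1 ρ κ X' * dC2 σ τ X' =
    ∑ i, ∑ j, TensorProduct.map (TensorProduct.map (ρ (e k H j) * σ (ec k H i))
      (1 : Module.End k X')) (κ (ec k H j) * τ (e k H i)) := by
  rw [dC1, dC2, Finset.sum_mul_sum, Finset.sum_comm]
  refine Finset.sum_congr rfl fun i _ => Finset.sum_congr rfl fun j _ => ?_
  rw [← TensorProduct.map_mul, ← TensorProduct.map_mul, one_mul]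

omit [FiniteDimensional k X] [FiniteDimensional k X'] [FiniteDimensional k Y] in
private theorem db_G : dG1 ρ' κ X * dG2 σ' τ X =
    ∑ i, ∑ j, TensorProduct.map (TensorProduct.map (1 : Module.End k X)
      (ρ' (e k H j) * σ' (ec k H i))) (κ (ec k H j) * τ (e k H i)) := by
  rw [dG1, dG2, Finset.sum_mul_sum, Finset.sum_comm]
  refine Finset.sum_congr rfl fun i _ => Finset.sum_congr rfl fun j _ => ?_
  rw [← TensorProduct.map_mul, ← TensorProduct.map_mul, one_mul]

private theorem db_detC : LinearMap.det (dC1 ρ κ X' * dC2 σ τ X') =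
    LinearMap.det (Mop ρ σ τ κ) ^ Module.finrank k X' := by
  rw [db_C, ← LinearMap.det_conj _ (TensorProduct.rightComm k X X' Y)]
  have h : ((TensorProduct.rightComm k X X' Y : (X ⊗[k] X') ⊗[k] Y →ₗ[k] (X ⊗[k] Y) ⊗[k] X') ∘ₗ
      (∑ i, ∑ j, TensorProduct.map (TensorProduct.map (ρ (e k H j) * σ (ec k H i))
      (1 : Module.End k X')) (κ (ec k H j) * τ (e k H i))) ∘ₗ
      ((TensorProduct.rightComm k X X' Y).symm : (X ⊗[k] Y) ⊗[k] X' →ₗ[k] (X ⊗[k] X') ⊗[k] Y)) =
      TensorProduct.map (Mop ρ σ τ κ) (1 : Module.End k X') := by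
    unfold Mop
    rw [db_sum_left]
    simp only [db_sum_left]
    apply TensorProduct.ext'
    intro u x'
    induction u with
    | zero => simp
    | add u v hu hv => rw [TensorProduct.add_tmul, map_add, map_add, hu, hv]
    | tmul x y =>
      have h1 : ((TensorProduct.rightComm k X X' Y).symm :
          (X ⊗[k] Y) ⊗[k] X' →ₗ[k] (X ⊗[k] X') ⊗[k] Y) ((x ⊗ₜ[k] y) ⊗ₜ[k] x') =
          (x ⊗ₜ[k] x') ⊗ₜ[k] y := by simp
      rw [LinearMap.comp_apply, LinearMap.comp_apply, h1]
      simp only [LinearMap.sum_apply, TensorProduct.map_tmul, map_sum]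
      refine Finset.sum_congr rfl fun i _ => Finset.sum_congr rfl fun j _ => ?_
      simp
  rw [h, det_map, map_one, one_pow, mul_one]

private theorem db_detG : LinearMap.det (dG1 ρ' κ X * dG2 σ' τ X) =
    LinearMap.det (Mop ρ' σ' τ κ) ^ Module.finrank k X := by
  rw [db_G, ← LinearMap.det_conj _ (TensorProduct.assoc k X X' Y)]
  have h : ((TensorProduct.assoc k X X' Y : (X ⊗[k] X') ⊗[k] Y →ₗ[k] X ⊗[k] (X' ⊗[k] Y)) ∘ₗ
      (∑ i, ∑ j, TensorProduct.map (TensorProduct.map (1 : Module.End k X)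
      (ρ' (e k H j) * σ' (ec k H i))) (κ (ec k H j) * τ (e k H i))) ∘ₗ
      ((TensorProduct.assoc k X X' Y).symm : X ⊗[k] (X' ⊗[k] Y) →ₗ[k] (X ⊗[k] X') ⊗[k] Y)) =
      TensorProduct.map (1 : Module.End k X) (Mop ρ' σ' τ κ) := by
    unfold Mop
    rw [db_sum_right]
    simp only [db_sum_right]
    apply TensorProduct.ext'
    intro x u
    induction u with
    | zero => simp
    | add u v hu hv => rw [TensorProduct.tmul_add, map_add, map_add, hu, hv]
    | tmul x' y =>
      rw [LinearMap.comp_apply, LinearMap.comp_apply, LinearEquiv.coe_coe, LinearEquiv.coe_coe,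
        TensorProduct.assoc_symm_tmul]
      simp only [LinearMap.sum_apply, TensorProduct.map_tmul, map_sum]
      refine Finset.sum_congr rfl fun i _ => Finset.sum_congr rfl fun j _ => ?_
      simp
  rw [h, det_map, map_one, one_pow, one_mul]

theorem det_Mop_tens (hY : IsYD τ κ) :
    LinearMap.det (Mop (tR ρ ρ') (tS σ σ') τ κ) =
      LinearMap.det (Mop ρ σ τ κ) ^ Module.finrank k X' *
        LinearMap.det (Mop ρ' σ' τ κ) ^ Module.finrank k X := by
  rw [db_Mop hY, ← db_detC (X' := X'), ← db_detG (X := X)]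
  simp only [map_mul]
  ring

end Pool.Agent.KExp
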