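import Pool.Agent.Lib.KExp.Defs
import Pool.Agent.Lib.KExp.LamInt
import Pool.Agent.Lib.KExp.Theta
import Pool.Agent.Lib.KExp.ThetaPow
import Pool.Agent.Lib.KExp.TensApp
import Pool.Agent.Lib.KExp.TensYD
import Pool.Agent.Lib.KExp.MTheta
import Pool.Agent.Lib.KExp.PYD
import Pool.Agent.Lib.KExp.DetA
import Pool.Agent.Lib.KExp.DetB

/-!
# KExp.RootU (MP_0d5e35_al, finiteness of the exponent)

Every eigenvalue `v` of `θ_P` is a root of unity (`m = dim H`). PROOF. `θ_P` is invertible (theta_inv), so `v ≠ 0`. Let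
`Y` be the eigenspace, of dimension `d`, `0 < d ≤ m²`; it is stable under `rP h`, `sP f` (theta_rho, theta_sigma), so the
restrictions are YD data on `Y` with `θ_Y = v`. `D := det M_{P,Y}`. From `θ_{P⊗Y} = M_{P,Y}(θ_P ⊗ θ_Y)` (theta_tens),
det_theta_P and det_map: `det(θ_P)^d = D det(θ_P)^d v^{d m²}`, so `D v^{d m²} = 1` and `D ≠ 0`. det_Mop_P with `X = P` and
det_Mop_tens with `X = X' = P`: `D^{m²} = D^{m²} D^{m²}`, so `D^{m²} = 1`. Hence `v^{d m⁴} = 1`, and
`v^{(m²)! m⁴} = 1`.
-/

set_option autoImplicit false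

open scoped TensorProduct

namespace Pool.Agent.KExp

variable {k : Type} [Field k] {H : Type} [Ring H] [HopfAlgebra k H] [FiniteDimensional k H]

/-- the eigenspace of the twist -/
private noncomputable abbrev Yv (k : Type) [Field k] (H : Type) [Ring H] [HopfAlgebra k H]
    [FiniteDimensional k H] (v : k) : Submodule k (H ⊗[k] H) :=
  Module.End.eigenspace (theta (rP (k := k) (H := H)) sP) v

private lemma stab_rho (hS : ∀ x : H, Sa k H (Sa k H x) = x) (v : k) (h : H) :
    ∀ y ∈ Yv k H v, (rP (k := k) (H := H)) h y ∈ Yv k H v := by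
  intro y hy
  rw [Module.End.mem_eigenspace_iff] at hy ⊢
  have h1 := theta_rho hS (isYD_P (k := k) (H := H) hS) h
  have h2 := congrArg (fun T : Module.End k (H ⊗[k] H) => T y) h1
  simp only [Module.End.mul_apply] at h2
  rw [h2, hy, map_smul]

private lemma stab_sigma (hS : ∀ x : H, Sa k H (Sa k H x) = x) (v : k) (f : H →ₗ[k] k) :
    ∀ y ∈ Yv k H v, (sP (k := k) (H := H)) f y ∈ Yv k H v := by
  intro y hy
  rw [Module.End.mem_eigenspace_iff] at hy ⊢
  have h1 := theta_sigma hS (isYD_P (k := k) (H := H) hS) f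
  have h2 := congrArg (fun T : Module.End k (H ⊗[k] H) => T y) h1
  simp only [Module.End.mul_apply] at h2
  rw [h2, hy, map_smul]

/-- the action on the eigenspace -/
private noncomputable def rY (hS : ∀ x : H, Sa k H (Sa k H x) = x) (v : k) :
    H →ₐ[k] Module.End k (Yv k H v) where
  toFun h := ((rP (k := k) (H := H)) h).restrict (stab_rho hS v h)
  map_one' := by
    ext y
    simp
  map_mul' a b := by
    refine LinearMap.ext fun y => Subtype.ext ?_
    simp only [map_mul, LinearMap.coe_restrict_apply, Module.End.mul_apply]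
  map_zero' := by
    refine LinearMap.ext fun y => Subtype.ext ?_
    simp only [map_zero, LinearMap.coe_restrict_apply, LinearMap.zero_apply,
      ZeroMemClass.coe_zero]
  map_add' a b := by
    refine LinearMap.ext fun y => Subtype.ext ?_
    simp only [map_add, LinearMap.coe_restrict_apply, LinearMap.add_apply, Submodule.coe_add]
  commutes' c := by
    refine LinearMap.ext fun y => Subtype.ext ?_
    rw [LinearMap.coe_restrict_apply, AlgHom.commutes]
    rfl

private lemma rY_coe (hS : ∀ x : H, Sa k H (Sa k H x) = x) (v : k) (h : H) (y : Yv k H v) :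
    ((rY hS v h y : Yv k H v) : H ⊗[k] H) = (rP (k := k) (H := H)) h y := rfl

/-- the coaction on the eigenspace -/
private noncomputable def sY (hS : ∀ x : H, Sa k H (Sa k H x) = x) (v : k) :
    (H →ₗ[k] k) →ₗ[k] Module.End k (Yv k H v) where
  toFun f := ((sP (k := k) (H := H)) f).restrict (stab_sigma hS v f)
  map_add' a b := by
    refine LinearMap.ext fun y => Subtype.ext ?_
    simp only [map_add, LinearMap.coe_restrict_apply, LinearMap.add_apply, Submodule.coe_add]
  map_smul' c f := by
    refine LinearMap.ext fun y => Subtype.ext ?_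
    simp only [map_smul, LinearMap.coe_restrict_apply, LinearMap.smul_apply, Submodule.coe_smul,
      RingHom.id_apply]

private lemma sY_coe (hS : ∀ x : H, Sa k H (Sa k H x) = x) (v : k) (f : H →ₗ[k] k)
    (y : Yv k H v) : ((sY hS v f y : Yv k H v) : H ⊗[k] H) = (sP (k := k) (H := H)) f y := rfl

private lemma isYD_Y (hS : ∀ x : H, Sa k H (Sa k H x) = x) (v : k) : IsYD (rY hS v) (sY hS v) := by
  have hP := isYD_P (k := k) (H := H) hS
  refine ⟨?_, ?_, ?_⟩
  · refine LinearMap.ext fun y => Subtype.ext ?_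
    rw [sY_coe, hP.one]
    rfl
  · intro f g
    refine LinearMap.ext fun y => Subtype.ext ?_
    rw [Module.End.mul_apply, sY_coe, sY_coe, sY_coe, ← hP.mul, Module.End.mul_apply]
  · intro f h
    refine LinearMap.ext fun y => Subtype.ext ?_
    rw [Module.End.mul_apply, sY_coe, rY_coe]
    have h1 := congrArg (fun T : Module.End k (H ⊗[k] H) => T (y : H ⊗[k] H)) (hP.yd f h)
    simp only [Module.End.mul_apply] at h1
    rw [h1]
    unfold sw3
    simp only [LinearMap.sum_apply, Submodule.coe_sum, Module.End.mul_apply, rY_coe, sY_coe]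

private lemma theta_Y (hS : ∀ x : H, Sa k H (Sa k H x) = x) (v : k) :
    theta (rY hS v) (sY hS v) = v • (1 : Module.End k (Yv k H v)) := by
  refine LinearMap.ext fun y => Subtype.ext ?_
  have hy := y.2
  rw [Module.End.mem_eigenspace_iff] at hy
  rw [LinearMap.smul_apply, Submodule.coe_smul, Module.End.one_apply, ← hy]
  unfold theta
  simp only [LinearMap.sum_apply, Submodule.coe_sum, Module.End.mul_apply, rY_coe, sY_coe]

theorem eigenvalue_root (hS : ∀ x : H, Sa k H (Sa k H x) = x) {v : k}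
    (hv : Module.End.HasEigenvalue (theta (rP (k := k) (H := H)) sP) v) :
    v ^ ((Module.finrank k H ^ 2).factorial * Module.finrank k H ^ 4) = 1 := by
  have hP := isYD_P (k := k) (H := H) hS
  have hY := isYD_Y hS v
  set m := Module.finrank k H with hm
  have hPdim : Module.finrank k (H ⊗[k] H) = m ^ 2 := by
    rw [Module.finrank_tensorProduct, hm, sq]
  set d := Module.finrank k (Yv k H v) with hd
  have hd0 : 0 < d := by
    rw [hd, Module.finrank_pos_iff]
    exact (Submodule.nontrivial_iff_ne_bot).2 hv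
  have hdm : d ≤ m ^ 2 := by
    rw [← hPdim]
    exact Submodule.finrank_le _
  -- the determinants
  have hdetθ : LinearMap.det (theta (rP (k := k) (H := H)) sP) ≠ 0 := by
    intro h0
    have h1 := congrArg LinearMap.det (theta_inv hS hP)
    rw [map_mul, h0, zero_mul, map_one] at h1
    exact zero_ne_one h1
  set Dd := LinearMap.det (Mop (rP (k := k) (H := H)) sP (rY hS v) (sY hS v)) with hDd
  have e1 : Dd * v ^ (d * m ^ 2) = 1 := by
    have h1 := congrArg LinearMap.det (theta_tens hS hP hY)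
    rw [det_theta_P hS hY, map_mul, det_map, theta_Y hS v, hPdim, ← hd, ← hDd,
      LinearMap.det_smul, map_one, mul_one, ← hd, ← pow_mul] at h1
    have h2 : LinearMap.det (theta (rP (k := k) (H := H)) sP) ^ d * 1 =
        LinearMap.det (theta (rP (k := k) (H := H)) sP) ^ d * (Dd * v ^ (d * m ^ 2)) := by
      rw [mul_one]
      calc LinearMap.det (theta (rP (k := k) (H := H)) sP) ^ d = _ := h1
        _ = _ := by ring
    exact (mul_left_cancel₀ (pow_ne_zero _ hdetθ) h2).symm
  have hD0 : Dd ≠ 0 := by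
    intro h0
    rw [h0, zero_mul] at e1
    exact zero_ne_one e1
  have e2 : Dd ^ (m ^ 2) = 1 := by
    have h1 := det_Mop_P (X := H ⊗[k] H) (Y := Yv k H v) (ρ := rP (k := k) (H := H)) (σ := sP)
      (ρ' := rY hS v) (σ' := sY hS v) hS hP
    have h2 := det_Mop_tens (X := H ⊗[k] H) (X' := H ⊗[k] H) (Y := Yv k H v)
      (ρ := rP (k := k) (H := H)) (σ := sP) (ρ' := rP (k := k) (H := H)) (σ' := sP)
      (τ := rY hS v) (κ := sY hS v) hY
    rw [h1, hPdim, ← hDd] at h2
    have h3 : Dd ^ (m ^ 2) * 1 = Dd ^ (m ^ 2) * Dd ^ (m ^ 2) := by rw [mul_one]; exact h2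
    exact (mul_left_cancel₀ (pow_ne_zero _ hD0) h3).symm
  have e3 : v ^ (d * m ^ 4) = 1 := by
    have h1 : (Dd * v ^ (d * m ^ 2)) ^ (m ^ 2) = 1 := by rw [e1, one_pow]
    rw [mul_pow, e2, one_mul, ← pow_mul] at h1
    have h2 : d * m ^ 4 = d * m ^ 2 * m ^ 2 := by ring
    rw [h2]
    exact h1
  obtain ⟨q, hq⟩ := Nat.dvd_factorial hd0 hdm
  have h4 : (m ^ 2).factorial * m ^ 4 = (d * m ^ 4) * q := by rw [hq]; ring
  rw [h4, pow_mul, e3, one_pow]

end Pool.Agent.KExp
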