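import Pool.Agent.Lib.KExp.Defs
import Pool.Agent.Lib.KExp.Sw
import Pool.Agent.Lib.KExp.CE
import Pool.Agent.Lib.KExp.QPow
import Pool.Agent.Lib.KExp.LamInt
import Pool.Agent.Lib.KExp.LInt
import Pool.Agent.Lib.KExp.Theta
import Pool.Agent.Lib.KExp.ThetaPow
import Pool.Agent.Lib.KExp.PYD
import Pool.Agent.Lib.KExp.PTr
import Pool.Agent.Lib.KExp.RootU

/-!
# KExp.ExFin (MP_0d5e35_al, finiteness of the exponent)

Finiteness of the exponent (`k` algebraically closed). PROOF. `M = (m²)! m⁴`. lam_nondeg: `∑ λ(a Λ₁) S(Λ₂) = ∑ λ(Λ₁) S(Λ₂) a =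
λ(Λ) a = m a` (Lam_shift, lam_comul, lam_Lam), so `λ(a h) = 0` for all `h` implies `a = 0`.
`z = θ_P^M - 1` is nilpotent: all its eigenvalues are `v^M - 1 = 0` (eigenvalue_root; `k` algebraically closed; spectral
mapping or triangularisation). `z` commutes with `ρ(h), σ(f)`, so `ρ(h) z σ(f) = z ρ(h) σ(f)` is nilpotent, and has trace 0.
`z = ∑ ρ(φ(eᵢ)) σ(e^i)`, `φ = Q M - Q 0` (theta_pow). trace_P: `0 = ∑ᵢ Tr(ρ(h φ(eᵢ)) σ(e^i) σ(f)) = ∑ᵢ λ(h φ(eᵢ)) (f * e^i)(Λ)
= ∑ᵢⱼ λ(h φ(eᵢ)) f(Λ₁) e^i(Λ₂) = f(Λ₁) λ(h φ(Λ₂))` for all `h, f`. So `∑ f(Λ₁) φ(Λ₂) = 0` for all `f` (lam_nondeg,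
lam_mul_comm). With `f = λ(b ·)`: `∑ λ(b Λ₁) Λ₂ = S(∑ λ(bΛ₁) S(Λ₂)) = m S(b)`, and `S` is bijective, so `φ = 0`.
baseChange_facts gives the statement for every field in BaseCh (not needed here).
-/

set_option autoImplicit false

open scoped TensorProduct

namespace Pool.Agent.KExp

variable {k : Type} [Field k] {H : Type} [Ring H] [HopfAlgebra k H] [FiniteDimensional k H]

private theorem nilp {V : Type} [AddCommGroup V] [Module k V] [FiniteDimensional k V]
    [IsAlgClosed k] (T : Module.End k V) (h : ∀ v, T.HasEigenvalue v → v = 0) :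
    IsNilpotent T := by
  have htop := Module.End.iSup_maxGenEigenspace_eq_top T
  have h0 : T.maxGenEigenspace 0 = ⊤ := by
    rw [eq_top_iff, ← htop]
    refine iSup_le fun v => ?_
    by_cases hv : v = 0
    · rw [hv]
    · have hb : T.maxGenEigenspace v = ⊥ := by
        by_contra hne
        have h1 : T.HasUnifEigenvalue v ⊤ := hne
        have h2 := (Module.End.hasUnifEigenvalue_iff_hasUnifEigenvalue_one (by simp)).1 h1
        exact hv (h v h2)
      rw [hb]
      exact bot_le
  rw [Module.End.maxGenEigenspace_eq_genEigenspace_finrank] at h0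
  refine ⟨Module.finrank k V, ?_⟩
  apply LinearMap.ext
  intro x
  have hx : x ∈ T.genEigenspace 0 (Module.finrank k V) := by
    rw [h0]; exact Submodule.mem_top
  rw [Module.End.mem_genEigenspace_nat, LinearMap.mem_ker, zero_smul, sub_zero] at hx
  exact hx

private theorem bil_lam : Bil2 k (fun (p q : H) => lam k H p • q) := by
  refine ⟨fun b => ⟨fun x y => ?_, fun c x => ?_⟩, fun b => ⟨fun x y => ?_, fun c x => ?_⟩⟩
  · beta_reduce
    rw [map_add, add_smul]
  · beta_reduce
    rw [map_smul, smul_eq_mul, mul_smul]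
  · beta_reduce
    rw [smul_add]
  · beta_reduce
    rw [smul_comm]

private theorem lin_S (a : H) : IsLinearMap k (fun q => Sa k H q * a) := by
  refine ⟨fun x y => ?_, fun c x => ?_⟩
  · rw [map_add, add_mul]
  · rw [map_smul, smul_mul_assoc]

theorem lam_nondeg [CharZero k] (hS : ∀ x : H, Sa k H (Sa k H x) = x) {a : H}
    (h : ∀ x : H, lam k H (a * x) = 0) : a = 0 := by
  have h1 := Lam_shift (k := k) (H := H) (Z := H) hS (F := fun p q => lam k H p • q) bil_lam a
  have h2 := lam_comul (k := k) (H := H) (Z := H) hS (f := fun q => Sa k H q * a) (lin_S a)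
    (Lam k H)
  rw [h2, lam_Lam hS, Sa_one, one_mul] at h1
  have h3 : sw2 k (fun p q => lam k H (a * p) • Sa k H q) (Lam k H) = 0 := by
    rw [sw2]
    refine Finset.sum_eq_zero fun j _ => ?_
    rw [h, zero_smul]
  rw [h3] at h1
  rcases smul_eq_zero.1 h1.symm with h4 | h4
  · exfalso
    have := finrank_pos_H (k := k) (H := H)
    exact this.ne' (by exact_mod_cast h4)
  · exact h4

private theorem lam_Lam_S [CharZero k] (hS : ∀ x : H, Sa k H (Sa k H x) = x) (a : H) :
    sw2 k (fun p q => lam k H (a * p) • Sa k H q) (Lam k H) = (Module.finrank k H : k) • a := by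
  have h1 := Lam_shift (k := k) (H := H) (Z := H) hS (F := fun p q => lam k H p • q) bil_lam a
  have h2 := lam_comul (k := k) (H := H) (Z := H) hS (f := fun q => Sa k H q * a) (lin_S a)
    (Lam k H)
  rw [h2, lam_Lam hS, Sa_one, one_mul] at h1
  exact h1

private theorem eig_zero [IsAlgClosed k] [CharZero k]
    (hS : ∀ x : H, Sa k H (Sa k H x) = x) {M : ℕ} (hM : 0 < M)
    (hM' : M = (Module.finrank k H ^ 2).factorial * Module.finrank k H ^ 4) (w : k)
    (hw : (theta (rP (k := k) (H := H)) sP ^ M - 1).HasEigenvalue w) : w = 0 := by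
  rw [Module.End.hasEigenvalue_iff_mem_spectrum] at hw
  have hp : (Polynomial.X ^ M - 1 : Polynomial k).degree = M :=
    Polynomial.degree_X_pow_sub_C hM (1 : k)
  have h1 := spectrum.map_polynomial_aeval_of_degree_pos (𝕜 := k)
    (theta (rP (k := k) (H := H)) sP) (Polynomial.X ^ M - 1)
    (by rw [hp]; exact_mod_cast hM)
  have h2 : Polynomial.aeval (theta (rP (k := k) (H := H)) sP) (Polynomial.X ^ M - 1 : Polynomial k) =
      theta (rP (k := k) (H := H)) sP ^ M - 1 := by simp
  rw [h2] at h1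
  rw [h1] at hw
  obtain ⟨v, hv, hvw⟩ := hw
  rw [← Module.End.hasEigenvalue_iff_mem_spectrum] at hv
  have h3 := eigenvalue_root hS hv
  rw [← hM'] at h3
  rw [← hvw]
  simp [h3]

theorem exists_exponent [IsAlgClosed k] [CharZero k] (hS : ∀ x : H, Sa k H (Sa k H x) = x) :
    ∃ N : ℕ, 0 < N ∧ Q k H N = Q k H 0 := by
  obtain ⟨M, hM'⟩ : ∃ M, M = (Module.finrank k H ^ 2).factorial * Module.finrank k H ^ 4 :=
    ⟨_, rfl⟩
  have hM : 0 < M := by
    rw [hM']
    exact Nat.mul_pos (Nat.factorial_pos _) (pow_pos finrank_pos_H 4)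
  refine ⟨M, hM, ?_⟩
  have hP := isYD_P (k := k) (H := H) hS
  obtain ⟨θ, hθ⟩ : ∃ θ, θ = theta (rP (k := k) (H := H)) sP := ⟨_, rfl⟩
  have hnil : IsNilpotent (θ ^ M - 1) := by
    rw [hθ]
    exact nilp _ (eig_zero hS hM hM')
  obtain ⟨φ, hφ⟩ : ∃ φ : H →ₗ[k] H, φ = Q k H M - Q k H 0 := ⟨_, rfl⟩
  have hz : θ ^ M - 1 = ∑ i, (rP (k := k) (H := H)) (φ (e k H i)) * sP (ec k H i) := by
    have h1 := theta_pow hS hP M
    have h2 := theta_pow hS hP 0
    rw [pow_zero] at h2
    rw [hθ, h1, h2, ← Finset.sum_sub_distrib]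
    refine Finset.sum_congr rfl fun i _ => ?_
    rw [hφ, LinearMap.sub_apply, map_sub, sub_mul]
  -- the trace identity
  have htr : ∀ (h : H) (f : H →ₗ[k] k),
      LinearMap.trace k (H ⊗[k] H) ((rP (k := k) (H := H)) h * (θ ^ M - 1) * sP f) = 0 := by
    intro h f
    have c1 : Commute (θ ^ M - 1) ((rP (k := k) (H := H)) h) := by
      have : Commute θ ((rP (k := k) (H := H)) h) := by
        rw [hθ]; exact theta_rho hS hP h
      exact (this.pow_left M).sub_left (Commute.one_left _)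
    have c2 : Commute (θ ^ M - 1) (sP f) := by
      have : Commute θ (sP f) := by
        rw [hθ]; exact theta_sigma hS hP f
      exact (this.pow_left M).sub_left (Commute.one_left _)
    have h1 : (rP (k := k) (H := H)) h * (θ ^ M - 1) * sP f =
        (θ ^ M - 1) * ((rP (k := k) (H := H)) h * sP f) := by
      rw [← c1.eq, mul_assoc]
    rw [h1]
    exact (LinearMap.isNilpotent_trace_of_isNilpotent
      ((c1.mul_right c2).isNilpotent_mul_right hnil)).eq_zero
  have hw : ∀ f : H →ₗ[k] k, sw2 k (fun a b => f a • φ b) (Lam k H) = 0 := by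
    intro f
    apply lam_nondeg hS
    intro h
    have h1 := htr h f
    rw [hz, Finset.mul_sum, Finset.sum_mul, map_sum] at h1
    rw [← h1, lam_mul_comm, sw2, Finset.mul_sum, map_sum]
    have h2 : ∀ i, LinearMap.trace k (H ⊗[k] H) ((rP (k := k) (H := H)) h *
        ((rP (k := k) (H := H)) (φ (e k H i)) * sP (ec k H i)) * sP f) =
        ∑ j, (f (e k H j) * ec k H i (D k H j (Lam k H))) * lam k H (h * φ (e k H i)) := by
      intro i
      rw [← mul_assoc, mul_assoc, ← map_mul, hP.mul, trace_P hS, cv_apply, sw2, mul_comm,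
        Finset.sum_mul]
    rw [Finset.sum_congr rfl (fun i _ => h2 i), Finset.sum_comm]
    refine Finset.sum_congr rfl fun j _ => ?_
    have h3 := congrArg (fun y => lam k H (h * φ y)) (sum_ec (k := k) (D k H j (Lam k H)))
    simp only [map_sum, map_smul, Finset.mul_sum, mul_smul_comm, smul_eq_mul] at h3
    rw [mul_smul_comm, map_smul, smul_eq_mul, ← h3, Finset.mul_sum]
    refine Finset.sum_congr rfl fun i _ => ?_
    ring
  have hfin : φ = 0 := by
    apply LinearMap.ext
    intro y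
    have h1 := hw (lam k H ∘ₗ LinearMap.mulLeft k (Sa k H y))
    have h2 := congrArg (fun t => φ (Sa k H t)) (lam_Lam_S (k := k) hS (Sa k H y))
    simp only [sw2, map_sum, map_smul, hS] at h2
    have h3 : ∑ j, lam k H (Sa k H y * e k H j) • φ (D k H j (Lam k H)) = 0 := h1
    rw [h3] at h2
    rcases smul_eq_zero.1 h2.symm with h4 | h4
    · exfalso
      have := finrank_pos_H (k := k) (H := H)
      exact this.ne' (by exact_mod_cast h4)
    · rw [h4]
      rfl
  rw [hφ] at hfin
  exact sub_eq_zero.1 hfin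

end Pool.Agent.KExp
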