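import Pool.Agent.Lib.KExp.Defs
import Pool.Agent.Lib.KExp.QPow
import Pool.Agent.Lib.KExp.AlgCl
import Pool.Agent.Lib.KExp.BaseCh

/-!
# KExp.Main (MP_0d5e35_al, paper /team-store/MP_0d5e35_al_paper38.md)

Assembly. bound: baseChange_facts and bound_algClosed (`CharZero K` from `Algebra k K`:
`charZero_of_injective_algebraMap`). dvd: prime by prime (`Nat.factorization` / `padicValNat`).
-/

set_option autoImplicit false

open scoped TensorProduct

namespace Pool.Agent.KExp

theorem bound {k : Type} [Field k] [CharZero k] {H : Type} [Ring H] [HopfAlgebra k H]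
    [FiniteDimensional k H] (hS : ∀ x : H, Sa k H (Sa k H x) = x) {N : ℕ} (hN : 0 < N)
    (hQ : Q k H N = Q k H 0) (hmin : ∀ n, 0 < n → Q k H n = Q k H 0 → N ≤ n) {p : ℕ}
    (hp : p.Prime) :
    (p ≠ 2 → padicValNat p N ≤ 2 * padicValNat p (Module.finrank k H)) ∧
      padicValNat p N ≤ 2 * padicValNat p (Module.finrank k H) + 1 ∧
      (p ∣ N → p ∣ Module.finrank k H) := by
  obtain ⟨K, hK1, hK2, hK3, H', hR, hH, hF, h1, h2, h3⟩ := baseChange_facts k H hS
  haveI : CharZero K := charZero_of_injective_algebraMap (algebraMap k K).injective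
  have hb := bound_algClosed (k := K) (H := H') h1 hN ((h3 N).2 hQ)
    (fun n hn hn' => hmin n hn ((h3 n).1 hn')) hp
  rw [h2] at hb
  exact hb

private theorem dvd_of_val {N M : ℕ} (hN : 0 < N) (hM : M ≠ 0)
    (h : ∀ p : ℕ, p.Prime → padicValNat p N ≤ padicValNat p M) : N ∣ M := by
  rw [← Nat.factorization_le_iff_dvd hN.ne' hM]
  intro p
  by_cases hp : p.Prime
  · rw [Nat.factorization_def _ hp, Nat.factorization_def _ hp]
    exact h p hp
  · rw [Nat.factorization_eq_zero_of_not_prime _ hp]
    exact Nat.zero_le _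

theorem exponent_dvd {k : Type} [Field k] [CharZero k] {H : Type} [Ring H] [HopfAlgebra k H]
    [FiniteDimensional k H] (hS : ∀ x : H, Sa k H (Sa k H x) = x) {N : ℕ} (hN : 0 < N)
    (hQ : Q k H N = Q k H 0) (hmin : ∀ n, 0 < n → Q k H n = Q k H 0 → N ≤ n) :
    N ∣ 2 * Module.finrank k H ^ 2 ∧
      (Odd (Module.finrank k H) → N ∣ Module.finrank k H ^ 2) ∧
      (∀ p : ℕ, p.Prime → p ∣ N → p ∣ Module.finrank k H) := by
  have hb := fun (p : ℕ) (hp : p.Prime) => bound hS hN hQ hmin hp
  generalize Module.finrank k H = d at hb ⊢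
  refine ⟨?_, ?_, fun p hp => (hb p hp).2.2⟩
  · rcases Nat.eq_zero_or_pos d with rfl | hd
    · simp
    refine dvd_of_val hN (by positivity) fun p hp => ?_
    haveI := Fact.mk hp
    rw [padicValNat.mul (by norm_num) (by positivity), padicValNat.pow]
    by_cases h2 : p = 2
    · subst h2
      have := (hb 2 hp).2.1
      rw [padicValNat_self]
      omega
    · have := (hb p hp).1 h2
      omega
  · intro hodd
    have hd : 0 < d := hodd.pos
    refine dvd_of_val hN (by positivity) fun p hp => ?_
    haveI := Fact.mk hp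
    rw [padicValNat.pow]
    by_cases h2 : p = 2
    · subst h2
      have h3 : ¬ 2 ∣ N := fun h => by
        have := (hb 2 hp).2.2 h
        rw [Nat.odd_iff] at hodd
        omega
      rw [padicValNat.eq_zero_of_not_dvd h3]
      exact Nat.zero_le _
    · exact (hb p hp).1 h2

end Pool.Agent.KExp
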