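import Pool.Agent.Lib.KExp.Defs
import Pool.Agent.Lib.KExp.ExFin
import Pool.Agent.Lib.KExp.BaseCh
import Pool.Agent.Lib.KExp.Main

/-!
# KExp.Fin: the exponent exists and divides 2 dim(H)^2 (MP_0d5e35_al)
-/

set_option autoImplicit false

open scoped TensorProduct

namespace Pool.Agent.KExp

theorem exists_exponent_field {k : Type} [Field k] [CharZero k] {H : Type} [Ring H]
    [HopfAlgebra k H] [FiniteDimensional k H] (hS : ∀ x : H, Sa k H (Sa k H x) = x) :
    ∃ N : ℕ, 0 < N ∧ Q k H N = Q k H 0 := by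
  obtain ⟨K, _, _, _, H', _, _, _, h1, h2, h3⟩ := baseChange_facts k H hS
  have : CharZero K := charZero_of_injective_algebraMap (algebraMap k K).injective
  obtain ⟨N, hN, hQ⟩ := exists_exponent (k := K) (H := H') h1
  exact ⟨N, hN, (h3 N).1 hQ⟩

/-- the least positive `N` with `Q_N = ε 1` exists and divides `2 dim(H)^2` -/
theorem exponent_main {k : Type} [Field k] [CharZero k] {H : Type} [Ring H]
    [HopfAlgebra k H] [FiniteDimensional k H] (hS : ∀ x : H, Sa k H (Sa k H x) = x) :
    ∃ N : ℕ, IsLeast {n : ℕ | 0 < n ∧ Q k H n = Q k H 0} N ∧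
      N ∣ 2 * Module.finrank k H ^ 2 ∧
      (Odd (Module.finrank k H) → N ∣ Module.finrank k H ^ 2) := by
  classical
  have hex : ∃ n, 0 < n ∧ Q k H n = Q k H 0 := exists_exponent_field hS
  refine ⟨Nat.find hex, ⟨Nat.find_spec hex, fun n hn => Nat.find_min' hex hn⟩, ?_⟩
  obtain ⟨a, b, -⟩ := exponent_dvd (k := k) (H := H) hS (Nat.find_spec hex).1
    (Nat.find_spec hex).2 (fun n h1 h2 => Nat.find_min' hex ⟨h1, h2⟩)
  exact ⟨a, b⟩

/-- the iterates of the map in the definition of the exponent are the Sweedler powers -/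
theorem iterate_eq_Q {k : Type} [Field k] {H : Type} [Ring H] [HopfAlgebra k H]
    [FiniteDimensional k H] (hS : ∀ x : H, Sa k H (Sa k H x) = x) (S' : H →ₗ[k] H)
    (h1 : S' ∘ₗ HopfAlgebra.antipode k (A := H) = LinearMap.id) (n : ℕ) :
    (fun T : H →ₗ[k] H => LinearMap.mul' k H ∘ₗ
        TensorProduct.map LinearMap.id (S' ∘ₗ S' ∘ₗ T) ∘ₗ
        Coalgebra.comul (R := k) (A := H))^[n]
      (Algebra.linearMap k H ∘ₗ Coalgebra.counit (R := k) (A := H)) = Q k H n := by
  have hS' : S' = Sa k H := by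
    ext x
    have := LinearMap.congr_fun h1 (Sa k H x)
    simp only [LinearMap.comp_apply, LinearMap.id_apply] at this
    rw [show HopfAlgebra.antipode k (Sa k H x) = x from hS x] at this
    exact this
  have hSS : ∀ T : H →ₗ[k] H, S' ∘ₗ S' ∘ₗ T = T := by
    intro T
    ext x
    rw [hS']
    exact hS (T x)
  induction n with
  | zero => rfl
  | succ n ih =>
    rw [Function.iterate_succ_apply', ih, hSS]
    rfl

end Pool.Agent.KExp
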